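import Mathlib

/-!
# Helper lemmas for MP_f2af60_mp: a logarithmic mass law fixes the Sobolev regularity
-/

namespace Pool.Agent.Work.MP_f2af60_mp.Sob

open MeasureTheory Metric Filter Topology

variable {F : Type*} [NormedAddCommGroup F] [InnerProductSpace ℝ F] [FiniteDimensional ℝ F]
  [MeasurableSpace F] [BorelSpace F]

theorem intOn {w : F → ℝ} (hw : Continuous w) (m : ℕ) (t : ℝ) :
    IntegrableOn (fun ξ => ‖ξ‖ ^ m * w ξ) (closedBall (0 : F) t) volume :=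
  ((continuous_norm.pow m).mul hw).continuousOn.integrableOn_compact (isCompact_closedBall _ _)

theorem weight_cont (s : ℝ) : Continuous (fun ξ : F => (1 + ‖ξ‖ ^ 2) ^ s) :=
  (continuous_const.add (continuous_norm.pow 2)).rpow_const fun ξ =>
    Or.inl (by positivity : (0 : ℝ) < 1 + ‖ξ‖ ^ 2).ne'

theorem not_integrable {w : F → ℝ} (hw : Continuous w) (hw0 : ∀ ξ, 0 ≤ w ξ) (m : ℕ) {a C : ℝ}
    (ha : 0 < a)
    (h : ∀ t : ℝ, 1 ≤ t → |(∫ ξ in closedBall (0 : F) t, ‖ξ‖ ^ m * w ξ) - a * Real.log t| ≤ C)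
    {s : ℝ} (hs : (m : ℝ) / 2 ≤ s) : ¬ Integrable (fun ξ : F => (1 + ‖ξ‖ ^ 2) ^ s * w ξ) volume := by
  intro hi
  have h1 : ∀ t : ℝ, 1 ≤ t → a * Real.log t ≤ (∫ ξ, (1 + ‖ξ‖ ^ 2) ^ s * w ξ) + C := by
    intro t ht
    have h2 := (abs_le.1 (h t ht)).1
    have h3 : (∫ ξ in closedBall (0 : F) t, ‖ξ‖ ^ m * w ξ) ≤ ∫ ξ, (1 + ‖ξ‖ ^ 2) ^ s * w ξ := by
      refine le_trans ?_ (setIntegral_le_integral (s := closedBall (0 : F) t) hi
        (Eventually.of_forall fun ξ => mul_nonneg (by positivity) (hw0 ξ)))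
      refine setIntegral_mono (intOn hw m t) hi.integrableOn fun ξ => ?_
      refine mul_le_mul_of_nonneg_right ?_ (hw0 ξ)
      have h4 : ‖ξ‖ ^ m ≤ (1 + ‖ξ‖ ^ 2) ^ ((m : ℝ) / 2) := by
        have h5 : ‖ξ‖ ^ m = (‖ξ‖ ^ 2) ^ ((m : ℝ) / 2) := by
          rw [← Real.rpow_natCast ‖ξ‖ 2, ← Real.rpow_mul (norm_nonneg _), ← Real.rpow_natCast]
          congr 1
          push_cast
          ring
        rw [h5]
        exact Real.rpow_le_rpow (by positivity) (by linarith) (by positivity)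
      exact h4.trans (Real.rpow_le_rpow_of_exponent_le (by nlinarith [norm_nonneg ξ]) hs)
    linarith
  set I := (∫ ξ, (1 + ‖ξ‖ ^ 2) ^ s * w ξ) + C with hI
  have h6 := h1 (Real.exp ((|I| + 1) / a)) (Real.one_le_exp (by positivity))
  rw [Real.log_exp, mul_div_cancel₀ _ ha.ne'] at h6
  linarith [le_abs_self I]

theorem annulus {w : F → ℝ} (hw : Continuous w) (hw0 : ∀ ξ, 0 ≤ w ξ) (m : ℕ) {a C : ℝ}
    (h : ∀ t : ℝ, 1 ≤ t → |(∫ ξ in closedBall (0 : F) t, ‖ξ‖ ^ m * w ξ) - a * Real.log t| ≤ C)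
    {s : ℝ} (hs0 : 0 ≤ s) (hs : s < (m : ℝ) / 2) (j : ℕ) :
    ∫⁻ ξ in {ξ : F | (2 : ℝ) ^ j ≤ ‖ξ‖ ∧ ‖ξ‖ ≤ 2 ^ (j + 1)},
      ENNReal.ofReal ((1 + ‖ξ‖ ^ 2) ^ s * w ξ) ≤
      ENNReal.ofReal (2 ^ s * (((2 : ℝ) ^ (2 * s - m)) ^ j * (C + a * ((j + 1 : ℕ) * Real.log 2)))) := by
  have hms : MeasurableSet {ξ : F | (2 : ℝ) ^ j ≤ ‖ξ‖ ∧ ‖ξ‖ ≤ 2 ^ (j + 1)} :=
    (measurableSet_le measurable_const measurable_norm).inter
      (measurableSet_le measurable_norm measurable_const)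
  have h2j : (1 : ℝ) ≤ 2 ^ j := one_le_pow₀ (by norm_num)
  have hA : ∫⁻ ξ in {ξ : F | (2 : ℝ) ^ j ≤ ‖ξ‖ ∧ ‖ξ‖ ≤ 2 ^ (j + 1)},
      ENNReal.ofReal ((1 + ‖ξ‖ ^ 2) ^ s * w ξ) ≤
      ∫⁻ ξ in {ξ : F | (2 : ℝ) ^ j ≤ ‖ξ‖ ∧ ‖ξ‖ ≤ 2 ^ (j + 1)},
        ENNReal.ofReal (2 ^ s * ((2 : ℝ) ^ (2 * s - m)) ^ j * (‖ξ‖ ^ m * w ξ)) := by
    refine setLIntegral_mono' hms fun ξ hξ => ENNReal.ofReal_le_ofReal ?_
    rw [← mul_assoc]
    refine mul_le_mul_of_nonneg_right ?_ (hw0 ξ)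
    have hξ1 : 1 ≤ ‖ξ‖ := h2j.trans hξ.1
    have hξ0 : 0 < ‖ξ‖ := by linarith
    have e1 : (1 + ‖ξ‖ ^ 2) ^ s ≤ (2 * ‖ξ‖ ^ 2) ^ s :=
      Real.rpow_le_rpow (by positivity) (by nlinarith) hs0
    have e2 : (2 * ‖ξ‖ ^ 2) ^ s = 2 ^ s * (‖ξ‖ ^ (2 * s - m) * ‖ξ‖ ^ m) := by
      rw [Real.mul_rpow (by norm_num) (by positivity), ← Real.rpow_natCast ‖ξ‖ 2,
        ← Real.rpow_mul hξ0.le, ← Real.rpow_natCast ‖ξ‖ m, ← Real.rpow_add hξ0]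
      congr 2
      push_cast
      ring
    have e3 : ‖ξ‖ ^ (2 * s - m) ≤ ((2 : ℝ) ^ j) ^ (2 * s - m) :=
      Real.rpow_le_rpow_of_nonpos (by positivity) hξ.1 (by linarith)
    have e4 : ((2 : ℝ) ^ j) ^ (2 * s - m) = ((2 : ℝ) ^ (2 * s - m)) ^ j := by
      rw [← Real.rpow_natCast, ← Real.rpow_natCast, ← Real.rpow_mul (by norm_num),
        ← Real.rpow_mul (by norm_num), mul_comm]
    calc (1 + ‖ξ‖ ^ 2) ^ s ≤ 2 ^ s * (‖ξ‖ ^ (2 * s - m) * ‖ξ‖ ^ m) := e1.trans e2.le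
      _ ≤ 2 ^ s * (((2 : ℝ) ^ (2 * s - m)) ^ j * ‖ξ‖ ^ m) := by
          rw [← e4]
          gcongr
      _ = 2 ^ s * ((2 : ℝ) ^ (2 * s - m)) ^ j * ‖ξ‖ ^ m := by ring
  have hB : ∫⁻ ξ in {ξ : F | (2 : ℝ) ^ j ≤ ‖ξ‖ ∧ ‖ξ‖ ≤ 2 ^ (j + 1)},
        ENNReal.ofReal (2 ^ s * ((2 : ℝ) ^ (2 * s - m)) ^ j * (‖ξ‖ ^ m * w ξ)) ≤
      ∫⁻ ξ in closedBall (0 : F) (2 ^ (j + 1)),
        ENNReal.ofReal (2 ^ s * ((2 : ℝ) ^ (2 * s - m)) ^ j * (‖ξ‖ ^ m * w ξ)) := by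
    refine lintegral_mono_set fun ξ hξ => ?_
    rw [mem_closedBall_zero_iff]
    exact hξ.2
  refine (hA.trans hB).trans ?_
  rw [← ofReal_integral_eq_lintegral_ofReal ((intOn hw m _).const_mul _)
    (Eventually.of_forall fun ξ => mul_nonneg (by positivity)
      (mul_nonneg (by positivity) (hw0 ξ)))]
  refine ENNReal.ofReal_le_ofReal ?_
  rw [integral_const_mul, mul_assoc]
  refine mul_le_mul_of_nonneg_left (mul_le_mul_of_nonneg_left ?_ (by positivity)) (by positivity)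
  have h3 := (abs_le.1 (h ((2 : ℝ) ^ (j + 1)) (one_le_pow₀ (by norm_num)))).2
  rw [Real.log_pow] at h3
  linarith

theorem integrable_of {w : F → ℝ} (hw : Continuous w) (hw0 : ∀ ξ, 0 ≤ w ξ) {m : ℕ}
    {a C : ℝ}
    (h : ∀ t : ℝ, 1 ≤ t → |(∫ ξ in closedBall (0 : F) t, ‖ξ‖ ^ m * w ξ) - a * Real.log t| ≤ C)
    {s : ℝ} (hs0 : 0 ≤ s) (hs : s < (m : ℝ) / 2) :
    Integrable (fun ξ : F => (1 + ‖ξ‖ ^ 2) ^ s * w ξ) volume := by
  have hcont : Continuous (fun ξ : F => (1 + ‖ξ‖ ^ 2) ^ s * w ξ) := (weight_cont s).mul hw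
  have hnn : ∀ ξ : F, 0 ≤ (1 + ‖ξ‖ ^ 2) ^ s * w ξ := fun ξ => mul_nonneg (by positivity) (hw0 ξ)
  refine ⟨hcont.aestronglyMeasurable, ?_⟩
  rw [hasFiniteIntegral_iff_ofReal (Eventually.of_forall hnn)]
  have hcov : (Set.univ : Set F) ⊆ closedBall (0 : F) 1 ∪
      ⋃ j : ℕ, {ξ : F | (2 : ℝ) ^ j ≤ ‖ξ‖ ∧ ‖ξ‖ ≤ 2 ^ (j + 1)} := by
    intro ξ _
    by_cases hξ : ‖ξ‖ ≤ 1
    · exact Or.inl (mem_closedBall_zero_iff.2 hξ)
    · right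
      obtain ⟨j, hj1, hj2⟩ := exists_nat_pow_near (x := ‖ξ‖) (y := (2 : ℝ)) (not_le.1 hξ).le
        (by norm_num)
      exact Set.mem_iUnion.2 ⟨j, hj1, hj2.le⟩
  rw [← setLIntegral_univ]
  refine lt_of_le_of_lt (lintegral_mono_set hcov) ?_
  refine lt_of_le_of_lt (lintegral_union_le _ _ _) (ENNReal.add_lt_top.2 ⟨?_, ?_⟩)
  · have h1 : IntegrableOn (fun ξ : F => (1 + ‖ξ‖ ^ 2) ^ s * w ξ) (closedBall (0 : F) 1) volume :=
      hcont.continuousOn.integrableOn_compact (isCompact_closedBall _ _)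
    have h2 := h1.2
    rwa [hasFiniteIntegral_iff_ofReal (Eventually.of_forall hnn)] at h2
  · refine lt_of_le_of_lt (lintegral_iUnion_le _ _) ?_
    refine lt_of_le_of_lt (ENNReal.tsum_le_tsum fun j => annulus hw hw0 m h hs0 hs j) ?_
    have hr : ‖(2 : ℝ) ^ (2 * s - m)‖ < 1 := by
      rw [Real.norm_of_nonneg (by positivity)]
      exact Real.rpow_lt_one_of_one_lt_of_neg (by norm_num) (by linarith)
    have hsum : Summable (fun j : ℕ =>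
        2 ^ s * (((2 : ℝ) ^ (2 * s - m)) ^ j * (C + a * ((j + 1 : ℕ) * Real.log 2)))) := by
      have s0 : Summable (fun j : ℕ => ((2 : ℝ) ^ (2 * s - m)) ^ j) :=
        summable_geometric_of_norm_lt_one hr
      have s1 : Summable (fun j : ℕ => (j : ℝ) * ((2 : ℝ) ^ (2 * s - m)) ^ j) := by
        have := summable_pow_mul_geometric_of_norm_lt_one 1 hr
        simpa using this
      have s2 := ((s0.mul_left (C + a * Real.log 2)).add (s1.mul_left (a * Real.log 2))).mul_left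
        (2 ^ s)
      refine s2.congr fun j => ?_
      push_cast
      ring
    exact hsum.tsum_ofReal_lt_top

/-- If `∫_{|ξ| ≤ t} |ξ|^m w(ξ) dξ = a log t + O(1)` with `a > 0`, then `(1 + |ξ|²)^s w` is
integrable exactly for `s < m / 2`. -/
theorem sobolev_iff {w : F → ℝ} (hw : Continuous w) (hw0 : ∀ ξ, 0 ≤ w ξ) {m : ℕ} (hm : 1 ≤ m)
    {a C : ℝ} (ha : 0 < a)
    (h : ∀ t : ℝ, 1 ≤ t → |(∫ ξ in closedBall (0 : F) t, ‖ξ‖ ^ m * w ξ) - a * Real.log t| ≤ C)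
    (s : ℝ) : Integrable (fun ξ : F => (1 + ‖ξ‖ ^ 2) ^ s * w ξ) volume ↔ s < (m : ℝ) / 2 := by
  constructor
  · intro hi
    by_contra hs
    exact not_integrable hw hw0 m ha h (not_lt.1 hs) hi
  · intro hs
    have hm' : (0 : ℝ) < m := by exact_mod_cast hm
    have h1 : Integrable (fun ξ : F => (1 + ‖ξ‖ ^ 2) ^ (max s 0) * w ξ) volume :=
      integrable_of hw hw0 h (le_max_right _ _) (max_lt hs (by positivity))
    refine h1.mono' ((weight_cont s).mul hw).aestronglyMeasurable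
      (Eventually.of_forall fun ξ => ?_)
    rw [Real.norm_of_nonneg (mul_nonneg (by positivity) (hw0 ξ))]
    refine mul_le_mul_of_nonneg_right ?_ (hw0 ξ)
    exact Real.rpow_le_rpow_of_exponent_le (by nlinarith [norm_nonneg ξ]) (le_max_left _ _)

end Pool.Agent.Work.MP_f2af60_mp.Sob
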