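import Pool.Agent.Work.MP_f2af60_mp.GDefs

/-!
# MP_f2af60_mp, all odd dimensions `n = 2 q + 3 ≥ 5`: the statements of the building blocks
-/

namespace Pool.Agent.Work.MP_f2af60_mp

open MeasureTheory Metric Filter Topology

/-! ## Kernel functions -/

/-- Q1: the functions `eb q`. -/
def EbFacts : Prop :=
  (∀ (q : ℕ) (z : ℂ), HasDerivAt (eb (q + 1)) (z * eb q z / (2 * (Real.pi : ℂ))) z) ∧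
  (∀ q : ℕ, Differentiable ℂ (eb q)) ∧
  (∀ q : ℕ, ∃ C : ℝ, ∀ z : ℂ, ‖eb q z‖ ≤ C * (1 + ‖z‖) ^ q * Real.exp (-z.im)) ∧
  (∀ q : ℕ, ∃ C : ℝ, ∀ z : ℂ, ‖z‖ ≤ 1 → ‖eb q z - eb q (-z)‖ ≤ C * ‖z‖ ^ (2 * q + 1)) ∧
  (∀ q : ℕ, eb q 0 ≠ 0) ∧
  (∀ (q : ℕ) (z : ℂ), eb q z =
    ∑' j : ℕ, (iteratedDeriv j (eb q) 0 / (j.factorial : ℂ)) * z ^ j) ∧
  (∀ (q j : ℕ), Odd j → j < 2 * q + 1 → iteratedDeriv j (eb q) 0 = 0)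

/-- Q2: Gaussian subordination. -/
def Subord : Prop :=
  ∀ (q : ℕ) (E : ℝ) (x : En q), 0 < E → x ≠ 0 →
    eb q (Complex.I * (Real.sqrt E : ℂ) * (‖x‖ : ℂ)) / (‖x‖ : ℂ) ^ (2 * q + 1) =
      (HH q 0 E x : ℂ) ∧
    (1 ≤ q → eb (q - 1) (Complex.I * (Real.sqrt E : ℂ) * (‖x‖ : ℂ)) /
      (4 * (Real.pi : ℂ) * (‖x‖ : ℂ) ^ (2 * q - 1)) = (HH q 1 E x : ℂ))

/-- Q3: the heat kernel is a convolution semigroup of probability densities. -/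
def PtFacts : Prop :=
  ∀ q : ℕ, (∀ t > 0, ∀ x, 0 < pt q t x) ∧ (∀ t x, pt q t (-x) = pt q t x) ∧
    Measurable (Function.uncurry (pt q)) ∧
    (∀ t > 0, Integrable (pt q t) ∧ ∫ x, pt q t x = 1) ∧
    (∀ s > 0, ∀ t > 0, ∀ x y : En q, Integrable (fun z => pt q s (x - z) * pt q t (z - y)) ∧
      ∫ z, pt q s (x - z) * pt q t (z - y) = pt q (s + t) (x - y)) ∧
    (∀ j : ℕ, ∃ C : ℝ, ∀ t > 0, ∀ x, (1 + ‖x‖) ^ j * pt q t x ≤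
      C * (1 + t ^ j) * pt q (2 * t) x)

/-- Q4: the kernels `HH q j E` of the powers of the resolvent. -/
def HHFacts : Prop :=
  ∀ (q j : ℕ),
    (∀ E > 0, (∀ x, 0 ≤ HH q j E x) ∧ Measurable (HH q j E) ∧ Integrable (HH q j E) ∧
      ∫ x, HH q j E x = (E ^ (j + 1))⁻¹ ∧ (∀ x, x ≠ 0 → 0 < HH q j E x) ∧
      (∀ x : En q, (x ≠ 0 ∨ q < j) → IntegrableOn (fun t => t ^ j / (j.factorial : ℝ) *
        Real.exp (-(E * t)) * pt q t x) (Set.Ioi 0)) ∧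
      (∀ x y : En q, (x ≠ y ∨ q ≤ j) →
        Integrable (fun z => HH q 0 E (x - z) * HH q j E (z - y)) ∧
        ∫ z, HH q 0 E (x - z) * HH q j E (z - y) = HH q (j + 1) E (x - y))) ∧
    (∃ C : ℝ, ∀ E > 0, ∀ x, HH q (q + 1) E x ≤ C * E ^ (-(1 / 2) : ℝ)) ∧
    (∀ s > 0, ∀ E > 0, ∀ x, HH q j (s * E) x =
      s ^ ((q : ℝ) + 1 / 2 - j) * HH q j E (Real.sqrt s • x))

/-! ## Kernel operators on a compact metric measure space -/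

/-- Q5: the closed ball satisfies `SpQ`. -/
def SpBallQ : Prop := ∀ (q : ℕ) (R : ℝ), 0 < R → ∃ C : ℝ, 0 < C ∧ SpQ q (muQ q R) C

/-- Q6: existence of the kernel operators. -/
def ExistsOpsQ : Prop :=
  ∀ (q : ℕ) (K : Type) [MetricSpace K] [CompactSpace K] [MeasurableSpace K] [BorelSpace K]
    (μ : Measure K) (C : ℝ), SpQ q μ C → ∀ V : K → ℝ, Measurable V →
    ∀ M : ℝ, (∀ x, |V x| ≤ M) → Nonempty (OpsQ q μ V)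

/-- Q7: growth and composition of the singular kernels. -/
def RieszQ : Prop :=
  ∀ (q : ℕ), 1 ≤ q → ∀ (K : Type) [MetricSpace K] [CompactSpace K] [MeasurableSpace K]
    [BorelSpace K] (μ : Measure K) (C : ℝ), SpQ q μ C → ∃ C₁ : ℝ, 0 < C₁ ∧
      (∀ x, ∀ b ≤ 2 * q + 2, Integrable (fun y => ((dist x y) ^ b)⁻¹) μ ∧
        ∫ y, ((dist x y) ^ b)⁻¹ ∂μ ≤ C₁) ∧
      (∀ x, ∀ e > 0, ∀ b ≤ 2 * q + 2, ∫ y in ball x e, ((dist x y) ^ b)⁻¹ ∂μ ≤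
        C₁ * e ^ (2 * q + 3 - b)) ∧
      (∀ b, 3 ≤ b → b ≤ 2 * q + 2 → ∀ x y, x ≠ y →
        Integrable (fun z => ((dist x z) ^ (2 * q + 1))⁻¹ * ((dist z y) ^ b)⁻¹) μ ∧
        ∫ z, ((dist x z) ^ (2 * q + 1))⁻¹ * ((dist z y) ^ b)⁻¹ ∂μ ≤
          C₁ * ((dist x y) ^ (b - 2))⁻¹) ∧
      (∀ x y, Integrable (fun z => ((dist x z) ^ (2 * q + 1))⁻¹ * (dist z y)⁻¹) μ ∧
        ∫ z, ((dist x z) ^ (2 * q + 1))⁻¹ * (dist z y)⁻¹ ∂μ ≤ C₁) ∧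
      (∀ e > 0, ∀ x0 x y, dist x x0 < e → dist y x0 < e →
        ∫ z in ball x0 e, ((dist x z) ^ (2 * q + 1))⁻¹ * (dist z y)⁻¹ ∂μ ≤ C₁ * e)

/-- Q8: bounds for the iterated kernels. -/
def KKFacts : Prop :=
  ∀ (q : ℕ), 1 ≤ q → ∀ (K : Type) [MetricSpace K] [CompactSpace K] [MeasurableSpace K]
    [BorelSpace K] (μ : Measure K) (C : ℝ), SpQ q μ C → ∀ V : K → ℝ, Measurable V →
    ∀ M : ℝ, (∀ x, |V x| ≤ M) → ∃ C₁ : ℝ, 0 < C₁ ∧ ∀ h l : C(K × K, ℂ),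
      (∀ m, Measurable (Function.uncurry (KK q μ V h l m))) ∧
      (∀ m < q, ∀ x y, x ≠ y → ‖KK q μ V h l m x y‖ ≤
        C₁ * ‖h‖ ^ m * ‖l‖ * ((dist x y) ^ (2 * q - 1 - 2 * m))⁻¹) ∧
      (∀ m < q, ContinuousOn (Function.uncurry (KK q μ V h l m)) {p | p.1 ≠ p.2}) ∧
      Continuous (Function.uncurry (KK q μ V h l q)) ∧
      (∀ x y, ‖KK q μ V h l q x y‖ ≤ C₁ * ‖h‖ ^ q * ‖l‖) ∧
      (∀ m < q, ∀ x y, (x ≠ y ∨ m + 1 = q) → Integrable (fun z =>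
        h (x, z) * ((((dist x z) ^ (2 * q + 1))⁻¹ : ℝ) : ℂ) * (V z : ℂ) * KK q μ V h l m z y) μ)

/-- Q9: the differences of the iterated kernels are continuous. -/
def DKFacts : Prop :=
  ∀ (q : ℕ), 1 ≤ q → ∀ (K : Type) [MetricSpace K] [CompactSpace K] [MeasurableSpace K]
    [BorelSpace K] (μ : Measure K) (C : ℝ), SpQ q μ C → ∀ V : K → ℝ, Measurable V →
    ∀ M : ℝ, (∀ x, |V x| ≤ M) → ∀ (h l h₁ l₁ f f' : C(K × K, ℂ)),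
    (∀ x y, h (x, y) - h₁ (x, y) = ((dist x y : ℝ) : ℂ) ^ (2 * q + 1) * f (x, y)) →
    (∀ x y, l (x, y) - l₁ (x, y) = ((dist x y : ℝ) : ℂ) ^ (2 * q - 1) * f' (x, y)) →
    ∃ Δ F : ℕ → C(K × K, ℂ),
      (∀ m ≤ q, ∀ x y, Δ m (x, y) =
        DK q μ V h h₁ l₁ (fun x y => f (x, y)) (fun x y => f' (x, y)) m x y) ∧
      (∀ m < q, ∀ x y, F m (x, y) = ∫ z, f (x, z) * (V z : ℂ) * KK q μ V h₁ l₁ m z y ∂μ) ∧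
      (∀ x y, Δ q (x, y) = KK q μ V h l q x y - KK q μ V h₁ l₁ q x y)

/-- Q10: the powers of the kernel operators. -/
def OpIter : Prop :=
  ∀ (q : ℕ), 1 ≤ q → ∀ (K : Type) [MetricSpace K] [CompactSpace K] [MeasurableSpace K]
    [BorelSpace K] (μ : Measure K) (C : ℝ), SpQ q μ C → ∀ V : K → ℝ, Measurable V →
    ∀ M : ℝ, (∀ x, |V x| ≤ M) → ∀ (O : OpsQ q μ V) (h l l₂ : C(K × K, ℂ)),
    (∀ x y, l₂ (x, y) = ((dist x y : ℝ) : ℂ) ^ 2 * l (x, y)) → ∀ m ≤ q, ∀ (w : C(K, ℂ)) (x : K),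
      Integrable (fun z => KK q μ V h l m x z * (V z : ℂ) * w z) μ ∧
      ((O.Op h) ^ m) (O.Op l₂ w) x = ∫ z, KK q μ V h l m x z * (V z : ℂ) * w z ∂μ

/-- Q11: the trace identity. -/
def TraceIdQ : Prop :=
  ∀ (q : ℕ), 1 ≤ q → ∀ (K : Type) [MetricSpace K] [CompactSpace K] [MeasurableSpace K]
    [BorelSpace K] (μ : Measure K) (C : ℝ), SpQ q μ C → ∀ V : K → ℝ, Measurable V →
    ∀ M : ℝ, (∀ x, |V x| ≤ M) → ∀ (O : OpsQ q μ V) (N : ℕ) (h l h₁ l₁ l₂ κ κ₁ : C(K × K, ℂ))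
    (φ ψ : Fin N → C(K, ℂ)) (c c' : Fin N → ℂ),
    (∀ x y, h (x, y) - h₁ (x, y) =
      ((dist x y : ℝ) : ℂ) ^ (2 * q + 1) * ∑ k, c k * φ k x * ψ k y) →
    (∀ x y, l (x, y) - l₁ (x, y) =
      ((dist x y : ℝ) : ℂ) ^ (2 * q - 1) * ∑ k, c' k * φ k x * ψ k y) →
    (∀ y, ∑ k, c' k * φ k y * ψ k y = 0) →
    (∀ x y, l₂ (x, y) = ((dist x y : ℝ) : ℂ) ^ 2 * l₁ (x, y)) →
    (∀ x y, κ (x, y) = KK q μ V h l q x y) → (∀ x y, κ₁ (x, y) = KK q μ V h₁ l₁ q x y) →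
    ∀ (T T₁ : C(K, ℂ) →L[ℂ] C(K, ℂ)), T * (1 + O.Op h) = 1 → (1 + O.Op h) * T = 1 →
    T₁ * (1 + O.Op h₁) = 1 → (1 + O.Op h₁) * T₁ = 1 →
    ∀ (Ψ : Fin N → (C(K, ℂ) →L[ℂ] ℂ)), (∀ k u, Ψ k u = ∫ y, ψ k y * (V y : ℂ) * u y ∂μ) →
    ∑ k, c' k * Ψ k (T (φ k)) - ∑ k, c k * Ψ k (T₁ (O.Op l₂ (T (φ k)))) =
      ∑ m ∈ Finset.Icc 1 q, (-1) ^ m * ∫ y, (V y : ℂ) * DK q μ V h h₁ l₁
        (fun x y => ∑ k, c k * φ k x * ψ k y) (fun x y => ∑ k, c' k * φ k x * ψ k y) m y y ∂μ +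
      (-1) ^ (q + 1) * (O.tr (T * O.Op h) κ - O.tr (T₁ * O.Op h₁) κ₁)

/-- Q12: a closed chain with one link removed is integrable. -/
def ChainCut : Prop :=
  ∀ (q : ℕ), 1 ≤ q → ∀ (K : Type) [MetricSpace K] [CompactSpace K] [MeasurableSpace K]
    [BorelSpace K] (μ : Measure K) (C : ℝ), SpQ q μ C → ∀ (m : ℕ) (j : Fin (m + 1)),
    Integrable (fun x : Fin (m + 1) → K => ∏ i ∈ Finset.univ.erase j,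
      ((dist (x i) (x (i + 1))) ^ (2 * q + 1))⁻¹) (Measure.pi fun _ => μ)

/-- Q13: the diagonal terms as integrals over closed chains. -/
def ChainRep : Prop :=
  ∀ (q : ℕ), 1 ≤ q → ∀ (K : Type) [MetricSpace K] [CompactSpace K] [MeasurableSpace K]
    [BorelSpace K] (μ : Measure K) (C : ℝ), SpQ q μ C → ∀ V : K → ℝ,
    Measurable V → ∀ M : ℝ, (∀ x, |V x| ≤ M) → ∀ (h l h₁ l₁ : C(K × K, ℂ)) (f f' : C(K × K, ℂ)),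
    (∀ x y, h (x, y) - h₁ (x, y) = ((dist x y : ℝ) : ℂ) ^ (2 * q + 1) * f (x, y)) →
    (∀ x y, l (x, y) - l₁ (x, y) = ((dist x y : ℝ) : ℂ) ^ (2 * q - 1) * f' (x, y)) →
    ∀ m ∈ Finset.Icc 1 q,
      Integrable (fun x : Fin (m + 1) → K => (∏ i, (V (x i) : ℂ)) *
        (JC q m h l x - JC q m h₁ l₁ x)) (Measure.pi fun _ => μ) ∧
      ∫ y, (V y : ℂ) * DK q μ V h h₁ l₁ (fun x y => f (x, y)) (fun x y => f' (x, y)) m y y ∂μ =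
        ∫ x : Fin (m + 1) → K, (∏ i, (V (x i) : ℂ)) * (JC q m h l x - JC q m h₁ l₁ x)
          ∂(Measure.pi fun _ => μ)

/-- Q14: replacing the small part of the kernel by a cut-off of the kernel. -/
def LimErr : Prop :=
  ∀ (q : ℕ), 1 ≤ q → ∀ (K : Type) [MetricSpace K] [CompactSpace K] [MeasurableSpace K]
    [BorelSpace K] (μ : Measure K) (C : ℝ), SpQ q μ C → ∀ V : K → ℝ, Measurable V →
    ∀ M : ℝ, (∀ x, |V x| ≤ M) → ∀ (m : ℕ) (B : ℝ), ∃ C₁ : ℝ,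
    ∀ (h l h₁ l₁ : C(K × K, ℂ)) (χ : C(K × K, ℝ)) (ε : ℝ), ‖h‖ ≤ B → ‖l‖ ≤ B → 0 ≤ ε → ε ≤ 1 →
    (∀ p, 0 ≤ χ p ∧ χ p ≤ 1) →
    (∀ x y, ‖h₁ (x, y) - (χ (x, y) : ℂ) * h (x, y)‖ ≤ ε * dist x y ^ (2 * q + 1)) →
    (∀ x y, ‖l₁ (x, y) - (χ (x, y) : ℂ) * l (x, y)‖ ≤ ε * dist x y ^ (2 * q - 1)) →
    Integrable (fun x : Fin (m + 1) → K => (∏ i, (V (x i) : ℂ)) *
      ((∏ i, (χ (x i, x (i + 1)) : ℂ)) * JC q m h l x - JC q m h₁ l₁ x))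
      (Measure.pi fun _ => μ) ∧
    ‖∫ x : Fin (m + 1) → K, (∏ i, (V (x i) : ℂ)) *
      ((∏ i, (χ (x i, x (i + 1)) : ℂ)) * JC q m h l x - JC q m h₁ l₁ x)
      ∂(Measure.pi fun _ => μ)‖ ≤ C₁ * ε

/-- Q15: the limit `r → ∞` of the chain integrals (after the finite difference). -/
def LimJ : Prop :=
  ∀ (q m : ℕ), 1 ≤ q → m ∈ Finset.Icc 1 q → ∀ (R : ℝ), 0 < R → ∀ (V : En q → ℝ), Measurable V →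
    ∀ M : ℝ, (∀ x, |V x| ≤ M) → (∀ x, R < ‖x‖ → V x = 0) → ∀ E : ℝ, 0 < E →
    ∀ (h l : ℕ → C(closedBall (0 : En q) R × closedBall (0 : En q) R, ℂ))
      (h₁ l₁ : ℕ → ℕ → C(closedBall (0 : En q) R × closedBall (0 : En q) R, ℂ))
      (χ : ℕ → C(closedBall (0 : En q) R × closedBall (0 : En q) R, ℝ)) (ε δ : ℕ → ℝ),
    (∀ i x y, h i (x, y) = eb q (Complex.I * (Real.sqrt ((1 + (i : ℝ)) * E) : ℂ) *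
      ((dist x y : ℝ) : ℂ))) →
    (∀ i x y, l i (x, y) = eb (q - 1) (Complex.I * (Real.sqrt ((1 + (i : ℝ)) * E) : ℂ) *
      ((dist x y : ℝ) : ℂ)) / (4 * (Real.pi : ℂ))) →
    (∀ r p, 0 ≤ χ r p ∧ χ r p ≤ 1) → (∀ r x y, δ r ≤ dist x y → χ r (x, y) = 0) →
    (∀ r i, i < q → ∀ x y,
      ‖h₁ r i (x, y) - (χ r (x, y) : ℂ) * h i (x, y)‖ ≤ ε r * dist x y ^ (2 * q + 1)) →
    (∀ r i, i < q → ∀ x y,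
      ‖l₁ r i (x, y) - (χ r (x, y) : ℂ) * l i (x, y)‖ ≤ ε r * dist x y ^ (2 * q - 1)) →
    Tendsto ε atTop (𝓝 0) → Tendsto δ atTop (𝓝 0) →
    (∀ r i, i < q → Integrable (fun x : Fin (m + 1) → closedBall (0 : En q) R =>
      (∏ j, (V (x j) : ℂ)) * (JC q m (h i) (l i) x - JC q m (h₁ r i) (l₁ r i) x))
      (Measure.pi fun _ => muQ q R)) →
    Tendsto (fun r => ∑ i ∈ Finset.range q, (-1) ^ i * ((q - 1).choose i : ℂ) *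
      ∫ x : Fin (m + 1) → closedBall (0 : En q) R,
        (∏ j, (V (x j) : ℂ)) * (JC q m (h i) (l i) x - JC q m (h₁ r i) (l₁ r i) x)
          ∂(Measure.pi fun _ => muQ q R)) atTop
      (𝓝 ((∫ x : Fin (m + 1) → En q, (∏ j, V (x j)) * DJ q m E x : ℝ) : ℂ))

/-- Q16: bounds on the imaginary axis. -/
def ImagQ : Prop :=
  ∀ (q : ℕ), 1 ≤ q → ∀ R : ℝ, 0 < R → ∀ (V : En q → ℝ), Measurable V →
    ∀ M : ℝ, (∀ x, |V x| ≤ M) →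
    ∃ C : ℝ, ∀ (O : OpsQ q (muQ q R) (fun x : closedBall (0 : En q) R => V x)) (E : ℝ), 1 ≤ E →
      ∀ h l : C(closedBall (0 : En q) R × closedBall (0 : En q) R, ℂ),
      (∀ x y, h (x, y) = eb q (Complex.I * (Real.sqrt E : ℂ) * ((dist x y : ℝ) : ℂ))) →
      (∀ x y, l (x, y) = eb (q - 1) (Complex.I * (Real.sqrt E : ℂ) * ((dist x y : ℝ) : ℂ)) /
        (4 * (Real.pi : ℂ))) →
      ‖O.Op h‖ ≤ C / E ∧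
      ∀ x y, ‖KK q (muQ q R) (fun x : closedBall (0 : En q) R => V x) h l q x y‖ ≤
        C * E ^ (-(1 / 2) : ℝ)

/-! ## Geometry of the kernel -/

/-- Q17: a separable cutoff away from the diagonal. -/
def HatsQ : Prop :=
  ∀ (q : ℕ) (R c0 : ℝ), 0 < R → 0 < c0 →
    ∃ (C c1 : ℝ) (n : ℕ), 0 < c1 ∧ c1 ≤ c0 ∧ ∀ r : ℕ, 1 ≤ r →
      ∃ (N : ℕ) (a b : Fin N → C(En q, ℝ)), (N : ℝ) ≤ C * (r : ℝ) ^ n ∧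
        (∀ k x, 0 ≤ a k x ∧ a k x ≤ 1) ∧ (∀ k x, 0 ≤ b k x ∧ b k x ≤ 1) ∧
        (∀ x ∈ closedBall (0 : En q) R, ∀ y ∈ closedBall (0 : En q) R,
          0 ≤ ∑ k, a k x * b k y ∧ ∑ k, a k x * b k y ≤ 1 ∧
          (c0 / r ≤ dist x y → ∑ k, a k x * b k y = 1) ∧
          (dist x y < c1 / r → ∑ k, a k x * b k y = 0))

/-- Q18: polynomial approximation of the kernel away from zero. -/
def PolyApproxQ : Prop :=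
  ∀ (q : ℕ) (c c1 e : ℝ), 0 < c → 0 < c1 → 0 < e →
    ∃ (C : ℝ) (n : ℕ), ∀ r : ℕ, 1 ≤ r → ∃ (D : ℕ) (p : ℕ → ℂ → ℂ),
      (D : ℝ) ≤ C * (r : ℝ) ^ n ∧ (∀ d, Differentiable ℂ (p d)) ∧
      (∀ d, ∃ B : ℝ, ∀ l : ℂ, ‖l‖ ≤ 1 → ‖p d l - p d (-l)‖ ≤ B * ‖l‖ ^ (2 * q + 1)) ∧
      (∀ d, ∀ l : ℂ, ‖l‖ ≤ r → ‖p d l‖ ≤ Real.exp (C * (r : ℝ) ^ n)) ∧
      ∀ l : ℂ, ‖l‖ ≤ r → ∀ s : ℝ, c1 / r ≤ s → s ^ 2 ≤ c →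
        ‖eb q (l * (s : ℂ)) / (s : ℂ) ^ (2 * q + 1) -
          ∑ d ∈ Finset.range D, p d l * ((1 - s ^ 2 / c : ℝ) : ℂ) ^ d‖ ≤ e / r

/-- Q19: separation of variables for the powers of `1 - |x-y|²/c`. -/
def SepQ : Prop :=
  ∀ (q : ℕ) (R c : ℝ), 0 < R → 0 < c →
    ∃ C : ℝ, 1 ≤ C ∧ ∀ d : ℕ, ∃ (N : ℕ) (p p' : Fin N → C(En q, ℝ)),
      N ≤ (d + 1) ^ (2 * q + 5) ∧
      (∀ k, ∀ x ∈ closedBall (0 : En q) R, |p k x| ≤ C ^ d ∧ |p' k x| ≤ C ^ d) ∧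
      ∀ x y : En q, (1 - dist x y ^ 2 / c) ^ d = ∑ k, p k x * p' k y

/-- Q20: the decomposition of the kernel. -/
def DecompQ : Prop :=
  ∀ (q : ℕ), 1 ≤ q → ∀ R c0 e : ℝ, 0 < R → 0 < c0 → 0 < e →
    ∃ (C : ℝ) (n : ℕ), ∀ r : ℕ, 1 ≤ r →
      ∃ (N : ℕ) (φ ψ : Fin N → C(closedBall (0 : En q) R, ℂ)) (c : Fin N → ℂ → ℂ)
        (χ : C(closedBall (0 : En q) R × closedBall (0 : En q) R, ℝ)),
        (N : ℝ) ≤ C * (r : ℝ) ^ n ∧ (∀ k, ‖φ k‖ ≤ Real.exp (C * (r : ℝ) ^ n)) ∧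
        (∀ k, ‖ψ k‖ ≤ Real.exp (C * (r : ℝ) ^ n)) ∧ (∀ k, Differentiable ℂ (c k)) ∧
        (∀ k, ∀ l ∈ ball (0 : ℂ) r, ‖c k l‖ ≤ Real.exp (C * (r : ℝ) ^ n)) ∧
        (∀ k x, φ k x * ψ k x = 0) ∧
        (∀ k, ∃ B : ℝ, ∀ l : ℂ, ‖l‖ ≤ 1 → ‖c k l - c k (-l)‖ ≤ B * ‖l‖ ^ (2 * q + 1)) ∧
        (∀ x y, 0 ≤ χ (x, y) ∧ χ (x, y) ≤ 1 ∧ (c0 / r ≤ dist x y → χ (x, y) = 0)) ∧
        (∀ l ∈ ball (0 : ℂ) r, ∀ x y : closedBall (0 : En q) R,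
          ‖eb q (l * ((dist x y : ℝ) : ℂ)) -
            ((dist x y : ℝ) : ℂ) ^ (2 * q + 1) * ∑ k, c k l * φ k x * ψ k y -
            (χ (x, y) : ℂ) * eb q (l * ((dist x y : ℝ) : ℂ))‖ ≤
            e / r * dist x y ^ (2 * q + 1)) ∧
        (∀ l ∈ ball (0 : ℂ) r, ∀ x y : closedBall (0 : En q) R,
          ‖l * eb (q - 1) (l * ((dist x y : ℝ) : ℂ)) / (2 * (Real.pi : ℂ)) -
            ((dist x y : ℝ) : ℂ) ^ (2 * q - 1) * ∑ k, deriv (c k) l * φ k x * ψ k y -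
            (χ (x, y) : ℂ) * (l * eb (q - 1) (l * ((dist x y : ℝ) : ℂ)) / (2 * (Real.pi : ℂ)))‖ ≤
            e / r * dist x y ^ (2 * q - 1))

/-- Q21: a kernel vector of `1 + A(l)` gives a resonance. -/
def KerResQ : Prop :=
  ∀ (q : ℕ), 1 ≤ q → ∀ R : ℝ, 0 < R → ∀ V : En q → ℝ, Measurable V → ∀ M : ℝ,
    (∀ x, |V x| ≤ M) → (∀ x, R < ‖x‖ → V x = 0) → ∀ l : ℂ,
    ∀ u : C(closedBall (0 : En q) R, ℂ), u ≠ 0 →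
    (∀ x : closedBall (0 : En q) R, u x + ∫ y, eb q (l * ((dist x y : ℝ) : ℂ)) *
      ((((dist x y) ^ (2 * q + 1))⁻¹ : ℝ) : ℂ) * (V y : ℂ) * u y ∂(muQ q R) = 0) →
    IsRes q V l

/-- Q22: the numerators as entire families in `C(K × K, ℂ)`. -/
def FamiliesQ : Prop :=
  ∀ (q : ℕ), 1 ≤ q → ∀ (K : Type) [MetricSpace K] [CompactSpace K],
    ∃ h l : ℂ → C(K × K, ℂ), (∀ z x y, h z (x, y) = eb q (z * ((dist x y : ℝ) : ℂ))) ∧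
      (∀ z x y, l z (x, y) = eb (q - 1) (z * ((dist x y : ℝ) : ℂ))) ∧ Differentiable ℂ h ∧
      (∀ z x y, deriv h z (x, y) =
        z * ((dist x y : ℝ) : ℂ) ^ 2 * l z (x, y) / (2 * (Real.pi : ℂ))) ∧
      (∃ B : ℝ, ∀ z : ℂ, ‖z‖ ≤ 1 → ‖h z - h (-z)‖ ≤ B * ‖z‖ ^ (2 * q + 1))

/-! ## Complex analysis -/

/-- Q23: multiplicativity of the perturbation determinants. -/
def FrMul : Prop :=
  ∀ (X : Type) [NormedAddCommGroup X] [NormedSpace ℂ X] [CompleteSpace X] (N N' : ℕ)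
    (φ : Fin N → X) (ψ : Fin N → (X →L[ℂ] ℂ)) (φ' : Fin N' → X) (ψ' : Fin N' → (X →L[ℂ] ℂ))
    (A₁ T₁ A₁' T₁' : X →L[ℂ] X), A₁ + FRop φ ψ = A₁' + FRop φ' ψ' →
    T₁ * (1 + A₁) = 1 → (1 + A₁) * T₁ = 1 → T₁' * (1 + A₁') = 1 → (1 + A₁') * T₁' = 1 →
    ∃ D : ℂ, D = (1 + FRmat (Fin.append φ φ') (Fin.append ψ (fun k => -ψ' k)) T₁).det ∧ D ≠ 0 ∧
      (1 + FRmat φ ψ T₁).det = (1 + FRmat φ' ψ' T₁').det * D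

/-- Q24: the determinants on the discs. -/
def DiscDet : Prop :=
  ∀ (X : Type) [NormedAddCommGroup X] [NormedSpace ℂ X] [CompleteSpace X]
    (A : ℂ → X →L[ℂ] X), Differentiable ℂ A → ∀ (l0 : ℂ) (T0 : X →L[ℂ] X),
    T0 * (1 + A l0) = 1 → (1 + A l0) * T0 = 1 → ∀ (C : ℝ) (n : ℕ) (N : ℕ → ℕ)
    (φ : ∀ r, Fin (N r) → X) (ψ : ∀ r, Fin (N r) → ℂ → (X →L[ℂ] ℂ)),
    (∀ r : ℕ, 1 ≤ r → (N r : ℝ) ≤ C * (r : ℝ) ^ n ∧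
      (∀ k, ‖φ r k‖ ≤ Real.exp (C * (r : ℝ) ^ n)) ∧ (∀ k, Differentiable ℂ (ψ r k)) ∧
      (∀ k, ∀ l ∈ ball (0 : ℂ) r, ‖ψ r k l‖ ≤ Real.exp (C * (r : ℝ) ^ n)) ∧
      (∀ l ∈ ball (0 : ℂ) r, ‖A l - FRop (φ r) (fun k => ψ r k l)‖ ≤ 1 / 2)) →
    ∃ (D : ℕ → ℂ → ℂ) (C' : ℝ) (n' : ℕ),
      (∀ r : ℕ, 1 ≤ r → DifferentiableOn ℂ (D r) (ball 0 r) ∧
        (∀ l ∈ ball (0 : ℂ) r, ‖D r l‖ ≤ Real.exp (C' * (r : ℝ) ^ n')) ∧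
        (l0 ∈ ball (0 : ℂ) r → Real.exp (-(C' * (r : ℝ) ^ n')) ≤ ‖D r l0‖) ∧
        (∀ l ∈ ball (0 : ℂ) r, (D r l = 0 ↔ ∃ u : X, u ≠ 0 ∧ u + A l u = 0)) ∧
        (∀ l ∈ ball (0 : ℂ) r, ∀ T T₁ A₁' : X →L[ℂ] X,
          T * (1 + A l) = 1 → (1 + A l) * T = 1 →
          T₁ * (1 + (A l - FRop (φ r) (fun k => ψ r k l))) = 1 →
          (1 + (A l - FRop (φ r) (fun k => ψ r k l))) * T₁ = 1 →
          HasDerivAt (fun z => A z - FRop (φ r) (fun k => ψ r k z)) A₁' l →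
          HasDerivAt (D r) (D r l * (∑ k, (deriv (ψ r k) l) (T (φ r k)) -
            ∑ k, ψ r k l (T₁ (A₁' (T (φ r k)))))) l)) ∧
      (∀ r r' : ℕ, 1 ≤ r → r ≤ r' → ∃ U : ℂ → ℂ, DifferentiableOn ℂ U (ball 0 r) ∧
        ∀ l ∈ ball (0 : ℂ) r, U l ≠ 0 ∧ D r l = U l * D r' l) ∧
      (∀ κ : ℕ, (∃ B : ℝ, ∀ l : ℂ, ‖l‖ ≤ 1 → ‖A l - A (-l)‖ ≤ B * ‖l‖ ^ κ) →
        (∀ r, 1 ≤ r → ∀ k, ∃ B : ℝ, ∀ l : ℂ, ‖l‖ ≤ 1 →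
          ‖ψ r k l - ψ r k (-l)‖ ≤ B * ‖l‖ ^ κ) →
        ∀ r : ℕ, 1 ≤ r → ∃ B e : ℝ, 0 < e ∧ ∀ l : ℂ, ‖l‖ ≤ e →
          ‖D r l - D r (-l)‖ ≤ B * ‖l‖ ^ κ)

/-- Q25: factorisation and logarithm on the discs. -/
def DiscLog : Prop :=
  ∀ (D : ℕ → ℂ → ℂ) (l0 : ℂ) (C : ℝ) (n : ℕ) (Z : Set ℂ), Z.Finite →
    (∀ r : ℕ, 1 ≤ r → DifferentiableOn ℂ (D r) (ball 0 r) ∧
      (∀ l ∈ ball (0 : ℂ) r, ‖D r l‖ ≤ Real.exp (C * (r : ℝ) ^ n)) ∧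
      (l0 ∈ ball (0 : ℂ) r → Real.exp (-(C * (r : ℝ) ^ n)) ≤ ‖D r l0‖) ∧
      (∀ l ∈ ball (0 : ℂ) r, (D r l = 0 ↔ l ∈ Z))) →
    (∀ r r' : ℕ, 1 ≤ r → r ≤ r' → ∃ U : ℂ → ℂ, DifferentiableOn ℂ U (ball 0 r) ∧
      ∀ l ∈ ball (0 : ℂ) r, U l ≠ 0 ∧ D r l = U l * D r' l) →
    ∃ (P : Polynomial ℂ) (c : ℕ → ℕ → ℂ) (C' : ℝ) (r0 m : ℕ), P.Monic ∧ 1 ≤ r0 ∧
      (∀ z, P.eval z = 0 → z ∈ Z) ∧
      (∀ r : ℕ, r0 ≤ r → ∀ j, ‖c r j‖ ≤ C' * (r : ℝ) ^ m * (8 / (r : ℝ)) ^ j) ∧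
      (∀ r : ℕ, r0 ≤ r → ∀ l ∈ ball (0 : ℂ) ((r : ℝ) / 8),
        D r l = P.eval l * Complex.exp (∑' j, c r j * l ^ j))

/-- Q26: factorisation of the determinants on the discs, logarithmic derivatives. -/
def DiscFac : Prop :=
  ∀ (X : Type) [NormedAddCommGroup X] [NormedSpace ℂ X] [CompleteSpace X]
    (A : ℂ → X →L[ℂ] X), Differentiable ℂ A → ∀ (l0 : ℂ) (T0 : X →L[ℂ] X),
    T0 * (1 + A l0) = 1 → (1 + A l0) * T0 = 1 → ∀ (C : ℝ) (n : ℕ) (N : ℕ → ℕ)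
    (φ : ∀ r, Fin (N r) → X) (ψ : ∀ r, Fin (N r) → ℂ → (X →L[ℂ] ℂ)),
    (∀ r : ℕ, 1 ≤ r → (N r : ℝ) ≤ C * (r : ℝ) ^ n ∧
      (∀ k, ‖φ r k‖ ≤ Real.exp (C * (r : ℝ) ^ n)) ∧ (∀ k, Differentiable ℂ (ψ r k)) ∧
      (∀ k, ∀ l ∈ ball (0 : ℂ) r, ‖ψ r k l‖ ≤ Real.exp (C * (r : ℝ) ^ n)) ∧
      (∀ l ∈ ball (0 : ℂ) r, ‖A l - FRop (φ r) (fun k => ψ r k l)‖ ≤ 1 / 2)) →
    {l : ℂ | ∃ u : X, u ≠ 0 ∧ u + A l u = 0}.Finite →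
    ∃ (P : Polynomial ℂ) (c : ℕ → ℕ → ℂ) (C' : ℝ) (r0 m : ℕ), P.Monic ∧ 1 ≤ r0 ∧
      (∀ r : ℕ, r0 ≤ r → ∀ j, ‖c r j‖ ≤ C' * (r : ℝ) ^ m * (8 / (r : ℝ)) ^ j) ∧
      (∀ r : ℕ, r0 ≤ r → ∀ l ∈ ball (0 : ℂ) ((r : ℝ) / 8), ∀ T T₁ A₁' : X →L[ℂ] X,
        T * (1 + A l) = 1 → (1 + A l) * T = 1 →
        T₁ * (1 + (A l - FRop (φ r) (fun k => ψ r k l))) = 1 →
        (1 + (A l - FRop (φ r) (fun k => ψ r k l))) * T₁ = 1 →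
        HasDerivAt (fun z => A z - FRop (φ r) (fun k => ψ r k z)) A₁' l →
        P.eval l ≠ 0 ∧
        ∑ k, (deriv (ψ r k) l) (T (φ r k)) - ∑ k, ψ r k l (T₁ (A₁' (T (φ r k)))) =
          LL P (c r) l) ∧
      (P = 1 → ∀ κ : ℕ, (∃ B : ℝ, ∀ l : ℂ, ‖l‖ ≤ 1 → ‖A l - A (-l)‖ ≤ B * ‖l‖ ^ κ) →
        (∀ r, 1 ≤ r → ∀ k, ∃ B : ℝ, ∀ l : ℂ, ‖l‖ ≤ 1 →
          ‖ψ r k l - ψ r k (-l)‖ ≤ B * ‖l‖ ^ κ) →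
        ∀ r : ℕ, r0 ≤ r → ∀ j, Odd j → j < κ → c r j = 0)

/-! ## Expansions -/

/-- Q27: the numbers `κ(a)`. -/
def KapFacts : Prop :=
  ∀ q : ℕ, 1 ≤ q → (∀ a : ℕ, a + 1 < q → kap q a = 0) ∧ kap q (-1) = 1 / q

/-- Q28: comparison of powers. -/
def PowGrowth : Prop :=
  ∀ (p : ℕ) (e : Fin p → ℝ), Function.Injective e → ∀ (β : Fin p → ℂ) (a : ℝ),
    (∀ j, a ≤ e j) →
    Tendsto (fun E : ℝ => (∑ j, β j * ((E ^ e j : ℝ) : ℂ)) / ((E ^ a : ℝ) : ℂ)) atTop (𝓝 0) →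
    ∀ j, β j = 0

/-- Q29: closure of approximate expansions. -/
def LimClosure : Prop :=
  ∀ (p : ℕ) (e : Fin p → ℝ), Function.Injective e → ∀ (b : ℕ → Fin p → ℂ) (F : ℝ → ℂ)
    (G : ℝ → ℝ) (E0 : ℝ), 0 < E0 →
    (∀ E ≥ E0, ∀ η > 0, ∀ᶠ r in atTop,
      ‖∑ j, b r j * ((E ^ e j : ℝ) : ℂ) - F E‖ ≤ G E + η) →
    ∃ β : Fin p → ℂ, (∀ E ≥ E0, ‖∑ j, β j * ((E ^ e j : ℝ) : ℂ) - F E‖ ≤ G E) ∧
      ∀ j, (∀ᶠ r in atTop, b r j = 0) → β j = 0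

/-- Q30: passage to the limit in the expansion. -/
def Expand : Prop :=
  ∀ (q : ℕ), 1 ≤ q → ∀ (P : Polynomial ℂ), P.Monic → ∀ (c : ℕ → ℕ → ℂ) (C : ℝ) (r0 m : ℕ),
    (∀ r : ℕ, r0 ≤ r → ∀ j, ‖c r j‖ ≤ C * (r : ℝ) ^ m * (8 / (r : ℝ)) ^ j) →
    ∀ (F : ℝ → ℝ) (E0 : ℝ), 1 ≤ E0 → (∀ E ≥ E0, |F E| ≤ C * E ^ ((q : ℝ) - 3 / 2)) →
    (∀ E ≥ E0, ∀ η > 0, ∀ᶠ r in atTop,
      ‖(∑ i ∈ Finset.range q, (-1) ^ i * ((q - 1).choose i : ℂ) *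
        (LL P (c r) (Complex.I * (Real.sqrt ((1 + (i : ℝ)) * E) : ℂ)) /
          (2 * (Complex.I * (Real.sqrt ((1 + (i : ℝ)) * E) : ℂ))))) - (F E : ℂ)‖ ≤
        C * E ^ (-(3 / 2) : ℝ) + η) →
    ∃ (α : ℕ → ℝ) (C' E1 : ℝ), 1 ≤ E1 ∧
      (∀ E ≥ E1, |F E + (P.natDegree : ℝ) / (2 * q) * E⁻¹ -
        ∑ i ∈ Finset.range q, α i * E ^ ((q : ℝ) - 3 / 2 - i)| ≤ C' * E ^ (-(3 / 2) : ℝ)) ∧
      (P.natDegree = 0 → (∀ r : ℕ, r0 ≤ r → ∀ j, Odd j → j < 2 * q + 1 → c r j = 0) →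
        ∀ i < q, α i = 0)

/-! ## The real side -/

/-- Q31: Laplace representation of the finite difference of a closed chain. -/
def KmRep : Prop :=
  ∀ (q m : ℕ), 1 ≤ q → 1 ≤ m → ∀ E > 0, ∀ x : Fin (m + 1) → En q,
    0 ≤ DJ q m E x ∧ ((∀ i, x i ≠ x (i + 1)) → 0 < DJ q m E x) ∧
    ENNReal.ofReal (DJ q m E x) ≤ ∫⁻ t : Fin (m + 1) → ℝ in {t | ∀ i, 0 < t i},
      ENNReal.ofReal (t (Fin.last m) * Real.exp (-(E * ∑ i, t i)) *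
        (1 - Real.exp (-(E * ∑ i, t i))) ^ (q - 1) * ∏ i, pt q (t i) (x i - x (i + 1)))

/-- Q32: the closed chain of heat kernels. -/
def GaussChain : Prop :=
  ∀ (q m : ℕ), 1 ≤ m → ∀ t : Fin (m + 1) → ℝ, (∀ i, 0 < t i) →
    ∫⁻ y : Fin m → En q, ∏ i : Fin (m + 1), ENNReal.ofReal
      (pt q (t i) ((Fin.cons 0 y : Fin (m + 1) → En q) i -
        (Fin.cons 0 y : Fin (m + 1) → En q) (i + 1))) =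
      ENNReal.ofReal ((4 * Real.pi * ∑ i, t i) ^ (-((q : ℝ) + 3 / 2)))

/-- Q33: the chain kernels at `E = 1`. -/
def KmFacts : Prop :=
  ∀ (q m : ℕ), 1 ≤ q → 1 ≤ m → (∀ y, 0 ≤ km q m y) ∧ (∀ y, km q m (-y) = km q m y) ∧
    Integrable (fun y : Fin m → En q => (1 + ‖y‖) ^ (2 * q) * km q m y) ∧
    0 < ∫ y, km q 1 y ∧
    (∀ E > 0, ∀ V : En q → ℝ, Measurable V → ∀ M R : ℝ, (∀ x, |V x| ≤ M) →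
      (∀ x, R < ‖x‖ → V x = 0) →
      Integrable (fun x : Fin (m + 1) → En q => (∏ i, V (x i)) * DJ q m E x))

/-- Q34: scaling. -/
def ScalingF : Prop :=
  ∀ (q : ℕ), 1 ≤ q → ∀ V : En q → ℝ, Measurable V → ∀ M R : ℝ, (∀ x, |V x| ≤ M) →
    (∀ x, R < ‖x‖ → V x = 0) → ∀ E > 0,
    FF q V E = ∑ m ∈ Finset.Icc 1 q, (-1) ^ m * (E ^ ((q : ℝ) - 1 / 2 - m) * Phi q V m E⁻¹)

/-- Q35: Plancherel for bounded potentials with compact support. -/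
def PlanchV : Prop :=
  ∀ (q : ℕ) (V : En q → ℝ), Measurable V → ∀ M R : ℝ, (∀ x, |V x| ≤ M) →
    (∀ x, R < ‖x‖ → V x = 0) → HS q V 0 ∧
    (∫ ξ, ‖FourierTransform.fourier (fun x => (V x : ℂ)) ξ‖ ^ 2 = ∫ x, V x ^ 2) ∧
    Continuous (FourierTransform.fourier (fun x => (V x : ℂ))) ∧
    ∀ y : Fin 1 → En q, MM q V 1 y = ∫ ξ,
      ‖FourierTransform.fourier (fun x => (V x : ℂ)) ξ‖ ^ 2 *
        Real.cos (2 * Real.pi * inner ℝ (y 0) ξ)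

/-- Q36: moments of `k₁`. -/
def K1Facts : Prop :=
  ∀ (q : ℕ), 1 ≤ q → ∀ i ≤ q, ∃ c : ℝ, 0 < c ∧ ∀ ξ : En q,
    Integrable (fun y : Fin 1 → En q => km q 1 y * (2 * Real.pi * inner ℝ (y 0) ξ) ^ (2 * i)) ∧
    ∫ y : Fin 1 → En q, km q 1 y * (2 * Real.pi * inner ℝ (y 0) ξ) ^ (2 * i) =
      c * ‖ξ‖ ^ (2 * i)

/-- Q37: the enveloping Taylor polynomials of the cosine. -/
def CosEnv : Prop :=
  ∀ (j : ℕ) (s : ℝ),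
    0 ≤ (-1) ^ (j + 1) * (Real.cos s - ∑ i ∈ Finset.range (j + 1),
      (-1) ^ i * s ^ (2 * i) / ((2 * i).factorial : ℝ)) ∧
    (-1) ^ (j + 1) * (Real.cos s - ∑ i ∈ Finset.range (j + 1),
      (-1) ^ i * s ^ (2 * i) / ((2 * i).factorial : ℝ)) ≤
      s ^ (2 * j + 2) / ((2 * j + 2).factorial : ℝ)

/-- Q38: the quadratic term. -/
def Phi1Facts : Prop :=
  ∀ (q : ℕ), 1 ≤ q → ∀ V : En q → ℝ, Measurable V → ∀ M R : ℝ, (∀ x, |V x| ≤ M) →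
    (∀ x, R < ‖x‖ → V x = 0) → ∀ j < q, HS q V (2 * j) →
    ∃ (a : ℕ → ℝ) (Rj : ℝ → ℝ),
      (∀ e > 0, Phi q V 1 e = ∑ i ∈ Finset.range (j + 1), a i * e ^ i + (-1) ^ (j + 1) * Rj e) ∧
      (∀ e > 0, 0 ≤ Rj e) ∧
      Tendsto (fun e => Rj e / e ^ j) (𝓝[>] 0) (𝓝 0) ∧
      (a 0 = 0 → V =ᵐ[volume] 0) ∧
      ((∃ C : ℝ, ∀ᶠ e in 𝓝[>] 0, Rj e ≤ C * e ^ (j + 1)) → HS q V (2 * (j + 1 : ℕ))) ∧
      (HS q V (2 * j + 1) → Tendsto (fun e => Rj e / e ^ ((j : ℝ) + 1 / 2)) (𝓝[>] 0) (𝓝 0))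

/-- Q39: a Gagliardo-Nirenberg inequality for iterated directional derivatives. -/
def GagNir : Prop :=
  ∀ (n J : ℕ), 1 ≤ J → ∃ C : ℝ, 0 ≤ C ∧ ∀ f : EuclideanSpace ℝ (Fin n) → ℝ,
    ContDiff ℝ (⊤ : ℕ∞) f → HasCompactSupport f → ∀ B S ρ : ℝ, (∀ x, |f x| ≤ B) →
    (∀ L : List (EuclideanSpace ℝ (Fin n)), L.length = J → (∀ v ∈ L, ‖v‖ ≤ ρ) →
      ∫ x, (ld L f x) ^ 2 ≤ S) →
    ∀ L : List (EuclideanSpace ℝ (Fin n)), 1 ≤ L.length → L.length ≤ J → (∀ v ∈ L, ‖v‖ ≤ ρ) →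
      ∫ x, |ld L f x| ^ (2 * (J : ℝ) / L.length) ≤
        C * B ^ (2 * (J : ℝ) / L.length - 2) * S

/-- Q40: the multilinear bound. -/
def MultiBd : Prop :=
  ∀ (n J m : ℕ), 1 ≤ m → ∃ C : ℝ, 0 ≤ C ∧ ∀ f : EuclideanSpace ℝ (Fin n) → ℝ,
    ContDiff ℝ (⊤ : ℕ∞) f → HasCompactSupport f → ∀ B S ρ : ℝ, (∀ x, |f x| ≤ B) →
    (∀ L : List (EuclideanSpace ℝ (Fin n)), L.length = J → (∀ v ∈ L, ‖v‖ ≤ ρ) →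
      ∫ x, (ld L f x) ^ 2 ≤ S) →
    ∀ L : Fin (m + 1) → List (EuclideanSpace ℝ (Fin n)), ∑ i, (L i).length = 2 * J →
      (∀ i, ∀ v ∈ L i, ‖v‖ ≤ ρ) → ∀ y : Fin (m + 1) → EuclideanSpace ℝ (Fin n),
      |∫ x, ∏ i, ld (L i) f (x + y i)| ≤ C * B ^ (m - 1) * S

/-- Q41: the expansion of `Φ_m` for smooth functions. -/
def SmoothExpand : Prop :=
  ∀ (q J m : ℕ), 1 ≤ q → 1 ≤ m → J ≤ q → ∀ B S : ℝ, ∃ C : ℝ, ∀ f : En q → ℝ,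
    ContDiff ℝ (⊤ : ℕ∞) f → HasCompactSupport f → (∀ x, |f x| ≤ B) →
    (∀ (ρ : ℝ) (L : List (En q)), 0 ≤ ρ → L.length = J → (∀ v ∈ L, ‖v‖ ≤ ρ) →
      ∫ x, (ld L f x) ^ 2 ≤ S * ρ ^ (2 * J)) →
    ∃ c : ℕ → ℝ, ∀ e : ℝ, 0 < e → e ≤ 1 →
      |Phi q f m e - ∑ i ∈ Finset.range J, c i * e ^ i| ≤ C * e ^ J

/-- Q42: mollification. -/
def Mollify : Prop :=
  ∀ (q J : ℕ), ∀ V : En q → ℝ, Measurable V → ∀ M R : ℝ, (∀ x, |V x| ≤ M) →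
    (∀ x, R < ‖x‖ → V x = 0) → HS q V (2 * J) →
    ∃ (f : ℕ → En q → ℝ) (S : ℝ), (∀ n, ContDiff ℝ (⊤ : ℕ∞) (f n)) ∧
      (∀ n, HasCompactSupport (f n)) ∧ (∀ n x, |f n x| ≤ M) ∧
      (∀ n, ∀ (ρ : ℝ) (L : List (En q)), 0 ≤ ρ → L.length = J → (∀ v ∈ L, ‖v‖ ≤ ρ) →
        ∫ x, (ld L (f n) x) ^ 2 ≤ S * ρ ^ (2 * J)) ∧
      Tendsto (fun n => ∫ x, |f n x - V x|) atTop (𝓝 0)

/-- Q43: the multilinear terms. -/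
def MultiExpand : Prop :=
  ∀ (q : ℕ), 1 ≤ q → ∀ V : En q → ℝ, Measurable V → ∀ M R : ℝ, (∀ x, |V x| ≤ M) →
    (∀ x, R < ‖x‖ → V x = 0) → ∀ J < q, HS q V (2 * J) → ∀ m ≥ 1,
    ∃ (c : ℕ → ℝ) (C : ℝ), ∀ e : ℝ, 0 < e → e ≤ 1 →
      |Phi q V m e - ∑ i ∈ Finset.range J, c i * e ^ i| ≤ C * e ^ J

/-- Q44: conclusion on the real side. -/
def RealSide : Prop :=
  ∀ (q : ℕ), 1 ≤ q → ∀ V : En q → ℝ, Measurable V → ∀ M R : ℝ, (∀ x, |V x| ≤ M) →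
    (∀ x, R < ‖x‖ → V x = 0) → ∀ (N : ℕ) (α : ℕ → ℝ) (C E1 : ℝ), 1 ≤ E1 →
    (∀ E ≥ E1, |FF q V E + (N : ℝ) / (2 * q) * E⁻¹ -
      ∑ i ∈ Finset.range q, α i * E ^ ((q : ℝ) - 3 / 2 - i)| ≤ C * E ^ (-(3 / 2) : ℝ)) →
    (Odd q ∨ HS q V (2 * q - 1)) → N = 0 ∧ ((∀ i < q, α i = 0) → V =ᵐ[volume] 0)

end Pool.Agent.Work.MP_f2af60_mp
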