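import Pool.Agent.Work.MP_f2af60_mp.Defs

/-!
# MP_f2af60_mp: resonances as poles

* `L2` is `L²(ℝ⁵)`.
* `IsResolvent V k f u`: `u = R_V(i k) f`, that is `u ∈ L²` and `-Δ u + V u + k² u = f` in the sense
  of tempered distributions.
* `IsPole V z`: `z` is a pole of the meromorphic continuation of `λ ↦ ∫ (R_V(λ) f) g` for some
  compactly supported `f, g ∈ L²`.
-/

namespace Pool.Agent.Work.MP_f2af60_mp

open MeasureTheory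
open scoped SchwartzMap Laplacian FourierTransform

/-- The space `L²(ℝ⁵)`. -/
noncomputable abbrev L2 := Lp ℂ 2 (volume : Measure E5)

/-- `u = R_V(i k) f`, where `R_V(λ) = (-Δ + V - λ²)⁻¹`: the function `u ∈ L²` solves
`-Δ u + V u + k² u = f` in the sense of tempered distributions. -/
def IsResolvent (V : E5 → ℝ) (k : ℝ) (f u : L2) : Prop :=
  ∀ φ : 𝓢(E5, ℂ), ∫ x, u x * (-(Δ φ) x + ((V x : ℂ) + (k : ℂ) ^ 2) * φ x) = ∫ x, f x * φ x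

/-- `f` vanishes (almost everywhere) outside a bounded set. -/
def CompSupp (f : L2) : Prop := ∃ R : ℝ, ∀ᵐ x, R < ‖x‖ → f x = 0

/-- `F` is the meromorphic continuation of `λ ↦ ∫ (R_V(λ) f) g`: it is meromorphic on `ℂ`, and for
all large `k` the equation defining `R_V(i k) f` has exactly one solution `u ∈ L²`, and
`F(i k) = ∫ u g`. -/
def IsContinuation (V : E5 → ℝ) (f g : L2) (F : ℂ → ℂ) : Prop :=
  (∀ z, MeromorphicAt F z) ∧ ∃ k₀ : ℝ, ∀ k > k₀, ∃ u : L2,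
    (∀ v : L2, IsResolvent V k f v ↔ v = u) ∧ F (Complex.I * (k : ℂ)) = ∫ x, u x * g x

/-- `z` is a pole of the meromorphic continuation of `R_V : L²_comp → L²_loc`. -/
def IsPole (V : E5 → ℝ) (z : ℂ) : Prop :=
  ∃ f g : L2, CompSupp f ∧ CompSupp g ∧ ∃ F : ℂ → ℂ, IsContinuation V f g F ∧
    meromorphicOrderAt F z < 0

/-! ### Statements of the building blocks -/

/-- P1: the integral over the heat kernel. -/
def HeatIntegral : Prop :=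
  ∀ k r : ℝ, 0 < k → 0 < r →
    IntegrableOn (fun t : ℝ => ((4 * Real.pi * t) ^ (5 / 2 : ℝ))⁻¹ *
      Real.exp (-(r ^ 2 / (4 * t)) - k ^ 2 * t)) (Set.Ioi 0) ∧
    ∫ t in Set.Ioi (0 : ℝ), ((4 * Real.pi * t) ^ (5 / 2 : ℝ))⁻¹ *
      Real.exp (-(r ^ 2 / (4 * t)) - k ^ 2 * t) =
      Real.exp (-(k * r)) * (1 + k * r) / (8 * Real.pi ^ 2 * r ^ 3)

/-- P2: the heat kernel on the Fourier side. -/
def HeatFourier : Prop :=
  ∀ (t : ℝ), 0 < t → ∀ φ : 𝓢(E5, ℂ), ∀ y : E5,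
    ∫ x, (((((4 * Real.pi * t) ^ (5 / 2 : ℝ))⁻¹ * Real.exp (-(‖x - y‖ ^ 2 / (4 * t))) : ℝ)) : ℂ) *
      φ x = ∫ ξ, ((Real.exp (-(4 * Real.pi ^ 2 * t * ‖ξ‖ ^ 2)) : ℝ) : ℂ) *
        (Complex.exp (2 * Real.pi * Complex.I * (inner ℝ ξ y : ℝ)) * (𝓕 φ) ξ)

/-- P3: the kernel `G (i k)` is the fundamental solution of `-Δ + k²`. -/
def Fundamental : Prop :=
  ∀ k : ℝ, 0 < k → ∀ φ : 𝓢(E5, ℂ), ∀ y : E5,
    ∫ x, G (Complex.I * (k : ℂ)) (x - y) * (-(Δ φ) x + (k : ℂ) ^ 2 * φ x) = φ y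

/-- P4: the free resolvent on `L²`. -/
def FreeResolvent : Prop :=
  ∀ k : ℝ, 0 < k → ∃ R₀ : L2 →L[ℂ] L2, ‖R₀‖ ≤ 1 / k ^ 2 ∧ ∀ f u : L2,
    (∀ φ : 𝓢(E5, ℂ), ∫ x, u x * (-(Δ φ) x + (k : ℂ) ^ 2 * φ x) = ∫ x, f x * φ x) ↔ u = R₀ f

/-- P5: existence and uniqueness of `R_V(i k) f` for large `k`. -/
def ResolventExistsUnique : Prop :=
  ∀ V : E5 → ℝ, Measurable V → ∀ M : ℝ, (∀ x, |V x| ≤ M) → ∀ k : ℝ, 0 < k → M < k ^ 2 →
    ∀ f : L2, ∃! u : L2, IsResolvent V k f u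

/-- P6: meromorphy of the inverse. -/
def MeroInverse : Prop :=
  ∀ (X : Type) [NormedAddCommGroup X] [NormedSpace ℂ X] [CompleteSpace X] (A : ℂ → X →L[ℂ] X),
    Differentiable ℂ A → ∀ z0 : ℂ, ∀ (N : ℕ) (φ : Fin N → X) (ψ : Fin N → ℂ → (X →L[ℂ] ℂ)),
    (∀ k, Differentiable ℂ (ψ k)) →
    (∀ᶠ z in nhds z0, ‖A z - FRop φ (fun k => ψ k z)‖ ≤ 1 / 2) →
    (∃ᶠ z in nhdsWithin z0 {z0}ᶜ, IsUnit (1 + A z)) →
    MeromorphicAt (fun z => Ring.inverse (1 + A z)) z0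

/-- P7: a kernel vector produces a pole. -/
def PoleOfKernel : Prop :=
  ∀ (X : Type) [NormedAddCommGroup X] [NormedSpace ℂ X] [CompleteSpace X] (A : ℂ → X →L[ℂ] X)
    (z0 : ℂ), ContinuousAt A z0 → MeromorphicAt (fun z => Ring.inverse (1 + A z)) z0 →
    (∀ᶠ z in nhdsWithin z0 {z0}ᶜ, IsUnit (1 + A z)) → ∀ u : X, u ≠ 0 → u + A z0 u = 0 →
    ∃ w u₀ : X, u₀ ≠ 0 ∧ u₀ + A z0 u₀ = 0 ∧ ∀ P : X →L[ℂ] ℂ, P u₀ ≠ 0 →
      meromorphicOrderAt (fun z => P w - P (Ring.inverse (1 + A z) w)) z0 < 0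

end Pool.Agent.Work.MP_f2af60_mp
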