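import Pool.Agent.Work.MP_f2af60_mp.Stmts

/-!
# MP_f2af60_mp: assembly
-/

namespace Pool.Agent.Work.MP_f2af60_mp

open MeasureTheory Metric Filter Topology

section Loc

variable {K : Type} [MetricSpace K] [CompactSpace K] [MeasurableSpace K] [BorelSpace K]

/-- the distance as a continuous function on `K × K`. -/
noncomputable def dlt (K : Type) [MetricSpace K] : C(K × K, ℂ) :=
  ⟨fun p => ((dist p.1 p.2 : ℝ) : ℂ), by fun_prop⟩

/-- the tensor product of two functions. -/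
noncomputable def tens (f g : C(K, ℂ)) : C(K × K, ℂ) :=
  ⟨fun p => f p.1 * g p.2, by fun_prop⟩

@[simp] lemma dlt_apply (x y : K) : dlt K (x, y) = ((dist x y : ℝ) : ℂ) := rfl
@[simp] lemma tens_apply (f g : C(K, ℂ)) (x y : K) : tens f g (x, y) = f x * g y := rfl

variable (μ : Measure K) (C : ℝ) (hS : Sp μ C) (V : K → ℝ) (hV : Measurable V) (M : ℝ)
  (hM : ∀ x, |V x| ≤ M)

include hS hV hM in
/-- integrability of the density against continuous functions. -/
lemma integrable_cont (f g : C(K, ℂ)) : Integrable (fun y => f y * (V y : ℂ) * g y) μ := by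
  haveI := hS.fin
  have hc : Continuous (fun y => f y * g y) := by fun_prop
  have h1 : Integrable (fun y => f y * g y) μ :=
    hc.integrable_of_hasCompactSupport (HasCompactSupport.of_compactSpace _)
  have h2 : Integrable (fun y => (V y : ℂ) * (f y * g y)) μ := by
    refine h1.bdd_mul (c := M) ?_ ?_
    · exact (Complex.measurable_ofReal.comp hV).aestronglyMeasurable
    · refine Eventually.of_forall fun y => ?_
      rw [Complex.norm_real]; exact hM y
  refine h2.congr (Eventually.of_forall fun y => ?_)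
  show (V y : ℂ) * (f y * g y) = f y * (V y : ℂ) * g y
  ring

include hS hV hM in
/-- the functional `u ↦ ∫ ψ V u`. -/
lemma exists_functional (ψ : C(K, ℂ)) :
    ∃ P : C(K, ℂ) →L[ℂ] ℂ, (∀ u, P u = ∫ y, ψ y * (V y : ℂ) * u y ∂μ) ∧
      ‖P‖ ≤ ‖ψ‖ * |M| * μ.real Set.univ := by
  haveI := hS.fin
  let L : C(K, ℂ) →ₗ[ℂ] ℂ :=
    { toFun := fun u => ∫ y, ψ y * (V y : ℂ) * u y ∂μ
      map_add' := by
        intro u v
        rw [← integral_add (integrable_cont μ C hS V hV M hM ψ u)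
          (integrable_cont μ C hS V hV M hM ψ v)]
        refine integral_congr_ae (Eventually.of_forall fun y => ?_)
        simp [mul_add]
      map_smul' := by
        intro a u
        rw [RingHom.id_apply, smul_eq_mul, ← integral_const_mul]
        refine integral_congr_ae (Eventually.of_forall fun y => ?_)
        simp only [ContinuousMap.smul_apply, smul_eq_mul]
        ring }
  have hb : ∀ u, ‖L u‖ ≤ ‖ψ‖ * |M| * μ.real Set.univ * ‖u‖ := by
    intro u
    have : ‖∫ y, ψ y * (V y : ℂ) * u y ∂μ‖ ≤ (‖ψ‖ * |M| * ‖u‖) * μ.real Set.univ := by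
      refine norm_integral_le_of_norm_le_const (Eventually.of_forall fun y => ?_)
      rw [norm_mul, norm_mul, Complex.norm_real]
      have h1 := ψ.norm_coe_le_norm y
      have h2 := u.norm_coe_le_norm y
      have h3 : ‖V y‖ ≤ |M| := (hM y).trans (le_abs_self M)
      gcongr
    calc ‖L u‖ ≤ (‖ψ‖ * |M| * ‖u‖) * μ.real Set.univ := this
      _ = _ := by ring
  refine ⟨L.mkContinuous _ hb, fun u => rfl, L.mkContinuous_norm_le ?_ hb⟩
  positivity

include hS in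
/-- the finite rank operator as a kernel operator. -/
lemma op_finite_rank (O : Ops μ V) (N : ℕ) (φ ψ : Fin N → C(K, ℂ)) (c : Fin N → ℂ)
    (Ψ : Fin N → (C(K, ℂ) →L[ℂ] ℂ)) (hint : ∀ k (u : C(K, ℂ)), Integrable (fun y => ψ k y * (V y : ℂ) * u y) μ)
    (hΨ : ∀ k u, Ψ k u = ∫ y, ψ k y * (V y : ℂ) * u y ∂μ) :
    O.Op (dlt K ^ 3 * ∑ k, c k • tens (φ k) (ψ k)) = FRop φ (fun k => c k • Ψ k) := by
  have := hS.noat
  ext u x
  rw [O.Op_apply]
  have h1 : ∀ᵐ y ∂μ, y ≠ x := by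
    have : μ {x} = 0 := measure_singleton x
    rw [ae_iff]
    simp [this]
  have h2 : ∀ᵐ y ∂μ, (dlt K ^ 3 * ∑ k, c k • tens (φ k) (ψ k)) (x, y) *
      ((((dist x y) ^ 3)⁻¹ : ℝ) : ℂ) * (V y : ℂ) * u y =
      ∑ k, (c k * φ k x) * (ψ k y * (V y : ℂ) * u y) := by
    filter_upwards [h1] with y hy
    have hd : ((dist x y : ℝ) : ℂ) ≠ 0 := by
      exact_mod_cast (dist_pos.2 (Ne.symm hy)).ne'
    have e1 : (dlt K ^ 3 * ∑ k, c k • tens (φ k) (ψ k)) (x, y) =
        ((dist x y : ℝ) : ℂ) ^ 3 * ∑ k, c k * (φ k x * ψ k y) := by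
      simp
    rw [e1, Finset.mul_sum, Finset.sum_mul, Finset.sum_mul, Finset.sum_mul]
    refine Finset.sum_congr rfl fun k _ => ?_
    push_cast
    field_simp
  rw [integral_congr_ae h2, integral_finsetSum]
  · simp only [FRop, FunLike.coe_sum, Finset.sum_apply, ContinuousMap.coe_sum,
      ContinuousLinearMap.smulRight_apply, ContinuousMap.smul_apply, smul_eq_mul]
    refine Finset.sum_congr rfl fun k _ => ?_
    rw [integral_const_mul, ← hΨ k u]
    simp only [_root_.smul_apply, smul_eq_mul]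
    ring
  · intro k _
    exact (hint k u).const_mul _

/-- pointwise bound used in `op_small`. -/
lemma near_pt (d e : ℝ) (hd : 0 ≤ d) (he : 0 < e) :
    ((if d < e then 1 else 0) + e * d ^ 3) * (d ^ 3)⁻¹ ≤
      (if d < e then e * (d ^ 4)⁻¹ else 0) + e := by
  rcases hd.eq_or_lt with h0 | h0
  · subst h0
    simp [he, he.le]
  · have h1 : e * d ^ 3 * (d ^ 3)⁻¹ = e := by
      field_simp
    rw [add_mul, h1]
    split_ifs with h
    · have : (1 : ℝ) * (d ^ 3)⁻¹ ≤ e * (d ^ 4)⁻¹ := by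
        have e1 : (d ^ 3)⁻¹ = d * (d ^ 4)⁻¹ := by field_simp
        rw [one_mul, e1]
        have : 0 ≤ (d ^ 4)⁻¹ := by positivity
        nlinarith
      linarith
    · simp

include hS hM in
/-- the operator of the near part is small. -/
lemma op_small [Nonempty K] (O : Ops μ V) (h : C(K × K, ℂ)) (e : ℝ) (he : 0 < e)
    (hh : ∀ x y, ‖h (x, y)‖ ≤ (if dist x y < e then 1 else 0) + e * dist x y ^ 3) :
    ‖O.Op h‖ ≤ |M| * (C * e ^ 2 + e * μ.real Set.univ) := by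
  have := hS.fin
  obtain ⟨x0⟩ := ‹Nonempty K›
  have hC0 : 0 ≤ C * e := by
    refine le_trans ?_ (hS.small x0 e he)
    exact integral_nonneg fun y => by positivity
  have hC1 : 0 ≤ |M| * (C * e ^ 2 + e * μ.real Set.univ) := by
    have : C * e ^ 2 = C * e * e := by ring
    rw [this]
    have := mul_nonneg hC0 he.le
    positivity
  refine ContinuousLinearMap.opNorm_le_bound _ hC1 fun f => ?_
  rw [ContinuousMap.norm_le _ (by positivity)]
  intro x
  rw [O.Op_apply]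
  have hgi : Integrable (fun y => |M| * ‖f‖ * ((ball x e).indicator
      (fun y => e * ((dist x y) ^ 4)⁻¹) y + e)) μ := by
    refine Integrable.const_mul (Integrable.add ?_ (integrable_const e)) _
    exact ((hS.int x).const_mul e).indicator measurableSet_ball
  refine (norm_integral_le_of_norm_le hgi (Eventually.of_forall fun y => ?_)).trans ?_
  · rw [norm_mul, norm_mul, norm_mul, Complex.norm_real, Complex.norm_real]
    have h2 := f.norm_coe_le_norm y
    have h3 : ‖V y‖ ≤ |M| := (hM y).trans (le_abs_self M)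
    have h4 : ‖((dist x y) ^ 3)⁻¹‖ = ((dist x y) ^ 3)⁻¹ := by
      rw [Real.norm_of_nonneg]; positivity
    rw [h4]
    have h5 : (ball x e).indicator (fun y => e * ((dist x y) ^ 4)⁻¹) y =
        if dist x y < e then e * ((dist x y) ^ 4)⁻¹ else 0 := by
      by_cases hb : dist x y < e
      · rw [Set.indicator_of_mem (by rwa [mem_ball, dist_comm]), if_pos hb]
      · rw [Set.indicator_of_notMem (by rwa [mem_ball, dist_comm]), if_neg hb]
    rw [h5]
    have h6 := near_pt (dist x y) e dist_nonneg he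
    have h7 : ‖h (x, y)‖ * ((dist x y) ^ 3)⁻¹ ≤
        (if dist x y < e then e * ((dist x y) ^ 4)⁻¹ else 0) + e := by
      refine le_trans ?_ h6
      have : 0 ≤ ((dist x y) ^ 3)⁻¹ := by positivity
      exact mul_le_mul_of_nonneg_right (hh x y) this
    calc ‖h (x, y)‖ * ((dist x y) ^ 3)⁻¹ * ‖V y‖ * ‖f y‖
        ≤ ((if dist x y < e then e * ((dist x y) ^ 4)⁻¹ else 0) + e) * |M| * ‖f‖ := by
          have h8 : 0 ≤ ‖h (x, y)‖ * ((dist x y) ^ 3)⁻¹ := by positivity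
          gcongr
      _ = _ := by ring
  · rw [integral_const_mul, integral_add, integral_indicator measurableSet_ball,
      integral_const_mul, integral_const, smul_eq_mul]
    · have h9 := hS.small x e he
      have h10 : e * ∫ y in ball x e, ((dist x y) ^ 4)⁻¹ ∂μ + μ.real Set.univ * e ≤
          C * e ^ 2 + e * μ.real Set.univ := by
        have := mul_le_mul_of_nonneg_left h9 he.le
        nlinarith
      calc |M| * ‖f‖ * (e * ∫ y in ball x e, ((dist x y) ^ 4)⁻¹ ∂μ + μ.real Set.univ * e)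
          ≤ |M| * ‖f‖ * (C * e ^ 2 + e * μ.real Set.univ) := by gcongr
        _ = _ := by ring
    · exact ((hS.int x).const_mul e).indicator measurableSet_ball
    · exact integrable_const e

end Loc

/-- the logarithmic derivative. -/
noncomputable def ww {K : Type} [MetricSpace K] [CompactSpace K] [MeasurableSpace K] [BorelSpace K]
    {μ : Measure K} {V : K → ℝ} (O : Ops μ V) (h l : ℂ → C(K × K, ℂ)) (z : ℂ) : ℂ :=
  -O.tr (Ring.inverse (1 + O.Op (h z))) (O.Cp (h z) (l z))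

section Inv

variable {X : Type} [NormedAddCommGroup X] [NormedSpace ℂ X] [CompleteSpace X]

lemma inv_exists (a : X →L[ℂ] X) (ha : ‖a‖ ≤ 1 / 2) :
    IsUnit (1 + a) := by
  have h : ‖-a‖ < 1 := by rw [norm_neg]; linarith
  have := isUnit_one_sub_of_norm_lt_one h
  simpa using this

omit [CompleteSpace X] in
lemma inv_norm (a T : X →L[ℂ] X) (ha : ‖a‖ ≤ 1 / 2) (hT : T * (1 + a) = 1) : ‖T‖ ≤ 2 := by
  have h1 : T = 1 - T * a := by
    rw [mul_add, mul_one] at hT
    rw [← hT]; abel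
  have h2 : ‖T‖ ≤ ‖(1 : X →L[ℂ] X)‖ + ‖T‖ * ‖a‖ := by
    calc ‖T‖ = ‖1 - T * a‖ := by rw [← h1]
      _ ≤ ‖(1 : X →L[ℂ] X)‖ + ‖T * a‖ := norm_sub_le _ _
      _ ≤ _ := by gcongr; exact norm_mul_le _ _
  have h3 : ‖(1 : X →L[ℂ] X)‖ ≤ 1 := ContinuousLinearMap.norm_id_le
  have h4 : ‖T‖ * ‖a‖ ≤ ‖T‖ * (1 / 2) := by gcongr
  linarith

omit [CompleteSpace X] in
lemma inv_unique (a T : X →L[ℂ] X) (h1 : T * (1 + a) = 1) (h2 : (1 + a) * T = 1) :
    T = Ring.inverse (1 + a) := by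
  have hu : IsUnit (1 + a) := ⟨⟨1 + a, T, h2, h1⟩, rfl⟩
  calc T = T * ((1 + a) * Ring.inverse (1 + a)) := by rw [Ring.mul_inverse_cancel _ hu, mul_one]
    _ = Ring.inverse (1 + a) := by rw [← mul_assoc, h1, one_mul]

end Inv

section Calc

variable {X Y Z : Type} [NormedAddCommGroup X] [NormedSpace ℂ X] [NormedAddCommGroup Y]
  [NormedSpace ℂ Y] [NormedAddCommGroup Z] [NormedSpace ℂ Z]

lemma clm_hasDerivAt (L : X →L[ℂ] Y) (f : ℂ → X) (f' : X) (z : ℂ) (h : HasDerivAt f f' z) :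
    HasDerivAt (fun z => L (f z)) (L f') z :=
  L.hasFDerivAt.comp_hasDerivAt z h

lemma clm_differentiableAt (L : X →L[ℂ] Y) (f : ℂ → X) (z : ℂ) (h : DifferentiableAt ℂ f z) :
    DifferentiableAt ℂ (fun z => L (f z)) z :=
  L.differentiableAt.comp z h

lemma clm₂_differentiableAt (L : X →L[ℂ] Y →L[ℂ] Z) (f : ℂ → X) (g : ℂ → Y) (z : ℂ)
    (h : DifferentiableAt ℂ f z) (h' : DifferentiableAt ℂ g z) :
    DifferentiableAt ℂ (fun z => L (f z) (g z)) z :=
  (L.differentiableAt.comp z h).clm_apply h'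

lemma inverse_differentiableAt [CompleteSpace X] (a : ℂ → X →L[ℂ] X) (z : ℂ)
    (h : DifferentiableAt ℂ a z) (hu : IsUnit (1 + a z)) :
    DifferentiableAt ℂ (fun z => Ring.inverse (1 + a z)) z := by
  have := (differentiableAt_inverse (𝕜 := ℂ) hu).comp z (h.const_add 1)
  exact this

end Calc

section Step

variable {K : Type} [MetricSpace K] [CompactSpace K] [MeasurableSpace K] [BorelSpace K]

/-- a constant depending only on the kernel operators. -/
noncomputable def trc {μ : Measure K} {V : K → ℝ} (O : Ops μ V) : ℝ := ‖O.tr‖ * 2 * ‖O.Cp‖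

omit [BorelSpace K] [MeasurableSpace K] in
lemma trc_nonneg [MeasurableSpace K] [BorelSpace K] {μ : Measure K} {V : K → ℝ} (O : Ops μ V) :
    0 ≤ trc O := by
  unfold trc
  positivity

theorem loc_step [Nonempty K] (h5 : TraceIdentity) (μ : Measure K) (Cs : ℝ) (hS : Sp μ Cs)
    (V : K → ℝ) (hV : Measurable V) (M : ℝ) (hM : ∀ x, |V x| ≤ M) (O : Ops μ V)
    (h l : ℂ → C(K × K, ℂ)) (hhd : Differentiable ℂ h) (hld : Differentiable ℂ l)
    (hh' : ∀ z, deriv h z = dlt K ^ 2 * l z) (r e D B : ℝ) (he : 0 < e) (hB : 0 ≤ B)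
    (hD : ∀ x y : K, dist x y ≤ D)
    (hsmall : |M| * (Cs * e ^ 2 + e * μ.real Set.univ) ≤ 1 / 2)
    (N : ℕ) (φ ψ : Fin N → C(K, ℂ)) (c : Fin N → ℂ → ℂ) (hcd : ∀ k, Differentiable ℂ (c k))
    (hdiag : ∀ k x, φ k x * ψ k x = 0)
    (hb1 : ∀ z ∈ ball (0 : ℂ) r, ∀ x y : K,
      ‖h z (x, y) - ((dist x y : ℝ) : ℂ) ^ 3 * ∑ k, c k z * φ k x * ψ k y‖ ≤
            (if dist x y < e then 1 else 0) + e * dist x y ^ 3)
    (hb2 : ∀ z ∈ ball (0 : ℂ) r, ∀ x y : K,
      ‖l z (x, y) - ((dist x y : ℝ) : ℂ) * ∑ k, deriv (c k) z * φ k x * ψ k y‖ ≤ B) :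
    ∃ (P : Fin N → ℂ → (C(K, ℂ) →L[ℂ] ℂ)) (b : ℂ → ℂ),
      (∀ k z, ‖P k z‖ ≤ ‖c k z‖ * (‖ψ k‖ * |M| * μ.real Set.univ)) ∧
      (∀ k, Differentiable ℂ (P k)) ∧
      DifferentiableOn ℂ b (ball 0 r) ∧
      (∀ z ∈ ball (0 : ℂ) r, ‖b z‖ ≤ trc O * (1 + e * D ^ 3) * B) ∧
      (∀ z ∈ ball (0 : ℂ) r, ‖O.Op (h z) - FRop φ (fun k => P k z)‖ ≤ 1 / 2) ∧
      (∀ z ∈ ball (0 : ℂ) r, ∀ T T₁ A₁' : C(K, ℂ) →L[ℂ] C(K, ℂ),
        T * (1 + O.Op (h z)) = 1 → (1 + O.Op (h z)) * T = 1 →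
        T₁ * (1 + (O.Op (h z) - FRop φ (fun k => P k z))) = 1 →
        (1 + (O.Op (h z) - FRop φ (fun k => P k z))) * T₁ = 1 →
        HasDerivAt (fun z => O.Op (h z) - FRop φ (fun k => P k z)) A₁' z →
        ∑ k, (deriv (P k) z) (T (φ k)) - ∑ k, P k z (T₁ (A₁' (T (φ k)))) =
          ww O h l z - b z) := by
  have hfin := hS.fin
  choose Ψ hΨ hΨn using fun k => exists_functional μ Cs hS V hV M hM (ψ k)
  set tS : ℂ → C(K × K, ℂ) := fun z => ∑ k, c k z • tens (φ k) (ψ k) with htS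
  set h₁ : ℂ → C(K × K, ℂ) := fun z => h z - dlt K ^ 3 * tS z with hh₁
  set l₁ : ℂ → C(K × K, ℂ) := fun z => l z - dlt K * ∑ k, deriv (c k) z • tens (φ k) (ψ k) with hl₁
  have hA1 : ∀ z, O.Op (h z) - FRop φ (fun k => c k z • Ψ k) = O.Op (h₁ z) := by
    intro z
    rw [hh₁]
    simp only [map_sub]
    rw [htS]
    simp only
    rw [op_finite_rank μ Cs hS V O N φ ψ (fun k => c k z) Ψ
      (fun k u => integrable_cont μ Cs hS V hV M hM (ψ k) u) hΨ]
  have htSd : ∀ z, HasDerivAt tS (∑ k, deriv (c k) z • tens (φ k) (ψ k)) z := by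
    intro z
    rw [htS]
    refine HasDerivAt.fun_sum fun k _ => ?_
    exact (hcd k z).hasDerivAt.smul_const _
  have hh₁d : ∀ z, HasDerivAt h₁ (dlt K ^ 2 * l₁ z) z := by
    intro z
    have h2 := (hhd z).hasDerivAt.sub ((htSd z).const_mul (dlt K ^ 3))
    have h3 : deriv h z - dlt K ^ 3 * (∑ k, deriv (c k) z • tens (φ k) (ψ k)) =
        dlt K ^ 2 * l₁ z := by
      rw [hh' z, hl₁]
      ring
    rw [h3] at h2
    exact h2
  have hl₁d : Differentiable ℂ l₁ := by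
    have h2 : ∀ k, Differentiable ℂ (deriv (c k)) := fun k =>
      ((hcd k).contDiff (n := 2)).differentiable_deriv_two
    rw [hl₁]
    refine hld.sub (Differentiable.const_mul ?_ _)
    refine Differentiable.fun_sum fun k _ => ?_
    exact (h2 k).smul_const _
  have hh₁n : ∀ z ∈ ball (0 : ℂ) r, ‖h₁ z‖ ≤ 1 + e * D ^ 3 := by
    intro z hz
    have hD0 : 0 ≤ D := dist_nonneg.trans (hD (Classical.arbitrary K) (Classical.arbitrary K))
    rw [ContinuousMap.norm_le _ (by positivity)]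
    rintro ⟨x, y⟩
    have h2 := hb1 z hz x y
    have h3 : h₁ z (x, y) = h z (x, y) - ((dist x y : ℝ) : ℂ) ^ 3 *
        ∑ k, c k z * φ k x * ψ k y := by
      rw [hh₁, htS]
      simp [mul_assoc]
    rw [h3]
    refine h2.trans ?_
    have h4 : (if dist x y < e then (1 : ℝ) else 0) ≤ 1 := by split_ifs <;> norm_num
    have h5 : dist x y ^ 3 ≤ D ^ 3 := by
      have := hD x y
      gcongr
    have := mul_le_mul_of_nonneg_left h5 he.le
    linarith
  have hl₁n : ∀ z ∈ ball (0 : ℂ) r, ‖l₁ z‖ ≤ B := by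
    intro z hz
    rw [ContinuousMap.norm_le _ hB]
    rintro ⟨x, y⟩
    have h2 := hb2 z hz x y
    have h3 : l₁ z (x, y) = l z (x, y) - ((dist x y : ℝ) : ℂ) *
        ∑ k, deriv (c k) z * φ k x * ψ k y := by
      rw [hl₁]
      simp [mul_assoc]
    rw [h3]
    exact h2
  have hOp1 : ∀ z ∈ ball (0 : ℂ) r, ‖O.Op (h₁ z)‖ ≤ 1 / 2 := by
    intro z hz
    refine (op_small μ Cs hS V M hM O (h₁ z) e he ?_).trans hsmall
    intro x y
    have h2 := hb1 z hz x y
    have h3 : h₁ z (x, y) = h z (x, y) - ((dist x y : ℝ) : ℂ) ^ 3 *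
        ∑ k, c k z * φ k x * ψ k y := by
      rw [hh₁, htS]
      simp [mul_assoc]
    rw [h3]
    exact h2
  have hunit : ∀ z ∈ ball (0 : ℂ) r, IsUnit (1 + O.Op (h₁ z)) := fun z hz =>
    inv_exists _ (hOp1 z hz)
  have hT1n : ∀ z ∈ ball (0 : ℂ) r, ‖Ring.inverse (1 + O.Op (h₁ z))‖ ≤ 2 := fun z hz =>
    inv_norm _ _ (hOp1 z hz) (Ring.inverse_mul_cancel _ (hunit z hz))
  refine ⟨fun k z => c k z • Ψ k,
    fun z => -O.tr (Ring.inverse (1 + O.Op (h₁ z))) (O.Cp (h₁ z) (l₁ z)), ?_, ?_, ?_, ?_, ?_, ?_⟩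
  · intro k z
    rw [norm_smul]
    exact mul_le_mul_of_nonneg_left (hΨn k) (norm_nonneg _)
  · intro k
    exact (hcd k).smul_const (Ψ k)
  · intro z hz
    have e1 := clm_differentiableAt (X := C(K × K, ℂ)) (Y := C(K, ℂ) →L[ℂ] C(K, ℂ)) O.Op h₁ z (hh₁d z).differentiableAt
    have e2 : DifferentiableAt ℂ (fun z => Ring.inverse (1 + O.Op (h₁ z))) z :=
      inverse_differentiableAt (fun z => O.Op (h₁ z)) z e1 (hunit z hz)
    have e5 : DifferentiableAt ℂ (fun z => O.Cp (h₁ z) (l₁ z)) z :=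
      clm₂_differentiableAt O.Cp h₁ l₁ z (hh₁d z).differentiableAt (hl₁d z)
    have e6 := clm₂_differentiableAt (X := C(K, ℂ) →L[ℂ] C(K, ℂ)) (Y := C(K × K, ℂ)) (Z := ℂ)
      O.tr (fun z => Ring.inverse (1 + O.Op (h₁ z))) (fun z => O.Cp (h₁ z) (l₁ z)) z e2 e5
    exact e6.neg.differentiableWithinAt
  · intro z hz
    rw [norm_neg]
    calc ‖O.tr (Ring.inverse (1 + O.Op (h₁ z))) (O.Cp (h₁ z) (l₁ z))‖
        ≤ ‖O.tr (Ring.inverse (1 + O.Op (h₁ z)))‖ * ‖O.Cp (h₁ z) (l₁ z)‖ :=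
          ContinuousLinearMap.le_opNorm _ _
      _ ≤ (‖O.tr‖ * ‖Ring.inverse (1 + O.Op (h₁ z))‖) * (‖O.Cp (h₁ z)‖ * ‖l₁ z‖) := by
          gcongr
          · exact ContinuousLinearMap.le_opNorm _ _
          · exact ContinuousLinearMap.le_opNorm _ _
      _ ≤ (‖O.tr‖ * ‖Ring.inverse (1 + O.Op (h₁ z))‖) * ((‖O.Cp‖ * ‖h₁ z‖) * ‖l₁ z‖) := by
          gcongr
          exact ContinuousLinearMap.le_opNorm _ _
      _ ≤ (‖O.tr‖ * 2) * ((‖O.Cp‖ * (1 + e * D ^ 3)) * B) := by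
          have h2 := hT1n z hz
          have h3 := hh₁n z hz
          have h4 := hl₁n z hz
          have hD0 : 0 ≤ D := dist_nonneg.trans (hD (Classical.arbitrary K) (Classical.arbitrary K))
          gcongr
      _ = trc O * (1 + e * D ^ 3) * B := by
          unfold trc
          ring
  · intro z hz
    simp only
    rw [hA1 z]
    exact hOp1 z hz
  · intro z hz T T₁ A₁' hT hT' hT₁ hT₁' hA
    simp only [hA1] at hT₁ hT₁' hA
    have e1 := clm_hasDerivAt (X := C(K × K, ℂ)) (Y := C(K, ℂ) →L[ℂ] C(K, ℂ)) O.Op h₁ _ z (hh₁d z)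
    have e2 : A₁' = O.Op (dlt K ^ 2 * l₁ z) := hA.unique e1
    have e3 : ∀ k, deriv (fun z => c k z • Ψ k) z = deriv (c k) z • Ψ k := fun k =>
      ((hcd k z).hasDerivAt.smul_const (Ψ k)).deriv
    have key := h5 K μ Cs hS V hV M hM O N (h z) (l z) (h₁ z) (l₁ z) (dlt K ^ 2 * l₁ z) φ ψ
      (fun k => c k z) (fun k => deriv (c k) z) ?_ ?_ ?_ ?_ T T₁ hT hT' hT₁ hT₁' Ψ hΨ
    · simp only [ww]
      rw [← inv_unique _ T hT hT', ← inv_unique _ T₁ hT₁ hT₁', e2]
      simp only [e3, _root_.smul_apply, smul_eq_mul]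
      rw [key]
      ring
    · intro x y
      rw [hh₁, htS]
      simp [mul_assoc]
    · intro x y
      rw [hl₁]
      simp [mul_assoc]
    · intro y
      refine Finset.sum_eq_zero fun k _ => ?_
      rw [mul_assoc, hdiag k y, mul_zero]
    · intro x y
      simp

end Step

/-- The hypothesis of `Glue` for the concrete families. -/
theorem loc_hyp (h1 : SpBall) (h5 : TraceIdentity) (h11 : Decomposition)
    (R : ℝ) (hR : 0 < R) (V : E5 → ℝ) (hV : Measurable V) (M : ℝ)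
    (hM : ∀ x, |V x| ≤ M) (O : Ops (muB R) (fun x : closedBall (0 : E5) R => V x))
    (h l : ℂ → C(closedBall (0 : E5) R × closedBall (0 : E5) R, ℂ))
    (hh : ∀ z x y, h z (x, y) = gh z (dist x y)) (hl : ∀ z x y, l z (x, y) = gl z (dist x y))
    (hhd : Differentiable ℂ h) (hld : Differentiable ℂ l)
    (hh' : ∀ z x y, deriv h z (x, y) = ((dist x y : ℝ) : ℂ) ^ 2 * gl z (dist x y)) :
    ∃ (C : ℝ) (n : ℕ), ∀ r : ℕ, 1 ≤ r → ∃ (N : ℕ) (φ : Fin N → C(closedBall (0 : E5) R, ℂ))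
      (ψ : Fin N → ℂ → (C(closedBall (0 : E5) R, ℂ) →L[ℂ] ℂ)) (b : ℂ → ℂ),
      (N : ℝ) ≤ C * (r : ℝ) ^ n ∧ (∀ k, ‖φ k‖ ≤ Real.exp (C * (r : ℝ) ^ n)) ∧
      (∀ k, Differentiable ℂ (ψ k)) ∧
      (∀ k, ∀ l ∈ ball (0 : ℂ) r, ‖ψ k l‖ ≤ Real.exp (C * (r : ℝ) ^ n)) ∧
      DifferentiableOn ℂ b (ball 0 r) ∧ (∀ l ∈ ball (0 : ℂ) r, ‖b l‖ ≤ C * (r : ℝ) ^ n) ∧
      (∀ l ∈ ball (0 : ℂ) r, ‖O.Op (h l) - FRop φ (fun k => ψ k l)‖ ≤ 1 / 2) ∧
      (∀ z ∈ ball (0 : ℂ) r, ∀ T T₁ A₁' : C(closedBall (0 : E5) R, ℂ) →L[ℂ]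
          C(closedBall (0 : E5) R, ℂ),
        T * (1 + O.Op (h z)) = 1 → (1 + O.Op (h z)) * T = 1 →
        T₁ * (1 + (O.Op (h z) - FRop φ (fun k => ψ k z))) = 1 →
        (1 + (O.Op (h z) - FRop φ (fun k => ψ k z))) * T₁ = 1 →
        HasDerivAt (fun z => O.Op (h z) - FRop φ (fun k => ψ k z)) A₁' z →
        ∑ k, (deriv (ψ k) z) (T (φ k)) - ∑ k, ψ k z (T₁ (A₁' (T (φ k)))) =
          ww O h l z - b z) := by
  obtain ⟨Cs, hCs, hSp⟩ := h1 R hR
  have hfin := hSp.fin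
  have hKn : Nonempty (closedBall (0 : E5) R) := ⟨⟨0, by simp [hR.le]⟩⟩
  have hV' : Measurable (fun x : closedBall (0 : E5) R => V x) := hV.comp measurable_subtype_coe
  have hM' : ∀ x : closedBall (0 : E5) R, |V x| ≤ M := fun x => hM x
  have hmu0 : 0 ≤ (muB R).real Set.univ := measureReal_nonneg
  have hD : ∀ x y : closedBall (0 : E5) R, dist x y ≤ 2 * R := by
    intro x y
    have h1 := mem_closedBall.1 x.2
    have h2 := mem_closedBall.1 y.2
    calc dist x y = dist (x : E5) y := rfl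
      _ ≤ dist (x : E5) 0 + dist 0 (y : E5) := dist_triangle _ _ _
      _ ≤ 2 * R := by rw [dist_comm 0 (y : E5)]; linarith
  obtain ⟨e, he, he1, hsmall⟩ : ∃ e : ℝ, 0 < e ∧ e ≤ 1 ∧
      |M| * (Cs * e ^ 2 + e * (muB R).real Set.univ) ≤ 1 / 2 := by
    have hden : 0 < 2 * (|M| * (Cs + (muB R).real Set.univ) + 1) := by positivity
    have hq : 0 ≤ |M| * (Cs + (muB R).real Set.univ) := by positivity
    refine ⟨1 / (2 * (|M| * (Cs + (muB R).real Set.univ) + 1)), by positivity, ?_, ?_⟩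
    · rw [div_le_one hden]
      linarith
    · have he1 : 1 / (2 * (|M| * (Cs + (muB R).real Set.univ) + 1)) ≤ 1 := by
        rw [div_le_one hden]
        linarith
      have he0 : 0 < 1 / (2 * (|M| * (Cs + (muB R).real Set.univ) + 1)) := by positivity
      have h3 : ∀ e : ℝ, 0 < e → e ≤ 1 → |M| * (Cs * e ^ 2 + e * (muB R).real Set.univ) ≤
          |M| * (Cs + (muB R).real Set.univ) * e := by
        intro e h0 h1
        have h2 : e ^ 2 ≤ e := by nlinarith
        have : Cs * e ^ 2 + e * (muB R).real Set.univ ≤ (Cs + (muB R).real Set.univ) * e := by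
          nlinarith
        calc |M| * (Cs * e ^ 2 + e * (muB R).real Set.univ)
            ≤ |M| * ((Cs + (muB R).real Set.univ) * e) := by gcongr
          _ = _ := by ring
      refine (h3 _ he0 he1).trans ?_
      rw [mul_one_div, div_le_iff₀ hden]
      linarith
  obtain ⟨C1, n1, hdec⟩ := h11 R e hR he
  set C2 : ℝ := trc O * (1 + e * (2 * R) ^ 3) * |C1| with hC2
  have hC2n : 0 ≤ C2 := by
    have := trc_nonneg O
    positivity
  have hMmu : 0 ≤ |M| * (muB R).real Set.univ := by positivity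
  refine ⟨2 * |C1| + |M| * (muB R).real Set.univ + C2, n1 + 1, fun r hr => ?_⟩
  obtain ⟨N, φ, ψ, c, hN, hφ, hψ, hcd, hcb, hdiag, hb1, hb2⟩ := hdec r hr
  have hr1 : (1 : ℝ) ≤ r := by exact_mod_cast hr
  have hrn : (1 : ℝ) ≤ (r : ℝ) ^ n1 := one_le_pow₀ hr1
  have hrn' : (r : ℝ) ^ n1 ≤ (r : ℝ) ^ (n1 + 1) := by
    rw [pow_succ]; nlinarith
  have hrr : (r : ℝ) ≤ (r : ℝ) ^ (n1 + 1) := by
    rw [pow_succ]; nlinarith
  have hr1' : (1 : ℝ) ≤ (r : ℝ) ^ (n1 + 1) := hr1.trans hrr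
  have hC1 : C1 * (r : ℝ) ^ n1 ≤ |C1| * (r : ℝ) ^ (n1 + 1) := by
    calc C1 * (r : ℝ) ^ n1 ≤ |C1| * (r : ℝ) ^ n1 := by
          gcongr; exact le_abs_self C1
      _ ≤ _ := by gcongr
  have hgoal1 : C1 * (r : ℝ) ^ n1 ≤
      (2 * |C1| + |M| * (muB R).real Set.univ + C2) * (r : ℝ) ^ (n1 + 1) := by
    refine hC1.trans ?_
    have : |C1| ≤ 2 * |C1| + |M| * (muB R).real Set.univ + C2 := by
      have := abs_nonneg C1
      linarith
    gcongr
  obtain ⟨P, b, hP1, hP2, hb3, hb4, hb5, hb6⟩ := loc_step h5 (muB R) Cs hSp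
    (fun x : closedBall (0 : E5) R => V x) hV' M hM' O h l hhd hld
    (by
      intro z
      ext ⟨x, y⟩
      rw [hh' z x y, ContinuousMap.mul_apply, hl z x y]
      simp) (r : ℝ) e (2 * R) (|C1| * r) he (by positivity) hD hsmall N φ ψ c hcd hdiag
    (by
      intro z hz x y
      rw [hh z x y]
      exact hb1 z hz x y)
    (by
      intro z hz x y
      rw [hl z x y]
      refine (hb2 z hz x y).trans ?_
      gcongr
      exact le_abs_self C1)
  refine ⟨N, φ, P, b, hN.trans hgoal1, fun k => (hφ k).trans (Real.exp_le_exp.2 hgoal1), hP2,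
    ?_, hb3, ?_, hb5, hb6⟩
  · intro k z hz
    refine (hP1 k z).trans ?_
    have e1 : |M| * (muB R).real Set.univ ≤
        Real.exp (|M| * (muB R).real Set.univ * (r : ℝ) ^ (n1 + 1)) := by
      have h2 : |M| * (muB R).real Set.univ ≤
          |M| * (muB R).real Set.univ * (r : ℝ) ^ (n1 + 1) := by
        nlinarith
      have h3 := Real.add_one_le_exp (|M| * (muB R).real Set.univ * (r : ℝ) ^ (n1 + 1))
      linarith
    have e2 : ‖c k z‖ ≤ Real.exp (|C1| * (r : ℝ) ^ (n1 + 1)) :=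
      (hcb k z hz).trans (Real.exp_le_exp.2 hC1)
    have e3 : ‖ψ k‖ ≤ Real.exp (|C1| * (r : ℝ) ^ (n1 + 1)) :=
      (hψ k).trans (Real.exp_le_exp.2 hC1)
    calc ‖c k z‖ * (‖ψ k‖ * |M| * (muB R).real Set.univ)
        = ‖c k z‖ * (‖ψ k‖ * (|M| * (muB R).real Set.univ)) := by ring
      _ ≤ Real.exp (|C1| * (r : ℝ) ^ (n1 + 1)) * (Real.exp (|C1| * (r : ℝ) ^ (n1 + 1)) *
          Real.exp (|M| * (muB R).real Set.univ * (r : ℝ) ^ (n1 + 1))) := by gcongr
      _ = Real.exp ((2 * |C1| + |M| * (muB R).real Set.univ) * (r : ℝ) ^ (n1 + 1)) := by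
          rw [← Real.exp_add, ← Real.exp_add]
          congr 1
          ring
      _ ≤ _ := by
          refine Real.exp_le_exp.2 (mul_le_mul_of_nonneg_right ?_ (by positivity))
          linarith
  · intro z hz
    refine (hb4 z hz).trans ?_
    have e1 : trc O * (1 + e * (2 * R) ^ 3) * (|C1| * r) = C2 * r := by
      rw [hC2]; ring
    rw [e1]
    have e2 : C2 * (r : ℝ) ≤ C2 * (r : ℝ) ^ (n1 + 1) := by gcongr
    refine e2.trans ?_
    have e3 : C2 ≤ 2 * |C1| + |M| * (muB R).real Set.univ + C2 := by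
      have := abs_nonneg C1
      linarith
    gcongr

/-- The entire function whose zeros are the points where `1 + A(l)` is not invertible. -/
theorem det_package (h1 : SpBall) (h5 : TraceIdentity) (h7 : Glue) (h11 : Decomposition)
    (h19 : WAsymp) (R : ℝ) (hR : 0 < R) (V : E5 → ℝ) (hV : Measurable V) (M : ℝ)
    (hM : ∀ x, |V x| ≤ M) (hsupp : ∀ x, R < ‖x‖ → V x = 0)
    (O : Ops (muB R) (fun x : closedBall (0 : E5) R => V x))
    (h l : ℂ → C(closedBall (0 : E5) R × closedBall (0 : E5) R, ℂ))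
    (hh : ∀ z x y, h z (x, y) = gh z (dist x y)) (hl : ∀ z x y, l z (x, y) = gl z (dist x y))
    (hhd : Differentiable ℂ h) (hld : Differentiable ℂ l)
    (hh' : ∀ z x y, deriv h z (x, y) = ((dist x y : ℝ) : ℂ) ^ 2 * gl z (dist x y)) :
    ∃ D : ℂ → ℂ, Differentiable ℂ D ∧
      (∃ (C' : ℝ) (m : ℕ), ∀ z, ‖D z‖ ≤ Real.exp (C' * (1 + ‖z‖) ^ m)) ∧ (∃ z, D z ≠ 0) ∧
      (∀ z, D z = 0 → ∃ u : C(closedBall (0 : E5) R, ℂ), u ≠ 0 ∧ u + O.Op (h z) u = 0) ∧
      (∀ z, D z ≠ 0 → IsUnit (1 + O.Op (h z))) ∧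
      (∀ z, D z ≠ 0 → deriv D z = ww O h l z * D z) := by
  obtain ⟨C0, s0, hs0, has⟩ := h19 R hR V hV M hM hsupp O h l hh hl
  obtain ⟨C, n, hloc⟩ := loc_hyp h1 h5 h11 R hR V hV M hM O h l hh hl hhd hld hh'
  have hu : IsUnit (1 + O.Op (h (Complex.I * (s0 : ℂ)))) := inv_exists _ (has s0 le_rfl).1
  have hA : Differentiable ℂ (fun z => O.Op (h z)) := fun z =>
    clm_differentiableAt (X := C(closedBall (0 : E5) R × closedBall (0 : E5) R, ℂ))
      (Y := C(closedBall (0 : E5) R, ℂ) →L[ℂ] C(closedBall (0 : E5) R, ℂ)) O.Op h z (hhd z)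
  obtain ⟨D, hD1, hD2, hD3, hD4, hD5, hD6⟩ := h7 (C(closedBall (0 : E5) R, ℂ))
    (fun z => O.Op (h z)) hA (ww O h l) (Complex.I * (s0 : ℂ))
    (Ring.inverse (1 + O.Op (h (Complex.I * (s0 : ℂ)))))
    (Ring.inverse_mul_cancel _ hu) (Ring.mul_inverse_cancel _ hu) C n hloc
  exact ⟨D, hD1, hD2, ⟨_, by rw [hD3]; exact one_ne_zero⟩, hD4, hD5, hD6⟩

/-- Assembly of all the items. -/
theorem main_infinite (h1 : SpBall) (h2 : ExistsOp) (h3 : ExistsCp) (h4 : ExistsTr)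
    (h5 : TraceIdentity) (h7 : Glue) (h11 : Decomposition) (h13 : FinalComplex)
    (h14 : KkIntegral) (h15 : SSLe) (h16 : SSTendsto) (h18 : Families) (h19 : WAsymp)
    (h20 : KerResonance) (V : E5 → ℝ) (hV : Measurable V) (M R : ℝ) (hM : ∀ x, |V x| ≤ M)
    (hsupp : ∀ x, R < ‖x‖ → V x = 0) (hne : ¬ V =ᵐ[volume] 0) :
    {l : ℂ | IsResonance V l}.Infinite := by
  intro hfin
  apply hne
  -- make the radius positive
  obtain ⟨R', hR', hRR⟩ : ∃ R' : ℝ, 0 < R' ∧ R ≤ R' := ⟨max R 1, by positivity, le_max_left _ _⟩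
  have hsupp' : ∀ x, R' < ‖x‖ → V x = 0 := fun x hx => hsupp x (hRR.trans_lt hx)
  obtain ⟨Cs, hCs, hSp⟩ := h1 R' hR'
  have hV' : Measurable (fun x : closedBall (0 : E5) R' => V x) := hV.comp measurable_subtype_coe
  have hM' : ∀ x : closedBall (0 : E5) R', |V x| ≤ M := fun x => hM x
  obtain ⟨Op, hOp⟩ := h2 _ (muB R') Cs hSp (fun x : closedBall (0 : E5) R' => V x) hV' M hM'
  obtain ⟨Cp, hCp⟩ := h3 _ (muB R') Cs hSp (fun x : closedBall (0 : E5) R' => V x) hV' M hM'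
  obtain ⟨tr, htr⟩ := h4 _ (muB R') Cs hSp (fun x : closedBall (0 : E5) R' => V x) hV' M hM'
  let O : Ops (muB R') (fun x : closedBall (0 : E5) R' => V x) := ⟨Op, hOp, Cp, hCp, tr, htr⟩
  obtain ⟨h, l, hh, hl, hhd, hld, hh'⟩ := h18 (closedBall (0 : E5) R')
  obtain ⟨C0, s0, hs0, has⟩ := h19 R' hR' V hV M hM hsupp' O h l hh hl
  obtain ⟨D, hD1, ⟨C', m, hD2⟩, hD3, hD4, hD5, hD6⟩ := det_package h1 h5 h7 h11 h19 R' hR' V hV M
    hM hsupp' O h l hh hl hhd hld hh'
  have hres : ∀ z, D z = 0 → IsResonance V z := by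
    intro z hz
    obtain ⟨u, hu0, hu⟩ := hD4 z hz
    refine h20 R' hR' V hV M hM hsupp' z u hu0 fun x => ?_
    have e1 := congrArg (fun f : C(closedBall (0 : E5) R', ℂ) => f x) hu
    simp only [ContinuousMap.add_apply, ContinuousMap.zero_apply] at e1
    rw [O.Op_apply] at e1
    simp only [hh] at e1
    exact e1
  have hDfin : {z | D z = 0}.Finite := hfin.subset fun z hz => hres z hz
  have hw0 : ww O h l 0 = 0 := by
    have e1 : l 0 = 0 := by
      ext ⟨x, y⟩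
      rw [hl 0 x y]
      simp [gl]
    simp [ww, e1]
  have hnz : ∀ s ≥ s0, D (Complex.I * (s : ℂ)) ≠ 0 := by
    intro s hs hDs
    obtain ⟨u, hu0, hu⟩ := hD4 _ hDs
    have e1 := (has s hs).1
    have e2 : u = -(O.Op (h (Complex.I * (s : ℂ))) u) := eq_neg_of_add_eq_zero_left hu
    have e3 : ‖u‖ ≤ 1 / 2 * ‖u‖ := by
      calc ‖u‖ = ‖O.Op (h (Complex.I * (s : ℂ))) u‖ := by
            conv_lhs => rw [e2]
            exact norm_neg _
        _ ≤ ‖O.Op (h (Complex.I * (s : ℂ)))‖ * ‖u‖ := ContinuousLinearMap.le_opNorm _ _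
        _ ≤ _ := by gcongr
    have e4 : 0 < ‖u‖ := norm_pos_iff.2 hu0
    linarith
  have key := h13 D (ww O h l) hD1 (max C' C0) m
    (fun z => (hD2 z).trans (Real.exp_le_exp.2 (by
      have : (0 : ℝ) ≤ (1 + ‖z‖) ^ m := by positivity
      exact mul_le_mul_of_nonneg_right (le_max_left _ _) this)))
    hDfin hD6 (fun _ => hw0) (SS V) ((∫ z, kk 1 z) * ∫ x, V x ^ 2) s0
    (fun s hs => h15 V hV M R' hM hsupp' s (hs0.trans_le hs)) (h16 V hV M R' hM hsupp') hnz
    (fun s hs => ((has s hs).2 _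
      (Ring.inverse_mul_cancel _ (inv_exists _ (has s hs).1))
      (Ring.mul_inverse_cancel _ (inv_exists _ (has s hs).1))).trans (by
        have : (0 : ℝ) ≤ s ^ 2 := by positivity
        exact div_le_div_of_nonneg_right (le_max_right _ _) this))
  have hk := (h14 1 one_pos).2.2
  have hV2 : ∫ x, V x ^ 2 = 0 := by
    rcases mul_eq_zero.1 key with h0 | h0
    · exact absurd h0 hk.ne'
    · exact h0
  have hint : Integrable (fun x => V x ^ 2) := by
    have hm : Measurable (fun x => V x ^ 2) := hV.pow_const 2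
    have h0 : IntegrableOn (fun x => V x ^ 2) (closedBall (0 : E5) R') := by
      refine Measure.integrableOn_of_bounded (M := M ^ 2) ?_ hm.aestronglyMeasurable ?_
      · exact (measure_closedBall_lt_top).ne
      · refine Eventually.of_forall fun x => ?_
        rw [norm_pow, Real.norm_eq_abs]
        have := hM x
        gcongr
    refine (integrableOn_iff_integrable_of_support_subset ?_).1 h0
    intro x hx
    rw [mem_closedBall_zero_iff]
    by_contra hc
    exact hx (by simp [hsupp' x (not_le.1 hc)])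
  have hz := (integral_eq_zero_iff_of_nonneg (fun x => sq_nonneg (V x)) hint).1 hV2
  filter_upwards [hz] with x hx
  simpa using hx

end Pool.Agent.Work.MP_f2af60_mp
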