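import Pool.Agent.Work.MP_f2af60_mp.GStmts

/-!
# MP_f2af60_mp, all odd dimensions: resonances as poles

* `L2 q` is `L²(ℝ^(2q+3))`.
* `IsResolvent V k f u`: `u = R_V(i k) f`, that is `u ∈ L²` and `-Δ u + V u + k² u = f` in the sense
  of tempered distributions.
* `IsPole V z`: `z` is a pole of the meromorphic continuation of `λ ↦ ∫ (R_V(λ) f) g` for some
  compactly supported `f, g ∈ L²`.
-/

namespace Pool.Agent.Work.MP_f2af60_mp.PQ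

open MeasureTheory
open scoped SchwartzMap Laplacian FourierTransform

/-- The space `L²(ℝ^(2q+3))`. -/
noncomputable abbrev L2 (q : ℕ) := Lp ℂ 2 (volume : Measure (En q))

/-- `u = R_V(i k) f`, where `R_V(λ) = (-Δ + V - λ²)⁻¹`: the function `u ∈ L²` solves
`-Δ u + V u + k² u = f` in the sense of tempered distributions. -/
def IsResolvent {q : ℕ} (V : En q → ℝ) (k : ℝ) (f u : L2 q) : Prop :=
  ∀ φ : 𝓢(En q, ℂ), ∫ x, u x * (-(Δ φ) x + ((V x : ℂ) + (k : ℂ) ^ 2) * φ x) = ∫ x, f x * φ x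

/-- `f` vanishes (almost everywhere) outside a bounded set. -/
def CompSupp {q : ℕ} (f : L2 q) : Prop := ∃ R : ℝ, ∀ᵐ x, R < ‖x‖ → f x = 0

/-- `F` is the meromorphic continuation of `λ ↦ ∫ (R_V(λ) f) g`: it is meromorphic on `ℂ`, and for
all large `k` the equation defining `R_V(i k) f` has exactly one solution `u ∈ L²`, and
`F(i k) = ∫ u g`. -/
def IsContinuation {q : ℕ} (V : En q → ℝ) (f g : L2 q) (F : ℂ → ℂ) : Prop :=
  (∀ z, MeromorphicAt F z) ∧ ∃ k₀ : ℝ, ∀ k > k₀, ∃ u : L2 q,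
    (∀ v : L2 q, IsResolvent V k f v ↔ v = u) ∧ F (Complex.I * (k : ℂ)) = ∫ x, u x * g x

/-- `z` is a pole of the meromorphic continuation of `R_V : L²_comp → L²_loc`. -/
def IsPole {q : ℕ} (V : En q → ℝ) (z : ℂ) : Prop :=
  ∃ f g : L2 q, CompSupp f ∧ CompSupp g ∧ ∃ F : ℂ → ℂ, IsContinuation V f g F ∧
    meromorphicOrderAt F z < 0

/-- P2: the heat kernel on the Fourier side. -/
def HeatFourier : Prop :=
  ∀ (q : ℕ) (t : ℝ), 0 < t → ∀ φ : 𝓢(En q, ℂ), ∀ y : En q,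
    ∫ x, ((pt q t (x - y) : ℝ) : ℂ) *
      φ x = ∫ ξ, ((Real.exp (-(4 * Real.pi ^ 2 * t * ‖ξ‖ ^ 2)) : ℝ) : ℂ) *
        (Complex.exp (2 * Real.pi * Complex.I * (inner ℝ ξ y : ℝ)) * (𝓕 φ) ξ)

/-- P3: the kernel `GG q (i k)` is the fundamental solution of `-Δ + k²`. -/
def Fundamental : Prop :=
  ∀ (q : ℕ) (k : ℝ), 0 < k → ∀ φ : 𝓢(En q, ℂ), ∀ y : En q,
    ∫ x, GG q (Complex.I * (k : ℂ)) (x - y) * (-(Δ φ) x + (k : ℂ) ^ 2 * φ x) = φ y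

/-- P4: the free resolvent on `L²`. -/
def FreeResolvent : Prop :=
  ∀ (q : ℕ) (k : ℝ), 0 < k → ∃ R₀ : L2 q →L[ℂ] L2 q, ‖R₀‖ ≤ 1 / k ^ 2 ∧ ∀ f u : L2 q,
    (∀ φ : 𝓢(En q, ℂ), ∫ x, u x * (-(Δ φ) x + (k : ℂ) ^ 2 * φ x) = ∫ x, f x * φ x) ↔ u = R₀ f

/-- P5: existence and uniqueness of `R_V(i k) f` for large `k`. -/
def ResolventExistsUnique : Prop :=
  ∀ (q : ℕ) (V : En q → ℝ), Measurable V → ∀ M : ℝ, (∀ x, |V x| ≤ M) → ∀ k : ℝ, 0 < k →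
    M < k ^ 2 → ∀ f : L2 q, ∃! u : L2 q, IsResolvent V k f u

end Pool.Agent.Work.MP_f2af60_mp.PQ
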