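import Mathlib

/-!
# H22, core: the law for the roughness on an abstract measure space
-/

namespace Pool.Agent.Work.MP_f2af60_mp

open MeasureTheory Filter Topology Set

/-- Hypotheses on the kernel. -/
structure LaK (k : ℕ) (Kf : ℝ → ℝ) (C c : ℝ) : Prop where
  cpos : 0 < c
  meas : Measurable Kf
  nonneg : ∀ s, 0 ≤ Kf s
  ub1 : ∀ s ≥ 0, Kf s ≤ C * s ^ (2 * k + 2)
  ub2 : ∀ s ≥ 0, Kf s ≤ C * s ^ (2 * k)
  lb : ∀ s ∈ Icc (0 : ℝ) 1, c * s ^ (2 * k + 2) ≤ Kf s

noncomputable def laG (k : ℕ) (Kf : ℝ → ℝ) (s : ℝ) : ℝ := Kf s * (s ^ (2 * k + 2))⁻¹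

noncomputable def laJ (k : ℕ) (Kf : ℝ → ℝ) (a : ℝ) : ℝ := ∫ s in Ioi a, laG k Kf s

variable {k : ℕ} {Kf : ℝ → ℝ} {C c : ℝ}

theorem LaK.Cpos (h : LaK k Kf C c) : 0 < C := by
  have h1 := h.lb 1 ⟨zero_le_one, le_rfl⟩
  have h2 := h.ub1 1 zero_le_one
  simp only [one_pow, mul_one] at h1 h2
  linarith [h.cpos]

theorem LaK.G_meas (h : LaK k Kf C c) : Measurable (laG k Kf) := by
  unfold laG
  exact h.meas.mul ((measurable_id.pow_const _).inv)

theorem LaK.G_nonneg (h : LaK k Kf C c) (s : ℝ) : 0 ≤ laG k Kf s := by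
  unfold laG
  refine mul_nonneg (h.nonneg s) (inv_nonneg.mpr ?_)
  rw [show 2 * k + 2 = 2 * (k + 1) by ring, pow_mul]
  positivity

theorem LaK.G_le (h : LaK k Kf C c) {s : ℝ} (hs : 0 < s) : laG k Kf s ≤ C := by
  unfold laG
  rw [← div_eq_mul_inv, div_le_iff₀ (by positivity)]
  exact h.ub1 s hs.le

theorem LaK.G_le2 (h : LaK k Kf C c) {s : ℝ} (hs : 0 < s) :
    laG k Kf s ≤ C * s ^ (-2 : ℝ) := by
  unfold laG
  rw [← div_eq_mul_inv, div_le_iff₀ (by positivity)]
  have e1 : s ^ (-2 : ℝ) = (s ^ 2)⁻¹ := by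
    rw [Real.rpow_neg hs.le]; norm_cast
  rw [e1]
  have e2 : C * (s ^ 2)⁻¹ * s ^ (2 * k + 2) = C * s ^ (2 * k) := by
    rw [pow_add]; field_simp
  rw [e2]
  exact h.ub2 s hs.le

theorem LaK.G_lb (h : LaK k Kf C c) {s : ℝ} (hs : 0 < s) (hs1 : s ≤ 1) : c ≤ laG k Kf s := by
  unfold laG
  rw [← div_eq_mul_inv, le_div_iff₀ (by positivity)]
  exact h.lb s ⟨hs.le, hs1⟩

theorem LaK.G_int1 (h : LaK k Kf C c) {a b : ℝ} (ha : 0 ≤ a) :
    IntegrableOn (laG k Kf) (Ioc a b) := by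
  have : IsFiniteMeasure (volume.restrict (Ioc a b)) := ⟨by simp⟩
  refine Integrable.of_bound h.G_meas.aestronglyMeasurable C ?_
  refine (ae_restrict_iff' measurableSet_Ioc).mpr (Eventually.of_forall fun s hs => ?_)
  rw [Real.norm_of_nonneg (h.G_nonneg s)]
  exact h.G_le (by linarith [hs.1])

theorem LaK.G_int2 (h : LaK k Kf C c) {a : ℝ} (ha : 0 < a) :
    IntegrableOn (laG k Kf) (Ioi a) := by
  have h1 : IntegrableOn (fun s : ℝ => C * s ^ (-2 : ℝ)) (Ioi a) :=
    (integrableOn_Ioi_rpow_of_lt (by norm_num) ha).const_mul C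
  refine Integrable.mono' h1 h.G_meas.aestronglyMeasurable ?_
  refine (ae_restrict_iff' measurableSet_Ioi).mpr (Eventually.of_forall fun s hs => ?_)
  rw [Real.norm_of_nonneg (h.G_nonneg s)]
  exact h.G_le2 (lt_trans ha hs)

theorem LaK.G_int (h : LaK k Kf C c) {a : ℝ} (ha : 0 ≤ a) :
    IntegrableOn (laG k Kf) (Ioi a) := by
  rw [← Ioc_union_Ioi_eq_Ioi (show a ≤ a + 1 by linarith)]
  exact (h.G_int1 ha).union (h.G_int2 (by linarith))

theorem LaK.J_nonneg (h : LaK k Kf C c) (a : ℝ) : 0 ≤ laJ k Kf a :=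
  integral_nonneg fun s => h.G_nonneg s

theorem LaK.J_le (h : LaK k Kf C c) {a : ℝ} (ha : 0 < a) : laJ k Kf a ≤ C / a := by
  have h1 : IntegrableOn (fun s : ℝ => C * s ^ (-2 : ℝ)) (Ioi a) :=
    (integrableOn_Ioi_rpow_of_lt (by norm_num) ha).const_mul C
  have h2 : laJ k Kf a ≤ ∫ s in Ioi a, C * s ^ (-2 : ℝ) := by
    refine setIntegral_mono_on (h.G_int2 ha) h1 measurableSet_Ioi fun s hs => ?_
    exact h.G_le2 (lt_trans ha hs)
  refine h2.trans (le_of_eq ?_)
  rw [integral_const_mul, integral_Ioi_rpow_of_lt (by norm_num) ha]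
  have : a ^ ((-2 : ℝ) + 1) = a⁻¹ := by
    rw [show (-2 : ℝ) + 1 = -1 by norm_num, Real.rpow_neg_one]
  rw [this]; field_simp; norm_num

theorem LaK.J_sub (h : LaK k Kf C c) {a : ℝ} (ha : 0 ≤ a) :
    laJ k Kf 0 = (∫ s in Ioc 0 a, laG k Kf s) + laJ k Kf a := by
  unfold laJ
  rw [← Ioc_union_Ioi_eq_Ioi ha]
  exact setIntegral_union (by
    rw [Set.disjoint_left]; intro x hx hx2; exact absurd hx.2 (not_le.mpr hx2)) measurableSet_Ioi
    (h.G_int1 le_rfl) (h.G_int ha)

theorem LaK.J_diff (h : LaK k Kf C c) {a : ℝ} (ha : 0 ≤ a) :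
    0 ≤ laJ k Kf 0 - laJ k Kf a ∧ laJ k Kf 0 - laJ k Kf a ≤ C * a := by
  rw [h.J_sub ha, add_sub_cancel_right]
  refine ⟨integral_nonneg fun s => h.G_nonneg s, ?_⟩
  calc ∫ s in Ioc 0 a, laG k Kf s ≤ ∫ s in Ioc 0 a, C := by
        refine setIntegral_mono_on (h.G_int1 le_rfl) (integrableOn_const (by simp))
          measurableSet_Ioc fun s hs => h.G_le hs.1
    _ = C * a := by
        rw [setIntegral_const, smul_eq_mul]
        simp [ha, mul_comm]

theorem LaK.J_pos (h : LaK k Kf C c) : 0 < laJ k Kf 0 := by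
  rw [h.J_sub zero_le_one]
  have h1 : c ≤ ∫ s in Ioc (0 : ℝ) 1, laG k Kf s := by
    calc c = ∫ s in Ioc (0 : ℝ) 1, c := by rw [setIntegral_const]; simp
      _ ≤ _ := by
        refine setIntegral_mono_on (integrableOn_const (by simp)) (h.G_int1 le_rfl)
          measurableSet_Ioc fun s hs => h.G_lb hs.1 hs.2
  linarith [h.cpos, h.J_nonneg 1]

/-- The scaling identity. -/
theorem LaK.scale (h : LaK k Kf C c) {t r : ℝ} (hr : 0 ≤ r) :
    ∫ σ in Ioi (1 / t), Kf (σ * r) * (σ ^ (2 * k + 2))⁻¹ = r ^ (2 * k + 1) * laJ k Kf (r / t) := by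
  rcases hr.eq_or_lt with hr0 | hr0
  · rw [← hr0]
    have hK0 : Kf 0 = 0 := by
      refine le_antisymm ?_ (h.nonneg 0)
      have := h.ub1 0 le_rfl
      simpa using this
    simp [hK0]
  · have h1 : ∀ σ : ℝ, Kf (σ * r) * (σ ^ (2 * k + 2))⁻¹ = r ^ (2 * k + 2) * laG k Kf (σ * r) := by
      intro σ
      unfold laG
      rw [mul_pow, mul_inv]
      have : r ^ (2 * k + 2) ≠ 0 := by positivity
      field_simp
    simp_rw [h1]
    rw [integral_const_mul, integral_comp_mul_right_Ioi _ _ hr0]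
    unfold laJ
    rw [smul_eq_mul, show 1 / t * r = r / t by ring, ← mul_assoc]
    congr 1
    rw [pow_succ]
    field_simp

/-! ### The measure space -/

/-- Data: radius and weight. -/
structure LaW {Ω : Type*} [MeasurableSpace Ω] (μ : Measure Ω) (k : ℕ) (r W : Ω → ℝ) : Prop where
  rmeas : Measurable r
  rnonneg : ∀ x, 0 ≤ r x
  wmeas : Measurable W
  wnonneg : ∀ x, 0 ≤ W x
  int : Integrable (fun x => r x ^ (2 * k) * W x) μ

variable {Ω : Type*} [MeasurableSpace Ω] {μ : Measure Ω} [SFinite μ] {r W : Ω → ℝ}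

/-- The function `R`. -/
noncomputable def laR (μ : Measure Ω) (Kf : ℝ → ℝ) (r W : Ω → ℝ) (σ : ℝ) : ℝ :=
  ∫ x, Kf (σ * r x) * W x ∂μ

omit [SFinite μ] in
theorem LaW.intK (w : LaW μ k r W) (h : LaK k Kf C c) {σ : ℝ} (hσ : 0 ≤ σ) :
    Integrable (fun x => Kf (σ * r x) * W x) μ := by
  refine Integrable.mono' (w.int.const_mul (C * σ ^ (2 * k))) ?_ ?_
  · exact ((h.meas.comp (measurable_const.mul w.rmeas)).mul w.wmeas).aestronglyMeasurable
  · refine Eventually.of_forall fun x => ?_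
    rw [Real.norm_of_nonneg (mul_nonneg (h.nonneg _) (w.wnonneg x))]
    calc Kf (σ * r x) * W x ≤ C * (σ * r x) ^ (2 * k) * W x :=
          mul_le_mul_of_nonneg_right (h.ub2 _ (mul_nonneg hσ (w.rnonneg x))) (w.wnonneg x)
      _ = C * σ ^ (2 * k) * (r x ^ (2 * k) * W x) := by rw [mul_pow]; ring

omit [SFinite μ] in
/-- Integrability of the double integral. -/
theorem LaW.int2 (w : LaW μ k r W) (h : LaK k Kf C c) {t : ℝ} (ht : 0 < t) :
    Integrable (fun p : ℝ × Ω => Kf (p.1 * r p.2) * (p.1 ^ (2 * k + 2))⁻¹ * W p.2)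
      ((volume.restrict (Ioi (1 / t))).prod μ) := by
  have ht' : 0 < 1 / t := by positivity
  have h1 : Integrable (fun s : ℝ => C * s ^ (-2 : ℝ)) (volume.restrict (Ioi (1 / t))) :=
    (integrableOn_Ioi_rpow_of_lt (by norm_num) ht').const_mul C
  have h2 := h1.mul_prod w.int
  refine Integrable.mono' h2 ?_ ?_
  · refine Measurable.aestronglyMeasurable ?_
    exact ((h.meas.comp (measurable_fst.mul (w.rmeas.comp measurable_snd))).mul
      ((measurable_fst.pow_const _).inv)).mul (w.wmeas.comp measurable_snd)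
  · have h3 : ∀ᵐ σ ∂(volume.restrict (Ioi (1 / t))), σ ∈ Ioi (1 / t) :=
      ae_restrict_mem measurableSet_Ioi
    have h4 : ∀ᵐ p ∂((volume.restrict (Ioi (1 / t))).prod μ), p.1 ∈ Ioi (1 / t) :=
      Measure.quasiMeasurePreserving_fst.ae h3
    filter_upwards [h4] with p hp
    have hp0 : 0 < p.1 := lt_trans ht' hp
    have hW := w.wnonneg p.2
    have hr := w.rnonneg p.2
    rw [Real.norm_of_nonneg (mul_nonneg (mul_nonneg (h.nonneg _) (by positivity)) hW)]
    have e1 : p.1 ^ (-2 : ℝ) = (p.1 ^ 2)⁻¹ := by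
      rw [Real.rpow_neg hp0.le]; norm_cast
    rw [e1]
    calc Kf (p.1 * r p.2) * (p.1 ^ (2 * k + 2))⁻¹ * W p.2
        ≤ C * (p.1 * r p.2) ^ (2 * k) * (p.1 ^ (2 * k + 2))⁻¹ * W p.2 := by
          refine mul_le_mul_of_nonneg_right (mul_le_mul_of_nonneg_right
            (h.ub2 _ (by positivity)) (by positivity)) hW
      _ = C * (p.1 ^ 2)⁻¹ * (r p.2 ^ (2 * k) * W p.2) := by
          rw [mul_pow, pow_add]; field_simp

/-- The integrated function. -/
noncomputable def laI (μ : Measure Ω) (k : ℕ) (Kf : ℝ → ℝ) (r W : Ω → ℝ) (t : ℝ) : ℝ :=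
  ∫ σ in Ioi (1 / t), laR μ Kf r W σ * (σ ^ (2 * k + 2))⁻¹

theorem LaW.fubini (w : LaW μ k r W) (h : LaK k Kf C c) {t : ℝ} (ht : 0 < t) :
    laI μ k Kf r W t = ∫ x, r x ^ (2 * k + 1) * W x * laJ k Kf (r x / t) ∂μ := by
  have h1 := integral_integral_swap
    (f := fun σ x => Kf (σ * r x) * (σ ^ (2 * k + 2))⁻¹ * W x) (w.int2 h ht)
  have e1 : laI μ k Kf r W t =
      ∫ σ in Ioi (1 / t), ∫ x, Kf (σ * r x) * (σ ^ (2 * k + 2))⁻¹ * W x ∂μ := by
    unfold laI laR
    congr 1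
    funext σ
    rw [← integral_mul_const]
    congr 1
    funext x
    ring
  rw [e1]
  refine h1.trans ?_
  congr 1
  funext x
  rw [integral_mul_const, h.scale (w.rnonneg x)]
  ring

theorem LaW.intI (w : LaW μ k r W) (h : LaK k Kf C c) {t : ℝ} (ht : 0 < t) :
    IntegrableOn (fun σ => laR μ Kf r W σ * (σ ^ (2 * k + 2))⁻¹) (Ioi (1 / t)) := by
  have h1 := (w.int2 h ht).integral_prod_left
  refine h1.congr (Eventually.of_forall fun σ => ?_)
  show ∫ x, Kf (σ * r x) * (σ ^ (2 * k + 2))⁻¹ * W x ∂μ =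
    laR μ Kf r W σ * (σ ^ (2 * k + 2))⁻¹
  unfold laR
  rw [← integral_mul_const]
  congr 1
  funext x
  ring

/-- Asymptotics of the integrated function. -/
theorem LaW.asymI (w : LaW μ k r W) (h : LaK k Kf C c) {A C' σ0 : ℝ} (hσ0 : 0 < σ0)
    (hR : ∀ σ ∈ Ioc 0 σ0, |laR μ Kf r W σ - A * σ ^ (2 * k + 1)| ≤ C' * σ ^ (2 * k + 2)) :
    ∃ D, ∀ t, 0 < t → 1 / t ≤ σ0 → |laI μ k Kf r W t - A * Real.log t| ≤ D := by
  refine ⟨C' * σ0 + |A * Real.log σ0| + |∫ σ in Ioi σ0, laR μ Kf r W σ * (σ ^ (2 * k + 2))⁻¹|,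
    fun t ht htσ => ?_⟩
  have ht' : 0 < 1 / t := by positivity
  have hC' : 0 ≤ C' := by
    have h1 := (abs_nonneg _).trans (hR σ0 ⟨hσ0, le_rfl⟩)
    exact nonneg_of_mul_nonneg_left h1 (by positivity)
  have hint := w.intI h ht
  have hint1 : IntegrableOn (fun σ => laR μ Kf r W σ * (σ ^ (2 * k + 2))⁻¹) (Ioc (1 / t) σ0) :=
    hint.mono_set Ioc_subset_Ioi_self
  have hsplit : laI μ k Kf r W t =
      (∫ σ in Ioc (1 / t) σ0, laR μ Kf r W σ * (σ ^ (2 * k + 2))⁻¹) +
        ∫ σ in Ioi σ0, laR μ Kf r W σ * (σ ^ (2 * k + 2))⁻¹ := by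
    unfold laI
    rw [← Ioc_union_Ioi_eq_Ioi htσ]
    exact setIntegral_union (by
      rw [Set.disjoint_left]; intro x hx hx2; exact absurd hx.2 (not_le.mpr hx2))
      measurableSet_Ioi hint1 (hint.mono_set (Ioi_subset_Ioi htσ))
  have hinv : IntegrableOn (fun σ : ℝ => A * σ⁻¹) (Ioc (1 / t) σ0) := by
    have h1 : ContinuousOn (fun σ : ℝ => A * σ⁻¹) (Icc (1 / t) σ0) := by
      refine continuousOn_const.mul (continuousOn_inv₀.mono fun x hx => ?_)
      exact (lt_of_lt_of_le ht' hx.1).ne'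
    exact h1.integrableOn_Icc.mono_set Ioc_subset_Icc_self
  have hlog : ∫ σ in Ioc (1 / t) σ0, A * σ⁻¹ = A * Real.log σ0 + A * Real.log t := by
    rw [← intervalIntegral.integral_of_le htσ, intervalIntegral.integral_const_mul,
      integral_inv_of_pos ht' hσ0, Real.log_div hσ0.ne' ht'.ne', one_div, Real.log_inv]
    ring
  have hdiff : |(∫ σ in Ioc (1 / t) σ0, laR μ Kf r W σ * (σ ^ (2 * k + 2))⁻¹) -
      ∫ σ in Ioc (1 / t) σ0, A * σ⁻¹| ≤ C' * σ0 := by
    rw [← integral_sub hint1 hinv, ← Real.norm_eq_abs]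
    have h1 : ∀ σ ∈ Ioc (1 / t) σ0,
        ‖laR μ Kf r W σ * (σ ^ (2 * k + 2))⁻¹ - A * σ⁻¹‖ ≤ C' := by
      intro σ hσ
      have hσp : 0 < σ := lt_trans ht' hσ.1
      have h2 := hR σ ⟨hσp, hσ.2⟩
      have e1 : laR μ Kf r W σ * (σ ^ (2 * k + 2))⁻¹ - A * σ⁻¹ =
          (laR μ Kf r W σ - A * σ ^ (2 * k + 1)) * (σ ^ (2 * k + 2))⁻¹ := by
        have : σ ^ (2 * k + 2) = σ ^ (2 * k + 1) * σ := by ring
        rw [this]; field_simp
      rw [e1, norm_mul, Real.norm_eq_abs, Real.norm_of_nonneg (by positivity),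
        ← div_eq_mul_inv, div_le_iff₀ (by positivity)]
      exact h2
    have h3 := norm_setIntegral_le_of_norm_le_const (μ := volume) (s := Ioc (1 / t) σ0)
      (by simp) h1
    refine h3.trans ?_
    refine mul_le_mul_of_nonneg_left ?_ hC'
    rw [Real.volume_real_Ioc_of_le htσ]; linarith
  rw [hsplit]
  set X1 := ∫ σ in Ioc (1 / t) σ0, laR μ Kf r W σ * (σ ^ (2 * k + 2))⁻¹
  set X2 := ∫ σ in Ioi σ0, laR μ Kf r W σ * (σ ^ (2 * k + 2))⁻¹
  rw [hlog] at hdiff
  calc |X1 + X2 - A * Real.log t|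
      = |(X1 - (A * Real.log σ0 + A * Real.log t)) + A * Real.log σ0 + X2| := by ring_nf
    _ ≤ |X1 - (A * Real.log σ0 + A * Real.log t)| + |A * Real.log σ0| + |X2| :=
        (abs_add_le _ _).trans (add_le_add_left (abs_add_le _ _) _)
    _ ≤ _ := by linarith

omit [SFinite μ] in
theorem LaW.intball (w : LaW μ k r W) (j : ℕ) (t : ℝ) :
    IntegrableOn (fun x => r x ^ (2 * k + j) * W x) {x | r x ≤ t} μ := by
  have hS : MeasurableSet {x | r x ≤ t} := measurableSet_le w.rmeas measurable_const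
  refine Integrable.mono' ((w.int.const_mul (|t| ^ j)).integrableOn) ?_ ?_
  · exact ((w.rmeas.pow_const _).mul w.wmeas).aestronglyMeasurable
  · refine (ae_restrict_iff' hS).mpr (Eventually.of_forall fun x hx => ?_)
    have hr := w.rnonneg x
    have hW := w.wnonneg x
    rw [Real.norm_of_nonneg (by positivity)]
    have h1 : r x ≤ |t| := le_trans hx (le_abs_self t)
    have h2 : r x ^ j ≤ |t| ^ j := pow_le_pow_left₀ hr h1 j
    calc r x ^ (2 * k + j) * W x = r x ^ j * (r x ^ (2 * k) * W x) := by rw [pow_add]; ring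
      _ ≤ |t| ^ j * (r x ^ (2 * k) * W x) := mul_le_mul_of_nonneg_right h2 (by positivity)

omit [SFinite μ] in
/-- Mass of the balls. -/
theorem LaW.ball (w : LaW μ k r W) (h : LaK k Kf C c) {A C' σ0 : ℝ} (hσ0 : 0 < σ0)
    (hR : ∀ σ ∈ Ioc 0 σ0, |laR μ Kf r W σ - A * σ ^ (2 * k + 1)| ≤ C' * σ ^ (2 * k + 2)) :
    ∃ C1, 0 ≤ C1 ∧ ∀ t, 1 ≤ t → 1 / t ≤ σ0 →
      ∫ x in {x | r x ≤ t}, r x ^ (2 * k + 2) * W x ∂μ ≤ C1 * t := by
  have hC' : 0 ≤ C' := by
    have h1 := (abs_nonneg _).trans (hR σ0 ⟨hσ0, le_rfl⟩)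
    exact nonneg_of_mul_nonneg_left h1 (by positivity)
  have hc := h.cpos
  refine ⟨(|A| + C') / c, by positivity, fun t ht htσ => ?_⟩
  have ht0 : 0 < t := by linarith
  have ht' : 0 < 1 / t := by positivity
  have hS : MeasurableSet {x | r x ≤ t} := measurableSet_le w.rmeas measurable_const
  have hik := w.intK h ht'.le
  have h1 : (c / t ^ (2 * k + 2)) * ∫ x in {x | r x ≤ t}, r x ^ (2 * k + 2) * W x ∂μ ≤
      laR μ Kf r W (1 / t) := by
    rw [← integral_const_mul]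
    calc ∫ x in {x | r x ≤ t}, c / t ^ (2 * k + 2) * (r x ^ (2 * k + 2) * W x) ∂μ
        ≤ ∫ x in {x | r x ≤ t}, Kf (1 / t * r x) * W x ∂μ := by
          refine setIntegral_mono_on ((w.intball 2 t).const_mul _) hik.integrableOn hS
            fun x hx => ?_
          have hr := w.rnonneg x
          have h3 : c * (1 / t * r x) ^ (2 * k + 2) ≤ Kf (1 / t * r x) := by
            refine h.lb _ ⟨by positivity, ?_⟩
            have : r x ≤ t := hx
            rw [one_div, inv_mul_le_iff₀ ht0, mul_one]; exact this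
          calc c / t ^ (2 * k + 2) * (r x ^ (2 * k + 2) * W x)
              = c * (1 / t * r x) ^ (2 * k + 2) * W x := by
                rw [mul_pow, div_pow, one_pow]; ring
            _ ≤ _ := mul_le_mul_of_nonneg_right h3 (w.wnonneg x)
      _ ≤ ∫ x, Kf (1 / t * r x) * W x ∂μ :=
          setIntegral_le_integral hik
            (Eventually.of_forall fun x => mul_nonneg (h.nonneg _) (w.wnonneg x))
  have h2 := hR (1 / t) ⟨ht', htσ⟩
  have h4 : laR μ Kf r W (1 / t) ≤ |A| * (1 / t) ^ (2 * k + 1) + C' * (1 / t) ^ (2 * k + 2) := by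
    have h5 := (le_abs_self _).trans h2
    have h6 : A * (1 / t) ^ (2 * k + 1) ≤ |A| * (1 / t) ^ (2 * k + 1) :=
      mul_le_mul_of_nonneg_right (le_abs_self A) (by positivity)
    linarith
  set X := ∫ x in {x | r x ≤ t}, r x ^ (2 * k + 2) * W x ∂μ
  have h7 : c * X ≤ |A| * t + C' := by
    have h8 : c / t ^ (2 * k + 2) * X * t ^ (2 * k + 2) ≤
        (|A| * (1 / t) ^ (2 * k + 1) + C' * (1 / t) ^ (2 * k + 2)) * t ^ (2 * k + 2) :=
      mul_le_mul_of_nonneg_right (h1.trans h4) (by positivity)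
    have e1 : c / t ^ (2 * k + 2) * X * t ^ (2 * k + 2) = c * X := by
      have : t ^ (2 * k + 2) ≠ 0 := by positivity
      field_simp
    have e2 : (|A| * (1 / t) ^ (2 * k + 1) + C' * (1 / t) ^ (2 * k + 2)) * t ^ (2 * k + 2) =
        |A| * t + C' := by
      have h9 : t ^ (2 * k + 2) = t ^ (2 * k + 1) * t := by ring
      rw [div_pow, div_pow, one_pow, one_pow, h9]
      have : t ^ (2 * k + 1) ≠ 0 := by positivity
      field_simp
    rwa [e1, e2] at h8
  have h10 : c * X ≤ (|A| + C') * t := by nlinarith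
  rw [div_mul_eq_mul_div, le_div_iff₀ hc]
  linarith

omit [SFinite μ] in
/-- Mass of the tails. -/
theorem LaW.tail (w : LaW μ k r W) {C1 t0 : ℝ} (ht0 : 0 < t0)
    (hb : ∀ t, t0 ≤ t → ∫ x in {x | r x ≤ t}, r x ^ (2 * k + 2) * W x ∂μ ≤ C1 * t) :
    ∀ t, t0 ≤ t → ∫ x in {x | t < r x}, r x ^ (2 * k) * W x ∂μ ≤ 4 * C1 / t := by
  intro t ht
  have htp : 0 < t := by linarith
  let S : ℕ → Set Ω := fun n => {x | t < r x ∧ r x ≤ 2 ^ n * t}
  have hSm : ∀ n, MeasurableSet (S n) := fun n =>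
    (measurableSet_lt measurable_const w.rmeas).inter (measurableSet_le w.rmeas measurable_const)
  have hmono : Monotone S := by
    intro a b hab x hx
    refine ⟨hx.1, hx.2.trans ?_⟩
    exact mul_le_mul_of_nonneg_right (pow_le_pow_right₀ (by norm_num) hab) htp.le
  have hU : ⋃ n, S n = {x | t < r x} := by
    ext x
    simp only [mem_iUnion, S, Set.mem_ofPred_eq]
    constructor
    · rintro ⟨n, hn⟩; exact hn.1
    · intro hx
      obtain ⟨n, hn⟩ := pow_unbounded_of_one_lt (r x / t) (one_lt_two)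
      refine ⟨n, hx, ?_⟩
      rw [div_lt_iff₀ htp] at hn
      exact hn.le
  -- shells
  have hshell : ∀ n : ℕ, ∫ x in {x | 2 ^ n * t < r x ∧ r x ≤ 2 ^ (n + 1) * t},
      r x ^ (2 * k) * W x ∂μ ≤ 2 * C1 / t * (1 / 2) ^ n := by
    intro n
    have hp : (0 : ℝ) < 2 ^ n * t := by positivity
    have hm : MeasurableSet {x | 2 ^ n * t < r x ∧ r x ≤ 2 ^ (n + 1) * t} :=
      (measurableSet_lt measurable_const w.rmeas).inter (measurableSet_le w.rmeas measurable_const)
    have hsub : {x | 2 ^ n * t < r x ∧ r x ≤ 2 ^ (n + 1) * t} ⊆ {x | r x ≤ 2 ^ (n + 1) * t} :=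
      fun x hx => hx.2
    have hge : t0 ≤ 2 ^ (n + 1) * t := by
      have : (1 : ℝ) ≤ 2 ^ (n + 1) := one_le_pow₀ (by norm_num)
      nlinarith
    calc ∫ x in {x | 2 ^ n * t < r x ∧ r x ≤ 2 ^ (n + 1) * t}, r x ^ (2 * k) * W x ∂μ
        ≤ ∫ x in {x | 2 ^ n * t < r x ∧ r x ≤ 2 ^ (n + 1) * t},
            (((2 : ℝ) ^ n * t) ^ 2)⁻¹ * (r x ^ (2 * k + 2) * W x) ∂μ := by
          refine setIntegral_mono_on w.int.integrableOn
            (((w.intball 2 _).mono_set hsub).const_mul _) hm fun x hx => ?_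
          have hr := w.rnonneg x
          have hW := w.wnonneg x
          have h1 : 1 ≤ (((2 : ℝ) ^ n * t) ^ 2)⁻¹ * r x ^ 2 := by
            rw [inv_mul_eq_div, one_le_div (by positivity)]
            exact pow_le_pow_left₀ hp.le hx.1.le 2
          calc r x ^ (2 * k) * W x = 1 * (r x ^ (2 * k) * W x) := by ring
            _ ≤ ((((2 : ℝ) ^ n * t) ^ 2)⁻¹ * r x ^ 2) * (r x ^ (2 * k) * W x) :=
                mul_le_mul_of_nonneg_right h1 (by positivity)
            _ = _ := by rw [pow_add]; ring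
      _ = (((2 : ℝ) ^ n * t) ^ 2)⁻¹ *
            ∫ x in {x | 2 ^ n * t < r x ∧ r x ≤ 2 ^ (n + 1) * t}, r x ^ (2 * k + 2) * W x ∂μ := by
          rw [integral_const_mul]
      _ ≤ (((2 : ℝ) ^ n * t) ^ 2)⁻¹ * (C1 * (2 ^ (n + 1) * t)) := by
          refine mul_le_mul_of_nonneg_left ?_ (by positivity)
          refine le_trans ?_ (hb _ hge)
          refine setIntegral_mono_set (w.intball 2 _)
            ((ae_restrict_iff' (measurableSet_le w.rmeas measurable_const)).mpr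
              (Eventually.of_forall fun x _ => ?_)) (LE.le.eventuallyLE hsub)
          have hr := w.rnonneg x
          have hW := w.wnonneg x
          show 0 ≤ r x ^ (2 * k + 2) * W x
          positivity
      _ = 2 * C1 / t * (1 / 2) ^ n := by
          rw [one_div, inv_pow, pow_succ 2 n]
          have : (2 : ℝ) ^ n ≠ 0 := by positivity
          field_simp
  have hn : ∀ n : ℕ, ∫ x in S n, r x ^ (2 * k) * W x ∂μ ≤ 4 * C1 / t * (1 - (1 / 2) ^ n) := by
    intro n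
    induction n with
    | zero =>
      have : S 0 = ∅ := by
        ext x
        simp only [S, pow_zero, one_mul, Set.mem_ofPred_eq, mem_empty_iff_false, iff_false]
        rintro ⟨h1, h2⟩; linarith
      rw [this]; simp
    | succ n ih =>
      have hdec : S (n + 1) = S n ∪ {x | 2 ^ n * t < r x ∧ r x ≤ 2 ^ (n + 1) * t} := by
        ext x
        simp only [S, mem_union, Set.mem_ofPred_eq]
        constructor
        · rintro ⟨h1, h2⟩
          rcases le_or_gt (r x) (2 ^ n * t) with h3 | h3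
          · exact Or.inl ⟨h1, h3⟩
          · exact Or.inr ⟨h3, h2⟩
        · rintro (⟨h1, h2⟩ | ⟨h1, h2⟩)
          · refine ⟨h1, h2.trans ?_⟩
            exact mul_le_mul_of_nonneg_right
              (pow_le_pow_right₀ (by norm_num) (Nat.le_succ n)) htp.le
          · refine ⟨lt_of_le_of_lt ?_ h1, h2⟩
            have : (1 : ℝ) ≤ 2 ^ n := one_le_pow₀ (by norm_num)
            nlinarith
      have hdisj : Disjoint (S n) {x | 2 ^ n * t < r x ∧ r x ≤ 2 ^ (n + 1) * t} := by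
        rw [Set.disjoint_left]
        intro x hx hx2
        exact absurd hx.2 (not_le.mpr hx2.1)
      rw [hdec, setIntegral_union hdisj ((measurableSet_lt measurable_const w.rmeas).inter
        (measurableSet_le w.rmeas measurable_const)) w.int.integrableOn w.int.integrableOn]
      have := hshell n
      have e1 : 4 * C1 / t * (1 - (1 / 2) ^ n) + 2 * C1 / t * (1 / 2) ^ n =
          4 * C1 / t * (1 - (1 / 2) ^ (n + 1)) := by
        rw [pow_succ]; ring
      linarith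
  have hC1 : 0 ≤ C1 := by
    have h1 := hb t0 le_rfl
    have h2 : 0 ≤ ∫ x in {x | r x ≤ t0}, r x ^ (2 * k + 2) * W x ∂μ :=
      integral_nonneg fun x => by
        have hr := w.rnonneg x
        have hW := w.wnonneg x
        show 0 ≤ r x ^ (2 * k + 2) * W x
        positivity
    exact nonneg_of_mul_nonneg_left (h2.trans h1) ht0
  have hlim : Tendsto (fun n => ∫ x in S n, r x ^ (2 * k) * W x ∂μ) atTop
      (𝓝 (∫ x in ⋃ n, S n, r x ^ (2 * k) * W x ∂μ)) :=
    tendsto_setIntegral_of_monotone hSm hmono w.int.integrableOn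
  rw [← hU]
  refine le_of_tendsto' hlim fun n => (hn n).trans ?_
  have h1 : 0 ≤ 4 * C1 / t := by positivity
  have h2 : (0 : ℝ) ≤ (1 / 2) ^ n := by positivity
  nlinarith

/-- The law. -/
theorem LaW.law (w : LaW μ k r W) (h : LaK k Kf C c) {A C' σ0 : ℝ} (hσ0 : 0 < σ0)
    (hR : ∀ σ ∈ Ioc 0 σ0, |laR μ Kf r W σ - A * σ ^ (2 * k + 1)| ≤ C' * σ ^ (2 * k + 2)) :
    ∃ C'' : ℝ, ∀ t ≥ 1, |(∫ x in {x | r x ≤ t}, r x ^ (2 * k + 1) * W x ∂μ) -
        (laJ k Kf 0)⁻¹ * A * Real.log t| ≤ C'' := by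
  obtain ⟨D, hD⟩ := w.asymI h hσ0 hR
  obtain ⟨C1, hC1, hb⟩ := w.ball h hσ0 hR
  have hC := h.Cpos
  have hJ := h.J_pos
  set t1 := max 1 (1 / σ0) with ht1
  have ht11 : 1 ≤ t1 := le_max_left _ _
  have hge : ∀ t, t1 ≤ t → 1 ≤ t ∧ 1 / t ≤ σ0 := by
    intro t ht
    have h1 : 1 ≤ t := ht11.trans ht
    refine ⟨h1, ?_⟩
    have h2 : 1 / σ0 ≤ t := (le_max_right _ _).trans ht
    rw [div_le_iff₀ (by linarith)]
    rw [div_le_iff₀ hσ0] at h2
    linarith
  have htail := w.tail (C1 := C1) (t0 := t1) (by linarith) (fun t ht => hb t (hge t ht).1 (hge t ht).2)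
  -- large `t`
  have hlarge : ∀ t, t1 ≤ t → |laJ k Kf 0 * (∫ x in {x | r x ≤ t}, r x ^ (2 * k + 1) * W x ∂μ) -
      A * Real.log t| ≤ 5 * C * C1 + D := by
    intro t ht
    obtain ⟨hta, htb⟩ := hge t ht
    have htp : 0 < t := by linarith
    have hS : MeasurableSet {x | r x ≤ t} := measurableSet_le w.rmeas measurable_const
    have hSc : {x | r x ≤ t}ᶜ = {x | t < r x} := by ext x; simp
    have hI := w.fubini h htp
    have hmeasJ : Measurable (fun x => laJ k Kf (r x / t)) := by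
      have hanti : Antitone (fun a : ℝ => laJ k Kf (max a 0)) := by
        intro a b hab
        have hab' : max a 0 ≤ max b 0 := max_le_max hab le_rfl
        refine setIntegral_mono_set (h.G_int (le_max_right _ _))
          (Eventually.of_forall fun s => h.G_nonneg s)
          (LE.le.eventuallyLE (Ioi_subset_Ioi hab'))
      have h2 := hanti.measurable.comp (w.rmeas.div_const t)
      have h3 : (fun x => laJ k Kf (r x / t)) =
          (fun a : ℝ => laJ k Kf (max a 0)) ∘ fun x => r x / t := by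
        funext x
        show laJ k Kf (r x / t) = laJ k Kf (max (r x / t) 0)
        rw [max_eq_left (div_nonneg (w.rnonneg x) htp.le)]
      rw [h3]
      exact h2
    have hbd : ∀ x, r x ^ (2 * k + 1) * W x * laJ k Kf (r x / t) ≤
        C * t * (r x ^ (2 * k) * W x) := by
      intro x
      have hr := w.rnonneg x
      have hW := w.wnonneg x
      rcases hr.eq_or_lt with hr0 | hr0
      · rw [← hr0]
        simp only [ne_eq, Nat.add_eq_zero_iff, mul_eq_zero, OfNat.ofNat_ne_zero, false_or,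
          one_ne_zero, and_false, not_false_eq_true, zero_pow, zero_mul]
        positivity
      · have h1 : laJ k Kf (r x / t) ≤ C / (r x / t) := h.J_le (by positivity)
        calc r x ^ (2 * k + 1) * W x * laJ k Kf (r x / t)
            ≤ r x ^ (2 * k + 1) * W x * (C / (r x / t)) :=
              mul_le_mul_of_nonneg_left h1 (by positivity)
          _ = C * t * (r x ^ (2 * k) * W x) := by rw [pow_succ]; field_simp
    have hnn : ∀ x, 0 ≤ r x ^ (2 * k + 1) * W x * laJ k Kf (r x / t) := fun x =>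
      mul_nonneg (mul_nonneg (pow_nonneg (w.rnonneg x) _) (w.wnonneg x)) (h.J_nonneg _)
    have hint : Integrable (fun x => r x ^ (2 * k + 1) * W x * laJ k Kf (r x / t)) μ := by
      refine Integrable.mono' (w.int.const_mul (C * t)) ?_ ?_
      · exact (((w.rmeas.pow_const _).mul w.wmeas).mul hmeasJ).aestronglyMeasurable
      · refine Eventually.of_forall fun x => ?_
        rw [Real.norm_of_nonneg (hnn x)]
        exact hbd x
    have hsplit : laI μ k Kf r W t =
        (∫ x in {x | r x ≤ t}, r x ^ (2 * k + 1) * W x * laJ k Kf (r x / t) ∂μ) +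
          ∫ x in {x | t < r x}, r x ^ (2 * k + 1) * W x * laJ k Kf (r x / t) ∂μ := by
      rw [hI, ← hSc]
      exact (integral_add_compl hS hint).symm
    have h1 : |laJ k Kf 0 * (∫ x in {x | r x ≤ t}, r x ^ (2 * k + 1) * W x ∂μ) -
        ∫ x in {x | r x ≤ t}, r x ^ (2 * k + 1) * W x * laJ k Kf (r x / t) ∂μ| ≤ C * C1 := by
      rw [← integral_const_mul, ← integral_sub ((w.intball 1 t).const_mul _) hint.integrableOn]
      have h2 : ∀ x ∈ {x | r x ≤ t}, ‖laJ k Kf 0 * (r x ^ (2 * k + 1) * W x) -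
          r x ^ (2 * k + 1) * W x * laJ k Kf (r x / t)‖ ≤
            C / t * (r x ^ (2 * k + 2) * W x) := by
        intro x _
        have hr := w.rnonneg x
        have hW := w.wnonneg x
        obtain ⟨h3, h4⟩ := h.J_diff (a := r x / t) (by positivity)
        have e1 : laJ k Kf 0 * (r x ^ (2 * k + 1) * W x) -
          r x ^ (2 * k + 1) * W x * laJ k Kf (r x / t) =
            (laJ k Kf 0 - laJ k Kf (r x / t)) * (r x ^ (2 * k + 1) * W x) := by ring
        rw [e1, Real.norm_of_nonneg (mul_nonneg h3 (by positivity))]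
        calc (laJ k Kf 0 - laJ k Kf (r x / t)) * (r x ^ (2 * k + 1) * W x)
            ≤ C * (r x / t) * (r x ^ (2 * k + 1) * W x) :=
              mul_le_mul_of_nonneg_right h4 (by positivity)
          _ = C / t * (r x ^ (2 * k + 2) * W x) := by rw [pow_succ (r x) (2 * k + 1)]; ring
      rw [← Real.norm_eq_abs]
      calc ‖∫ x in {x | r x ≤ t}, (laJ k Kf 0 * (r x ^ (2 * k + 1) * W x) -
            r x ^ (2 * k + 1) * W x * laJ k Kf (r x / t)) ∂μ‖
          ≤ ∫ x in {x | r x ≤ t}, C / t * (r x ^ (2 * k + 2) * W x) ∂μ := by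
            refine norm_integral_le_of_norm_le ((w.intball 2 t).const_mul _) ?_
            exact (ae_restrict_iff' hS).mpr (Eventually.of_forall h2)
        _ = C / t * ∫ x in {x | r x ≤ t}, r x ^ (2 * k + 2) * W x ∂μ := integral_const_mul _ _
        _ ≤ C / t * (C1 * t) := mul_le_mul_of_nonneg_left (hb t hta htb) (by positivity)
        _ = C * C1 := by field_simp
    have h2 : |∫ x in {x | t < r x}, r x ^ (2 * k + 1) * W x * laJ k Kf (r x / t) ∂μ| ≤
        4 * C * C1 := by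
      rw [abs_of_nonneg (integral_nonneg hnn)]
      calc ∫ x in {x | t < r x}, r x ^ (2 * k + 1) * W x * laJ k Kf (r x / t) ∂μ
          ≤ ∫ x in {x | t < r x}, C * t * (r x ^ (2 * k) * W x) ∂μ :=
            setIntegral_mono hint.integrableOn (w.int.const_mul _).integrableOn hbd
        _ = C * t * ∫ x in {x | t < r x}, r x ^ (2 * k) * W x ∂μ := integral_const_mul _ _
        _ ≤ C * t * (4 * C1 / t) := mul_le_mul_of_nonneg_left (htail t ht) (by positivity)
        _ = 4 * C * C1 := by field_simp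
    have h3 := hD t htp htb
    rw [hsplit] at h3
    set X := laJ k Kf 0 * (∫ x in {x | r x ≤ t}, r x ^ (2 * k + 1) * W x ∂μ)
    set Y := ∫ x in {x | r x ≤ t}, r x ^ (2 * k + 1) * W x * laJ k Kf (r x / t) ∂μ
    set Z := ∫ x in {x | t < r x}, r x ^ (2 * k + 1) * W x * laJ k Kf (r x / t) ∂μ
    calc |X - A * Real.log t| = |(X - Y) - Z + (Y + Z - A * Real.log t)| := by ring_nf
      _ ≤ |X - Y| + |Z| + |Y + Z - A * Real.log t| :=
        (abs_add_le _ _).trans (add_le_add_left (abs_sub _ _) _)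
      _ ≤ _ := by linarith
  have hXmono : ∀ t, t ≤ t1 → ∫ x in {x | r x ≤ t}, r x ^ (2 * k + 1) * W x ∂μ ≤
      ∫ x in {x | r x ≤ t1}, r x ^ (2 * k + 1) * W x ∂μ := by
    intro t ht
    refine setIntegral_mono_set (w.intball 1 _)
      (Eventually.of_forall fun x => mul_nonneg (pow_nonneg (w.rnonneg x) _) (w.wnonneg x))
      (LE.le.eventuallyLE fun x hx => ?_)
    exact le_trans hx ht
  refine ⟨(laJ k Kf 0)⁻¹ * (5 * C * C1 + D + |A| * Real.log t1) +
    ∫ x in {x | r x ≤ t1}, r x ^ (2 * k + 1) * W x ∂μ, fun t ht => ?_⟩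
  have hX0 : ∀ t, 0 ≤ ∫ x in {x | r x ≤ t}, r x ^ (2 * k + 1) * W x ∂μ := fun t =>
    integral_nonneg fun x => mul_nonneg (pow_nonneg (w.rnonneg x) _) (w.wnonneg x)
  have hlog1 : 0 ≤ Real.log t1 := Real.log_nonneg ht11
  have hlogt : 0 ≤ Real.log t := Real.log_nonneg ht
  have h5 : 0 ≤ 5 * C * C1 + D := (abs_nonneg _).trans (hlarge t1 le_rfl)
  have hJi : 0 < (laJ k Kf 0)⁻¹ := inv_pos.mpr hJ
  rcases le_total t1 t with htt | htt
  · have h6 := hlarge t htt
    set X := ∫ x in {x | r x ≤ t}, r x ^ (2 * k + 1) * W x ∂μ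
    have e1 : X - (laJ k Kf 0)⁻¹ * A * Real.log t =
        (laJ k Kf 0)⁻¹ * (laJ k Kf 0 * X - A * Real.log t) := by
      field_simp
    rw [e1, abs_mul, abs_of_pos hJi]
    have h7 : (laJ k Kf 0)⁻¹ * |laJ k Kf 0 * X - A * Real.log t| ≤
        (laJ k Kf 0)⁻¹ * (5 * C * C1 + D) := mul_le_mul_of_nonneg_left h6 hJi.le
    have h8 : 0 ≤ (laJ k Kf 0)⁻¹ * (|A| * Real.log t1) := by positivity
    have h9 := hX0 t1
    nlinarith
  · have h6 := hXmono t htt
    have h7 := hX0 t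
    have h8 : |(laJ k Kf 0)⁻¹ * A * Real.log t| ≤ (laJ k Kf 0)⁻¹ * (|A| * Real.log t1) := by
      rw [abs_mul, abs_mul, abs_of_pos hJi, abs_of_nonneg hlogt, mul_assoc]
      refine mul_le_mul_of_nonneg_left (mul_le_mul_of_nonneg_left ?_ (abs_nonneg _)) hJi.le
      exact Real.log_le_log (by linarith) htt
    have h9 : 0 ≤ (laJ k Kf 0)⁻¹ * (5 * C * C1 + D) := mul_nonneg hJi.le h5
    rw [abs_le] at h8 ⊢
    constructor <;> nlinarith

end Pool.Agent.Work.MP_f2af60_mp
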