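import Pool.Agent.Work.MP_f2af60_mp.Bd.B08
import Pool.Agent.Work.MP_f2af60_mp.PoleQDefs
import Pool.Agent.Work.MP_f2af60_mp.Bd.B04
import Pool.Agent.Work.MP_f2af60_mp.Bd.B07

/-!
# MP_f2af60_mp: infinitely many poles of the continued resolvent, odd dimensions
-/

namespace Pool.Agent.Work.MP_f2af60_mp

open MeasureTheory Metric Filter Topology

/-- scalar multiples of a fixed functional. -/
lemma gp_smul {K : Type} [MetricSpace K] [CompactSpace K] (c : ℂ → ℂ) (hc : Differentiable ℂ c)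
    (P : C(K, ℂ) →L[ℂ] ℂ) : Differentiable ℂ (fun z => c z • P) :=
  hc.smul_const P

/-- The kernel operators with their finite rank approximations. -/
theorem gp_package {q : ℕ} (hq : 1 ≤ q) {R : ℝ} (hR : 0 < R) (V : En q → ℝ) (hV : Measurable V)
    (M : ℝ) (hM : ∀ x, |V x| ≤ M) :
    ∃ (O : OpsQ q (muQ q R) (fun x : closedBall (0 : En q) R => V x))
      (h : ℂ → C(closedBall (0 : En q) R × closedBall (0 : En q) R, ℂ)) (s0 : ℝ),
      IsFiniteMeasure (muQ q R) ∧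
      (∀ z x y, h z (x, y) = eb q (z * ((dist x y : ℝ) : ℂ))) ∧ Differentiable ℂ h ∧
      0 < s0 ∧ (∀ s ≥ s0, ‖O.Op (h (Complex.I * (s : ℂ)))‖ ≤ 1 / 2) ∧
      ∀ r : ℕ, 1 ≤ r → ∃ (N : ℕ) (φ : Fin N → C(closedBall (0 : En q) R, ℂ))
        (ψ : Fin N → ℂ → (C(closedBall (0 : En q) R, ℂ) →L[ℂ] ℂ)),
        (∀ k, Differentiable ℂ (ψ k)) ∧
        ∀ l ∈ ball (0 : ℂ) r, ‖O.Op (h l) - FRop φ (fun k => ψ k l)‖ ≤ 1 / 2 := by
  obtain ⟨Cs, hCs, hSp⟩ := spBallQ q R hR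
  have hfinm := hSp.fin
  have hV' : Measurable (fun x : closedBall (0 : En q) R => V x) := hV.comp measurable_subtype_coe
  have hM' : ∀ x : closedBall (0 : En q) R, |V x| ≤ M := fun x => hM x
  obtain ⟨O⟩ := existsOpsQ q _ (muQ q R) Cs hSp (fun x : closedBall (0 : En q) R => V x) hV' M hM'
  obtain ⟨h, l, hh, hl, hhd, hh'0, hpar⟩ := f_fam q hq (closedBall (0 : En q) R)
  obtain ⟨Ci, hCi0, hCi⟩ := gm_imag f_imag hq hR V hV M hM
  obtain ⟨Cb, hCb⟩ := ebFacts.2.2.1 q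
  have hB : ∀ w : ℂ, ‖w‖ ≤ 1 → ‖eb q w‖ ≤ |Cb| * 2 ^ q * Real.exp 1 := by
    intro w hw
    refine (hCb w).trans ?_
    have e1 : -w.im ≤ 1 := by
      have := Complex.abs_im_le_norm w
      have := neg_abs_le w.im
      linarith
    have e2 : 1 + ‖w‖ ≤ 2 := by linarith
    calc Cb * (1 + ‖w‖) ^ q * Real.exp (-w.im) ≤ |Cb| * (1 + ‖w‖) ^ q * Real.exp (-w.im) := by
          gcongr
          exact le_abs_self Cb
      _ ≤ |Cb| * 2 ^ q * Real.exp 1 := by gcongr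
  set B0 : ℝ := |Cb| * 2 ^ q * Real.exp 1 with hB0d
  have hB0 : 0 ≤ B0 := by positivity
  obtain ⟨ε, he, he1, hsm⟩ := gm_small_param M B0 Cs ((muQ q R).real Set.univ) hB0 hCs.le
    measureReal_nonneg
  obtain ⟨Cd, nd, hdat⟩ := decData_exists f_decomp hq hR he he
  let dat : ∀ r : ℕ, DecData q R ε ε Cd nd (max r 1) := fun r =>
    Classical.choice (hdat (max r 1) (le_max_right _ _))
  have hhalf := gm_half dat hR he he1 Cs hSp V M hM O h hh B0 hB0 hB hsm
  refine ⟨O, h, max 1 (2 * Ci), hfinm, hh, hhd, by positivity, ?_, ?_⟩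
  · intro s hs
    have hs1 : 1 ≤ s := (le_max_left _ _).trans hs
    have hs2 : 2 * Ci ≤ s := (le_max_right _ _).trans hs
    have e1 : lam 0 (s ^ 2) = Complex.I * (s : ℂ) := by
      rw [lam]
      simp [Real.sqrt_sq (by linarith : (0 : ℝ) ≤ s)]
    rw [← e1]
    have hs3 : 1 ≤ s ^ 2 := by nlinarith
    refine (hCi O h l hh hl 0 (s ^ 2) hs3).1.trans ?_
    rw [div_le_iff₀ (by linarith)]
    nlinarith
  · intro r hr
    choose Ψ hΨ hΨn using fun k =>
      gm_exists_functional (muQ q R) Cs hSp (fun x : closedBall (0 : En q) R => V x) hV' M hM'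
        ((dat r).ψ k)
    refine ⟨(dat r).N, (dat r).φ, fun k z => (dat r).c k z • Ψ k, fun k => ?_, fun z hz => ?_⟩
    · exact gp_smul ((dat r).c k) ((dat r).hc k) (Ψ k)
    · have e1 := gm_A1 (muQ q R) Cs hSp _ hV' M hM' O h (dat r).φ (dat r).ψ (dat r).c Ψ hΨ z
      rw [e1]
      refine hhalf r z ?_
      rwa [max_eq_left hr]

/-- Every outgoing solution gives a pole of the continued resolvent. -/
theorem gp_isPole {q : ℕ} (hq : 1 ≤ q) (V : En q → ℝ) (hV : Measurable V) (M R : ℝ)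
    (hM : ∀ x, |V x| ≤ M) (hsupp : ∀ x, R < ‖x‖ → V x = 0) (z : ℂ) (hz : IsRes q V z) :
    PQ.IsPole V z := by
  obtain ⟨R', hR', hRR⟩ : ∃ R' : ℝ, 0 < R' ∧ R ≤ R' := ⟨max R 1, by positivity, le_max_left _ _⟩
  have hsupp' : ∀ x, R' < ‖x‖ → V x = 0 := fun x hx => hsupp x (hRR.trans_lt hx)
  obtain ⟨O, h, s0, hfin, hh, hhd, hs0, has, hloc⟩ := gp_package hq hR' V hV M hM
  exact PQ.isPole_of_isRes f_sub f_hh (PQ.fundamental f_sub f_pt PQ.heatFourier)
    (PQ.resolventExistsUnique PQ.freeResolvent) V hV M R' hM hsupp' O hfin h hh hhd s0 hs0 has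
    hloc z hz

/-- The resolvent only depends on the potential up to almost everywhere equality. -/
theorem gp_isResolvent_congr {q : ℕ} (V W : En q → ℝ) (h : V =ᵐ[volume] W) (k : ℝ)
    (f u : PQ.L2 q) : PQ.IsResolvent V k f u ↔ PQ.IsResolvent W k f u := by
  refine forall_congr' fun φ => ?_
  have : ∫ x, u x * (-(Laplacian.laplacian φ) x + ((V x : ℂ) + (k : ℂ) ^ 2) * φ x) =
      ∫ x, u x * (-(Laplacian.laplacian φ) x + ((W x : ℂ) + (k : ℂ) ^ 2) * φ x) := by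
    refine integral_congr_ae ?_
    filter_upwards [h] with x hx
    rw [hx]
  rw [this]

/-- Poles only depend on the potential up to almost everywhere equality. -/
theorem gp_isPole_congr {q : ℕ} (V W : En q → ℝ) (h : V =ᵐ[volume] W) (z : ℂ)
    (hW : PQ.IsPole W z) : PQ.IsPole V z := by
  obtain ⟨f, g, hf, hg, F, ⟨hF, k₀, hk⟩, ho⟩ := hW
  refine ⟨f, g, hf, hg, F, ⟨hF, k₀, fun k hk' => ?_⟩, ho⟩
  obtain ⟨u, hu, hFu⟩ := hk k hk'
  exact ⟨u, fun v => (gp_isResolvent_congr V W h k f v).trans (hu v), hFu⟩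

/-- The Sobolev condition only depends on the potential up to almost everywhere equality. -/
theorem gp_HS_congr {q : ℕ} (V W : En q → ℝ) (hVW : V =ᵐ[volume] W) (s : ℝ) (h : HS q V s) :
    HS q W s := by
  have e1 : FourierTransform.fourier (fun x => (W x : ℂ)) =
      FourierTransform.fourier (fun x => (V x : ℂ)) := by
    funext ξ
    rw [Real.fourier_eq, Real.fourier_eq]
    refine integral_congr_ae ?_
    filter_upwards [hVW] with x hx
    rw [hx]
  unfold HS at h ⊢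
  rw [e1]
  exact h

/-- Infinitely many poles. -/
theorem infinite_poles_odd {q : ℕ} (hq : 1 ≤ q) (V : En q → ℝ) (hV : MemLp V ⊤ volume)
    (R : ℝ) (hsupp : ∀ᵐ x, R < ‖x‖ → V x = 0) (hne : ¬ V =ᵐ[volume] 0)
    (hreg : Odd q ∨ HS q V (2 * q - 1)) :
    {z : ℂ | PQ.IsPole V z}.Infinite := by
  obtain ⟨W, M, hWm, hWM, hWR, hVW⟩ := exists_rep_odd V hV R hsupp
  have hW0 : ¬ W =ᵐ[volume] 0 := fun h => hne (hVW.trans h)
  have hregW : Odd q ∨ HS q W (2 * q - 1) := hreg.imp_right fun h => gp_HS_congr V W hVW _ h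
  exact (infinite_odd hq W hWm M R hWM hWR hW0 hregW).mono fun z hz =>
    gp_isPole_congr V W hVW z (gp_isPole hq W hWm M R hWM hWR z hz)

end Pool.Agent.Work.MP_f2af60_mp
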