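import Pool.Agent.Work.MP_f2af60_mp.Stmts

/-!
# MP_f2af60_mp, item 11: the decomposition of the kernel
-/

namespace Pool.Agent.Work.MP_f2af60_mp

open MeasureTheory Metric Filter Topology

namespace Decomp

theorem norm_exp_le {l : ℂ} {s : ℝ} (hs : 0 ≤ s) (h : ‖l‖ * s ≤ 1) :
    ‖Complex.exp (Complex.I * l * (s : ℂ))‖ ≤ 3 := by
  rw [Complex.norm_exp]
  have h1 : (Complex.I * l * (s : ℂ)).re ≤ 1 := by
    refine (Complex.re_le_norm _).trans ?_
    rw [norm_mul, norm_mul, Complex.norm_I, one_mul, Complex.norm_real, Real.norm_of_nonneg hs]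
    exact h
  refine (Real.exp_le_exp.mpr h1).trans ?_
  have := Real.exp_one_lt_d9
  linarith

theorem eight_pi : (8 : ℝ) ≤ ‖(8 * (Real.pi : ℂ) ^ 2)‖ := by
  rw [norm_mul, norm_pow, Complex.norm_real, Real.norm_of_nonneg Real.pi_pos.le]
  have h3 := Real.pi_gt_three
  have : ‖(8 : ℂ)‖ = 8 := by simp
  rw [this]
  nlinarith

theorem norm_gh_le {l : ℂ} {s : ℝ} (hs : 0 ≤ s) (h : ‖l‖ * s ≤ 1) : ‖gh l s‖ ≤ 1 := by
  unfold gh
  rw [norm_div, norm_mul]
  have h1 := norm_exp_le hs h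
  have h2 : ‖1 - Complex.I * l * (s : ℂ)‖ ≤ 2 := by
    refine (norm_sub_le _ _).trans ?_
    rw [norm_one, norm_mul, norm_mul, Complex.norm_I, one_mul, Complex.norm_real,
      Real.norm_of_nonneg hs]
    linarith
  have h3 := eight_pi
  rw [div_le_one (by linarith)]
  calc _ ≤ (3 : ℝ) * 2 := mul_le_mul h1 h2 (norm_nonneg _) (by norm_num)
    _ ≤ 8 := by norm_num
    _ ≤ _ := h3

theorem norm_gl_le {l : ℂ} {s : ℝ} (hs : 0 ≤ s) (h : ‖l‖ * s ≤ 1) : ‖gl l s‖ ≤ ‖l‖ := by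
  unfold gl
  rw [norm_div, norm_mul]
  have h1 := norm_exp_le hs h
  have h3 := eight_pi
  rw [div_le_iff₀ (by linarith)]
  exact mul_le_mul_of_nonneg_left (by linarith) (norm_nonneg _)

theorem hasDerivAt_gh (l : ℂ) (s : ℝ) :
    HasDerivAt (fun z => gh z s) ((s : ℂ) ^ 2 * gl l s) l := by
  unfold gh gl
  have h1 : HasDerivAt (fun z : ℂ => Complex.I * z * (s : ℂ)) (Complex.I * (s : ℂ)) l := by
    have := ((hasDerivAt_id l).const_mul Complex.I).mul_const (s : ℂ)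
    simpa using this
  have h2 := (h1.cexp.mul (h1.const_sub 1)).div_const (8 * (Real.pi : ℂ) ^ 2)
  refine h2.congr_deriv ?_
  have hI : Complex.I * Complex.I = -1 := Complex.I_mul_I
  have : Complex.exp (Complex.I * l * (s : ℂ)) * (Complex.I * (s : ℂ)) *
      (1 - Complex.I * l * (s : ℂ)) +
      Complex.exp (Complex.I * l * (s : ℂ)) * -(Complex.I * (s : ℂ)) =
      (s : ℂ) ^ 2 * (l * Complex.exp (Complex.I * l * (s : ℂ))) := by
    linear_combination (-(s : ℂ) ^ 2 * l * Complex.exp (Complex.I * l * (s : ℂ))) * hI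
  rw [this]
  ring


section

variable {R : ℝ} {K D : ℕ} {Nd : ℕ → ℕ} (a b : Fin K → C(E5, ℝ))
  (p q : (d : ℕ) → Fin (Nd d) → C(E5, ℝ))

/-- the index set -/
abbrev Ix (K D : ℕ) (Nd : ℕ → ℕ) : Type := (d : Fin D) × (Fin K × Fin (Nd d))

/-- the functions of one variable -/
noncomputable def Fn (R : ℝ) (a : Fin K → C(E5, ℝ)) (p : (d : ℕ) → Fin (Nd d) → C(E5, ℝ))
    (i : Ix K D Nd) : C(closedBall (0 : E5) R, ℂ) :=
  ⟨fun x => ((a i.2.1 x * p i.1 i.2.2 x : ℝ) : ℂ), by fun_prop⟩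

theorem Fn_apply (i : Ix K D Nd) (x : closedBall (0 : E5) R) :
    Fn R a p i x = ((a i.2.1 x * p i.1 i.2.2 x : ℝ) : ℂ) := rfl

theorem sum_eq (c : ℝ)
    (hsep : ∀ d, ∀ x y : E5, (1 - dist x y ^ 2 / c) ^ d = ∑ k, p d k x * q d k y)
    (w : ℕ → ℂ) (x y : closedBall (0 : E5) R) :
    ∑ i : Ix K D Nd, w i.1 * Fn R a p i x * Fn R b q i y =
      ((∑ k, a k x * b k y : ℝ) : ℂ) *
        ∑ d ∈ Finset.range D, w d * ((1 - dist x y ^ 2 / c : ℝ) : ℂ) ^ d := by
  rw [Fintype.sum_sigma, Finset.sum_range, Finset.mul_sum]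
  refine Finset.sum_congr rfl fun d _ => ?_
  have h1 : ((1 - dist x y ^ 2 / c : ℝ) : ℂ) ^ (d : ℕ) =
      ∑ m, ((p d m x * q d m y : ℝ) : ℂ) := by
    rw [← Complex.ofReal_pow, Subtype.dist_eq, hsep, Complex.ofReal_sum]
  rw [h1, Fintype.sum_prod_type, Complex.ofReal_sum, Finset.sum_mul]
  refine Finset.sum_congr rfl fun k _ => ?_
  rw [Finset.mul_sum, Finset.mul_sum]
  refine Finset.sum_congr rfl fun m _ => ?_
  rw [Fn_apply, Fn_apply]
  push_cast
  ring

theorem norm_Fn_le (ha : ∀ k x, 0 ≤ a k x ∧ a k x ≤ 1) {Cs : ℝ} (hCs : 1 ≤ Cs)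
    (hp : ∀ d, ∀ k, ∀ x ∈ closedBall (0 : E5) R, |p d k x| ≤ Cs ^ d) (i : Ix K D Nd) :
    ‖Fn R a p i‖ ≤ Real.exp (D * Real.log Cs) := by
  have h0 : Real.exp (D * Real.log Cs) = Cs ^ D := by
    rw [mul_comm, Real.exp_mul, Real.exp_log (by linarith), Real.rpow_natCast]
  rw [h0, ContinuousMap.norm_le _ (by positivity)]
  intro x
  rw [Fn_apply, Complex.norm_real, Real.norm_eq_abs, abs_mul, abs_of_nonneg (ha _ _).1]
  have h1 : Cs ^ (i.1 : ℕ) ≤ Cs ^ D := pow_le_pow_right₀ hCs i.1.2.le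
  calc _ ≤ 1 * Cs ^ (i.1 : ℕ) :=
        mul_le_mul (ha _ _).2 (hp _ _ _ x.2) (abs_nonneg _) zero_le_one
    _ ≤ _ := by rw [one_mul]; exact h1

theorem card_le (hN : ∀ d, Nd d ≤ (d + 1) ^ 7) :
    Fintype.card (Ix K D Nd) ≤ K * D ^ 8 := by
  rw [Fintype.card_sigma]
  calc ∑ d : Fin D, Fintype.card (Fin K × Fin (Nd d)) ≤ ∑ _d : Fin D, K * D ^ 7 := by
        refine Finset.sum_le_sum fun d _ => ?_
        rw [Fintype.card_prod, Fintype.card_fin, Fintype.card_fin]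
        exact Nat.mul_le_mul_left _ ((hN d).trans (Nat.pow_le_pow_left d.2 7))
    _ = K * D ^ 8 := by
        rw [Finset.sum_const, Finset.card_univ, Fintype.card_fin, smul_eq_mul]
        ring

end

/-- the two pointwise bounds -/
theorem bounds {D : ℕ} {q : ℕ → ℂ → ℂ} (hqd : ∀ d, Differentiable ℂ (q d)) {R e1 c1 : ℝ}
    {r : ℕ} (hr : 1 ≤ r) (he1 : 0 < e1) (he11 : e1 ≤ 1) (hc1 : 0 < c1) {s : ℝ}
    (hs0 : 0 ≤ s) (hsR : s ≤ 2 * R)
    (hq : ∀ l : ℂ, ‖l‖ ≤ 2 * r → c1 / r ≤ s → ‖gh l s / (s : ℂ) ^ 3 -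
      ∑ d ∈ Finset.range D, q d l * ((1 - s ^ 2 / (4 * R ^ 2) : ℝ) : ℂ) ^ d‖ ≤ e1)
    {F : ℝ} (hF0 : 0 ≤ F) (hF1 : F ≤ 1) {c0 : ℝ} (hc01 : c0 ≤ 1) (hc10 : c1 ≤ c0)
    (hFar : c0 / r ≤ s → F = 1) (hNear : s < c1 / r → F = 0) {l : ℂ} (hl : ‖l‖ < r) :
    ‖gh l s - (s : ℂ) ^ 3 * ((F : ℂ) *
      ∑ d ∈ Finset.range D, q d l * ((1 - s ^ 2 / (4 * R ^ 2) : ℝ) : ℂ) ^ d)‖ ≤
      (if s < c0 then 1 else 0) + e1 * s ^ 3 ∧
    ‖gl l s - (s : ℂ) * ((F : ℂ) *
      ∑ d ∈ Finset.range D, deriv (q d) l * ((1 - s ^ 2 / (4 * R ^ 2) : ℝ) : ℂ) ^ d)‖ ≤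
      (1 + 2 * R) * r := by
  have hr0 : (0 : ℝ) < r := by exact_mod_cast hr
  have hr1 : (1 : ℝ) ≤ r := by exact_mod_cast hr
  have hc0 : 0 < c0 := hc1.trans_le hc10
  have hR : 0 ≤ R := by linarith
  have hlr : ‖l‖ ≤ 2 * r := by linarith
  -- near the diagonal
  have hnear : s < c0 / r → ‖gh l s‖ ≤ 1 ∧ ‖gl l s‖ ≤ r ∧ s < c0 := by
    intro h
    have h1 : ‖l‖ * s ≤ 1 := by
      have h2 : s * r < c0 := (lt_div_iff₀ hr0).mp h
      have h3 : ‖l‖ * s ≤ r * s := mul_le_mul_of_nonneg_right hl.le hs0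
      linarith
    refine ⟨norm_gh_le hs0 h1, (norm_gl_le hs0 h1).trans hl.le, ?_⟩
    exact h.trans_le (div_le_self hc0.le hr1)
  set P : ℂ := ∑ d ∈ Finset.range D, q d l * ((1 - s ^ 2 / (4 * R ^ 2) : ℝ) : ℂ) ^ d with hP
  set P' : ℂ := ∑ d ∈ Finset.range D,
    deriv (q d) l * ((1 - s ^ 2 / (4 * R ^ 2) : ℝ) : ℂ) ^ d with hP'
  have hRr : 0 ≤ 2 * R * r := by positivity
  rcases lt_or_ge s (c1 / r) with h | h
  · have h' : s < c0 / r := h.trans_le (by gcongr)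
    obtain ⟨g1, g2, g3⟩ := hnear h'
    rw [hNear h]
    simp only [Complex.ofReal_zero, zero_mul, mul_zero, sub_zero, if_pos g3]
    refine ⟨?_, ?_⟩
    · have : 0 ≤ e1 * s ^ 3 := by positivity
      linarith
    · nlinarith
  · have hspos : 0 < s := (div_pos hc1 hr0).trans_le h
    have hsne : (s : ℂ) ≠ 0 := by exact_mod_cast hspos.ne'
    have hA := hq l hlr h
    -- Cauchy estimate
    have hder : HasDerivAt (fun z => gh z s / (s : ℂ) ^ 3 -
        ∑ d ∈ Finset.range D, q d z * ((1 - s ^ 2 / (4 * R ^ 2) : ℝ) : ℂ) ^ d)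
        ((s : ℂ) ^ 2 * gl l s / (s : ℂ) ^ 3 - P') l := by
      refine ((hasDerivAt_gh l s).div_const _).sub ?_
      exact HasDerivAt.fun_sum fun d _ => ((hqd d) l).hasDerivAt.mul_const _
    have hdiff : Differentiable ℂ (fun z => gh z s / (s : ℂ) ^ 3 -
        ∑ d ∈ Finset.range D, q d z * ((1 - s ^ 2 / (4 * R ^ 2) : ℝ) : ℂ) ^ d) := by
      intro z
      refine (((hasDerivAt_gh z s).div_const _).sub
        (HasDerivAt.fun_sum fun d _ => ((hqd d) z).hasDerivAt.mul_const _)).differentiableAt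
    have hB : ‖(s : ℂ) ^ 2 * gl l s / (s : ℂ) ^ 3 - P'‖ ≤ e1 := by
      have := Complex.norm_deriv_le_of_forall_mem_sphere_norm_le (c := l) (R := 1) (C := e1)
        one_pos hdiff.diffContOnCl (fun z hz => by
          refine hq z ?_ h
          have hz1 : ‖z - l‖ = 1 := by simpa [dist_eq_norm] using hz
          have : ‖z‖ ≤ ‖z - l‖ + ‖l‖ := by
            calc ‖z‖ = ‖(z - l) + l‖ := by ring_nf
              _ ≤ _ := norm_add_le _ _
          linarith)
      rw [hder.deriv, div_one] at this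
      exact this
    have e1' : gh l s - (s : ℂ) ^ 3 * ((F : ℂ) * P) =
        ((1 - F : ℝ) : ℂ) * gh l s + (F : ℂ) * (s : ℂ) ^ 3 * (gh l s / (s : ℂ) ^ 3 - P) := by
      push_cast
      field_simp
      ring
    have e2' : gl l s - (s : ℂ) * ((F : ℂ) * P') = ((1 - F : ℝ) : ℂ) * gl l s +
        (F : ℂ) * (s : ℂ) * ((s : ℂ) ^ 2 * gl l s / (s : ℂ) ^ 3 - P') := by
      push_cast
      field_simp
      ring
    have n1 : ‖((1 - F : ℝ) : ℂ)‖ = 1 - F := by
      rw [Complex.norm_real, Real.norm_of_nonneg (by linarith)]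
    have n2 : ‖(F : ℂ)‖ = F := by rw [Complex.norm_real, Real.norm_of_nonneg hF0]
    have n3 : ‖(s : ℂ)‖ = s := by rw [Complex.norm_real, Real.norm_of_nonneg hs0]
    have b1 : ‖gh l s - (s : ℂ) ^ 3 * ((F : ℂ) * P)‖ ≤ (1 - F) * ‖gh l s‖ + s ^ 3 * e1 := by
      rw [e1']
      refine (norm_add_le _ _).trans ?_
      rw [norm_mul, norm_mul, norm_mul, norm_pow, n1, n2, n3]
      have : F * s ^ 3 * ‖gh l s / (s : ℂ) ^ 3 - P‖ ≤ 1 * s ^ 3 * e1 := by gcongr
      linarith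
    have b2 : ‖gl l s - (s : ℂ) * ((F : ℂ) * P')‖ ≤ (1 - F) * ‖gl l s‖ + s * e1 := by
      rw [e2']
      refine (norm_add_le _ _).trans ?_
      rw [norm_mul, norm_mul, norm_mul, n1, n2, n3]
      have : F * s * ‖(s : ℂ) ^ 2 * gl l s / (s : ℂ) ^ 3 - P'‖ ≤ 1 * s * e1 := by gcongr
      linarith
    have hse : s * e1 ≤ 2 * R * r := by
      calc s * e1 ≤ (2 * R) * 1 := mul_le_mul hsR he11 he1.le (by linarith)
        _ ≤ 2 * R * r := by gcongr
    rcases lt_or_ge s (c0 / r) with h' | h'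
    · obtain ⟨g1, g2, g3⟩ := hnear h'
      rw [if_pos g3]
      refine ⟨b1.trans ?_, b2.trans ?_⟩
      · have : (1 - F) * ‖gh l s‖ ≤ 1 * 1 :=
          mul_le_mul (by linarith) g1 (norm_nonneg _) zero_le_one
        linarith
      · have : (1 - F) * ‖gl l s‖ ≤ 1 * r :=
          mul_le_mul (by linarith) g2 (norm_nonneg _) zero_le_one
        linarith
    · have hF := hFar h'
      rw [hF, sub_self, zero_mul, zero_add] at b1 b2
      rw [hF]
      refine ⟨b1.trans ?_, b2.trans ?_⟩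
      · have : (0 : ℝ) ≤ if s < c0 then 1 else 0 := by split_ifs <;> norm_num
        linarith
      · nlinarith

end Decomp

open Decomp in
theorem decomposition (h8 : Hats) (h9 : PolyApprox) (h10 : Sep) : Decomposition := by
  intro R e hR he
  classical
  have he1pos : 0 < min e 1 := lt_min he one_pos
  have hc0pos : 0 < min 1 e := lt_min one_pos he
  obtain ⟨Ch, c1, nh, hc1, hc10, hH⟩ := h8 R (min 1 e) hR hc0pos
  have hc : 0 < 4 * R ^ 2 := by positivity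
  obtain ⟨Cp, np, hP⟩ := h9 (4 * R ^ 2) (2 * c1) (min e 1) hc (by positivity) he1pos
  obtain ⟨Cs, hCs, hS⟩ := h10 R (4 * R ^ 2) hR hc
  choose Nd p s hN hps hsep using hS
  set B : ℝ := max 1 (|Cp| * 2 ^ np) with hB
  have hB1 : 1 ≤ B := le_max_left _ _
  have hB2 : |Cp| * 2 ^ np ≤ B := le_max_right _ _
  have hlog : 0 ≤ Real.log Cs := Real.log_nonneg hCs
  refine ⟨|Ch| * B ^ 8 + B * Real.log Cs + B + (1 + 2 * R), nh + 8 * np, ?_⟩
  intro r hr
  have hr1 : (1 : ℝ) ≤ r := by exact_mod_cast hr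
  have hr0 : (0 : ℝ) < r := by linarith
  obtain ⟨K, a, b, hK, ha, hb, hab⟩ := hH r hr
  obtain ⟨D, q, hD, hqd, hqb, hq⟩ := hP (2 * r) (by omega)
  have hcast : ((2 * r : ℕ) : ℝ) = 2 * r := by push_cast; rfl
  have hpw : (r : ℝ) ^ np ≤ (r : ℝ) ^ (nh + 8 * np) := pow_le_pow_right₀ hr1 (by omega)
  have hCp : Cp * ((2 * r : ℕ) : ℝ) ^ np ≤ B * (r : ℝ) ^ np := by
    rw [hcast, mul_pow, ← mul_assoc]
    refine mul_le_mul_of_nonneg_right ?_ (by positivity)
    exact (mul_le_mul_of_nonneg_right (le_abs_self _) (by positivity)).trans hB2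
  have hDr : (D : ℝ) ≤ B * (r : ℝ) ^ np := hD.trans hCp
  set CC : ℝ := |Ch| * B ^ 8 + B * Real.log Cs + B + (1 + 2 * R) with hCC
  have hn1 : 0 ≤ |Ch| * B ^ 8 := by positivity
  have hn2 : 0 ≤ B * Real.log Cs := by positivity
  have hpow0 : 0 < (r : ℝ) ^ (nh + 8 * np) := by positivity
  have hexp : Real.exp (D * Real.log Cs) ≤ Real.exp (CC * (r : ℝ) ^ (nh + 8 * np)) := by
    refine Real.exp_le_exp.mpr ?_
    calc D * Real.log Cs ≤ (B * (r : ℝ) ^ np) * Real.log Cs :=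
          mul_le_mul_of_nonneg_right hDr hlog
      _ = (B * Real.log Cs) * (r : ℝ) ^ np := by ring
      _ ≤ (B * Real.log Cs) * (r : ℝ) ^ (nh + 8 * np) := by gcongr
      _ ≤ CC * (r : ℝ) ^ (nh + 8 * np) := by
          refine mul_le_mul_of_nonneg_right ?_ hpow0.le
          linarith
  let E := Fintype.equivFin (Ix K D Nd)
  refine ⟨Fintype.card (Ix K D Nd), fun k => Fn R a p (E.symm k), fun k => Fn R b s (E.symm k),
    fun k => q (E.symm k).1, ?_, ?_, ?_, ?_, ?_, ?_, ?_, ?_⟩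
  · have h1 : ((Fintype.card (Ix K D Nd) : ℕ) : ℝ) ≤ K * (D : ℝ) ^ 8 := by
      exact_mod_cast card_le hN
    calc ((Fintype.card (Ix K D Nd) : ℕ) : ℝ) ≤ K * (D : ℝ) ^ 8 := h1
      _ ≤ (|Ch| * (r : ℝ) ^ nh) * (B * (r : ℝ) ^ np) ^ 8 := by
          gcongr
          exact hK.trans (mul_le_mul_of_nonneg_right (le_abs_self _) (by positivity))
      _ = (|Ch| * B ^ 8) * (r : ℝ) ^ (nh + 8 * np) := by
          rw [mul_pow, ← pow_mul, pow_add]
          ring
      _ ≤ CC * (r : ℝ) ^ (nh + 8 * np) := by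
          refine mul_le_mul_of_nonneg_right ?_ hpow0.le
          linarith
  · intro k
    exact (norm_Fn_le a p ha hCs (fun d k x hx => (hps d k x hx).1) _).trans hexp
  · intro k
    exact (norm_Fn_le b s hb hCs (fun d k x hx => (hps d k x hx).2) _).trans hexp
  · intro k
    exact hqd _
  · intro k l hl
    rw [mem_ball_zero_iff] at hl
    refine (hqb _ l (by rw [hcast]; linarith)).trans ?_
    refine Real.exp_le_exp.mpr ?_
    calc Cp * ((2 * r : ℕ) : ℝ) ^ np ≤ B * (r : ℝ) ^ np := hCp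
      _ ≤ B * (r : ℝ) ^ (nh + 8 * np) := by gcongr
      _ ≤ CC * (r : ℝ) ^ (nh + 8 * np) := by
          refine mul_le_mul_of_nonneg_right ?_ hpow0.le
          linarith
  · intro k x
    have h0 := (hab x x.2 x x.2).2.2.2
    rw [dist_self] at h0
    have h1 := h0 (by positivity)
    have h2 := (Finset.sum_eq_zero_iff_of_nonneg
      (fun i _ => mul_nonneg (ha i x).1 (hb i x).1)).mp h1 (E.symm k).2.1 (Finset.mem_univ _)
    rw [Fn_apply, Fn_apply, ← Complex.ofReal_mul]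
    have h3 : a (E.symm k).2.1 x * p (E.symm k).1 (E.symm k).2.2 x *
        (b (E.symm k).2.1 x * s (E.symm k).1 (E.symm k).2.2 x) = 0 := by
      calc _ = (a (E.symm k).2.1 x * b (E.symm k).2.1 x) *
            (p (E.symm k).1 (E.symm k).2.2 x * s (E.symm k).1 (E.symm k).2.2 x) := by ring
        _ = 0 := by rw [h2, zero_mul]
    rw [h3, Complex.ofReal_zero]
  all_goals
    intro l hl x y
    rw [mem_ball_zero_iff] at hl
    have hdR : dist x y ≤ 2 * R := by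
      have h1 : dist (x : E5) 0 ≤ R := x.2
      have h2 : dist (y : E5) 0 ≤ R := y.2
      calc dist x y = dist (x : E5) (y : E5) := rfl
        _ ≤ dist (x : E5) 0 + dist (0 : E5) (y : E5) := dist_triangle _ _ _
        _ ≤ 2 * R := by rw [dist_comm (0 : E5)]; linarith
    obtain ⟨f0, f1, ffar, fnear⟩ := hab x x.2 y y.2
    have hb := bounds (D := D) hqd (R := R) hr he1pos (min_le_right _ _) hc1 dist_nonneg hdR
      (fun l hl h => hq l (by rw [hcast]; exact hl) (dist x y)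
        (by rw [hcast, mul_div_mul_left _ _ two_ne_zero]; exact h)
        (by nlinarith [dist_nonneg (x := x) (y := y)]))
      f0 f1 (min_le_left 1 e) hc10 ffar fnear hl
  · have hsum : ∑ k, (fun k => q (E.symm k).1) k l * (fun k => Fn R a p (E.symm k)) k x *
        (fun k => Fn R b s (E.symm k)) k y =
        ∑ i : Ix K D Nd, (fun d => q d l) i.1 * Fn R a p i x * Fn R b s i y :=
      Equiv.sum_comp E.symm (fun i => q i.1 l * Fn R a p i x * Fn R b s i y)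
    have hse := sum_eq a b p s (4 * R ^ 2) hsep (D := D) (fun d => q d l) x y
    rw [hsum, hse]
    refine hb.1.trans ?_
    have hd3 : 0 ≤ dist x y ^ 3 := by positivity
    have h1 : min e 1 * dist x y ^ 3 ≤ e * dist x y ^ 3 :=
      mul_le_mul_of_nonneg_right (min_le_left _ _) hd3
    have h2 : (if dist x y < min 1 e then (1 : ℝ) else 0) ≤ if dist x y < e then 1 else 0 := by
      by_cases h : dist x y < min 1 e
      · rw [if_pos h, if_pos (h.trans_le (min_le_right _ _))]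
      · rw [if_neg h]
        split_ifs <;> norm_num
    linarith
  · have hsum : ∑ k, deriv ((fun k => q (E.symm k).1) k) l *
        (fun k => Fn R a p (E.symm k)) k x * (fun k => Fn R b s (E.symm k)) k y =
        ∑ i : Ix K D Nd, (fun d => deriv (q d) l) i.1 * Fn R a p i x * Fn R b s i y :=
      Equiv.sum_comp E.symm (fun i => deriv (q i.1) l * Fn R a p i x * Fn R b s i y)
    have hse := sum_eq a b p s (4 * R ^ 2) hsep (D := D) (fun d => deriv (q d) l) x y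
    rw [hsum, hse]
    refine hb.2.trans ?_
    refine mul_le_mul_of_nonneg_right ?_ hr0.le
    linarith

end Pool.Agent.Work.MP_f2af60_mp
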