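import Mathlib

/-!
# MP_f2af60_mp, dimension five: shared definitions

* `E5` is `ℝ⁵`, `G l` the kernel of the (continued) free resolvent `(-Δ - l²)⁻¹`,
  `IsResonance V l` : there is a nonzero continuous outgoing solution `u = - R₀(l)(V u)`.
* `Sp μ C`: the properties of the compact metric measure space `K` (a closed ball of `ℝ⁵`) used for
  the kernel operators.
* `Ops μ V`: the three families of kernel operators on `C(K, ℂ)`.
* `FRop`, `FRmat`: finite rank operators and their perturbation matrices.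
* `gh`, `gl`: the numerators of `G` and of its derivative in `l`.
-/

namespace Pool.Agent.Work.MP_f2af60_mp

open MeasureTheory

/-- Five dimensional Euclidean space. -/
abbrev E5 := EuclideanSpace ℝ (Fin 5)

/-- The kernel of the continued free resolvent `(-Δ - l²)⁻¹` on `ℝ⁵` (a function of `x - y`). -/
noncomputable def G (l : ℂ) (x : E5) : ℂ :=
  Complex.exp (Complex.I * l * (‖x‖ : ℂ)) * (1 - Complex.I * l * (‖x‖ : ℂ)) /
    (8 * (Real.pi : ℂ) ^ 2 * (‖x‖ : ℂ) ^ 3)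

/-- `l` is a resonance of `V`: there is a nonzero continuous `u` with `u = - R₀(l)(V u)`. -/
def IsResonance (V : E5 → ℝ) (l : ℂ) : Prop :=
  ∃ u : E5 → ℂ, Continuous u ∧ u ≠ 0 ∧ ∀ x, u x = -∫ y, G l (x - y) * (V y : ℂ) * u y

/-- `8 π² s³` times the kernel `G` at distance `s`, divided by `8 π²`. -/
noncomputable def gh (l : ℂ) (s : ℝ) : ℂ :=
  Complex.exp (Complex.I * l * (s : ℂ)) * (1 - Complex.I * l * (s : ℂ)) / (8 * (Real.pi : ℂ) ^ 2)

/-- `s` times the derivative in `l` of the kernel `G` at distance `s`. -/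
noncomputable def gl (l : ℂ) (s : ℝ) : ℂ :=
  l * Complex.exp (Complex.I * l * (s : ℂ)) / (8 * (Real.pi : ℂ) ^ 2)

/-- Hypotheses on a compact metric measure space (a closed ball of `ℝ⁵` satisfies them). -/
structure Sp {K : Type*} [MetricSpace K] [CompactSpace K] [MeasurableSpace K] [BorelSpace K]
    (μ : Measure K) (C : ℝ) : Prop where
  fin : IsFiniteMeasure μ
  noat : NullSingletonClass μ
  int : ∀ x, Integrable (fun y => ((dist x y) ^ 4)⁻¹) μ
  small : ∀ x, ∀ e > 0, ∫ y in Metric.ball x e, ((dist x y) ^ 4)⁻¹ ∂μ ≤ C * e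

/-- The slice `x ↦ k (x, y)` of a continuous function on `K × K`. -/
noncomputable def slice {K : Type*} [MetricSpace K] (k : C(K × K, ℂ)) (y : K) : C(K, ℂ) :=
  ⟨fun x => k (x, y), by fun_prop⟩

@[simp] lemma slice_apply {K : Type*} [MetricSpace K] (k : C(K × K, ℂ)) (y x : K) :
    slice k y x = k (x, y) := rfl

/-- The kernel operators on `C(K, ℂ)`. -/
structure Ops {K : Type*} [MetricSpace K] [CompactSpace K] [MeasurableSpace K] [BorelSpace K]
    (μ : Measure K) (V : K → ℝ) where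
  Op : C(K × K, ℂ) →L[ℂ] (C(K, ℂ) →L[ℂ] C(K, ℂ))
  Op_apply : ∀ h f x, Op h f x =
    ∫ y, h (x, y) * ((((dist x y) ^ 3)⁻¹ : ℝ) : ℂ) * (V y : ℂ) * f y ∂μ
  Cp : C(K × K, ℂ) →L[ℂ] C(K × K, ℂ) →L[ℂ] C(K × K, ℂ)
  Cp_apply : ∀ h l x y, Cp h l (x, y) =
    ∫ z, h (x, z) * ((((dist x z) ^ 3)⁻¹ : ℝ) : ℂ) * (V z : ℂ) *
      (l (z, y) * (((dist z y)⁻¹ : ℝ) : ℂ)) ∂μ
  tr : (C(K, ℂ) →L[ℂ] C(K, ℂ)) →L[ℂ] C(K × K, ℂ) →L[ℂ] ℂ
  tr_apply : ∀ S k, tr S k = ∫ y, (V y : ℂ) * (S (slice k y)) y ∂μ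

section FR

variable {X : Type*} [NormedAddCommGroup X] [NormedSpace ℂ X] {ι : Type*} [Fintype ι]

/-- The finite rank operator `u ↦ ∑ ψ k (u) φ k`. -/
noncomputable def FRop (φ : ι → X) (ψ : ι → (X →L[ℂ] ℂ)) : X →L[ℂ] X :=
  ∑ k, (ψ k).smulRight (φ k)

/-- The matrix `ψ k (T (φ k'))`. -/
noncomputable def FRmat (φ : ι → X) (ψ : ι → (X →L[ℂ] ℂ)) (T : X →L[ℂ] X) : Matrix ι ι ℂ :=
  Matrix.of fun k k' => ψ k (T (φ k'))

end FR

/-- The kernel `s e^{-2 s |z|} (1 + s |z|) / (64 π⁴ |z|⁴)` of the second order term. -/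
noncomputable def kk (s : ℝ) (z : E5) : ℝ :=
  s * Real.exp (-(2 * s * ‖z‖)) * (1 + s * ‖z‖) / (64 * Real.pi ^ 4 * ‖z‖ ^ 4)

/-- The second order term on the imaginary axis. -/
noncomputable def SS (V : E5 → ℝ) (s : ℝ) : ℝ := ∫ x, ∫ y, V x * V y * kk s (x - y)

/-- Lebesgue measure on the closed ball of radius `R`. -/
noncomputable def muB (R : ℝ) : Measure (Metric.closedBall (0 : E5) R) :=
  Measure.comap Subtype.val volume

end Pool.Agent.Work.MP_f2af60_mp
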