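import Pool.Agent.Work.MP_f2af60_mp.Trunc

/-!
# MP_f2af60_mp, item 3: the composed kernel
-/

namespace Pool.Agent.Work.MP_f2af60_mp

open MeasureTheory Metric Filter Topology

section Cp

variable {K : Type*} [MetricSpace K] [CompactSpace K] [MeasurableSpace K] [BorelSpace K]
    {μ : Measure K} {C : ℝ}

lemma norm_cpInt_le (V : K → ℝ) (M : ℝ) (hM : ∀ x, |V x| ≤ M) (h l : C(K × K, ℂ))
    (x y z : K) (s t : ℝ) :
    ‖h (x, z) * (s : ℂ) * (V z : ℂ) * (l (z, y) * (t : ℂ))‖ ≤ ‖h‖ * M * ‖l‖ * |s * t| := by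
  rw [norm_mul, norm_mul, norm_mul, norm_mul, Complex.norm_real, Complex.norm_real,
    Complex.norm_real, Real.norm_eq_abs, Real.norm_eq_abs, Real.norm_eq_abs, abs_mul]
  have h1 := h.norm_coe_le_norm (x, z)
  have h2 := l.norm_coe_le_norm (z, y)
  have h3 := hM z
  have hM0 : 0 ≤ M := (abs_nonneg _).trans h3
  calc ‖h (x, z)‖ * |s| * |V z| * (‖l (z, y)‖ * |t|) ≤ ‖h‖ * |s| * M * (‖l‖ * |t|) := by gcongr
    _ = ‖h‖ * M * ‖l‖ * (|s| * |t|) := by ring

lemma cpInt_meas (V : K → ℝ) (hV : Measurable V) (h l : C(K × K, ℂ)) (x y : K)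
    (k k' : K → ℝ) (hk : Measurable k) (hk' : Measurable k') :
    Measurable fun z => h (x, z) * ((k z : ℝ) : ℂ) * (V z : ℂ) * (l (z, y) * ((k' z : ℝ) : ℂ)) := by
  have h1 : Measurable fun z => h (x, z) := (h.continuous.comp (by fun_prop)).measurable
  have h2 : Measurable fun z => l (z, y) := (l.continuous.comp (by fun_prop)).measurable
  fun_prop

lemma cp_dom_integrable (hS : Sp μ C) (x y : K) (A : ℝ) :
    Integrable (fun z => A * (((dist x z) ^ 4)⁻¹ + ((dist y z) ^ 4)⁻¹)) μ :=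
  ((hS.int x).add (hS.int y)).const_mul _

lemma cp_pointwise (V : K → ℝ) (M : ℝ) (hM : ∀ x, |V x| ≤ M) (h l : C(K × K, ℂ)) (x y z : K) :
    ‖h (x, z) * ((((dist x z) ^ 3)⁻¹ : ℝ) : ℂ) * (V z : ℂ) *
      (l (z, y) * (((dist z y)⁻¹ : ℝ) : ℂ))‖ ≤
      ‖h‖ * M * ‖l‖ * (((dist x z) ^ 4)⁻¹ + ((dist y z) ^ 4)⁻¹) := by
  refine (norm_cpInt_le V M hM h l x y z _ _).trans ?_
  have hM0 : 0 ≤ M := (abs_nonneg _).trans (hM z)
  rw [abs_of_nonneg (by positivity), dist_comm y z]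
  exact mul_le_mul_of_nonneg_left (inv31_le _ _ dist_nonneg dist_nonneg) (by positivity)

lemma cp_integrable (hS : Sp μ C) (V : K → ℝ) (hV : Measurable V) (M : ℝ) (hM : ∀ x, |V x| ≤ M)
    (h l : C(K × K, ℂ)) (x y : K) :
    Integrable (fun z => h (x, z) * ((((dist x z) ^ 3)⁻¹ : ℝ) : ℂ) * (V z : ℂ) *
      (l (z, y) * (((dist z y)⁻¹ : ℝ) : ℂ))) μ := by
  have hk : Measurable fun z => ((dist x z) ^ 3)⁻¹ := by fun_prop
  have hk' : Measurable fun z => (dist z y)⁻¹ := by fun_prop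
  refine (cp_dom_integrable hS x y (‖h‖ * M * ‖l‖)).mono'
    (cpInt_meas V hV h l x y _ _ hk hk').aestronglyMeasurable ?_
  exact Filter.Eventually.of_forall fun z => cp_pointwise V M hM h l x y z

lemma cp_bound (hS : Sp μ C) (V : K → ℝ) (M : ℝ) (hM : ∀ x, |V x| ≤ M)
    {D : ℝ} (hD : ∀ x, ∫ y, ((dist x y) ^ 4)⁻¹ ∂μ ≤ D)
    (h l : C(K × K, ℂ)) (x y : K) :
    ‖∫ z, h (x, z) * ((((dist x z) ^ 3)⁻¹ : ℝ) : ℂ) * (V z : ℂ) *
      (l (z, y) * (((dist z y)⁻¹ : ℝ) : ℂ)) ∂μ‖ ≤ (2 * M * D) * ‖h‖ * ‖l‖ := by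
  have hM0 : 0 ≤ M := (abs_nonneg _).trans (hM x)
  refine (norm_integral_le_of_norm_le (cp_dom_integrable hS x y (‖h‖ * M * ‖l‖))
    (Filter.Eventually.of_forall fun z => cp_pointwise V M hM h l x y z)).trans ?_
  rw [integral_const_mul, integral_add (hS.int x) (hS.int y)]
  calc ‖h‖ * M * ‖l‖ * (∫ z, ((dist x z) ^ 4)⁻¹ ∂μ + ∫ z, ((dist y z) ^ 4)⁻¹ ∂μ)
      ≤ ‖h‖ * M * ‖l‖ * (D + D) :=
        mul_le_mul_of_nonneg_left (add_le_add (hD x) (hD y)) (by positivity)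
    _ = _ := by ring

lemma cp_continuous (hS : Sp μ C) (V : K → ℝ) (hV : Measurable V) (M : ℝ) (hM : ∀ x, |V x| ≤ M)
    (h l : C(K × K, ℂ)) :
    Continuous fun p : K × K =>
      ∫ z, h (p.2, z) * ((((dist p.2 z) ^ 3)⁻¹ : ℝ) : ℂ) * (V z : ℂ) *
      (l (z, p.1) * (((dist z p.1)⁻¹ : ℝ) : ℂ)) ∂μ := by
  have := hS.fin
  rcases isEmpty_or_nonempty K with hK | ⟨⟨x0⟩⟩
  · exact continuous_of_discreteTopology
  have hM0 : 0 ≤ M := (abs_nonneg _).trans (hM x0)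
  have hmt : ∀ (e : ℝ) (x : K), Measurable fun y => ((max (dist x y) e) ^ 3)⁻¹ := by
    intro e x
    fun_prop
  have hmt' : ∀ (e : ℝ) (x : K), Measurable fun y => (max (dist y x) e)⁻¹ := by
    intro e x
    fun_prop
  have hbt : ∀ e > 0, ∀ x y z : K,
      |((max (dist x z) e) ^ 3)⁻¹ * (max (dist z y) e)⁻¹| ≤ (e ^ 3)⁻¹ * e⁻¹ := by
    intro e he x y z
    rw [abs_of_nonneg (by positivity)]
    exact mul_le_mul (inv_anti₀ (by positivity) (pow_le_pow_left₀ he.le (le_max_right _ _) 3))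
      (inv_anti₀ he (le_max_right _ _)) (by positivity) (by positivity)
  have hGb : ∀ e > 0, ∀ (p : K × K) (z : K),
      ‖h (p.2, z) * ((((max (dist p.2 z) e) ^ 3)⁻¹ : ℝ) : ℂ) * (V z : ℂ) *
        (l (z, p.1) * (((max (dist z p.1) e)⁻¹ : ℝ) : ℂ))‖ ≤
        ‖h‖ * M * ‖l‖ * ((e ^ 3)⁻¹ * e⁻¹) := by
    intro e he p z
    refine (norm_cpInt_le V M hM h l p.2 p.1 z _ _).trans ?_
    exact mul_le_mul_of_nonneg_left (hbt e he p.2 p.1 z) (by positivity)
  refine continuous_integral_of_trunc _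
    (fun e p z => h (p.2, z) * ((((max (dist p.2 z) e) ^ 3)⁻¹ : ℝ) : ℂ) * (V z : ℂ) *
        (l (z, p.1) * (((max (dist z p.1) e)⁻¹ : ℝ) : ℂ)))
    (‖h‖ * M * ‖l‖ * (2 * C)) ?_ ?_ ?_ ?_
  · intro e he p
    exact (cpInt_meas V hV h l p.2 p.1 _ _ (hmt e p.2) (hmt' e p.1)).aestronglyMeasurable
  · intro e he
    exact ⟨_, fun p z => hGb e he p z⟩
  · intro e he z
    have h1 : Continuous fun p : K × K => h (p.2, z) := h.continuous.comp (by fun_prop)
    have h2 : Continuous fun p : K × K => ((max (dist p.2 z) e) ^ 3)⁻¹ := by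
      refine Continuous.inv₀ (by fun_prop) fun x => ?_
      positivity
    have h3 : Continuous fun p : K × K => ((((max (dist p.2 z) e) ^ 3)⁻¹ : ℝ) : ℂ) :=
      Complex.continuous_ofReal.comp h2
    have h1' : Continuous fun p : K × K => l (z, p.1) := l.continuous.comp (by fun_prop)
    have h2' : Continuous fun p : K × K => (max (dist z p.1) e)⁻¹ := by
      refine Continuous.inv₀ (by fun_prop) fun x => ?_
      positivity
    have h3' : Continuous fun p : K × K => (((max (dist z p.1) e)⁻¹ : ℝ) : ℂ) :=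
      Complex.continuous_ofReal.comp h2'
    exact ((h1.mul h3).mul continuous_const).mul (h1'.mul h3')
  · intro e he he1 p
    obtain ⟨x, y⟩ : K × K := (p.2, p.1)
    obtain ⟨hs1, hs2⟩ := hS.small' p.2 he
    obtain ⟨hs1', hs2'⟩ := hS.small' p.1 he
    refine integral_diff_le (cp_integrable hS V hV M hM h l p.2 p.1) ?_
      (k := fun z => ‖h‖ * M * ‖l‖ * ((if dist p.2 z < e then ((dist p.2 z) ^ 4)⁻¹ else 0) +
        (if dist p.1 z < e then ((dist p.1 z) ^ 4)⁻¹ else 0)))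
      ((hs1.add hs1').const_mul _) ?_ ?_
    · refine Integrable.mono' (integrable_const (‖h‖ * M * ‖l‖ * ((e ^ 3)⁻¹ * e⁻¹)))
        (cpInt_meas V hV h l p.2 p.1 _ _ (hmt e p.2) (hmt' e p.1)).aestronglyMeasurable
        (Filter.Eventually.of_forall fun z => hGb e he p z)
    · filter_upwards [hS.ae_ne p.2, hS.ae_ne p.1] with z hz hz'
      have heq : h (p.2, z) * ((((dist p.2 z) ^ 3)⁻¹ : ℝ) : ℂ) * (V z : ℂ) *
          (l (z, p.1) * (((dist z p.1)⁻¹ : ℝ) : ℂ)) -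
          h (p.2, z) * ((((max (dist p.2 z) e) ^ 3)⁻¹ : ℝ) : ℂ) * (V z : ℂ) *
          (l (z, p.1) * (((max (dist z p.1) e)⁻¹ : ℝ) : ℂ)) =
          h (p.2, z) * ((((dist p.2 z) ^ 3)⁻¹ * (dist z p.1)⁻¹ -
            ((max (dist p.2 z) e) ^ 3)⁻¹ * (max (dist z p.1) e)⁻¹ : ℝ) : ℂ) * (V z : ℂ) *
          (l (z, p.1) * ((1 : ℝ) : ℂ)) := by
        push_cast
        ring
      rw [heq]
      refine (norm_cpInt_le V M hM h l p.2 p.1 z _ _).trans ?_
      rw [mul_one, dist_comm p.1 z]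
      exact mul_le_mul_of_nonneg_left
        (trunc31 _ _ e (dist_pos.2 hz.symm) (dist_pos.2 hz') he) (by positivity)
    · rw [integral_const_mul, integral_add hs1 hs1', mul_assoc (‖h‖ * M * ‖l‖) (2 * C) e]
      exact mul_le_mul_of_nonneg_left (by linarith) (by positivity)

end Cp

set_option maxHeartbeats 4000000 in
theorem existsCp : ExistsCp := by
  intro K _ _ _ _ μ C hS V hV M hM
  obtain ⟨D, hD0, hD⟩ := hS.bound4
  let F : C(K × K, ℂ) → C(K × K, ℂ) → C(K × K, ℂ) := fun h l =>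
    ⟨fun p : K × K => ∫ z, h (p.1, z) * ((((dist p.1 z) ^ 3)⁻¹ : ℝ) : ℂ) * (V z : ℂ) *
      (l (z, p.2) * (((dist z p.2)⁻¹ : ℝ) : ℂ)) ∂μ,
      (cp_continuous hS V hV M hM h l).comp continuous_swap⟩
  have hF : ∀ h l x y, F h l (x, y) = ∫ z, h (x, z) * ((((dist x z) ^ 3)⁻¹ : ℝ) : ℂ) *
      (V z : ℂ) * (l (z, y) * (((dist z y)⁻¹ : ℝ) : ℂ)) ∂μ := fun _ _ _ _ => rfl
  let L : C(K × K, ℂ) →ₗ[ℂ] C(K × K, ℂ) →ₗ[ℂ] C(K × K, ℂ) := LinearMap.mk₂ ℂ F
    (by
      intro h h' l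
      ext ⟨x, y⟩
      rw [ContinuousMap.add_apply, hF, hF, hF,
        ← integral_add (cp_integrable hS V hV M hM h l x y) (cp_integrable hS V hV M hM h' l x y)]
      refine integral_congr_ae (Filter.Eventually.of_forall fun z => ?_)
      simp only [ContinuousMap.add_apply]
      ring)
    (by
      intro c h l
      ext ⟨x, y⟩
      rw [ContinuousMap.smul_apply, hF, hF, ← integral_smul]
      refine integral_congr_ae (Filter.Eventually.of_forall fun z => ?_)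
      simp only [ContinuousMap.smul_apply, smul_eq_mul]
      ring)
    (by
      intro h l l'
      ext ⟨x, y⟩
      rw [ContinuousMap.add_apply, hF, hF, hF,
        ← integral_add (cp_integrable hS V hV M hM h l x y) (cp_integrable hS V hV M hM h l' x y)]
      refine integral_congr_ae (Filter.Eventually.of_forall fun z => ?_)
      simp only [ContinuousMap.add_apply]
      ring)
    (by
      intro c h l
      ext ⟨x, y⟩
      rw [ContinuousMap.smul_apply, hF, hF, ← integral_smul]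
      refine integral_congr_ae (Filter.Eventually.of_forall fun z => ?_)
      simp only [ContinuousMap.smul_apply, smul_eq_mul]
      ring)
  rcases isEmpty_or_nonempty K with hK | ⟨⟨x0⟩⟩
  · exact ⟨0, fun h f x => (hK.false x).elim⟩
  have hM0 : 0 ≤ M := (abs_nonneg _).trans (hM x0)
  refine ⟨LinearMap.mkContinuous₂ L (2 * M * D) ?_, ?_⟩
  · intro h l
    rw [ContinuousMap.norm_le _ (by positivity)]
    rintro ⟨x, y⟩
    exact cp_bound hS V M hM hD h l x y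
  · intro h l x y
    rfl

end Pool.Agent.Work.MP_f2af60_mp
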