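import Pool.Agent.Work.MP_f2af60_mp.Trunc

/-!
# MP_f2af60_mp, item 2: the operator with kernel `h(x,y) |x-y|⁻³ V(y)`
-/

namespace Pool.Agent.Work.MP_f2af60_mp

open MeasureTheory Metric Filter Topology

section Op

variable {K : Type*} [MetricSpace K] [CompactSpace K] [MeasurableSpace K] [BorelSpace K]
    {μ : Measure K} {C : ℝ}

lemma norm_opInt_le (V : K → ℝ) (M : ℝ) (hM : ∀ x, |V x| ≤ M) (h : C(K × K, ℂ)) (f : C(K, ℂ))
    (x y : K) (t : ℝ) :
    ‖h (x, y) * (t : ℂ) * (V y : ℂ) * f y‖ ≤ ‖h‖ * M * ‖f‖ * |t| := by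
  rw [norm_mul, norm_mul, norm_mul, Complex.norm_real, Complex.norm_real, Real.norm_eq_abs,
    Real.norm_eq_abs]
  have h1 := h.norm_coe_le_norm (x, y)
  have h2 := f.norm_coe_le_norm y
  have h3 := hM y
  have hM0 : 0 ≤ M := (abs_nonneg _).trans h3
  calc ‖h (x, y)‖ * |t| * |V y| * ‖f y‖ ≤ ‖h‖ * |t| * M * ‖f‖ := by gcongr
    _ = ‖h‖ * M * ‖f‖ * |t| := by ring

lemma opInt_meas (V : K → ℝ) (hV : Measurable V) (h : C(K × K, ℂ)) (f : C(K, ℂ)) (x : K)
    (k : K → ℝ) (hk : Measurable k) :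
    Measurable fun y => h (x, y) * ((k y : ℝ) : ℂ) * (V y : ℂ) * f y := by
  have h1 : Measurable fun y => h (x, y) := (h.continuous.comp (by fun_prop)).measurable
  have h2 : Measurable f := f.continuous.measurable
  fun_prop

lemma op_integrable (hS : Sp μ C) (V : K → ℝ) (hV : Measurable V) (M : ℝ) (hM : ∀ x, |V x| ≤ M)
    (h : C(K × K, ℂ)) (f : C(K, ℂ)) (x : K) :
    Integrable (fun y => h (x, y) * ((((dist x y) ^ 3)⁻¹ : ℝ) : ℂ) * (V y : ℂ) * f y) μ := by
  have := hS.fin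
  have hk : Measurable fun y => ((dist x y) ^ 3)⁻¹ := by fun_prop
  have hint : Integrable (fun y => ‖h‖ * M * ‖f‖ * (1 + ((dist x y) ^ 4)⁻¹)) μ :=
    ((integrable_const 1).add (hS.int x)).const_mul _
  refine hint.mono' (opInt_meas V hV h f x _ hk).aestronglyMeasurable ?_
  refine Filter.Eventually.of_forall fun y => ?_
  refine (norm_opInt_le V M hM h f x y _).trans ?_
  have hM0 : 0 ≤ M := (abs_nonneg _).trans (hM y)
  rw [abs_of_nonneg (by positivity)]
  exact mul_le_mul_of_nonneg_left (inv3_le _ dist_nonneg) (by positivity)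

lemma op_bound (hS : Sp μ C) (V : K → ℝ) (M : ℝ) (hM : ∀ x, |V x| ≤ M)
    {D : ℝ} (hD : ∀ x, ∫ y, ((dist x y) ^ 4)⁻¹ ∂μ ≤ D)
    (h : C(K × K, ℂ)) (f : C(K, ℂ)) (x : K) :
    ‖∫ y, h (x, y) * ((((dist x y) ^ 3)⁻¹ : ℝ) : ℂ) * (V y : ℂ) * f y ∂μ‖ ≤
      (M * (μ.real Set.univ + D)) * ‖h‖ * ‖f‖ := by
  have := hS.fin
  have hM0 : 0 ≤ M := (abs_nonneg _).trans (hM x)
  have hint : Integrable (fun y => ‖h‖ * M * ‖f‖ * (1 + ((dist x y) ^ 4)⁻¹)) μ :=
    ((integrable_const 1).add (hS.int x)).const_mul _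
  refine (norm_integral_le_of_norm_le hint (Filter.Eventually.of_forall fun y => ?_)).trans ?_
  · refine (norm_opInt_le V M hM h f x y _).trans ?_
    rw [abs_of_nonneg (by positivity)]
    exact mul_le_mul_of_nonneg_left (inv3_le _ dist_nonneg) (by positivity)
  · rw [integral_const_mul, integral_add (integrable_const 1) (hS.int x), integral_const,
      smul_eq_mul, mul_one]
    calc ‖h‖ * M * ‖f‖ * (μ.real Set.univ + ∫ y, ((dist x y) ^ 4)⁻¹ ∂μ)
        ≤ ‖h‖ * M * ‖f‖ * (μ.real Set.univ + D) := by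
          apply mul_le_mul_of_nonneg_left _ (by positivity)
          linarith [hD x]
      _ = _ := by ring

lemma op_continuous (hS : Sp μ C) (V : K → ℝ) (hV : Measurable V) (M : ℝ) (hM : ∀ x, |V x| ≤ M)
    (h : C(K × K, ℂ)) (f : C(K, ℂ)) :
    Continuous fun x =>
      ∫ y, h (x, y) * ((((dist x y) ^ 3)⁻¹ : ℝ) : ℂ) * (V y : ℂ) * f y ∂μ := by
  have := hS.fin
  rcases isEmpty_or_nonempty K with hK | ⟨⟨x0⟩⟩
  · exact continuous_of_discreteTopology
  have hM0 : 0 ≤ M := (abs_nonneg _).trans (hM x0)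
  have hmt : ∀ (e : ℝ) (x : K), Measurable fun y => ((max (dist x y) e) ^ 3)⁻¹ := by
    intro e x
    fun_prop
  have hbt : ∀ e > 0, ∀ x y : K, |((max (dist x y) e) ^ 3)⁻¹| ≤ (e ^ 3)⁻¹ := by
    intro e he x y
    rw [abs_of_nonneg (by positivity)]
    exact inv_anti₀ (by positivity) (pow_le_pow_left₀ he.le (le_max_right _ _) 3)
  have hGb : ∀ e > 0, ∀ x y : K,
      ‖h (x, y) * ((((max (dist x y) e) ^ 3)⁻¹ : ℝ) : ℂ) * (V y : ℂ) * f y‖ ≤
        ‖h‖ * M * ‖f‖ * (e ^ 3)⁻¹ := by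
    intro e he x y
    refine (norm_opInt_le V M hM h f x y _).trans ?_
    exact mul_le_mul_of_nonneg_left (hbt e he x y) (by positivity)
  refine continuous_integral_of_trunc _
    (fun e x y => h (x, y) * ((((max (dist x y) e) ^ 3)⁻¹ : ℝ) : ℂ) * (V y : ℂ) * f y)
    (‖h‖ * M * ‖f‖ * C) ?_ ?_ ?_ ?_
  · intro e he x
    exact (opInt_meas V hV h f x _ (hmt e x)).aestronglyMeasurable
  · intro e he
    exact ⟨_, fun x y => hGb e he x y⟩
  · intro e he y
    have h1 : Continuous fun x : K => h (x, y) := h.continuous.comp (by fun_prop)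
    have h2 : Continuous fun x : K => ((max (dist x y) e) ^ 3)⁻¹ := by
      refine Continuous.inv₀ (by fun_prop) fun x => ?_
      positivity
    have h3 : Continuous fun x : K => ((((max (dist x y) e) ^ 3)⁻¹ : ℝ) : ℂ) :=
      Complex.continuous_ofReal.comp h2
    exact ((h1.mul h3).mul continuous_const).mul continuous_const
  · intro e he he1 x
    obtain ⟨hs1, hs2⟩ := hS.small' x he
    refine integral_diff_le (op_integrable hS V hV M hM h f x) ?_
      (k := fun y => ‖h‖ * M * ‖f‖ * (if dist x y < e then ((dist x y) ^ 4)⁻¹ else 0))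
      (hs1.const_mul _) ?_ ?_
    · refine Integrable.mono' (integrable_const (‖h‖ * M * ‖f‖ * (e ^ 3)⁻¹))
        (opInt_meas V hV h f x _ (hmt e x)).aestronglyMeasurable
        (Filter.Eventually.of_forall fun y => hGb e he x y)
    · filter_upwards [hS.ae_ne x] with y hy
      have heq : h (x, y) * ((((dist x y) ^ 3)⁻¹ : ℝ) : ℂ) * (V y : ℂ) * f y -
          h (x, y) * ((((max (dist x y) e) ^ 3)⁻¹ : ℝ) : ℂ) * (V y : ℂ) * f y =
          h (x, y) * ((((dist x y) ^ 3)⁻¹ - ((max (dist x y) e) ^ 3)⁻¹ : ℝ) : ℂ) *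
            (V y : ℂ) * f y := by
        rw [Complex.ofReal_sub]
        ring
      rw [heq]
      refine (norm_opInt_le V M hM h f x y _).trans ?_
      exact mul_le_mul_of_nonneg_left (trunc3 _ e (dist_pos.2 hy.symm) he he1) (by positivity)
    · rw [integral_const_mul, mul_assoc (‖h‖ * M * ‖f‖) C e]
      exact mul_le_mul_of_nonneg_left hs2 (by positivity)

end Op

theorem existsOp : ExistsOp := by
  intro K _ _ _ _ μ C hS V hV M hM
  obtain ⟨D, hD0, hD⟩ := hS.bound4
  let F : C(K × K, ℂ) → C(K, ℂ) → C(K, ℂ) := fun h f =>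
    ⟨fun x => ∫ y, h (x, y) * ((((dist x y) ^ 3)⁻¹ : ℝ) : ℂ) * (V y : ℂ) * f y ∂μ,
      op_continuous hS V hV M hM h f⟩
  have hF : ∀ h f x, F h f x =
      ∫ y, h (x, y) * ((((dist x y) ^ 3)⁻¹ : ℝ) : ℂ) * (V y : ℂ) * f y ∂μ := fun _ _ _ => rfl
  let L : C(K × K, ℂ) →ₗ[ℂ] C(K, ℂ) →ₗ[ℂ] C(K, ℂ) := LinearMap.mk₂ ℂ F
    (by
      intro h h' f
      ext x
      rw [ContinuousMap.add_apply, hF, hF, hF, ← integral_add (op_integrable hS V hV M hM h f x)
        (op_integrable hS V hV M hM h' f x)]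
      refine integral_congr_ae (Filter.Eventually.of_forall fun y => ?_)
      simp only [ContinuousMap.add_apply]
      ring)
    (by
      intro c h f
      ext x
      rw [ContinuousMap.smul_apply, hF, hF, ← integral_smul]
      refine integral_congr_ae (Filter.Eventually.of_forall fun y => ?_)
      simp only [ContinuousMap.smul_apply, smul_eq_mul]
      ring)
    (by
      intro h f f'
      ext x
      rw [ContinuousMap.add_apply, hF, hF, hF, ← integral_add (op_integrable hS V hV M hM h f x)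
        (op_integrable hS V hV M hM h f' x)]
      refine integral_congr_ae (Filter.Eventually.of_forall fun y => ?_)
      simp only [ContinuousMap.add_apply]
      ring)
    (by
      intro c h f
      ext x
      rw [ContinuousMap.smul_apply, hF, hF, ← integral_smul]
      refine integral_congr_ae (Filter.Eventually.of_forall fun y => ?_)
      simp only [ContinuousMap.smul_apply, smul_eq_mul]
      ring)
  rcases isEmpty_or_nonempty K with hK | ⟨⟨x0⟩⟩
  · exact ⟨0, fun h f x => (hK.false x).elim⟩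
  have hM0 : 0 ≤ M := (abs_nonneg _).trans (hM x0)
  have hB0 : 0 ≤ M * (μ.real Set.univ + D) := mul_nonneg hM0 (add_nonneg measureReal_nonneg hD0)
  refine ⟨LinearMap.mkContinuous₂ L (M * (μ.real Set.univ + D)) ?_, ?_⟩
  · intro h f
    rw [ContinuousMap.norm_le _ (by positivity)]
    intro x
    exact op_bound hS V M hM hD h f x
  · intro h f x
    rfl

end Pool.Agent.Work.MP_f2af60_mp
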