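import Pool.Agent.Work.MP_f2af60_mp.Stmts

/-!
# MP_f2af60_mp, item 18: the numerators as entire families in `C(K × K, ℂ)`
-/

namespace Pool.Agent.Work.MP_f2af60_mp

open MeasureTheory Metric Filter Topology

section

variable {K : Type} [MetricSpace K] [CompactSpace K]

/-- The function `i |x - y|`. -/
noncomputable def iDist (K : Type) [MetricSpace K] [CompactSpace K] : C(K × K, ℂ) where
  toFun p := Complex.I * ((dist p.1 p.2 : ℝ) : ℂ)
  continuous_toFun := by fun_prop

theorem iDist_apply (p : K × K) : iDist K p = Complex.I * ((dist p.1 p.2 : ℝ) : ℂ) := rfl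

theorem exp_iDist (z : ℂ) (p : K × K) :
    (NormedSpace.exp (z • iDist K) : C(K × K, ℂ)) p =
      Complex.exp (Complex.I * z * ((dist p.1 p.2 : ℝ) : ℂ)) := by
  have h := NormedSpace.map_exp (ContinuousMap.evalAlgHom ℂ ℂ p : C(K × K, ℂ) →ₐ[ℂ] ℂ)
    (continuous_eval_const p) (z • iDist K)
  simp only [ContinuousMap.evalAlgHom_apply] at h
  rw [h, ← Complex.exp_eq_exp_ℂ, ContinuousMap.smul_apply, iDist_apply, smul_eq_mul]
  congr 1
  ring

/-- The family `h`. -/
noncomputable def famH (K : Type) [MetricSpace K] [CompactSpace K] (z : ℂ) : C(K × K, ℂ) :=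
  (8 * (Real.pi : ℂ) ^ 2)⁻¹ • (NormedSpace.exp (z • iDist K) * (1 - z • iDist K))

/-- The family `l`. -/
noncomputable def famL (K : Type) [MetricSpace K] [CompactSpace K] (z : ℂ) : C(K × K, ℂ) :=
  (8 * (Real.pi : ℂ) ^ 2)⁻¹ • (z • NormedSpace.exp (z • iDist K))

theorem famH_apply (z : ℂ) (x y : K) : famH K z (x, y) = gh z (dist x y) := by
  unfold famH gh
  rw [ContinuousMap.smul_apply, ContinuousMap.mul_apply, exp_iDist, ContinuousMap.sub_apply,
    ContinuousMap.smul_apply, iDist_apply, ContinuousMap.one_apply, smul_eq_mul, smul_eq_mul,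
    div_eq_inv_mul]
  congr 3
  ring

theorem famL_apply (z : ℂ) (x y : K) : famL K z (x, y) = gl z (dist x y) := by
  unfold famL gl
  rw [ContinuousMap.smul_apply, ContinuousMap.smul_apply, exp_iDist, smul_eq_mul, smul_eq_mul,
    div_eq_inv_mul]

theorem hasDerivAt_famH (z : ℂ) :
    HasDerivAt (famH K) ((8 * (Real.pi : ℂ) ^ 2)⁻¹ •
      (NormedSpace.exp (z • iDist K) * iDist K * (1 - z • iDist K) +
        NormedSpace.exp (z • iDist K) * (0 - (1 : ℂ) • iDist K))) z := by
  unfold famH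
  have h1 := hasDerivAt_exp_smul_const (𝕂 := ℂ) (iDist K) z
  have h2 : HasDerivAt (fun w : ℂ => (1 : C(K × K, ℂ)) - w • iDist K)
      (0 - (1 : ℂ) • iDist K) z :=
    (hasDerivAt_const z _).sub ((hasDerivAt_id z).smul_const (iDist K))
  exact (h1.mul h2).const_smul ((8 * (Real.pi : ℂ) ^ 2)⁻¹ : ℂ)

theorem differentiable_famL : Differentiable ℂ (famL K) := by
  unfold famL
  have h1 : Differentiable ℂ (fun z : ℂ => NormedSpace.exp (z • iDist K)) :=
    differentiable_exp_smul_const ℂ (iDist K)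
  exact (differentiable_id.smul h1).const_smul ((8 * (Real.pi : ℂ) ^ 2)⁻¹ : ℂ)

end

theorem families : Families := by
  intro K _ _
  refine ⟨famH K, famL K, famH_apply, famL_apply, fun z => (hasDerivAt_famH z).differentiableAt,
    differentiable_famL, fun z x y => ?_⟩
  rw [(hasDerivAt_famH z).deriv, ← famL_apply]
  unfold famL
  simp only [ContinuousMap.smul_apply, ContinuousMap.add_apply, ContinuousMap.mul_apply,
    ContinuousMap.sub_apply, ContinuousMap.one_apply, ContinuousMap.zero_apply, iDist_apply,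
    smul_eq_mul]
  linear_combination (-(8 * (Real.pi : ℂ) ^ 2)⁻¹ * z * ((dist x y : ℝ) : ℂ) ^ 2 *
    (NormedSpace.exp (z • iDist K) : C(K × K, ℂ)) (x, y)) * Complex.I_sq

end Pool.Agent.Work.MP_f2af60_mp
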