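import Pool.Agent.Work.MP_f2af60_mp.Stmts

/-!
# MP_f2af60_mp, item 13: the final complex analysis step
-/

namespace Pool.Agent.Work.MP_f2af60_mp

open Filter Topology Metric

/-- `I s / (I s - a) → 1`. -/
lemma fc_one (a : ℂ) : Tendsto (fun s : ℝ => Complex.I * (s : ℂ) * (1 / (Complex.I * (s : ℂ) - a)))
    atTop (𝓝 1) := by
  have hn : Tendsto (fun s : ℝ => ‖Complex.I * (s : ℂ) - a‖) atTop atTop := by
    have h1 : ∀ s : ℝ, |s| - ‖a‖ ≤ ‖Complex.I * (s : ℂ) - a‖ := by
      intro s
      have := norm_sub_norm_le (Complex.I * (s : ℂ)) a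
      simpa using this
    refine tendsto_atTop_mono h1 ?_
    exact tendsto_atTop_add_const_right _ _ tendsto_abs_atTop_atTop
  have h0 : Tendsto (fun s : ℝ => a * (Complex.I * (s : ℂ) - a)⁻¹) atTop (𝓝 0) := by
    have h2 : Tendsto (fun s : ℝ => (Complex.I * (s : ℂ) - a)⁻¹) atTop (𝓝 0) := by
      rw [tendsto_zero_iff_norm_tendsto_zero]
      simp only [norm_inv]
      exact tendsto_inv_atTop_zero.comp hn
    simpa using h2.const_mul a
  have h3 : Tendsto (fun s : ℝ => 1 + a * (Complex.I * (s : ℂ) - a)⁻¹) atTop (𝓝 1) := by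
    simpa using h0.const_add 1
  refine h3.congr' ?_
  filter_upwards [hn.eventually_gt_atTop 0] with s hs
  have : Complex.I * (s : ℂ) - a ≠ 0 := norm_pos_iff.1 hs
  field_simp
  ring

/-- Item 13. -/
theorem finalComplex (hPE : PolyExp) : FinalComplex := by
  intro D w hD C m hC hfin hw hw0 S S0 s0 hS hSt hne hwS
  have hex : ∃ z, D z ≠ 0 := ⟨_, hne s0 le_rfl⟩
  obtain ⟨P, g, hP, hfac⟩ := hPE D hD hex C m hC hfin
  -- logarithmic derivative
  have hder : ∀ z, deriv D z = P.derivative.eval z * Complex.exp (g.eval z) +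
      P.eval z * (Complex.exp (g.eval z) * g.derivative.eval z) := by
    intro z
    have h1 : HasDerivAt (fun z => P.eval z * Complex.exp (g.eval z))
        (P.derivative.eval z * Complex.exp (g.eval z) +
          P.eval z * (Complex.exp (g.eval z) * g.derivative.eval z)) z :=
      (P.hasDerivAt z).mul ((g.hasDerivAt z).cexp)
    have h2 : D = fun z => P.eval z * Complex.exp (g.eval z) := funext hfac
    rw [h2]
    exact h1.deriv
  have hPne : ∀ z, D z ≠ 0 → P.eval z ≠ 0 := by
    intro z hz h
    exact hz (by rw [hfac z, h, zero_mul])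
  have hwz : ∀ z, D z ≠ 0 → w z = P.derivative.eval z / P.eval z + g.derivative.eval z := by
    intro z hz
    have h1 := hw z hz
    rw [hder z, hfac z] at h1
    have h2 := hPne z hz
    have h3 := Complex.exp_ne_zero (g.eval z)
    have h4 : w z * P.eval z = P.derivative.eval z + P.eval z * g.derivative.eval z := by
      apply mul_right_cancel₀ h3
      linear_combination -h1
    field_simp
    linear_combination h4
  -- the sum over the roots
  set F : ℝ → ℂ := fun s => (P.roots.map fun a =>
    Complex.I * (s : ℂ) * (1 / (Complex.I * (s : ℂ) - a))).sum with hF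
  have hFlim : Tendsto F atTop (𝓝 (P.roots.card : ℂ)) := by
    have := tendsto_multiset_sum (f := fun (a : ℂ) (s : ℝ) =>
      Complex.I * (s : ℂ) * (1 / (Complex.I * (s : ℂ) - a))) (x := atTop)
      (a := fun _ : ℂ => (1 : ℂ)) P.roots (fun a _ => fc_one a)
    have h2 : (Multiset.map (fun _ : ℂ => (1 : ℂ)) P.roots).sum = (P.roots.card : ℂ) := by simp
    rw [h2] at this
    exact this
  have hFeq : ∀ s ≥ s0, Complex.I * (s : ℂ) * (P.derivative.eval (Complex.I * (s : ℂ)) /
      P.eval (Complex.I * (s : ℂ))) = F s := by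
    intro s hs
    rw [(IsAlgClosed.splits P).eval_derivative_div_eval_of_ne_zero (hPne _ (hne s hs))]
    rw [hF, ← Multiset.sum_map_mul_left]
  set q : ℝ → ℂ := fun s => Complex.I * g.derivative.eval (Complex.I * (s : ℂ)) with hq
  -- `s` times the identity
  have hid : ∀ s, s0 ≤ s → 0 < s →
      ‖F s / (s : ℂ) + q s - (S s : ℂ)‖ ≤ C / s ^ 2 := by
    intro s hs hs0
    have h1 := hwS s hs
    rw [hwz _ (hne s hs)] at h1
    have h2 : Complex.I * (P.derivative.eval (Complex.I * (s : ℂ)) /
        P.eval (Complex.I * (s : ℂ)) + g.derivative.eval (Complex.I * (s : ℂ))) =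
        F s / (s : ℂ) + q s := by
      rw [← hFeq s hs, hq]
      have : (s : ℂ) ≠ 0 := by exact_mod_cast hs0.ne'
      have h3 := hPne _ (hne s hs)
      field_simp
    rw [h2] at h1
    exact h1
  have hs2 : Tendsto (fun s : ℝ => C / s ^ 2) atTop (𝓝 0) :=
    tendsto_const_nhds.div_atTop (tendsto_pow_atTop (by norm_num))
  have hFs : Tendsto (fun s : ℝ => F s / (s : ℂ)) atTop (𝓝 0) := by
    rw [tendsto_zero_iff_norm_tendsto_zero]
    have h1 : Tendsto (fun s : ℝ => ‖F s‖ / s) atTop (𝓝 0) :=
      (hFlim.norm).div_atTop tendsto_id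
    refine h1.congr' ?_
    filter_upwards [eventually_gt_atTop 0] with s hs
    rw [norm_div, Complex.norm_real, Real.norm_of_nonneg hs.le]
  have hdiff : Tendsto (fun s : ℝ => F s / (s : ℂ) + q s - (S s : ℂ)) atTop (𝓝 0) := by
    refine squeeze_zero_norm' ?_ hs2
    filter_upwards [eventually_ge_atTop s0, eventually_gt_atTop 0] with s hs hs0
    exact hid s hs hs0
  have hSC : Tendsto (fun s : ℝ => (S s : ℂ)) atTop (𝓝 (S0 : ℂ)) :=
    (Complex.continuous_ofReal.tendsto S0).comp hSt
  have hqlim : Tendsto q atTop (𝓝 (S0 : ℂ)) := by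
    have h1 := (hdiff.add hSC).sub hFs
    simp only [zero_add, sub_zero] at h1
    refine h1.congr ?_
    intro s
    ring
  -- the polynomial part is constant
  have hdeg : ¬ 0 < g.derivative.degree := by
    intro hpos
    have h1 : Tendsto (fun s : ℝ => ‖Complex.I * (s : ℂ)‖) atTop atTop := by
      have : (fun s : ℝ => ‖Complex.I * (s : ℂ)‖) = fun s => |s| := by
        funext s; simp
      rw [this]; exact tendsto_abs_atTop_atTop
    have h2 := g.derivative.tendsto_norm_atTop hpos h1
    have h3 := hqlim.norm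
    have h4 : (fun s => ‖q s‖) = fun s : ℝ => ‖g.derivative.eval (Complex.I * (s : ℂ))‖ := by
      funext s; simp [hq]
    rw [h4] at h3
    exact not_tendsto_nhds_of_tendsto_atTop h2 _ h3
  have hgC : g.derivative = Polynomial.C (g.derivative.coeff 0) :=
    Polynomial.eq_C_of_degree_le_zero (not_lt.1 hdeg)
  set c := g.derivative.coeff 0 with hc
  have hqc : ∀ s, q s = Complex.I * c := by
    intro s; rw [hq]; simp only; rw [hgC]; simp
  have hcS : Complex.I * c = (S0 : ℂ) := by
    have h1 : Tendsto q atTop (𝓝 (Complex.I * c)) := by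
      have : q = fun _ => Complex.I * c := funext hqc
      rw [this]; exact tendsto_const_nhds
    exact tendsto_nhds_unique h1 hqlim
  -- the number of roots vanishes
  have hcard : P.roots.card = 0 := by
    have h1 : ∀ᶠ s : ℝ in atTop, (F s).re ≤ C / s := by
      filter_upwards [eventually_ge_atTop s0, eventually_gt_atTop 0] with s hs hs0
      have h2 := hid s hs hs0
      rw [hqc s, hcS] at h2
      have h3 : (F s / (s : ℂ) + (S0 : ℂ) - (S s : ℂ)).re ≤ C / s ^ 2 :=
        (Complex.re_le_norm _).trans h2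
      have h4 : (F s / (s : ℂ) + (S0 : ℂ) - (S s : ℂ)).re = (F s).re / s + S0 - S s := by
        rw [Complex.sub_re, Complex.add_re, Complex.ofReal_re, Complex.ofReal_re,
          Complex.div_ofReal_re]
      rw [h4] at h3
      have h5 := hS s hs
      have h6 : (F s).re / s ≤ C / s ^ 2 := by linarith
      rw [div_le_iff₀ hs0] at h6
      have h7 : C / s ^ 2 * s = C / s := by
        field_simp
      rwa [h7] at h6
    have h2 : Tendsto (fun s => (F s).re) atTop (𝓝 (P.roots.card : ℝ)) := by
      have := (Complex.continuous_re.tendsto _).comp hFlim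
      rw [Complex.natCast_re] at this
      exact this
    have h3 : Tendsto (fun s : ℝ => C / s) atTop (𝓝 0) :=
      tendsto_const_nhds.div_atTop tendsto_id
    have h4 : (P.roots.card : ℝ) ≤ 0 := le_of_tendsto_of_tendsto h2 h3 h1
    exact_mod_cast le_antisymm h4 (Nat.cast_nonneg _)
  have hnat : P.natDegree = 0 := by
    rw [(IsAlgClosed.splits P).natDegree_eq_card_roots, hcard]
  have hPC : P = Polynomial.C (P.coeff 0) := Polynomial.eq_C_of_natDegree_eq_zero hnat
  have hp0 : P.coeff 0 ≠ 0 := by
    intro h; apply hP; rw [hPC, h, Polynomial.C_0]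
  have hD0 : D 0 ≠ 0 := by
    rw [hfac 0, hPC]
    simp [hp0, Complex.exp_ne_zero]
  have hz := hwz 0 hD0
  rw [hw0 hD0, hPC, hgC] at hz
  simp only [Polynomial.derivative_C, Polynomial.eval_zero, zero_div, Polynomial.eval_C,
    zero_add] at hz
  rw [← hz, mul_zero] at hcS
  exact_mod_cast hcS.symm

end Pool.Agent.Work.MP_f2af60_mp
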