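import Pool.Agent.Work.MP_f2af60_mp.Stmts

/-!
# MP_f2af60_mp: bounds on the imaginary axis
-/

namespace Pool.Agent.Work.MP_f2af60_mp

open MeasureTheory Metric Filter Topology Set

namespace ImagB

theorem finrank_E5 : Module.finrank ℝ E5 = 5 := by simp

/-- `exp(-t |x|) |x|^(-k)` -/
noncomputable def F (k : ℕ) (t : ℝ) (x : E5) : ℝ := Real.exp (-(t * ‖x‖)) * (‖x‖ ^ k)⁻¹

theorem F_nonneg (k : ℕ) (t : ℝ) (x : E5) : 0 ≤ F k t x := by
  unfold F; positivity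

theorem F_meas (k : ℕ) (t : ℝ) : Measurable (F k t) := by
  unfold F; fun_prop

theorem F_int_one (k : ℕ) (hk : k ≤ 4) : Integrable (F k 1) := by
  have h := (integrable_fun_norm_addHaar (volume : Measure E5)
    (f := fun r : ℝ => Real.exp (-(1 * r)) * (r ^ k)⁻¹)).mpr ?_
  · exact h
  · rw [finrank_E5]
    have hg := Real.GammaIntegral_convergent (s := ((4 - k : ℕ) : ℝ) + 1) (by positivity)
    refine hg.congr_fun ?_ measurableSet_Ioi
    intro r hr
    have hr0 : (0 : ℝ) < r := hr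
    simp only [smul_eq_mul]
    rw [add_sub_cancel_right, Real.rpow_natCast, one_mul]
    have e : r ^ (5 - 1) = r ^ (4 - k) * r ^ k := by
      rw [← pow_add]; congr 1; omega
    rw [e]
    field_simp

theorem F_scale (k : ℕ) {t : ℝ} (ht : 0 < t) (x : E5) :
    F k t x = t ^ k * F k 1 (t • x) := by
  unfold F
  rw [norm_smul, Real.norm_of_nonneg ht.le, mul_pow, mul_inv, one_mul]
  have : t ^ k ≠ 0 := by positivity
  field_simp

theorem F_int (k : ℕ) (hk : k ≤ 4) {t : ℝ} (ht : 0 < t) : Integrable (F k t) := by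
  have e : F k t = fun x => t ^ k * F k 1 (t • x) := by
    funext x; exact F_scale k ht x
  rw [e]
  exact ((integrable_comp_smul_iff (volume : Measure E5) (F k 1) ht.ne').mpr
    (F_int_one k hk)).const_mul _

theorem F_integral (k : ℕ) {t : ℝ} (ht : 0 < t) :
    ∫ x, F k t x = t ^ k * (t ^ 5)⁻¹ * ∫ x, F k 1 x := by
  have e : F k t = fun x => t ^ k * F k 1 (t • x) := by
    funext x; exact F_scale k ht x
  rw [e, integral_const_mul, Measure.integral_comp_smul, finrank_E5, abs_of_pos (by positivity),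
    smul_eq_mul, mul_assoc]

theorem exp_bound {t : ℝ} (_ : 0 ≤ t) : Real.exp (-t) * (1 + t) ≤ 2 * Real.exp (-(t / 2)) := by
  have h1 : 1 + t ≤ 2 * Real.exp (t / 2) := by
    have := Real.add_one_le_exp (t / 2)
    linarith
  calc Real.exp (-t) * (1 + t) ≤ Real.exp (-t) * (2 * Real.exp (t / 2)) :=
        mul_le_mul_of_nonneg_left h1 (Real.exp_pos _).le
    _ = 2 * Real.exp (-(t / 2)) := by
        rw [mul_left_comm, ← Real.exp_add]; congr 2; ring

theorem pi_bound : (2 : ℝ) ≤ 8 * Real.pi ^ 2 := by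
  nlinarith [Real.pi_gt_three]

theorem norm_G {s : ℝ} (hs : 0 < s) (x : E5) :
    ‖G (Complex.I * s) x‖ = Real.exp (-(s * ‖x‖)) * (1 + s * ‖x‖) *
      (8 * Real.pi ^ 2 * ‖x‖ ^ 3)⁻¹ := by
  unfold G
  have e : Complex.I * (Complex.I * (s : ℂ)) * (‖x‖ : ℂ) = ((-(s * ‖x‖) : ℝ) : ℂ) := by
    push_cast
    rw [← mul_assoc, Complex.I_mul_I]
    ring
  rw [e, ← Complex.ofReal_exp]
  have e2 : (1 : ℂ) - ((-(s * ‖x‖) : ℝ) : ℂ) = ((1 + s * ‖x‖ : ℝ) : ℂ) := by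
    push_cast; ring
  have e3 : 8 * (Real.pi : ℂ) ^ 2 * (‖x‖ : ℂ) ^ 3 = ((8 * Real.pi ^ 2 * ‖x‖ ^ 3 : ℝ) : ℂ) := by
    push_cast; ring
  rw [e2, e3, norm_div, norm_mul, Complex.norm_real, Complex.norm_real, Complex.norm_real,
    Real.norm_of_nonneg (Real.exp_pos _).le, Real.norm_of_nonneg (by positivity),
    Real.norm_of_nonneg (by positivity), div_eq_mul_inv]

theorem norm_G_le {s : ℝ} (hs : 0 < s) (x : E5) : ‖G (Complex.I * s) x‖ ≤ F 3 (s / 2) x := by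
  rw [norm_G hs x]
  unfold F
  have h1 := exp_bound (t := s * ‖x‖) (by positivity)
  have h2 : (8 * Real.pi ^ 2 * ‖x‖ ^ 3)⁻¹ ≤ (2 : ℝ)⁻¹ * (‖x‖ ^ 3)⁻¹ := by
    rw [mul_inv]
    apply mul_le_mul_of_nonneg_right _ (by positivity)
    exact inv_anti₀ (by norm_num) pi_bound
  have e : s * ‖x‖ / 2 = s / 2 * ‖x‖ := by ring
  calc Real.exp (-(s * ‖x‖)) * (1 + s * ‖x‖) * (8 * Real.pi ^ 2 * ‖x‖ ^ 3)⁻¹
      ≤ (2 * Real.exp (-(s * ‖x‖ / 2))) * ((2 : ℝ)⁻¹ * (‖x‖ ^ 3)⁻¹) :=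
        mul_le_mul h1 h2 (by positivity) (by positivity)
    _ = Real.exp (-(s / 2 * ‖x‖)) * (‖x‖ ^ 3)⁻¹ := by rw [e]; ring

theorem norm_gl_le {s : ℝ} (hs : 0 < s) (y : E5) :
    ‖gl (Complex.I * s) ‖y‖‖ * ‖y‖⁻¹ ≤ s * (Real.exp (-(s / 2 * ‖y‖)) * ‖y‖⁻¹) := by
  unfold gl
  have e : Complex.I * (Complex.I * (s : ℂ)) * (‖y‖ : ℂ) = ((-(s * ‖y‖) : ℝ) : ℂ) := by
    push_cast
    rw [← mul_assoc, Complex.I_mul_I]
    ring
  rw [e, ← Complex.ofReal_exp]
  have e3 : 8 * (Real.pi : ℂ) ^ 2 = ((8 * Real.pi ^ 2 : ℝ) : ℂ) := by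
    push_cast; ring
  rw [e3, norm_div, norm_mul, norm_mul, Complex.norm_I, one_mul, Complex.norm_real,
    Complex.norm_real, Complex.norm_real, Real.norm_of_nonneg hs.le,
    Real.norm_of_nonneg (Real.exp_pos _).le, Real.norm_of_nonneg (by positivity)]
  rw [← mul_assoc]
  apply mul_le_mul_of_nonneg_right _ (by positivity)
  have h1 : Real.exp (-(s * ‖y‖)) ≤ Real.exp (-(s / 2 * ‖y‖)) := by
    apply Real.exp_le_exp.mpr
    nlinarith [norm_nonneg y]
  have h2 : (1 : ℝ) ≤ 8 * Real.pi ^ 2 := le_trans (by norm_num) pi_bound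
  calc s * Real.exp (-(s * ‖y‖)) / (8 * Real.pi ^ 2)
      ≤ s * Real.exp (-(s * ‖y‖)) := div_le_self (by positivity) h2
    _ ≤ s * Real.exp (-(s / 2 * ‖y‖)) := mul_le_mul_of_nonneg_left h1 hs.le

theorem key {t a b : ℝ} (ht : 0 ≤ t) (ha : 0 ≤ a) (hb : 0 ≤ b) :
    (Real.exp (-(t * a)) * (a ^ 3)⁻¹) * (Real.exp (-(t * b)) * b⁻¹) ≤
      Real.exp (-(t * a)) * (a ^ 4)⁻¹ + Real.exp (-(t * b)) * (b ^ 4)⁻¹ := by
  have hea : Real.exp (-(t * a)) ≤ 1 := Real.exp_le_one_iff.mpr (by nlinarith)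
  have heb : Real.exp (-(t * b)) ≤ 1 := Real.exp_le_one_iff.mpr (by nlinarith)
  have hea0 := (Real.exp_pos (-(t * a))).le
  have heb0 := (Real.exp_pos (-(t * b))).le
  rcases ha.eq_or_lt with h0 | h0
  · rw [← h0]
    have : (0 : ℝ) ≤ Real.exp (-(t * b)) * (b ^ 4)⁻¹ := by positivity
    simpa using this
  rcases hb.eq_or_lt with h1 | h1
  · rw [← h1]
    have : (0 : ℝ) ≤ Real.exp (-(t * a)) * (a ^ 4)⁻¹ := by positivity
    simpa using this
  rcases le_total a b with h | h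
  · have hinv : b⁻¹ ≤ a⁻¹ := inv_anti₀ h0 h
    calc (Real.exp (-(t * a)) * (a ^ 3)⁻¹) * (Real.exp (-(t * b)) * b⁻¹)
        ≤ (Real.exp (-(t * a)) * (a ^ 3)⁻¹) * (1 * a⁻¹) := by gcongr
      _ = Real.exp (-(t * a)) * (a ^ 4)⁻¹ := by field_simp
      _ ≤ _ := le_add_of_nonneg_right (by positivity)
  · have hinv : (a ^ 3)⁻¹ ≤ (b ^ 3)⁻¹ := inv_anti₀ (by positivity) (by gcongr)
    calc (Real.exp (-(t * a)) * (a ^ 3)⁻¹) * (Real.exp (-(t * b)) * b⁻¹)
        ≤ (1 * (b ^ 3)⁻¹) * (Real.exp (-(t * b)) * b⁻¹) := by gcongr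
      _ = Real.exp (-(t * b)) * (b ^ 4)⁻¹ := by field_simp
      _ ≤ _ := le_add_of_nonneg_left (by positivity)

theorem G_meas (l : ℂ) : Measurable (G l) := by
  unfold G; fun_prop

theorem gl_meas (l : ℂ) : Measurable (gl l) := by
  unfold gl; fun_prop

theorem int_G {s : ℝ} (hs : 0 < s) : Integrable (fun x : E5 => G (Complex.I * s) x) :=
  (F_int 3 (by norm_num) (half_pos hs)).mono' (G_meas _).aestronglyMeasurable
    (Filter.Eventually.of_forall (norm_G_le hs))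

theorem bound_prod {s : ℝ} (hs : 0 < s) (x y z : E5) :
    ‖G (Complex.I * s) (x - z)‖ * (‖gl (Complex.I * s) ‖z - y‖‖ * ‖z - y‖⁻¹) ≤
      s * (F 4 (s / 2) (x - z) + F 4 (s / 2) (z - y)) := by
  calc ‖G (Complex.I * s) (x - z)‖ * (‖gl (Complex.I * s) ‖z - y‖‖ * ‖z - y‖⁻¹)
      ≤ F 3 (s / 2) (x - z) * (s * (Real.exp (-(s / 2 * ‖z - y‖)) * ‖z - y‖⁻¹)) :=
        mul_le_mul (norm_G_le hs _) (norm_gl_le hs _) (by positivity) (F_nonneg _ _ _)
    _ = s * ((Real.exp (-(s / 2 * ‖x - z‖)) * (‖x - z‖ ^ 3)⁻¹) *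
          (Real.exp (-(s / 2 * ‖z - y‖)) * ‖z - y‖⁻¹)) := by unfold F; ring
    _ ≤ s * (F 4 (s / 2) (x - z) + F 4 (s / 2) (z - y)) := by
        apply mul_le_mul_of_nonneg_left _ hs.le
        exact key (half_pos hs).le (norm_nonneg _) (norm_nonneg _)

end ImagB

/-- Item 17. -/
theorem imagBounds : ImagBounds := by
  open ImagB in
  refine ⟨max (4 * ∫ x, F 3 1 x) (4 * ∫ x, F 4 1 x), fun s hs => ⟨⟨int_G hs, ?_⟩, ?_⟩⟩
  · have h1 : ∫ x : E5, ‖G (Complex.I * s) x‖ ≤ ∫ x, F 3 (s / 2) x :=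
      integral_mono (int_G hs).norm (F_int 3 (by norm_num) (half_pos hs)) (norm_G_le hs)
    rw [F_integral 3 (half_pos hs)] at h1
    refine h1.trans ?_
    rw [le_div_iff₀ (by positivity)]
    refine le_trans (le_of_eq ?_) (le_max_left _ _)
    field_simp
    ring
  · intro x y
    have hi1 : Integrable (fun z : E5 => F 4 (s / 2) (x - z)) :=
      (F_int 4 le_rfl (half_pos hs)).comp_sub_left x
    have hi2 : Integrable (fun z : E5 => F 4 (s / 2) (z - y)) :=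
      (F_int 4 le_rfl (half_pos hs)).comp_sub_right y
    have hi : Integrable (fun z : E5 => s * (F 4 (s / 2) (x - z) + F 4 (s / 2) (z - y))) :=
      (hi1.add hi2).const_mul s
    have hm : Measurable (fun z : E5 => ‖G (Complex.I * s) (x - z)‖ *
        (‖gl (Complex.I * s) ‖z - y‖‖ * ‖z - y‖⁻¹)) := by
      have h1 := G_meas (Complex.I * s)
      have h2 := gl_meas (Complex.I * s)
      fun_prop
    have hI : Integrable (fun z : E5 => ‖G (Complex.I * s) (x - z)‖ *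
        (‖gl (Complex.I * s) ‖z - y‖‖ * ‖z - y‖⁻¹)) := by
      refine hi.mono' hm.aestronglyMeasurable (Filter.Eventually.of_forall fun z => ?_)
      rw [Real.norm_of_nonneg (by positivity)]
      exact bound_prod hs x y z
    refine ⟨hI, ?_⟩
    have h1 := integral_mono hI hi (bound_prod hs x y)
    rw [integral_const_mul, integral_add hi1 hi2, integral_sub_left_eq_self (F 4 (s / 2)),
      integral_sub_right_eq_self (F 4 (s / 2)), F_integral 4 (half_pos hs)] at h1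
    refine h1.trans (le_trans (le_of_eq ?_) (le_max_right _ _))
    field_simp
    ring

end Pool.Agent.Work.MP_f2af60_mp
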