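import Pool.Agent.Work.MP_f2af60_mp.Stmts

/-!
# MP_f2af60_mp, item 20: a kernel vector gives a resonance
-/

namespace Pool.Agent.Work.MP_f2af60_mp

open MeasureTheory Metric Filter Topology

/-- The function `r⁻³` cut off at `B` is integrable near the origin of `ℝ⁵`. -/
theorem integrable_cut (B : ℝ) :
    Integrable (fun x : E5 => (Set.Iic B).indicator (fun r : ℝ => (r ^ 3)⁻¹) ‖x‖) := by
  have hkey := (integrable_fun_norm_addHaar (E := E5) (volume : Measure E5)
    (f := (Set.Iic B).indicator (fun r : ℝ => (r ^ 3)⁻¹)))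
  rw [hkey]
  have hfr : Module.finrank ℝ E5 = 5 := by simp
  rw [hfr]
  have hcont : IntegrableOn (fun y : ℝ => y) (Set.Ioc 0 B) volume :=
    (continuous_id.integrableOn_Icc (a := 0) (b := B)).mono_set Set.Ioc_subset_Icc_self
  have h2 : IntegrableOn (Set.indicator (Set.Iic B) (fun y : ℝ => y)) (Set.Ioi 0) volume := by
    unfold IntegrableOn
    rw [integrable_indicator_iff measurableSet_Iic]
    unfold IntegrableOn
    rw [Measure.restrict_restrict measurableSet_Iic]
    have : Set.Iic B ∩ Set.Ioi 0 = Set.Ioc 0 B := by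
      ext x; simp [and_comm]
    rw [this]
    exact hcont
  refine h2.congr_fun ?_ measurableSet_Ioi
  intro y hy
  have hy0 : (0 : ℝ) < y := hy
  by_cases hyB : y ∈ Set.Iic B
  · simp only [Set.indicator_of_mem hyB, smul_eq_mul]
    have : y ≠ 0 := hy0.ne'
    field_simp
    try norm_num
  · simp [Set.indicator_of_notMem hyB]

/-- `G l` is measurable. -/
theorem measurable_G (l : ℂ) : Measurable (G l) := by
  unfold G
  fun_prop

/-- The bound for `G l` on a ball. -/
theorem norm_G_le (l : ℂ) (B : ℝ) (x : E5) (hx : ‖x‖ ≤ B) :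
    ‖G l x‖ ≤ (Real.exp (‖l‖ * B) * (1 + ‖l‖ * B)) * (‖x‖ ^ 3)⁻¹ := by
  have hB : 0 ≤ B := (norm_nonneg x).trans hx
  unfold G
  rw [norm_div, norm_mul, div_eq_mul_inv]
  have h1 : ‖Complex.exp (Complex.I * l * (‖x‖ : ℂ))‖ ≤ Real.exp (‖l‖ * B) := by
    refine (Complex.norm_exp_le_exp_norm _).trans (Real.exp_le_exp.2 ?_)
    rw [norm_mul, norm_mul, Complex.norm_I, one_mul, Complex.norm_real, Real.norm_eq_abs,
      abs_of_nonneg (norm_nonneg x)]
    exact mul_le_mul_of_nonneg_left hx (norm_nonneg l)
  have h2 : ‖1 - Complex.I * l * (‖x‖ : ℂ)‖ ≤ 1 + ‖l‖ * B := by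
    refine (norm_sub_le _ _).trans ?_
    rw [norm_one, norm_mul, norm_mul, Complex.norm_I, one_mul, Complex.norm_real,
      Real.norm_eq_abs, abs_of_nonneg (norm_nonneg x)]
    have := mul_le_mul_of_nonneg_left hx (norm_nonneg l)
    linarith
  have h3 : ‖(8 * (Real.pi : ℂ) ^ 2 * (‖x‖ : ℂ) ^ 3)‖⁻¹ ≤ (‖x‖ ^ 3)⁻¹ := by
    rw [norm_mul, norm_mul, norm_pow, norm_pow, Complex.norm_real, Complex.norm_real,
      Real.norm_eq_abs, Real.norm_eq_abs, abs_of_nonneg (norm_nonneg x),
      abs_of_pos Real.pi_pos, mul_inv]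
    have hp : (‖(8 : ℂ)‖ * Real.pi ^ 2)⁻¹ ≤ 1 := by
      apply inv_le_one_of_one_le₀
      have h8 : ‖(8 : ℂ)‖ = 8 := by simp
      rw [h8]
      nlinarith [Real.pi_gt_three]
    have hn : 0 ≤ (‖x‖ ^ 3)⁻¹ := by positivity
    calc (‖(8 : ℂ)‖ * Real.pi ^ 2)⁻¹ * (‖x‖ ^ 3)⁻¹ ≤ 1 * (‖x‖ ^ 3)⁻¹ :=
          mul_le_mul_of_nonneg_right hp hn
      _ = _ := one_mul _
  exact mul_le_mul (mul_le_mul h1 h2 (norm_nonneg _) (Real.exp_pos _).le) h3
    (inv_nonneg.2 (norm_nonneg _)) (by positivity)

/-- `G l` is integrable on balls. -/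
theorem integrable_G_indicator (l : ℂ) (B : ℝ) :
    Integrable ((closedBall (0 : E5) B).indicator (G l)) := by
  refine ((integrable_cut B).const_mul (Real.exp (‖l‖ * B) * (1 + ‖l‖ * B))).mono'
    (((measurable_G l).indicator measurableSet_closedBall).aestronglyMeasurable) ?_
  refine Eventually.of_forall fun x => ?_
  by_cases hx : x ∈ closedBall (0 : E5) B
  · have hx' : ‖x‖ ≤ B := by simpa using hx
    rw [Set.indicator_of_mem hx, Set.indicator_of_mem (show ‖x‖ ∈ Set.Iic B from hx')]
    exact norm_G_le l B x hx'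
  · have hx' : ¬ ‖x‖ ≤ B := by simpa using hx
    rw [Set.indicator_of_notMem hx, Set.indicator_of_notMem (show ‖x‖ ∉ Set.Iic B from hx')]
    simp

/-- A convolution of an integrable function with a bounded integrable function is continuous. -/
theorem continuous_conv_aux (g F : E5 → ℂ) (hg : Integrable g) (hF : Integrable F) (M : ℝ)
    (hM : ∀ x, ‖F x‖ ≤ M) : Continuous (fun x => ∫ y, g (x - y) * F y) := by
  rw [continuous_iff_continuousAt]
  intro x0
  refine continuousAt_of_locally_uniform_approx_of_continuousAt ?_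
  intro u hu
  obtain ⟨e, he, hue⟩ := Metric.mem_uniformity_dist.1 hu
  have hM0 : 0 ≤ M := (norm_nonneg _).trans (hM 0)
  obtain ⟨g', hg's, hg'e, hg'c, hg'i⟩ :=
    hg.exists_hasCompactSupport_integral_sub_le (ε := e / (2 * (M + 1))) (by positivity)
  refine ⟨Set.univ, univ_mem, fun x => ∫ y, g' (x - y) * F y, ?_, ?_⟩
  · have hc := hg's.continuous_convolution_right (ContinuousLinearMap.mul ℂ ℂ)
      (μ := (volume : Measure E5)) (f := F) hF.locallyIntegrable hg'c
    have : (fun x => ∫ y, g' (x - y) * F y) =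
        (convolution F g' (ContinuousLinearMap.mul ℂ ℂ) (volume : Measure E5)) := by
      funext x
      unfold convolution
      refine integral_congr_ae (Eventually.of_forall fun y => ?_)
      simp [mul_comm]
    rw [this]
    exact hc.continuousAt
  · intro x _
    apply hue
    rw [dist_eq_norm]
    have hgx : Integrable (fun y => g (x - y)) := hg.comp_sub_left x
    have hg'x : Integrable (fun y => g' (x - y)) := hg'i.comp_sub_left x
    have hb1 : Integrable (fun y => g (x - y) * F y) := by
      refine (hgx.norm.mul_const M).mono'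
        (hgx.aestronglyMeasurable.mul hF.aestronglyMeasurable) ?_
      refine Eventually.of_forall fun y => ?_
      rw [norm_mul]
      exact mul_le_mul_of_nonneg_left (hM y) (norm_nonneg _)
    have hb2 : Integrable (fun y => g' (x - y) * F y) := by
      refine (hg'x.norm.mul_const M).mono'
        (hg'x.aestronglyMeasurable.mul hF.aestronglyMeasurable) ?_
      refine Eventually.of_forall fun y => ?_
      rw [norm_mul]
      exact mul_le_mul_of_nonneg_left (hM y) (norm_nonneg _)
    rw [← integral_sub hb1 hb2]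
    calc ‖∫ y, (g (x - y) * F y - g' (x - y) * F y)‖
        ≤ ∫ y, ‖g (x - y) - g' (x - y)‖ * M := by
          refine norm_integral_le_of_norm_le ((hgx.sub hg'x).norm.mul_const M) ?_
          refine Eventually.of_forall fun y => ?_
          rw [← sub_mul, norm_mul]
          exact mul_le_mul_of_nonneg_left (hM y) (norm_nonneg _)
      _ = (∫ y, ‖g (x - y) - g' (x - y)‖) * M := integral_mul_const _ _
      _ = (∫ y, ‖g y - g' y‖) * M := by
          rw [integral_sub_left_eq_self (fun y => ‖g y - g' y‖) volume x]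
      _ ≤ e / (2 * (M + 1)) * M := mul_le_mul_of_nonneg_right hg'e hM0
      _ < e := by
          rw [div_mul_eq_mul_div, div_lt_iff₀ (by positivity)]
          nlinarith

/-- The potential of a bounded compactly supported function is continuous. -/
theorem continuous_potential (l : ℂ) (R : ℝ) (F : E5 → ℂ) (hF : Measurable F) (M : ℝ)
    (hM : ∀ x, ‖F x‖ ≤ M) (hR : ∀ x, R < ‖x‖ → F x = 0) :
    Continuous (fun x => ∫ y, G l (x - y) * F y) := by
  have hFi : Integrable F := by
    have h1 : IntegrableOn F (closedBall 0 R) volume := by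
      refine IntegrableOn.of_bound (by exact measure_closedBall_lt_top) hF.aestronglyMeasurable M
        (Eventually.of_forall hM)
    have h2 : F = (closedBall (0 : E5) R).indicator F := by
      funext x
      by_cases hx : x ∈ closedBall (0 : E5) R
      · rw [Set.indicator_of_mem hx]
      · rw [Set.indicator_of_notMem hx, hR x (by simpa using hx)]
    rw [h2]
    exact h1.integrable_indicator measurableSet_closedBall
  rw [continuous_iff_continuousAt]
  intro x0
  have hc := continuous_conv_aux _ F (integrable_G_indicator l (‖x0‖ + 1 + R)) hFi M hM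
  refine (hc.continuousAt (x := x0)).congr ?_
  filter_upwards [ball_mem_nhds x0 one_pos] with x hx
  refine integral_congr_ae (Eventually.of_forall fun y => ?_)
  by_cases hy : R < ‖y‖
  · simp [hR y hy]
  · have : x - y ∈ closedBall (0 : E5) (‖x0‖ + 1 + R) := by
      rw [mem_closedBall_zero_iff]
      have h1 : ‖x - y‖ ≤ ‖x‖ + ‖y‖ := norm_sub_le _ _
      have h2 : ‖x‖ ≤ ‖x0‖ + ‖x - x0‖ := by
        calc ‖x‖ = ‖x0 + (x - x0)‖ := by congr 1; abel
          _ ≤ _ := norm_add_le _ _
      have h3 : ‖x - x0‖ < 1 := by rw [← dist_eq_norm]; exact hx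
      have h4 : ‖y‖ ≤ R := not_lt.1 hy
      linarith
    simp [Set.indicator_of_mem this]

theorem gh_eq (l : ℂ) (x y : E5) :
    gh l (dist x y) * ((((dist x y) ^ 3)⁻¹ : ℝ) : ℂ) = G l (x - y) := by
  unfold gh G
  rw [dist_eq_norm]
  push_cast
  rw [div_mul_eq_mul_div, div_eq_mul_inv, div_eq_mul_inv, mul_inv (8 * (Real.pi : ℂ) ^ 2)]
  ring

theorem kerResonance : KerResonance := by
  intro R hR V hV M hM hVR l u hu hker
  set w : E5 → ℂ := Function.extend Subtype.val (u : closedBall (0 : E5) R → ℂ) 0 with hw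
  have hwm : Measurable w :=
    (MeasurableEmbedding.subtype_coe measurableSet_closedBall).measurable_extend
      u.continuous.measurable measurable_zero
  have hwK : ∀ x : closedBall (0 : E5) R, w x = u x := fun x => Subtype.val_injective.extend_apply _ _ _
  have hwb : ∀ x, ‖w x‖ ≤ ‖u‖ := by
    intro x
    by_cases hx : x ∈ closedBall (0 : E5) R
    · rw [show w x = u ⟨x, hx⟩ from hwK ⟨x, hx⟩]
      exact u.norm_coe_le_norm _
    · have : w x = 0 := by
        rw [hw, Function.extend_apply' _ _ _ (by rintro ⟨a, rfl⟩; exact hx a.2)]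
        rfl
      rw [this, norm_zero]
      exact norm_nonneg _
  set F : E5 → ℂ := fun y => (V y : ℂ) * w y with hFdef
  have hFm : Measurable F := (Complex.measurable_ofReal.comp hV).mul hwm
  have hFb : ∀ x, ‖F x‖ ≤ M * ‖u‖ := by
    intro x
    rw [hFdef]
    simp only [norm_mul, Complex.norm_real, Real.norm_eq_abs]
    exact mul_le_mul (hM x) (hwb x) (norm_nonneg _) ((abs_nonneg _).trans (hM x))
  have hF0 : ∀ x, R < ‖x‖ → F x = 0 := by
    intro x hx
    simp [hFdef, hVR x hx]
  set U : E5 → ℂ := fun x => -∫ y, G l (x - y) * F y with hU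
  have hUc : Continuous U := (continuous_potential l R F hFm _ hFb hF0).neg
  have hUK : ∀ x : closedBall (0 : E5) R, U x = u x := by
    intro x
    have h1 := hker x
    have h2 : ∫ y : closedBall (0 : E5) R, gh l (dist x y) * ((((dist x y) ^ 3)⁻¹ : ℝ) : ℂ) * (V y : ℂ) * u y ∂(muB R)
        = ∫ y, G l ((x : E5) - y) * F y := by
      have h3 : ∀ y : closedBall (0 : E5) R, gh l (dist x y) * ((((dist x y) ^ 3)⁻¹ : ℝ) : ℂ) * (V y : ℂ) * u y
          = G l ((x : E5) - y) * F y := by
        intro y
        rw [show dist x y = dist (x : E5) y from rfl, gh_eq, hFdef]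
        simp only [hwK]
        ring
      simp_rw [h3]
      rw [muB, integral_subtype_comap measurableSet_closedBall
        (fun y : E5 => G l ((x : E5) - y) * F y)]
      refine setIntegral_eq_integral_of_forall_compl_eq_zero ?_
      intro y hy
      rw [hF0 y (by simpa using hy), mul_zero]
    rw [h2] at h1
    rw [hU]
    simp only
    linear_combination -h1
  refine ⟨U, hUc, ?_, ?_⟩
  · intro hU0
    apply hu
    ext x
    rw [← hUK x, hU0]
    rfl
  · intro x
    rw [hU]
    simp only
    congr 1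
    refine integral_congr_ae (Eventually.of_forall fun y => ?_)
    show G l (x - y) * F y = G l (x - y) * (V y : ℂ) * (U y)
    by_cases hy : R < ‖y‖
    · rw [hF0 y hy, hVR y hy]; simp
    · have hyK : y ∈ closedBall (0 : E5) R := by rw [mem_closedBall_zero_iff]; exact not_lt.1 hy
      have h4 : U y = u ⟨y, hyK⟩ := hUK ⟨y, hyK⟩
      have h5 : w y = u ⟨y, hyK⟩ := hwK ⟨y, hyK⟩
      rw [h4, hFdef]
      simp only [h5]
      ring

end Pool.Agent.Work.MP_f2af60_mp
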