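import Pool.Agent.Work.MP_f2af60_mp.Stmts

/-!
# MP_f2af60_mp, dimension five: the second order term on the imaginary axis (items 14, 15, 16)
-/

namespace Pool.Agent.Work.MP_f2af60_mp

open MeasureTheory Metric Filter Topology Set

namespace Second

lemma kk_nonneg {s : ℝ} (hs : 0 < s) (z : E5) : 0 ≤ kk s z := by
  unfold kk
  positivity

lemma kk_neg (s : ℝ) (z : E5) : kk s (-z) = kk s z := by
  unfold kk
  rw [norm_neg]

lemma kk_scale {s : ℝ} (hs : 0 < s) (z : E5) : kk s z = s ^ 5 * kk 1 (s • z) := by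
  unfold kk
  rw [norm_smul, Real.norm_of_nonneg hs.le]
  rcases eq_or_ne z 0 with rfl | hz
  · simp
  · have h0 : ‖z‖ ≠ 0 := norm_ne_zero_iff.mpr hz
    have e1 : (2 : ℝ) * 1 * (s * ‖z‖) = 2 * s * ‖z‖ := by ring
    rw [e1]
    field_simp

lemma kk_one_integrable : Integrable (kk 1) := by
  have h1 : (kk 1) = fun x : E5 => (fun r : ℝ => 1 * Real.exp (-(2 * 1 * r)) * (1 + 1 * r) /
      (64 * Real.pi ^ 4 * r ^ 4)) ‖x‖ := by
    funext x
    rfl
  rw [h1]
  refine (integrable_fun_norm_addHaar (E := E5) (volume : Measure E5)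
    (f := fun r : ℝ => 1 * Real.exp (-(2 * 1 * r)) * (1 + 1 * r) /
      (64 * Real.pi ^ 4 * r ^ 4))).mpr ?_
  have hfin : Module.finrank ℝ E5 - 1 = 4 := by simp
  rw [hfin]
  have hdom : IntegrableOn (fun r : ℝ => Real.exp (-1 * r)) (Ioi 0) :=
    exp_neg_integrableOn_Ioi 0 one_pos
  refine Integrable.mono' hdom ?_ ?_
  · refine Measurable.aestronglyMeasurable ?_
    simp only [smul_eq_mul]
    fun_prop
  · refine (ae_restrict_iff' measurableSet_Ioi).mpr (Eventually.of_forall fun r hr => ?_)
    have hr0 : 0 < r := hr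
    have e : r ^ 4 • (1 * Real.exp (-(2 * 1 * r)) * (1 + 1 * r) / (64 * Real.pi ^ 4 * r ^ 4)) =
        Real.exp (-(2 * r)) * (1 + r) / (64 * Real.pi ^ 4) := by
      rw [smul_eq_mul]
      have : r ≠ 0 := hr0.ne'
      field_simp
    rw [e, Real.norm_of_nonneg (by positivity)]
    have h2 : 1 + r ≤ Real.exp r := by linarith [Real.add_one_le_exp r]
    have hpi : 1 ≤ 64 * Real.pi ^ 4 := by
      have : 1 ≤ Real.pi := by linarith [Real.pi_gt_three]
      have : 1 ≤ Real.pi ^ 4 := one_le_pow₀ this
      linarith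
    calc Real.exp (-(2 * r)) * (1 + r) / (64 * Real.pi ^ 4)
        ≤ Real.exp (-(2 * r)) * (1 + r) := div_le_self (by positivity) hpi
      _ ≤ Real.exp (-(2 * r)) * Real.exp r := by gcongr
      _ = Real.exp (-1 * r) := by rw [← Real.exp_add]; ring_nf

lemma kk_integrable {s : ℝ} (hs : 0 < s) : Integrable (kk s) := by
  have h : kk s = fun z => s ^ 5 * kk 1 (s • z) := funext (kk_scale hs)
  rw [h]
  refine Integrable.const_mul ?_ _
  exact (integrable_comp_smul_iff volume (kk 1) hs.ne').mpr kk_one_integrable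

lemma kk_integral {s : ℝ} (hs : 0 < s) : ∫ z, kk s z = ∫ z, kk 1 z := by
  have h : kk s = fun z => s ^ 5 * kk 1 (s • z) := funext (kk_scale hs)
  rw [h, integral_const_mul, Measure.integral_comp_smul]
  have hfin : Module.finrank ℝ E5 = 5 := by simp
  rw [hfin, abs_of_pos (by positivity), smul_eq_mul]
  field_simp

lemma kk_pos : 0 < ∫ z, kk 1 z := by
  rw [integral_pos_iff_support_of_nonneg (kk_nonneg one_pos) kk_one_integrable]
  have hsup : Function.support (kk 1) = {(0 : E5)}ᶜ := by
    ext z
    simp only [Function.mem_support, mem_compl_iff, mem_singleton_iff]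
    constructor
    · rintro h rfl
      exact h (by simp [kk])
    · intro h
      have h0 : 0 < ‖z‖ := norm_pos_iff.mpr h
      have : 0 < kk 1 z := by
        unfold kk
        positivity
      exact this.ne'
  rw [hsup]
  have : (volume : Measure E5) ({0}ᶜ) = volume (univ : Set E5) := by
    rw [measure_compl (measurableSet_singleton _) (by simp)]
    simp
  rw [this]
  exact NeZero.pos _ 

/-- A bounded measurable function with bounded support is integrable. -/
lemma bdd_integrable {V : E5 → ℝ} (hV : Measurable V) {M R : ℝ} (hM : ∀ x, |V x| ≤ M)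
    (hR : ∀ x, R < ‖x‖ → V x = 0) : Integrable V := by
  have hsup : Function.support V ⊆ closedBall (0 : E5) R := by
    intro x hx
    by_contra h
    apply hx
    apply hR
    simpa [mem_closedBall_zero_iff, not_le] using h
  rw [← integrableOn_iff_integrable_of_support_subset hsup]
  exact Measure.integrableOn_of_bounded (M := M) (isCompact_closedBall (0 : E5) R).measure_ne_top
    hV.aestronglyMeasurable (Eventually.of_forall fun x => by simpa using hM x)

lemma sq_integrable {V : E5 → ℝ} (hV : Measurable V) {M R : ℝ} (hM : ∀ x, |V x| ≤ M)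
    (hR : ∀ x, R < ‖x‖ → V x = 0) : Integrable (fun x => V x ^ 2) := by
  refine bdd_integrable (M := M ^ 2) (R := R) (hV.pow_const 2) (fun x => ?_) (fun x hx => ?_)
  · rw [abs_pow]
    exact pow_le_pow_left₀ (abs_nonneg _) (hM x) 2
  · rw [hR x hx]
    simp

lemma kk_measurable (s : ℝ) : Measurable (kk s) := by
  unfold kk
  fun_prop

lemma prod_integrable_right {f : E5 → ℝ} (hf : Integrable f) {s : ℝ} (hs : 0 < s) :
    Integrable (fun p : E5 × E5 => f p.2 * kk s (p.1 - p.2)) (volume.prod volume) :=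
  Integrable.convolution_integrand (ContinuousLinearMap.mul ℝ ℝ) hf (kk_integrable hs)

lemma prod_integrable_left {f : E5 → ℝ} (hf : Integrable f) {s : ℝ} (hs : 0 < s) :
    Integrable (fun p : E5 × E5 => f p.1 * kk s (p.1 - p.2)) (volume.prod volume) := by
  have h := (prod_integrable_right hf hs).swap
  refine h.congr (Eventually.of_forall fun p => ?_)
  simp only [Function.comp_apply, Prod.snd_swap, Prod.fst_swap]
  rw [← kk_neg s (p.2 - p.1), neg_sub]

lemma prod_integral_right {f : E5 → ℝ} (hf : Integrable f) {s : ℝ} (hs : 0 < s) :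
    ∫ p : E5 × E5, f p.2 * kk s (p.1 - p.2) ∂(volume.prod volume) =
      (∫ z, kk 1 z) * ∫ x, f x := by
  rw [integral_prod_symm _ (prod_integrable_right hf hs)]
  simp only
  have : ∀ y : E5, ∫ x, f y * kk s (x - y) = (∫ z, kk 1 z) * f y := by
    intro y
    rw [integral_const_mul, integral_sub_right_eq_self (kk s) y, kk_integral hs, mul_comm]
  simp_rw [this]
  rw [integral_const_mul]

lemma prod_integral_left {f : E5 → ℝ} (hf : Integrable f) {s : ℝ} (hs : 0 < s) :
    ∫ p : E5 × E5, f p.1 * kk s (p.1 - p.2) ∂(volume.prod volume) =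
      (∫ z, kk 1 z) * ∫ x, f x := by
  rw [integral_prod _ (prod_integrable_left hf hs)]
  simp only
  have : ∀ x : E5, ∫ y, f x * kk s (x - y) = (∫ z, kk 1 z) * f x := by
    intro x
    rw [integral_const_mul, integral_sub_left_eq_self (kk s) volume x, kk_integral hs, mul_comm]
  simp_rw [this]
  rw [integral_const_mul]

lemma cross_bound (V : E5 → ℝ) {s : ℝ} (hs : 0 < s) (p : E5 × E5) :
    |V p.1 * V p.2 * kk s (p.1 - p.2)| ≤
      (V p.1 ^ 2 * kk s (p.1 - p.2) + V p.2 ^ 2 * kk s (p.1 - p.2)) / 2 := by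
  rw [abs_mul, abs_of_nonneg (kk_nonneg hs _), abs_mul]
  have h1 : |V p.1| * |V p.2| ≤ (V p.1 ^ 2 + V p.2 ^ 2) / 2 := by
    nlinarith [sq_nonneg (|V p.1| - |V p.2|), sq_abs (V p.1), sq_abs (V p.2)]
  nlinarith [mul_le_mul_of_nonneg_right h1 (kk_nonneg hs (p.1 - p.2))]

lemma cross_measurable {V : E5 → ℝ} (hV : Measurable V) (s : ℝ) :
    Measurable (fun p : E5 × E5 => V p.1 * V p.2 * kk s (p.1 - p.2)) := by
  have := kk_measurable s
  fun_prop

lemma cross_integrable {V : E5 → ℝ} (hV : Measurable V) {M R : ℝ} (hM : ∀ x, |V x| ≤ M)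
    (hR : ∀ x, R < ‖x‖ → V x = 0) {s : ℝ} (hs : 0 < s) :
    Integrable (fun p : E5 × E5 => V p.1 * V p.2 * kk s (p.1 - p.2)) (volume.prod volume) := by
  have h2 := sq_integrable hV hM hR
  refine Integrable.mono' (((prod_integrable_left h2 hs).add (prod_integrable_right h2 hs)).div_const 2)
    (cross_measurable hV s).aestronglyMeasurable (Eventually.of_forall fun p => ?_)
  simpa using cross_bound V hs p

lemma SS_eq {V : E5 → ℝ} (hV : Measurable V) {M R : ℝ} (hM : ∀ x, |V x| ≤ M)
    (hR : ∀ x, R < ‖x‖ → V x = 0) {s : ℝ} (hs : 0 < s) :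
    SS V s = ∫ p : E5 × E5, V p.1 * V p.2 * kk s (p.1 - p.2) ∂(volume.prod volume) := by
  rw [integral_prod _ (cross_integrable hV hM hR hs)]
  rfl

/-- The autocorrelation of `V`. -/
noncomputable def ac (V : E5 → ℝ) (z : E5) : ℝ := ∫ x, V x * V (x - z)

lemma M_nonneg {V : E5 → ℝ} {M : ℝ} (hM : ∀ x, |V x| ≤ M) : 0 ≤ M :=
  (abs_nonneg _).trans (hM 0)

lemma ac_zero (V : E5 → ℝ) : ac V 0 = ∫ x, V x ^ 2 := by
  unfold ac
  congr 1
  funext x
  rw [sub_zero, sq]

lemma ac_bound {V : E5 → ℝ} (hV : Measurable V) {M R : ℝ} (hM : ∀ x, |V x| ≤ M)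
    (hR : ∀ x, R < ‖x‖ → V x = 0) (z : E5) : |ac V z| ≤ ∫ x, M * ‖V x‖ := by
  unfold ac
  rw [← Real.norm_eq_abs]
  refine norm_integral_le_of_norm_le ((bdd_integrable hV hM hR).norm.const_mul M)
    (Eventually.of_forall fun x => ?_)
  rw [norm_mul, mul_comm]
  exact mul_le_mul_of_nonneg_right (hM _) (norm_nonneg _)

lemma ac_continuous {V : E5 → ℝ} (hV : Measurable V) {M R : ℝ} (hM : ∀ x, |V x| ≤ M)
    (hR : ∀ x, R < ‖x‖ → V x = 0) : Continuous (ac V) := by
  have hint := bdd_integrable hV hM hR
  have hM0 := M_nonneg hM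
  refine continuous_of_uniform_approx_of_continuous fun u hu => ?_
  obtain ⟨ε, hε, hεu⟩ := Metric.mem_uniformity_dist.mp hu
  obtain ⟨g, hgc, hgV, hg, hgi⟩ := hint.exists_hasCompactSupport_integral_sub_le
    (show 0 < ε / (2 * (M + 1)) by positivity)
  obtain ⟨B, hB⟩ := hg.bounded_above_of_compact_support hgc
  refine ⟨fun z => ∫ x, V x * g (x - z), ?_, fun z => hεu ?_⟩
  · refine continuous_of_dominated (bound := fun x => ‖V x‖ * B) (fun z => ?_) (fun z => ?_)
      (hint.norm.mul_const B) (Eventually.of_forall fun x => ?_)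
    · exact (hV.mul (hg.measurable.comp (measurable_id.sub_const z))).aestronglyMeasurable
    · refine Eventually.of_forall fun x => ?_
      rw [norm_mul]
      exact mul_le_mul_of_nonneg_left (hB _) (norm_nonneg _)
    · fun_prop
  · have i1 : Integrable (fun x => V x * V (x - z)) := by
      refine Integrable.mono' (hint.norm.const_mul M)
        (hV.mul (hV.comp (measurable_id.sub_const z))).aestronglyMeasurable
        (Eventually.of_forall fun x => ?_)
      rw [norm_mul, mul_comm]
      exact mul_le_mul_of_nonneg_right (hM _) (norm_nonneg _)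
    have i2 : Integrable (fun x => V x * g (x - z)) := by
      refine Integrable.mono' (hint.norm.mul_const B)
        (hV.mul (hg.measurable.comp (measurable_id.sub_const z))).aestronglyMeasurable
        (Eventually.of_forall fun x => ?_)
      rw [norm_mul]
      exact mul_le_mul_of_nonneg_left (hB _) (norm_nonneg _)
    have i3 : Integrable (fun x => ‖V x - g x‖) := (hint.sub hgi).norm
    unfold ac
    rw [dist_eq_norm, ← integral_sub i1 i2]
    calc ‖∫ x, (V x * V (x - z) - V x * g (x - z))‖
        ≤ ∫ x, M * ‖V (x - z) - g (x - z)‖ := by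
          refine norm_integral_le_of_norm_le ((i3.comp_sub_right z).const_mul M)
            (Eventually.of_forall fun x => ?_)
          rw [← mul_sub, norm_mul]
          exact mul_le_mul_of_nonneg_right (hM _) (norm_nonneg _)
      _ = M * ∫ x, ‖V x - g x‖ := by
          rw [integral_const_mul, integral_sub_right_eq_self (fun x => ‖V x - g x‖) z]
      _ ≤ M * (ε / (2 * (M + 1))) := by gcongr
      _ < ε := by
          rw [mul_div_assoc', div_lt_iff₀ (by positivity)]
          nlinarith

lemma SS_ac {V : E5 → ℝ} (hV : Measurable V) {M R : ℝ} (hM : ∀ x, |V x| ≤ M)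
    (hR : ∀ x, R < ‖x‖ → V x = 0) {s : ℝ} (hs : 0 < s) :
    SS V s = ∫ w, ac V (s⁻¹ • w) * kk 1 w := by
  have hint := bdd_integrable hV hM hR
  have hM0 := M_nonneg hM
  have hkm := kk_measurable s
  have e1 : SS V s = ∫ x, ∫ z, V x * V (x - z) * kk s z := by
    unfold SS
    congr 1
    funext x
    rw [← integral_sub_left_eq_self (fun z => V x * V (x - z) * kk s z) volume x]
    congr 1
    funext y
    simp only [sub_sub_cancel]
  have hi : Integrable (Function.uncurry fun x z : E5 => V x * V (x - z) * kk s z)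
      (volume.prod volume) := by
    refine Integrable.mono' ((hint.norm.const_mul M).mul_prod (kk_integrable hs)) ?_
      (Eventually.of_forall fun p => ?_)
    · refine Measurable.aestronglyMeasurable ?_
      unfold Function.uncurry
      fun_prop
    · simp only [Function.uncurry]
      rw [norm_mul, norm_mul, Real.norm_of_nonneg (kk_nonneg hs _), mul_comm ‖V p.1‖]
      have : ‖V (p.1 - p.2)‖ ≤ M := hM _
      have hk := kk_nonneg hs p.2
      gcongr
  rw [e1, integral_integral_swap hi]
  have e2 : ∀ z : E5, ∫ x, V x * V (x - z) * kk s z =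
      s ^ 5 * (ac V (s⁻¹ • (s • z)) * kk 1 (s • z)) := by
    intro z
    rw [integral_mul_const, kk_scale hs z, inv_smul_smul₀ hs.ne']
    unfold ac
    ring
  simp_rw [e2]
  rw [integral_const_mul, Measure.integral_comp_smul volume
    (fun w => ac V (s⁻¹ • w) * kk 1 w) s]
  have hfin : Module.finrank ℝ E5 = 5 := by simp
  rw [hfin, abs_of_pos (by positivity), smul_eq_mul]
  field_simp

end Second

theorem kkIntegral : KkIntegral := by
  intro s hs
  exact ⟨Second.kk_integrable hs, Second.kk_integral hs, Second.kk_pos⟩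

theorem ssLe : SSLe := by
  intro V hV M R hM hR s hs
  have h2 := Second.sq_integrable hV hM hR
  rw [Second.SS_eq hV hM hR hs]
  calc ∫ p : E5 × E5, V p.1 * V p.2 * kk s (p.1 - p.2) ∂(volume.prod volume)
      ≤ ∫ p : E5 × E5, (V p.1 ^ 2 * kk s (p.1 - p.2) + V p.2 ^ 2 * kk s (p.1 - p.2)) / 2
          ∂(volume.prod volume) := by
        refine integral_mono (Second.cross_integrable hV hM hR hs)
          (((Second.prod_integrable_left h2 hs).add (Second.prod_integrable_right h2 hs)).div_const 2)
          (fun p => ?_)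
        exact (le_abs_self _).trans (Second.cross_bound V hs p)
    _ = ((∫ z, kk 1 z) * (∫ x, V x ^ 2) + (∫ z, kk 1 z) * ∫ x, V x ^ 2) / 2 := by
        rw [integral_div, integral_add (Second.prod_integrable_left h2 hs)
          (Second.prod_integrable_right h2 hs), Second.prod_integral_left h2 hs,
          Second.prod_integral_right h2 hs]
    _ = (∫ z, kk 1 z) * ∫ x, V x ^ 2 := by ring

theorem ssTendsto : SSTendsto := by
  intro V hV M R hM hR
  have hc := Second.ac_continuous hV hM hR
  have hlim : (∫ z, kk 1 z) * ∫ x, V x ^ 2 = ∫ w, Second.ac V 0 * kk 1 w := by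
    rw [integral_const_mul, Second.ac_zero, mul_comm]
  rw [hlim]
  have hev : (fun s : ℝ => ∫ w, Second.ac V (s⁻¹ • w) * kk 1 w) =ᶠ[atTop] SS V := by
    filter_upwards [eventually_gt_atTop 0] with s hs
    exact (Second.SS_ac hV hM hR hs).symm
  refine Tendsto.congr' hev ?_
  refine tendsto_integral_filter_of_dominated_convergence
    (fun w => (∫ x, M * ‖V x‖) * kk 1 w) (Eventually.of_forall fun s => ?_)
    (Eventually.of_forall fun s => Eventually.of_forall fun w => ?_)
    (Second.kk_one_integrable.const_mul _) (Eventually.of_forall fun w => ?_)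
  · exact ((hc.comp (continuous_const_smul s⁻¹)).measurable.mul
      (Second.kk_measurable 1)).aestronglyMeasurable
  · rw [norm_mul, Real.norm_of_nonneg (Second.kk_nonneg one_pos _)]
    exact mul_le_mul_of_nonneg_right (Second.ac_bound hV hM hR _) (Second.kk_nonneg one_pos _)
  · refine Tendsto.mul_const _ ?_
    refine (hc.tendsto 0).comp ?_
    have : Tendsto (fun s : ℝ => s⁻¹ • w) atTop (𝓝 ((0 : ℝ) • w)) :=
      tendsto_inv_atTop_zero.smul_const w
    simpa using this

end Pool.Agent.Work.MP_f2af60_mp
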