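import Pool.Agent.Work.MP_f2af60_mp.Stmts

/-!
# MP_f2af60_mp, item 10: separation of variables for the powers of `1 - |x-y|²/c`
-/

namespace Pool.Agent.Work.MP_f2af60_mp

open MeasureTheory Metric Filter Topology

/-- The seven left factors of `1 - |x-y|²/c`. -/
noncomputable def sepU (c : ℝ) : Option (Option (Fin 5)) → C(E5, ℝ)
  | none => ⟨fun x => 1 - ‖x‖ ^ 2 / c, by fun_prop⟩
  | some none => 1
  | some (some i) => ⟨fun x => 2 * x i / c, by fun_prop⟩

/-- The seven right factors of `1 - |x-y|²/c`. -/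
noncomputable def sepV (c : ℝ) : Option (Option (Fin 5)) → C(E5, ℝ)
  | none => 1
  | some none => ⟨fun y => -(‖y‖ ^ 2 / c), by fun_prop⟩
  | some (some i) => ⟨fun y => y i, by fun_prop⟩

theorem sep_base (c : ℝ) (x y : E5) :
    1 - dist x y ^ 2 / c = ∑ j, sepU c j x * sepV c j y := by
  have h1 : dist x y ^ 2 = ‖x‖ ^ 2 - 2 * (∑ i, x i * y i) + ‖y‖ ^ 2 := by
    rw [dist_eq_norm, norm_sub_sq_real]
    congr 3
    rw [PiLp.inner_apply]
    refine Finset.sum_congr rfl fun i _ => ?_
    simp [mul_comm]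
  rw [h1, Fintype.sum_option, Fintype.sum_option]
  have h2 : ∑ i, sepU c (some (some i)) x * sepV c (some (some i)) y =
      2 / c * ∑ i, x i * y i := by
    rw [Finset.mul_sum]
    refine Finset.sum_congr rfl fun i _ => ?_
    simp only [sepU, sepV, ContinuousMap.coe_mk]
    ring
  rw [h2]
  simp only [sepU, sepV, ContinuousMap.coe_mk, ContinuousMap.one_apply]
  ring

theorem sep : Sep := by
  classical
  intro R c hR hc
  have hB : ∀ f : C(E5, ℝ), ∃ B : ℝ, 0 ≤ B ∧ ∀ x ∈ closedBall (0 : E5) R, |f x| ≤ B := by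
    intro f
    obtain ⟨B, hB⟩ := (isCompact_closedBall (0 : E5) R).exists_bound_of_continuousOn
      f.continuous.continuousOn
    refine ⟨|B|, abs_nonneg _, fun x hx => ?_⟩
    exact (hB x hx).trans (le_abs_self _)
  choose B hB0 hB using hB
  set ι := Option (Option (Fin 5)) with hι
  set M : ℝ := 1 + ∑ j : ι, (B (sepU c j) + B (sepV c j)) with hM
  have hM1 : 1 ≤ M := by
    have : 0 ≤ ∑ j : ι, (B (sepU c j) + B (sepV c j)) :=
      Finset.sum_nonneg fun j _ => add_nonneg (hB0 _) (hB0 _)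
    linarith
  have hMj : ∀ j : ι, B (sepU c j) + B (sepV c j) ≤ M := by
    intro j
    have : B (sepU c j) + B (sepV c j) ≤ ∑ j : ι, (B (sepU c j) + B (sepV c j)) :=
      Finset.single_le_sum (f := fun j : ι => B (sepU c j) + B (sepV c j))
        (fun j _ => add_nonneg (hB0 _) (hB0 _)) (Finset.mem_univ j)
    linarith
  refine ⟨7 * M, by linarith, fun d => ?_⟩
  set A : Finset (ι → ℕ) := Finset.piAntidiag Finset.univ d with hA
  have hAcard : A.card ≤ (d + 1) ^ 7 := by
    have hsub : A ⊆ Fintype.piFinset (fun _ : ι => Finset.range (d + 1)) := by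
      intro k hk
      rw [Fintype.mem_piFinset]
      intro j
      rw [hA, Finset.mem_piAntidiag] at hk
      have : k j ≤ ∑ i, k i := Finset.single_le_sum (f := k) (fun _ _ => Nat.zero_le _)
        (Finset.mem_univ j)
      have h0 : ∑ i, k i = d := hk.1
      rw [Finset.mem_range]
      omega
    have := Finset.card_le_card hsub
    rw [Fintype.card_piFinset] at this
    simpa [hι] using this
  have hmult : ∀ k ∈ A, (Nat.multinomial Finset.univ k : ℝ) ≤ 7 ^ d := by
    intro k hk
    have h := Finset.sum_pow_eq_sum_piAntidiag (Finset.univ : Finset ι) (fun _ => (1 : ℝ)) d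
    simp only [one_pow, Finset.prod_const_one, mul_one, Finset.sum_const, nsmul_eq_mul] at h
    have h7 : ((Finset.univ : Finset ι).card : ℝ) = 7 := by simp [hι]
    rw [h7] at h
    rw [h]
    exact Finset.single_le_sum (f := fun k => (Nat.multinomial Finset.univ k : ℝ))
      (fun _ _ => Nat.cast_nonneg _) hk
  have hprod : ∀ (W : ι → C(E5, ℝ)), (∀ j, ∀ x ∈ closedBall (0 : E5) R, |W j x| ≤ M) →
      ∀ k ∈ A, ∀ x ∈ closedBall (0 : E5) R, |∏ j, W j x ^ k j| ≤ M ^ d := by
    intro W hW k hk x hx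
    rw [Finset.abs_prod]
    have hk' : ∑ j, k j = d := by
      rw [hA, Finset.mem_piAntidiag] at hk
      exact hk.1
    calc ∏ j, |W j x ^ k j| ≤ ∏ j, M ^ k j := by
          refine Finset.prod_le_prod (fun _ _ => abs_nonneg _) fun j _ => ?_
          rw [abs_pow]
          exact pow_le_pow_left₀ (abs_nonneg _) (hW j x hx) _
      _ = M ^ d := by rw [Finset.prod_pow_eq_pow_sum, hk']
  have hU : ∀ j, ∀ x ∈ closedBall (0 : E5) R, |sepU c j x| ≤ M := fun j x hx =>
    (hB _ x hx).trans (by linarith [hMj j, hB0 (sepV c j)])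
  have hV : ∀ j, ∀ x ∈ closedBall (0 : E5) R, |sepV c j x| ≤ M := fun j x hx =>
    (hB _ x hx).trans (by linarith [hMj j, hB0 (sepU c j)])
  let e := A.equivFin
  refine ⟨A.card, fun i => (Nat.multinomial Finset.univ ((e.symm i : ι → ℕ)) : ℝ) •
      ∏ j, sepU c j ^ ((e.symm i : ι → ℕ) j),
    fun i => ∏ j, sepV c j ^ ((e.symm i : ι → ℕ) j), hAcard, ?_, ?_⟩
  · intro i x hx
    have hk : (e.symm i : ι → ℕ) ∈ A := (e.symm i).2
    refine ⟨?_, ?_⟩
    · simp only [ContinuousMap.smul_apply, ContinuousMap.coe_prod, Finset.prod_apply,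
        ContinuousMap.pow_apply, smul_eq_mul]
      rw [abs_mul, abs_of_nonneg (Nat.cast_nonneg _), mul_pow]
      exact mul_le_mul (hmult _ hk) (hprod _ hU _ hk x hx) (abs_nonneg _) (by positivity)
    · simp only [ContinuousMap.coe_prod, Finset.prod_apply, ContinuousMap.pow_apply]
      refine (hprod _ hV _ hk x hx).trans ?_
      exact pow_le_pow_left₀ (by linarith) (by linarith) _
  · intro x y
    rw [sep_base, Finset.sum_pow_eq_sum_piAntidiag]
    rw [← Finset.sum_coe_sort, ← e.symm.sum_comp]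
    refine Finset.sum_congr rfl fun i _ => ?_
    simp only [ContinuousMap.smul_apply, ContinuousMap.coe_prod, Finset.prod_apply,
      ContinuousMap.pow_apply, smul_eq_mul, mul_pow, Finset.prod_mul_distrib]
    ring

end Pool.Agent.Work.MP_f2af60_mp
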