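import Pool.Agent.Work.MP_f2af60_mp.Stmts

/-!
# MP_f2af60_mp, item 1: closed balls of `ℝ⁵` satisfy `Sp`
-/

namespace Pool.Agent.Work.MP_f2af60_mp

open MeasureTheory Metric Set

/-- `|z|⁻⁴` cut off at radius `e`. -/
noncomputable def sbF (e : ℝ) (z : E5) : ℝ := (Iio e).indicator (fun t : ℝ => (t ^ 4)⁻¹) ‖z‖

theorem sb_aux (e : ℝ) (y : ℝ) (hy : y ∈ Ioi (0 : ℝ)) :
    (Iio e).indicator (fun _ : ℝ => (1 : ℝ)) y =
      y ^ (Module.finrank ℝ E5 - 1) • (Iio e).indicator (fun t : ℝ => (t ^ 4)⁻¹) y := by
  have hy' : (0 : ℝ) < y := hy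
  have h5 : Module.finrank ℝ E5 - 1 = 4 := by simp
  rw [h5]
  by_cases h : y ∈ Iio e
  · rw [indicator_of_mem h, indicator_of_mem h, smul_eq_mul, mul_inv_cancel₀ (by positivity)]
  · rw [indicator_of_notMem h, indicator_of_notMem h, smul_zero]

theorem sbF_integrable (e : ℝ) : Integrable (sbF e) volume := by
  have h := (integrable_fun_norm_addHaar (volume : Measure E5)
    (f := (Iio e).indicator (fun t : ℝ => (t ^ 4)⁻¹))).2 ?_
  · exact h
  · refine IntegrableOn.congr_fun ?_ (sb_aux e) measurableSet_Ioi
    have h1 : IntegrableOn (fun _ : ℝ => (1 : ℝ)) (Iio e) (volume.restrict (Ioi (0 : ℝ))) := by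
      rw [IntegrableOn, Measure.restrict_restrict measurableSet_Iio, ← IntegrableOn]
      have : Iio e ∩ Ioi 0 = Ioo 0 e := by
        ext t; simp [and_comm]
      rw [this]
      exact integrableOn_const (by simp) (by simp)
    exact h1.integrable_indicator measurableSet_Iio

theorem sbF_integral (e : ℝ) (he : 0 < e) :
    ∫ z, sbF e z = 5 * (volume : Measure E5).real (ball 0 1) * e := by
  have h := integral_fun_norm_addHaar (volume : Measure E5)
    ((Iio e).indicator (fun t : ℝ => (t ^ 4)⁻¹))
  have h2 : ∫ y in Ioi (0 : ℝ), y ^ (Module.finrank ℝ E5 - 1) •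
      (Iio e).indicator (fun t : ℝ => (t ^ 4)⁻¹) y = e := by
    rw [← setIntegral_congr_fun measurableSet_Ioi (sb_aux e),
      integral_indicator measurableSet_Iio, Measure.restrict_restrict measurableSet_Iio]
    have : Iio e ∩ Ioi 0 = Ioo 0 e := by
      ext t; simp [and_comm]
    rw [this]
    simp [he.le]
  rw [h2] at h
  have h3 : ∫ z, sbF e z = ∫ x : E5, (Iio e).indicator (fun t : ℝ => (t ^ 4)⁻¹) ‖x‖ := rfl
  rw [h3, h]
  simp
  ring

theorem sb_ind (e : ℝ) (x y : E5) :
    (ball x e).indicator (fun y : E5 => ((dist x y) ^ 4)⁻¹) y = sbF e (x - y) := by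
  unfold sbF
  by_cases h : y ∈ ball x e
  · have h' : ‖x - y‖ ∈ Iio e := by
      rw [mem_ball, dist_comm, dist_eq_norm] at h
      exact h
    rw [indicator_of_mem h, indicator_of_mem h', dist_eq_norm]
  · have h' : ‖x - y‖ ∉ Iio e := by
      rw [mem_ball, dist_comm, dist_eq_norm] at h
      exact h
    rw [indicator_of_notMem h, indicator_of_notMem h']

theorem sb_integrableOn (x : E5) (e : ℝ) :
    IntegrableOn (fun y : E5 => ((dist x y) ^ 4)⁻¹) (ball x e) volume := by
  rw [← integrable_indicator_iff measurableSet_ball]
  have h : (ball x e).indicator (fun y : E5 => ((dist x y) ^ 4)⁻¹) = fun y => sbF e (x - y) := by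
    funext y
    exact sb_ind e x y
  rw [h]
  exact (sbF_integrable e).comp_sub_left x

theorem sb_integral (x : E5) (e : ℝ) (he : 0 < e) :
    ∫ y in ball x e, ((dist x y) ^ 4)⁻¹ = 5 * (volume : Measure E5).real (ball 0 1) * e := by
  rw [← integral_indicator measurableSet_ball]
  have h : (ball x e).indicator (fun y : E5 => ((dist x y) ^ 4)⁻¹) = fun y => sbF e (x - y) := by
    funext y
    exact sb_ind e x y
  rw [h, integral_sub_left_eq_self (sbF e) volume x]
  exact sbF_integral e he

theorem spBall : SpBall := by
  intro R hR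
  refine ⟨5 * (volume : Measure E5).real (ball 0 1), ?_, ?_⟩
  · have : 0 < (volume : Measure E5).real (ball 0 1) := by
      rw [Measure.real, ENNReal.toReal_pos_iff]
      exact ⟨measure_ball_pos _ _ one_pos, measure_ball_lt_top⟩
    positivity
  · have hemb := MeasurableEmbedding.subtype_coe
      (measurableSet_closedBall (x := (0 : E5)) (ε := R))
    refine ⟨?_, ?_, ?_, ?_⟩
    · constructor
      rw [muB, hemb.comap_apply, image_univ, Subtype.range_coe]
      exact measure_closedBall_lt_top
    · constructor
      intro x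
      rw [muB, hemb.comap_apply, image_singleton]
      simp
    · intro x
      have h1 : IntegrableOn (fun y : E5 => ((dist (x : E5) y) ^ 4)⁻¹) (closedBall 0 R) volume := by
        refine (sb_integrableOn (x : E5) (2 * R + 1)).mono_set ?_
        intro y hy
        have hx := x.2
        rw [mem_closedBall, dist_zero_right] at hy hx
        rw [mem_ball, dist_eq_norm]
        calc ‖y - x‖ ≤ ‖y‖ + ‖(x : E5)‖ := norm_sub_le _ _
          _ < 2 * R + 1 := by linarith
      exact (integrableOn_iff_comap_subtypeVal measurableSet_closedBall).1 h1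
    · intro x e he
      have hset : MeasurableSet (ball x e) := measurableSet_ball
      have hle : ∫ y in ball x e, ((dist x y) ^ 4)⁻¹ ∂(muB R) =
          ∫ y in closedBall (0 : E5) R ∩ ball (x : E5) e, ((dist (x : E5) y) ^ 4)⁻¹ := by
        rw [← integral_indicator hset]
        have h1 : ∀ y : closedBall (0 : E5) R,
            (ball x e).indicator (fun y => ((dist x y) ^ 4)⁻¹) y =
            (ball (x : E5) e).indicator (fun y : E5 => ((dist (x : E5) y) ^ 4)⁻¹) y := by
          intro y
          by_cases h : y ∈ ball x e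
          · have h' : (y : E5) ∈ ball (x : E5) e := h
            rw [indicator_of_mem h, indicator_of_mem h']
            rfl
          · have h' : (y : E5) ∉ ball (x : E5) e := h
            rw [indicator_of_notMem h, indicator_of_notMem h']
        rw [integral_congr_ae (Filter.Eventually.of_forall h1), muB,
          integral_subtype_comap measurableSet_closedBall
            (fun y : E5 => (ball (x : E5) e).indicator
              (fun y : E5 => ((dist (x : E5) y) ^ 4)⁻¹) y),
          integral_indicator measurableSet_ball, Measure.restrict_restrict measurableSet_ball,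
          inter_comm]
      rw [hle, ← sb_integral (x : E5) e he]
      refine setIntegral_mono_set (sb_integrableOn (x : E5) e) ?_ ?_
      · exact Filter.Eventually.of_forall fun y => by
          simp only [Pi.zero_apply]
          positivity
      · exact Filter.Eventually.of_forall inter_subset_right

end Pool.Agent.Work.MP_f2af60_mp
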