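import Pool.Agent.Work.MP_f2af60_mp.Bd.B01

/-!
# MP_f2af60_mp, item 5: the trace identity
-/

namespace Pool.Agent.Work.MP_f2af60_mp

open MeasureTheory Metric Filter Topology

namespace TI

lemma inv3_le {a : ℝ} (ha : 0 ≤ a) : (a ^ 3)⁻¹ ≤ 1 + (a ^ 4)⁻¹ := by
  rcases ha.eq_or_lt with rfl | h0
  · norm_num
  rcases le_total a 1 with h | h
  · have : (a ^ 3)⁻¹ ≤ (a ^ 4)⁻¹ := by
      apply inv_anti₀ (by positivity)
      calc a ^ 4 = a ^ 3 * a := by ring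
        _ ≤ a ^ 3 * 1 := by gcongr
        _ = a ^ 3 := by ring
    linarith
  · have h1 : (a ^ 3)⁻¹ ≤ 1 := inv_le_one_of_one_le₀ (one_le_pow₀ h)
    have h2 : 0 ≤ (a ^ 4)⁻¹ := by positivity
    linarith

lemma inv1_le {a : ℝ} (ha : 0 ≤ a) : a⁻¹ ≤ 1 + (a ^ 4)⁻¹ := by
  rcases ha.eq_or_lt with rfl | h0
  · norm_num
  rcases le_total a 1 with h | h
  · have : a⁻¹ ≤ (a ^ 4)⁻¹ := by
      apply inv_anti₀ (by positivity)
      calc a ^ 4 = a ^ 3 * a := by ring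
        _ ≤ 1 * a := by gcongr; exact pow_le_one₀ ha h
        _ = a := by ring
    linarith
  · have h1 : a⁻¹ ≤ 1 := inv_le_one_of_one_le₀ h
    have h2 : 0 ≤ (a ^ 4)⁻¹ := by positivity
    linarith

lemma inv31_le {a b : ℝ} (ha : 0 ≤ a) (hb : 0 ≤ b) :
    (a ^ 3)⁻¹ * b⁻¹ ≤ (a ^ 4)⁻¹ + (b ^ 4)⁻¹ := by
  rcases ha.eq_or_lt with rfl | ha0
  · have : 0 ≤ (b ^ 4)⁻¹ := by positivity
    simpa using this
  rcases hb.eq_or_lt with rfl | hb0
  · have : 0 ≤ (a ^ 4)⁻¹ := by positivity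
    simpa using this
  rcases le_total a b with h | h
  · have h1 : b⁻¹ ≤ a⁻¹ := inv_anti₀ ha0 h
    have h2 : 0 ≤ (b ^ 4)⁻¹ := by positivity
    have h3 : (a ^ 3)⁻¹ * b⁻¹ ≤ (a ^ 3)⁻¹ * a⁻¹ := by gcongr
    have h4 : (a ^ 3)⁻¹ * a⁻¹ = (a ^ 4)⁻¹ := by rw [← mul_inv]; ring_nf
    linarith
  · have h1 : (a ^ 3)⁻¹ ≤ (b ^ 3)⁻¹ := inv_anti₀ (by positivity) (by gcongr)
    have h2 : 0 ≤ (a ^ 4)⁻¹ := by positivity
    have h3 : (a ^ 3)⁻¹ * b⁻¹ ≤ (b ^ 3)⁻¹ * b⁻¹ := by gcongr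
    have h4 : (b ^ 3)⁻¹ * b⁻¹ = (b ^ 4)⁻¹ := by rw [← mul_inv]; ring_nf
    linarith

section

variable {K : Type*} [MetricSpace K] [CompactSpace K] [MeasurableSpace K] [BorelSpace K]
  {μ : Measure K} {C : ℝ}

omit [MeasurableSpace K] [BorelSpace K] in
lemma ball_univ (x : K) : ball x (diam (Set.univ : Set K) + 1) = Set.univ := by
  ext y
  have : dist y x ≤ diam (Set.univ : Set K) :=
    dist_le_diam_of_mem isCompact_univ.isBounded (Set.mem_univ _) (Set.mem_univ _)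
  simp only [mem_ball, Set.mem_univ, iff_true]
  linarith

lemma int4_le (hS : Sp μ C) (x : K) :
    ∫ y, ((dist x y) ^ 4)⁻¹ ∂μ ≤ C * (diam (Set.univ : Set K) + 1) := by
  have hd : 0 ≤ diam (Set.univ : Set K) := diam_nonneg
  have h := hS.small x (diam (Set.univ : Set K) + 1) (by linarith)
  rwa [ball_univ, Measure.restrict_univ] at h

lemma int4_prod (hS : Sp μ C) :
    Integrable (fun p : K × K => ((dist p.1 p.2) ^ 4)⁻¹) (μ.prod μ) := by
  have := hS.fin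
  have hm : Measurable (fun p : K × K => ((dist p.1 p.2) ^ 4)⁻¹) := by
    fun_prop
  rw [integrable_prod_iff hm.aestronglyMeasurable]
  refine ⟨Eventually.of_forall fun x => hS.int x, ?_⟩
  have h1 : AEStronglyMeasurable (fun x => ∫ y, ‖((dist x y) ^ 4)⁻¹‖ ∂μ) μ :=
    (hm.norm.aestronglyMeasurable (μ := μ.prod μ)).integral_prod_right'
  refine Integrable.mono' (integrable_const (C * (diam (Set.univ : Set K) + 1))) h1 ?_
  refine Eventually.of_forall fun x => ?_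
  have h2 : ∫ y, ‖((dist x y) ^ 4)⁻¹‖ ∂μ = ∫ y, ((dist x y) ^ 4)⁻¹ ∂μ := by
    congr 1
    ext y
    rw [Real.norm_of_nonneg (by positivity)]
  show ‖∫ y, ‖((dist x y) ^ 4)⁻¹‖ ∂μ‖ ≤ _
  rw [h2, Real.norm_of_nonneg (integral_nonneg fun y => by positivity)]
  exact int4_le hS x

/-- The singular factor `|x-y|⁻³` as a complex number. -/
noncomputable abbrev d3 (x y : K) : ℂ := ((((dist x y) ^ 3)⁻¹ : ℝ) : ℂ)

/-- The singular factor `|x-y|⁻¹` as a complex number. -/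
noncomputable abbrev d1 (x y : K) : ℂ := (((dist x y)⁻¹ : ℝ) : ℂ)

omit [CompactSpace K] [MeasurableSpace K] [BorelSpace K] in
lemma norm_d3 (x y : K) : ‖d3 x y‖ = ((dist x y) ^ 3)⁻¹ := by
  rw [d3, Complex.norm_real, Real.norm_of_nonneg (by positivity)]

omit [CompactSpace K] [MeasurableSpace K] [BorelSpace K] in
lemma norm_d1 (x y : K) : ‖d1 x y‖ = (dist x y)⁻¹ := by
  rw [d1, Complex.norm_real, Real.norm_of_nonneg (by positivity)]

variable {V : K → ℝ} {M : ℝ}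

omit [MetricSpace K] [CompactSpace K] [MeasurableSpace K] [BorelSpace K] in
lemma norm_V (hM : ∀ x, |V x| ≤ M) (y : K) : ‖(V y : ℂ)‖ ≤ M := by
  rw [Complex.norm_real, Real.norm_eq_abs]; exact hM y

lemma intA (hS : Sp μ C) (hV : Measurable V) (hM : ∀ x, |V x| ≤ M) (h : C(K × K, ℂ))
    (f : C(K, ℂ)) (x : K) : Integrable (fun y => h (x, y) * d3 x y * (V y : ℂ) * f y) μ := by
  have := hS.fin
  have hm : Measurable (fun y => h (x, y) * d3 x y * (V y : ℂ) * f y) := by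
    fun_prop
  have hM0 : 0 ≤ M := (abs_nonneg _).trans (hM x)
  refine Integrable.mono' (((integrable_const (1 : ℝ)).add (hS.int x)).const_mul (‖h‖ * M * ‖f‖))
    hm.aestronglyMeasurable (Eventually.of_forall fun y => ?_)
  rw [norm_mul, norm_mul, norm_mul, norm_d3]
  have h1 := h.norm_coe_le_norm (x, y)
  have h2 := f.norm_coe_le_norm y
  have h3 := norm_V hM y
  have h4 := inv3_le (dist_nonneg (x := x) (y := y))
  calc ‖h (x, y)‖ * (dist x y ^ 3)⁻¹ * ‖(V y : ℂ)‖ * ‖f y‖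
      ≤ ‖h‖ * (1 + (dist x y ^ 4)⁻¹) * M * ‖f‖ := by gcongr
    _ = ‖h‖ * M * ‖f‖ * (1 + (dist x y ^ 4)⁻¹) := by ring

lemma intP (hS : Sp μ C) (hV : Measurable V) (hM : ∀ x, |V x| ≤ M) (p f : C(K, ℂ)) :
    Integrable (fun y => p y * (V y : ℂ) * f y) μ := by
  have := hS.fin
  have hm : Measurable (fun y => p y * (V y : ℂ) * f y) := by
    fun_prop
  refine Integrable.mono' (integrable_const (‖p‖ * M * ‖f‖))
    hm.aestronglyMeasurable (Eventually.of_forall fun y => ?_)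
  rw [norm_mul, norm_mul]
  have hM0 : 0 ≤ M := (abs_nonneg _).trans (hM y)
  have h1 := p.norm_coe_le_norm y
  have h2 := f.norm_coe_le_norm y
  have h3 := norm_V hM y
  gcongr

lemma intB (hS : Sp μ C) (hV : Measurable V) (hM : ∀ x, |V x| ≤ M) (l : C(K × K, ℂ))
    (p : C(K, ℂ)) (y : K) : Integrable (fun z => p z * (V z : ℂ) * (l (z, y) * d1 z y)) μ := by
  have := hS.fin
  have hm : Measurable (fun z => p z * (V z : ℂ) * (l (z, y) * d1 z y)) := by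
    fun_prop
  have hM0 : 0 ≤ M := (abs_nonneg _).trans (hM y)
  refine Integrable.mono' (((integrable_const (1 : ℝ)).add (hS.int y)).const_mul (‖p‖ * M * ‖l‖))
    hm.aestronglyMeasurable (Eventually.of_forall fun z => ?_)
  rw [norm_mul, norm_mul, norm_mul, norm_d1]
  have h1 := p.norm_coe_le_norm z
  have h2 := l.norm_coe_le_norm (z, y)
  have h3 := norm_V hM z
  have h4 := inv1_le (dist_nonneg (x := z) (y := y))
  calc ‖p z‖ * ‖(V z : ℂ)‖ * (‖l (z, y)‖ * (dist z y)⁻¹)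
      ≤ ‖p‖ * M * (‖l‖ * (1 + (dist z y ^ 4)⁻¹)) := by gcongr
    _ = ‖p‖ * M * ‖l‖ * (1 + (dist y z ^ 4)⁻¹) := by rw [dist_comm z y]; ring

lemma intC (hS : Sp μ C) (hV : Measurable V) (hM : ∀ x, |V x| ≤ M) (h l : C(K × K, ℂ))
    (x y : K) :
    Integrable (fun z => h (x, z) * d3 x z * (V z : ℂ) * (l (z, y) * d1 z y)) μ := by
  have := hS.fin
  have hm : Measurable (fun z => h (x, z) * d3 x z * (V z : ℂ) * (l (z, y) * d1 z y)) := by
    fun_prop
  have hM0 : 0 ≤ M := (abs_nonneg _).trans (hM y)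
  refine Integrable.mono' (((hS.int x).add (hS.int y)).const_mul (‖h‖ * M * ‖l‖))
    hm.aestronglyMeasurable (Eventually.of_forall fun z => ?_)
  rw [norm_mul, norm_mul, norm_mul, norm_mul, norm_d1, norm_d3]
  have h1 := h.norm_coe_le_norm (x, z)
  have h2 := l.norm_coe_le_norm (z, y)
  have h3 := norm_V hM z
  have h4 := inv31_le (dist_nonneg (x := x) (y := z)) (dist_nonneg (x := z) (y := y))
  calc ‖h (x, z)‖ * (dist x z ^ 3)⁻¹ * ‖(V z : ℂ)‖ * (‖l (z, y)‖ * (dist z y)⁻¹)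
      = ‖h (x, z)‖ * ‖(V z : ℂ)‖ * ‖l (z, y)‖ * ((dist x z ^ 3)⁻¹ * (dist z y)⁻¹) := by ring
    _ ≤ ‖h‖ * M * ‖l‖ * ((dist x z ^ 4)⁻¹ + (dist z y ^ 4)⁻¹) := by gcongr
    _ = ‖h‖ * M * ‖l‖ * ((dist x z ^ 4)⁻¹ + (dist y z ^ 4)⁻¹) := by rw [dist_comm z y]

/-- Product integrability for Fubini, with the kernel `|x-z|⁻³ |z-y|⁻¹`. -/
lemma intC_prod (hS : Sp μ C) (hV : Measurable V) (hM : ∀ x, |V x| ≤ M) (h l : C(K × K, ℂ))
    (u : C(K, ℂ)) (x : K) :
    Integrable (fun p : K × K => (V p.1 : ℂ) * u p.1 *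
      (h (x, p.2) * d3 x p.2 * (V p.2 : ℂ) * (l (p.2, p.1) * d1 p.2 p.1))) (μ.prod μ) := by
  have := hS.fin
  have hm : Measurable (fun p : K × K => (V p.1 : ℂ) * u p.1 *
      (h (x, p.2) * d3 x p.2 * (V p.2 : ℂ) * (l (p.2, p.1) * d1 p.2 p.1))) := by
    fun_prop
  have hM0 : 0 ≤ M := (abs_nonneg _).trans (hM x)
  refine Integrable.mono' ((((hS.int x).comp_snd μ).add (int4_prod hS)).const_mul
    (M * ‖u‖ * (‖h‖ * M * ‖l‖)))
    hm.aestronglyMeasurable (Eventually.of_forall fun p => ?_)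
  obtain ⟨y, z⟩ := p
  simp only [norm_mul]
  rw [norm_d1, norm_d3]
  have h1 := h.norm_coe_le_norm (x, z)
  have h2 := l.norm_coe_le_norm (z, y)
  have h3 := norm_V hM z
  have h3' := norm_V hM y
  have h5 := u.norm_coe_le_norm y
  have h4 := inv31_le (dist_nonneg (x := x) (y := z)) (dist_nonneg (x := z) (y := y))
  calc ‖(V y : ℂ)‖ * ‖u y‖ * (‖h (x, z)‖ * (dist x z ^ 3)⁻¹ * ‖(V z : ℂ)‖ *
        (‖l (z, y)‖ * (dist z y)⁻¹))
      = ‖(V y : ℂ)‖ * ‖u y‖ * (‖h (x, z)‖ * ‖(V z : ℂ)‖ * ‖l (z, y)‖) *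
        ((dist x z ^ 3)⁻¹ * (dist z y)⁻¹) := by ring
    _ ≤ M * ‖u‖ * (‖h‖ * M * ‖l‖) * ((dist x z ^ 4)⁻¹ + (dist z y ^ 4)⁻¹) := by gcongr
    _ = M * ‖u‖ * (‖h‖ * M * ‖l‖) * ((dist x z ^ 4)⁻¹ + (dist y z ^ 4)⁻¹) := by
        rw [dist_comm z y]

/-- Product integrability for Fubini, with the kernel `|z-y|⁻¹`. -/
lemma intB_prod (hS : Sp μ C) (hV : Measurable V) (hM : ∀ x, |V x| ≤ M) (l : C(K × K, ℂ))
    (p u : C(K, ℂ)) :
    Integrable (fun q : K × K => (V q.1 : ℂ) * u q.1 *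
      (p q.2 * (V q.2 : ℂ) * (l (q.2, q.1) * d1 q.2 q.1))) (μ.prod μ) := by
  have := hS.fin
  have hm : Measurable (fun q : K × K => (V q.1 : ℂ) * u q.1 *
      (p q.2 * (V q.2 : ℂ) * (l (q.2, q.1) * d1 q.2 q.1))) := by
    fun_prop
  refine Integrable.mono' (((integrable_const (1 : ℝ)).add (int4_prod hS)).const_mul
    (M * ‖u‖ * (‖p‖ * M * ‖l‖)))
    hm.aestronglyMeasurable (Eventually.of_forall fun q => ?_)
  obtain ⟨y, z⟩ := q
  have hM0 : 0 ≤ M := (abs_nonneg _).trans (hM y)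
  simp only [norm_mul]
  rw [norm_d1]
  have h1 := p.norm_coe_le_norm z
  have h2 := l.norm_coe_le_norm (z, y)
  have h3 := norm_V hM z
  have h3' := norm_V hM y
  have h5 := u.norm_coe_le_norm y
  have h4 := inv1_le (dist_nonneg (x := z) (y := y))
  calc ‖(V y : ℂ)‖ * ‖u y‖ * (‖p z‖ * ‖(V z : ℂ)‖ * (‖l (z, y)‖ * (dist z y)⁻¹))
      = ‖(V y : ℂ)‖ * ‖u y‖ * (‖p z‖ * ‖(V z : ℂ)‖ * ‖l (z, y)‖) * (dist z y)⁻¹ := by ring
    _ ≤ M * ‖u‖ * (‖p‖ * M * ‖l‖) * (1 + (dist z y ^ 4)⁻¹) := by gcongr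
    _ = M * ‖u‖ * (‖p‖ * M * ‖l‖) * (1 + (dist y z ^ 4)⁻¹) := by
        rw [dist_comm z y]

omit [CompactSpace K] [MeasurableSpace K] [BorelSpace K] in
lemma sq_mul_d3 (x y : K) : ((dist x y : ℝ) : ℂ) ^ 2 * d3 x y = d1 x y := by
  rcases eq_or_ne (dist x y) 0 with h | h
  · simp [d3, d1, h]
  · have : ((dist x y : ℝ) : ℂ) ≠ 0 := by exact_mod_cast h
    simp only [d3, d1, Complex.ofReal_inv, Complex.ofReal_pow]
    field_simp

omit [CompactSpace K] [MeasurableSpace K] [BorelSpace K] in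
lemma cube_mul_d3 {x y : K} (hxy : y ≠ x) : ((dist x y : ℝ) : ℂ) ^ 3 * d3 x y = 1 := by
  have h : dist x y ≠ 0 := dist_ne_zero.2 hxy.symm
  have : ((dist x y : ℝ) : ℂ) ≠ 0 := by exact_mod_cast h
  simp only [d3, Complex.ofReal_inv, Complex.ofReal_pow]
  field_simp

omit [CompactSpace K] [MeasurableSpace K] [BorelSpace K] in
lemma one_mul_d1 {x y : K} (hxy : y ≠ x) : ((dist x y : ℝ) : ℂ) * d1 x y = 1 := by
  have h : dist x y ≠ 0 := dist_ne_zero.2 hxy.symm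
  have : ((dist x y : ℝ) : ℂ) ≠ 0 := by exact_mod_cast h
  simp only [d1, Complex.ofReal_inv]
  field_simp

/-- (i): the difference of the two operators has finite rank. -/
lemma opDiff (hS : Sp μ C) (hV : Measurable V) (hM : ∀ x, |V x| ≤ M) (O : Ops μ V) {N : ℕ}
    {h h₁ : C(K × K, ℂ)} {φ ψ : Fin N → C(K, ℂ)} {c : Fin N → ℂ}
    (hh : ∀ x y, h (x, y) - h₁ (x, y) = ((dist x y : ℝ) : ℂ) ^ 3 * ∑ k, c k * φ k x * ψ k y)
    {Ψ : Fin N → (C(K, ℂ) →L[ℂ] ℂ)} (hΨ : ∀ k u, Ψ k u = ∫ y, ψ k y * (V y : ℂ) * u y ∂μ)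
    (u : C(K, ℂ)) : O.Op h u = O.Op h₁ u + ∑ k, (c k * Ψ k u) • φ k := by
  have := hS.fin
  have := hS.noat
  ext x
  simp only [ContinuousMap.add_apply, ContinuousMap.coe_sum, Finset.sum_apply,
    ContinuousMap.smul_apply, smul_eq_mul]
  rw [O.Op_apply, O.Op_apply]
  have e1 : ∀ᵐ y ∂μ, h (x, y) * d3 x y * (V y : ℂ) * u y =
      h₁ (x, y) * d3 x y * (V y : ℂ) * u y +
        ∑ k, (c k * φ k x) * (ψ k y * (V y : ℂ) * u y) := by
    have hx : {x}ᶜ ∈ ae μ := compl_mem_ae_iff.2 (measure_singleton x)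
    filter_upwards [hx] with y hy
    have hy' : y ≠ x := hy
    have h1 := hh x y
    rw [sub_eq_iff_eq_add] at h1
    rw [h1, add_mul, add_mul, add_mul, add_comm]
    congr 1
    calc ((dist x y : ℝ) : ℂ) ^ 3 * (∑ k, c k * φ k x * ψ k y) * d3 x y * (V y : ℂ) * u y
        = (((dist x y : ℝ) : ℂ) ^ 3 * d3 x y) * (∑ k, c k * φ k x * ψ k y) * (V y : ℂ) * u y := by
          ring
      _ = (∑ k, c k * φ k x * ψ k y) * (V y : ℂ) * u y := by rw [cube_mul_d3 hy', one_mul]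
      _ = _ := by
          rw [Finset.sum_mul, Finset.sum_mul]
          exact Finset.sum_congr rfl fun k _ => by ring
  rw [integral_congr_ae e1, integral_add (intA hS hV hM h₁ u x)
    (integrable_finsetSum _ fun k _ => (intP hS hV hM (ψ k) u).const_mul _),
    integral_finsetSum _ fun k _ => (intP hS hV hM (ψ k) u).const_mul _]
  congr 1
  refine Finset.sum_congr rfl fun k _ => ?_
  rw [integral_const_mul, hΨ]
  ring

/-- (iv): the difference of the two composed kernels. -/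
lemma cpDiff (hS : Sp μ C) (hV : Measurable V) (hM : ∀ x, |V x| ≤ M) (O : Ops μ V) {N : ℕ}
    {h l h₁ l₁ : C(K × K, ℂ)} {φ ψ : Fin N → C(K, ℂ)} {c c' : Fin N → ℂ}
    (hh : ∀ x y, h (x, y) - h₁ (x, y) = ((dist x y : ℝ) : ℂ) ^ 3 * ∑ k, c k * φ k x * ψ k y)
    (hl : ∀ x y, l (x, y) - l₁ (x, y) = ((dist x y : ℝ) : ℂ) * ∑ k, c' k * φ k x * ψ k y)
    (y : K) : slice (O.Cp h l) y = O.Op h (∑ k, (c' k * ψ k y) • φ k) + slice (O.Cp h₁ l₁) y +
      ∑ k, (c k * ∫ z, ψ k z * (V z : ℂ) * (l₁ (z, y) * d1 z y) ∂μ) • φ k := by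
  have := hS.fin
  have := hS.noat
  ext x
  simp only [ContinuousMap.add_apply, ContinuousMap.coe_sum, Finset.sum_apply,
    ContinuousMap.smul_apply, smul_eq_mul]
  rw [slice_apply, slice_apply, O.Op_apply, O.Cp_apply, O.Cp_apply]
  have e1 : ∀ᵐ z ∂μ, h (x, z) * d3 x z * (V z : ℂ) * (l (z, y) * d1 z y) =
      h (x, z) * d3 x z * (V z : ℂ) * (∑ k, (c' k * ψ k y) • φ k : C(K, ℂ)) z +
      (h₁ (x, z) * d3 x z * (V z : ℂ) * (l₁ (z, y) * d1 z y) +
        ∑ k, (c k * φ k x) * (ψ k z * (V z : ℂ) * (l₁ (z, y) * d1 z y))) := by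
    have hx : {x}ᶜ ∈ ae μ := compl_mem_ae_iff.2 (measure_singleton x)
    have hy : {y}ᶜ ∈ ae μ := compl_mem_ae_iff.2 (measure_singleton y)
    filter_upwards [hx, hy] with z hzx hzy
    have hzx' : z ≠ x := hzx
    have hzy' : y ≠ z := fun e => hzy e.symm
    have h1 := hh x z
    have h2 := hl z y
    rw [sub_eq_iff_eq_add] at h1 h2
    have h3 : h (x, z) * d3 x z = (∑ k, c k * φ k x * ψ k z) + h₁ (x, z) * d3 x z := by
      rw [h1, add_mul]
      congr 1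
      calc ((dist x z : ℝ) : ℂ) ^ 3 * (∑ k, c k * φ k x * ψ k z) * d3 x z
          = (((dist x z : ℝ) : ℂ) ^ 3 * d3 x z) * (∑ k, c k * φ k x * ψ k z) := by ring
        _ = _ := by rw [cube_mul_d3 hzx', one_mul]
    have h4 : l (z, y) * d1 z y = (∑ k, c' k * φ k z * ψ k y) + l₁ (z, y) * d1 z y := by
      rw [h2, add_mul]
      congr 1
      calc ((dist z y : ℝ) : ℂ) * (∑ k, c' k * φ k z * ψ k y) * d1 z y
          = (((dist z y : ℝ) : ℂ) * d1 z y) * (∑ k, c' k * φ k z * ψ k y) := by ring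
        _ = _ := by rw [one_mul_d1 hzy', one_mul]
    have h5 : (∑ k, (c' k * ψ k y) • φ k : C(K, ℂ)) z = ∑ k, c' k * φ k z * ψ k y := by
      simp only [ContinuousMap.coe_sum, Finset.sum_apply, ContinuousMap.smul_apply, smul_eq_mul]
      exact Finset.sum_congr rfl fun k _ => by ring
    rw [h5, h4, mul_add]
    congr 1
    rw [h3, add_mul, add_mul, add_comm]
    congr 1
    rw [Finset.sum_mul, Finset.sum_mul]
    exact Finset.sum_congr rfl fun k _ => by ring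
  have i2 : Integrable (fun z => ∑ k, (c k * φ k x) *
      (ψ k z * (V z : ℂ) * (l₁ (z, y) * d1 z y))) μ :=
    integrable_finsetSum _ fun k _ => (intB hS hV hM l₁ (ψ k) y).const_mul _
  have i3 : Integrable (fun z => h₁ (x, z) * d3 x z * (V z : ℂ) * (l₁ (z, y) * d1 z y) +
      ∑ k, (c k * φ k x) * (ψ k z * (V z : ℂ) * (l₁ (z, y) * d1 z y))) μ :=
    (intC hS hV hM h₁ l₁ x y).add i2
  rw [integral_congr_ae e1, integral_add (intA hS hV hM h _ x) i3,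
    integral_add (intC hS hV hM h₁ l₁ x y) i2,
    integral_finsetSum _ fun k _ => (intB hS hV hM l₁ (ψ k) y).const_mul _, ← add_assoc]
  congr 1
  refine Finset.sum_congr rfl fun k _ => ?_
  rw [integral_const_mul]
  ring

/-- (ii): the operator with kernel `l₁ |x-y|⁻¹`. -/
lemma opB (O : Ops μ V) {l₁ l₂ : C(K × K, ℂ)}
    (hl₂ : ∀ x y, l₂ (x, y) = ((dist x y : ℝ) : ℂ) ^ 2 * l₁ (x, y)) (u : C(K, ℂ)) (x : K) :
    O.Op l₂ u x = ∫ y, (l₁ (x, y) * d1 x y) * ((V y : ℂ) * u y) ∂μ := by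
  rw [O.Op_apply]
  congr 1
  ext y
  rw [hl₂, ← sq_mul_d3 x y]
  ring

/-- First use of Fubini. -/
lemma fub1 (hS : Sp μ C) (hV : Measurable V) (hM : ∀ x, |V x| ≤ M) (O : Ops μ V)
    {l₁ l₂ : C(K × K, ℂ)} (hl₂ : ∀ x y, l₂ (x, y) = ((dist x y : ℝ) : ℂ) ^ 2 * l₁ (x, y))
    (p u : C(K, ℂ)) :
    ∫ y, (V y : ℂ) * u y * ∫ z, p z * (V z : ℂ) * (l₁ (z, y) * d1 z y) ∂μ ∂μ =
      ∫ z, p z * (V z : ℂ) * (O.Op l₂ u) z ∂μ := by
  have := hS.fin
  have h1 := integral_integral_swap (μ := μ) (ν := μ)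
    (f := fun y z => (V y : ℂ) * u y * (p z * (V z : ℂ) * (l₁ (z, y) * d1 z y)))
    (intB_prod hS hV hM l₁ p u)
  simp only [integral_const_mul] at h1
  rw [h1]
  congr 1
  ext z
  rw [opB O hl₂, ← integral_const_mul]
  congr 1
  ext y
  ring

/-- Second use of Fubini. -/
lemma fub2 (hS : Sp μ C) (hV : Measurable V) (hM : ∀ x, |V x| ≤ M) (O : Ops μ V)
    {h₁ l₁ l₂ : C(K × K, ℂ)} (hl₂ : ∀ x y, l₂ (x, y) = ((dist x y : ℝ) : ℂ) ^ 2 * l₁ (x, y))
    (u : C(K, ℂ)) (x : K) :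
    ∫ y, (V y : ℂ) * u y * (slice (O.Cp h₁ l₁) y) x ∂μ = O.Op h₁ (O.Op l₂ u) x := by
  have := hS.fin
  have h1 := integral_integral_swap (μ := μ) (ν := μ)
    (f := fun y z => (V y : ℂ) * u y *
      (h₁ (x, z) * d3 x z * (V z : ℂ) * (l₁ (z, y) * d1 z y)))
    (intC_prod hS hV hM h₁ l₁ u x)
  simp only [integral_const_mul] at h1
  simp only [slice_apply, O.Cp_apply]
  rw [h1, O.Op_apply]
  congr 1
  ext z
  rw [opB O hl₂, ← integral_const_mul]
  congr 1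
  ext y
  ring

/-- The Bochner integral of the composed kernel. -/
lemma bochner (hS : Sp μ C) (hV : Measurable V) (hM : ∀ x, |V x| ≤ M) (O : Ops μ V)
    {h₁ l₁ l₂ : C(K × K, ℂ)} (hl₂ : ∀ x y, l₂ (x, y) = ((dist x y : ℝ) : ℂ) ^ 2 * l₁ (x, y))
    (u : C(K, ℂ)) (L : C(K, ℂ) →L[ℂ] ℂ) :
    ∫ y, (V y : ℂ) * u y * L (slice (O.Cp h₁ l₁) y) ∂μ = L (O.Op h₁ (O.Op l₂ u)) := by
  have := hS.fin
  have hi : Integrable (fun y => ((V y : ℂ) * u y) • (slice (O.Cp h₁ l₁) y)) μ := by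
    have hm : Measurable (fun y => (V y : ℂ) * u y) := by fun_prop
    refine Integrable.mono' (integrable_const (M * ‖u‖ * ‖O.Cp h₁ l₁‖))
      (hm.aestronglyMeasurable.smul (continuous_slice (O.Cp h₁ l₁)).aestronglyMeasurable)
      (Eventually.of_forall fun y => ?_)
    rw [norm_smul, norm_mul]
    have hM0 : 0 ≤ M := (abs_nonneg _).trans (hM y)
    have h1 := norm_V hM y
    have h2 := u.norm_coe_le_norm y
    have h3 := norm_slice_le (O.Cp h₁ l₁) y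
    gcongr
  have h1 : ∫ y, ((V y : ℂ) * u y) • (slice (O.Cp h₁ l₁) y) ∂μ = O.Op h₁ (O.Op l₂ u) := by
    ext x
    have h2 := (ContinuousMap.evalCLM ℂ (M := ℂ) x).integral_comp_comm hi
    simp only [ContinuousMap.evalCLM_apply] at h2
    rw [← h2, ← fub2 hS hV hM O hl₂ u x]
    rfl
  have h2 := L.integral_comp_comm hi
  rw [h1] at h2
  rw [← h2]
  congr 1
  ext y
  rw [map_smul, smul_eq_mul]

end

end TI

open TI in
/-- **Item 5**: the trace identity. -/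
theorem traceIdentity : TraceIdentity := by
  intro K _ _ _ _ μ C hS V hV M hM O N h l h₁ l₁ l₂ φ ψ c c' hh hl hd hl₂ T T₁ hT hT' hT₁ hT₁'
    Ψ hΨ
  have := hS.fin
  have hA := opDiff hS hV hM O hh hΨ
  have hC := cpDiff hS hV hM O hh hl
  -- `(1 + A₁) T₁ = 1` etc. on vectors
  have hT₁v : ∀ u, T₁ u + O.Op h₁ (T₁ u) = u := fun u => by
    have h2 : T₁ u + O.Op h₁ (T₁ u) = u := congrArg (fun F => F u) hT₁'
    exact h2
  have hT₁v' : ∀ u, T₁ (O.Op h₁ u) = u - T₁ u := fun u => by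
    have h2 : T₁ (u + O.Op h₁ u) = u := congrArg (fun F => F u) hT₁
    rw [map_add] at h2
    rw [eq_sub_iff_add_eq, add_comm]
    exact h2
  have hTv' : ∀ u, T (O.Op h u) = u - T u := fun u => by
    have h2 : T (u + O.Op h u) = u := congrArg (fun F => F u) hT
    rw [map_add] at h2
    rw [eq_sub_iff_add_eq, add_comm]
    exact h2
  -- `T v - T₁ v`
  have hTT : ∀ v, T v = T₁ v - ∑ k, (c k * Ψ k (T₁ v)) • T (φ k) := fun v => by
    have h1 := hTv' (T₁ v)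
    rw [hA (T₁ v), map_add, map_sum] at h1
    simp only [map_smul] at h1
    have h2 := congrArg T (hT₁v v)
    rw [map_add] at h2
    rw [← h2]
    have h3 : T (O.Op h₁ (T₁ v)) = T₁ v - T (T₁ v) - ∑ k, (c k * Ψ k (T₁ v)) • T (φ k) := by
      rw [← h1]; abel
    rw [h3]; abel
  set e : Fin N → K → ℂ := fun k y => ∫ z, ψ k z * (V z : ℂ) * (l₁ (z, y) * d1 z y) ∂μ with he
  -- (v)
  have hv : ∀ y, T (slice (O.Cp h l) y) - T₁ (slice (O.Cp h₁ l₁) y) =
      ∑ k, (c' k * ψ k y) • T (O.Op h (φ k)) +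
        ∑ k, (c k * (e k y - Ψ k (T₁ (slice (O.Cp h₁ l₁) y)))) • T (φ k) := fun y => by
    rw [hC y, map_add, map_add, map_sum, map_sum, map_sum, hTT (slice (O.Cp h₁ l₁) y)]
    simp only [map_smul]
    have : ∑ k, (c k * (e k y - Ψ k (T₁ (slice (O.Cp h₁ l₁) y)))) • T (φ k) =
        ∑ k, (c k * e k y) • T (φ k) - ∑ k, (c k * Ψ k (T₁ (slice (O.Cp h₁ l₁) y))) • T (φ k) := by
      rw [← Finset.sum_sub_distrib]
      exact Finset.sum_congr rfl fun k _ => by rw [← sub_smul]; congr 1; ring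
    rw [this]
    abel
  -- integrability
  have hcont : ∀ (S : C(K, ℂ) →L[ℂ] C(K, ℂ)) (k : C(K × K, ℂ)),
      Integrable (fun y => (V y : ℂ) * (S (slice k y)) y) μ := fun S k => by
    have hc : Continuous (fun y => (S (slice k y)) y) :=
      (S.continuous.comp (continuous_slice k)).eval continuous_id
    have := intP hS hV hM (1 : C(K, ℂ)) ⟨_, hc⟩
    simpa using this
  have hie : ∀ (k : Fin N) (u : C(K, ℂ)), Integrable (fun y => (V y : ℂ) * u y * e k y) μ :=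
    fun k u => by
      have h1 := (intB_prod hS hV hM l₁ (ψ k) u).integral_prod_left
      simpa only [integral_const_mul] using h1
  have hiL : ∀ (k : Fin N) (u : C(K, ℂ)),
      Integrable (fun y => (V y : ℂ) * u y * Ψ k (T₁ (slice (O.Cp h₁ l₁) y))) μ := fun k u => by
    have hc : Continuous (fun y => Ψ k (T₁ (slice (O.Cp h₁ l₁) y))) :=
      (Ψ k).continuous.comp (T₁.continuous.comp (continuous_slice (O.Cp h₁ l₁)))
    have := intP hS hV hM u ⟨_, hc⟩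
    refine this.congr (Eventually.of_forall fun y => ?_)
    simp only [ContinuousMap.coe_mk]
    ring
  -- the traces
  have htr : O.tr T (O.Cp h l) - O.tr T₁ (O.Cp h₁ l₁) =
      ∑ k, c' k * Ψ k (T (O.Op h (φ k))) +
        ∑ k, c k * (Ψ k (O.Op l₂ (T (φ k))) - Ψ k (T₁ (O.Op h₁ (O.Op l₂ (T (φ k)))))) := by
    rw [O.tr_apply, O.tr_apply, ← integral_sub (hcont _ _) (hcont _ _)]
    have e1 : ∀ y, (V y : ℂ) * (T (slice (O.Cp h l) y)) y - (V y : ℂ) * (T₁ (slice (O.Cp h₁ l₁) y)) y =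
        ∑ k, c' k * (ψ k y * (V y : ℂ) * (T (O.Op h (φ k))) y) +
        ∑ k, c k * ((V y : ℂ) * (T (φ k)) y * e k y -
          (V y : ℂ) * (T (φ k)) y * Ψ k (T₁ (slice (O.Cp h₁ l₁) y))) := fun y => by
      have h1 := congrArg (fun F : C(K, ℂ) => F y) (hv y)
      simp only [ContinuousMap.add_apply, ContinuousMap.sub_apply, ContinuousMap.coe_sum,
        Finset.sum_apply, ContinuousMap.smul_apply, smul_eq_mul] at h1
      rw [← mul_sub, h1, mul_add, Finset.mul_sum, Finset.mul_sum]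
      congr 1
      · exact Finset.sum_congr rfl fun k _ => by ring
      · exact Finset.sum_congr rfl fun k _ => by ring
    simp only [e1]
    have i1 : ∀ k, Integrable (fun y => c' k * (ψ k y * (V y : ℂ) * (T (O.Op h (φ k))) y)) μ :=
      fun k => (intP hS hV hM (ψ k) _).const_mul _
    have i2 : ∀ k, Integrable (fun y => c k * ((V y : ℂ) * (T (φ k)) y * e k y -
        (V y : ℂ) * (T (φ k)) y * Ψ k (T₁ (slice (O.Cp h₁ l₁) y)))) μ :=
      fun k => ((hie k _).sub (hiL k _)).const_mul _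
    rw [integral_add (integrable_finsetSum _ fun k _ => i1 k)
      (integrable_finsetSum _ fun k _ => i2 k),
      integral_finsetSum _ fun k _ => i1 k, integral_finsetSum _ fun k _ => i2 k]
    congr 1
    · refine Finset.sum_congr rfl fun k _ => ?_
      rw [integral_const_mul, hΨ]
    · refine Finset.sum_congr rfl fun k _ => ?_
      rw [integral_const_mul, integral_sub (hie k _) (hiL k _)]
      congr 2
      · rw [hΨ, ← fub1 hS hV hM O hl₂ (ψ k) (T (φ k))]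
      · exact bochner hS hV hM O hl₂ (T (φ k)) ((Ψ k).comp T₁)
  -- simplify
  have hdiag : ∑ k, c' k * Ψ k (φ k) = 0 := by
    have h1 : ∑ k, c' k * Ψ k (φ k) = ∫ y, ∑ k, c' k * (ψ k y * (V y : ℂ) * φ k y) ∂μ := by
      rw [integral_finsetSum _ fun k _ => (intP hS hV hM (ψ k) _).const_mul _]
      refine Finset.sum_congr rfl fun k _ => ?_
      rw [integral_const_mul, hΨ]
    rw [h1]
    have h2 : ∀ y, ∑ k, c' k * (ψ k y * (V y : ℂ) * φ k y) = 0 := fun y => by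
      calc ∑ k, c' k * (ψ k y * (V y : ℂ) * φ k y)
          = (V y : ℂ) * ∑ k, c' k * φ k y * ψ k y := by
            rw [Finset.mul_sum]
            exact Finset.sum_congr rfl fun k _ => by ring
        _ = 0 := by rw [hd y, mul_zero]
    simp only [h2, integral_zero]
  have e2 : ∑ k, c' k * Ψ k (T (O.Op h (φ k))) = - ∑ k, c' k * Ψ k (T (φ k)) := by
    have : ∑ k, c' k * Ψ k (T (O.Op h (φ k))) =
        ∑ k, c' k * Ψ k (φ k) - ∑ k, c' k * Ψ k (T (φ k)) := by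
      rw [← Finset.sum_sub_distrib]
      refine Finset.sum_congr rfl fun k _ => ?_
      rw [hTv', map_sub, mul_sub]
    rw [this, hdiag, zero_sub]
  have e3 : ∑ k, c k * (Ψ k (O.Op l₂ (T (φ k))) - Ψ k (T₁ (O.Op h₁ (O.Op l₂ (T (φ k)))))) =
      ∑ k, c k * Ψ k (T₁ (O.Op l₂ (T (φ k)))) := by
    refine Finset.sum_congr rfl fun k _ => ?_
    rw [hT₁v', map_sub]
    ring
  rw [e2, e3] at htr
  linear_combination htr

end Pool.Agent.Work.MP_f2af60_mp
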