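import Pool.Agent.Work.MP_f2af60_mp.Stmts

/-!
# MP_f2af60_mp, item 19: asymptotics of the logarithmic derivative on the imaginary axis
-/

namespace Pool.Agent.Work.MP_f2af60_mp

open MeasureTheory Metric Filter Topology

namespace WA

/-- `gh` at a point of the imaginary axis. -/
lemma gh_imag (s r : ℝ) : gh (Complex.I * (s : ℂ)) r =
    ((Real.exp (-(s * r)) * (1 + s * r) / (8 * Real.pi ^ 2) : ℝ) : ℂ) := by
  unfold gh
  have h1 : Complex.I * (Complex.I * (s : ℂ)) * (r : ℂ) = ((-(s * r) : ℝ) : ℂ) := by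
    rw [← mul_assoc Complex.I Complex.I, Complex.I_mul_I]
    push_cast
    ring
  rw [h1]
  push_cast
  ring

/-- `gl` at a point of the imaginary axis. -/
lemma gl_imag (s r : ℝ) : gl (Complex.I * (s : ℂ)) r =
    Complex.I * ((s * Real.exp (-(s * r)) / (8 * Real.pi ^ 2) : ℝ) : ℂ) := by
  unfold gl
  have h1 : Complex.I * (Complex.I * (s : ℂ)) * (r : ℂ) = ((-(s * r) : ℝ) : ℂ) := by
    rw [← mul_assoc Complex.I Complex.I, Complex.I_mul_I]
    push_cast
    ring
  rw [h1]
  push_cast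
  ring

/-- The kernel `G` in terms of `gh`. -/
lemma G_eq (z : ℂ) (x y : E5) :
    G z (x - y) = gh z (dist x y) * ((((dist x y) ^ 3)⁻¹ : ℝ) : ℂ) := by
  unfold G gh
  rw [dist_eq_norm]
  by_cases h : ‖x - y‖ = 0
  · rw [h]
    simp
  · have h3 : ((‖x - y‖ : ℝ) : ℂ) ≠ 0 := by exact_mod_cast h
    have hpi : (Real.pi : ℂ) ≠ 0 := by exact_mod_cast Real.pi_ne_zero
    push_cast
    field_simp

/-- The integrand of the second order term. -/
lemma kk_eq (s : ℝ) (y z : E5) :
    Complex.I * -(gh (Complex.I * (s : ℂ)) (dist y z) * ((((dist y z) ^ 3)⁻¹ : ℝ) : ℂ) *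
      (gl (Complex.I * (s : ℂ)) (dist z y) * (((dist z y)⁻¹ : ℝ) : ℂ))) =
      ((kk s (y - z) : ℝ) : ℂ) := by
  rw [gh_imag, gl_imag, dist_comm z y, dist_eq_norm]
  have key : ∀ a b c d : ℝ, Complex.I * -((a : ℂ) * (b : ℂ) * (Complex.I * (c : ℂ) * (d : ℂ))) =
      ((a * b * c * d : ℝ) : ℂ) := by
    intro a b c d
    have : Complex.I * -((a : ℂ) * (b : ℂ) * (Complex.I * (c : ℂ) * (d : ℂ))) =
        -(Complex.I * Complex.I) * ((a : ℂ) * b * c * d) := by ring
    rw [this, Complex.I_mul_I]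
    push_cast
    ring
  rw [key]
  congr 1
  unfold kk
  set r := ‖y - z‖ with hr
  have he : Real.exp (-(2 * s * r)) = Real.exp (-(s * r)) * Real.exp (-(s * r)) := by
    rw [← Real.exp_add]
    congr 1
    ring
  rw [he]
  by_cases h : r = 0
  · rw [h]
    simp
  · have hpi := Real.pi_ne_zero
    field_simp
    ring

/-- Integrals over the ball of a nonnegative function are at most the integral over the space. -/
lemma norm_int_le (R : ℝ) (F : E5 → ℝ) (hF : Integrable F) (h0 : ∀ y, 0 ≤ F y)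
    (f : closedBall (0 : E5) R → ℂ) (hf : ∀ y : closedBall (0 : E5) R, ‖f y‖ ≤ F y) :
    ‖∫ y, f y ∂(muB R)‖ ≤ ∫ y, F y := by
  have hm : MeasurableSet (closedBall (0 : E5) R) := isClosed_closedBall.measurableSet
  have h1 : Integrable (fun y : closedBall (0 : E5) R => F y) (muB R) :=
    (integrableOn_iff_comap_subtypeVal hm).1 hF.integrableOn
  calc ‖∫ y, f y ∂(muB R)‖ ≤ ∫ y : closedBall (0 : E5) R, F y ∂(muB R) :=
        norm_integral_le_of_norm_le h1 (Eventually.of_forall hf)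
    _ = ∫ y in closedBall (0 : E5) R, F y := integral_subtype_comap hm F
    _ ≤ ∫ y, F y := setIntegral_le_integral hF (Eventually.of_forall h0)

/-- Integrals over the ball of a function vanishing outside of the ball. -/
lemma int_eq (R : ℝ) (F : E5 → ℂ) (h0 : ∀ y, R < ‖y‖ → F y = 0) :
    ∫ y : closedBall (0 : E5) R, F y ∂(muB R) = ∫ y, F y := by
  have hm : MeasurableSet (closedBall (0 : E5) R) := isClosed_closedBall.measurableSet
  have h1 : ∫ y : closedBall (0 : E5) R, F y ∂(muB R) = ∫ y in closedBall (0 : E5) R, F y :=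
    integral_subtype_comap hm F
  rw [h1]
  apply setIntegral_eq_integral_of_forall_compl_eq_zero
  intro y hy
  apply h0
  rw [mem_closedBall_zero_iff, not_le] at hy
  exact hy

/-- The part of the argument in an abstract compact space. -/
lemma abstract_part {K : Type} [MetricSpace K] [CompactSpace K] [MeasurableSpace K] [BorelSpace K]
    {μ : Measure K} {V : K → ℝ} (O : Ops μ V) : ∃ c : ℝ, 0 ≤ c ∧
    ∀ (h l : C(K × K, ℂ)) (a b : ℝ) (S : ℂ), ‖O.Op h‖ ≤ a → a ≤ 1 / 2 → ‖O.Cp h l‖ ≤ b →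
      Complex.I * (-O.tr 1 (O.Cp h l)) = S → ∀ T : C(K, ℂ) →L[ℂ] C(K, ℂ),
      T * (1 + O.Op h) = 1 → ‖Complex.I * (-O.tr T (O.Cp h l)) - S‖ ≤ c * (2 * a) * b := by
  refine ⟨‖O.tr‖, ContinuousLinearMap.opNorm_nonneg _, ?_⟩
  intro h l a b S hA ha hB hS T hT
  set A := O.Op h with hAdef
  set n := O.Cp h l with hndef
  have hTA : T = 1 - T * A := by
    have : T * (1 + A) = T + T * A := by rw [mul_add, mul_one]
    rw [this] at hT
    rw [← hT]
    abel
  have hTn : ‖T‖ ≤ 2 := by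
    have h1 : ‖T‖ ≤ 1 + ‖T‖ * (1 / 2) := by
      calc ‖T‖ = ‖1 - T * A‖ := by rw [← hTA]
        _ ≤ ‖(1 : C(K, ℂ) →L[ℂ] C(K, ℂ))‖ + ‖T * A‖ := norm_sub_le _ _
        _ ≤ 1 + ‖T‖ * ‖A‖ := by
            gcongr
            · exact ContinuousLinearMap.norm_id_le
            · exact norm_mul_le _ _
        _ ≤ 1 + ‖T‖ * (1 / 2) := by
            gcongr
            exact hA.trans ha
    linarith
  have hsplit : Complex.I * (-O.tr T n) - S = Complex.I * O.tr (T * A) n := by
    rw [← hS]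
    have : O.tr T n = O.tr 1 n - O.tr (T * A) n := by
      conv_lhs => rw [hTA]
      rw [map_sub]
      rfl
    rw [this]
    ring
  rw [hsplit, norm_mul, Complex.norm_I, one_mul]
  have hTA2 : ‖T * A‖ ≤ 2 * a :=
    (norm_mul_le _ _).trans (mul_le_mul hTn hA (norm_nonneg _) (by norm_num))
  calc ‖O.tr (T * A) n‖ ≤ ‖O.tr‖ * ‖T * A‖ * ‖n‖ := O.tr.le_opNorm₂ _ _
    _ ≤ ‖O.tr‖ * (2 * a) * b := by
        have h0 : 0 ≤ 2 * a := (norm_nonneg _).trans hTA2
        gcongr

end WA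

open WA in
/-- Item 19. -/
theorem wAsymp (h17 : ImagBounds) : WAsymp := by
  intro R hR V hVm M hM hV0 O h l hh hl
  obtain ⟨C₀, hC₀⟩ := h17
  have hM0 : 0 ≤ M := (abs_nonneg _).trans (hM 0)
  set C₁ : ℝ := |C₀| with hC₁
  have hC₁0 : 0 ≤ C₁ := abs_nonneg _
  -- bound for the operator
  have hA : ∀ s : ℝ, 0 < s → ‖O.Op (h (Complex.I * (s : ℂ)))‖ ≤ M * C₁ / s ^ 2 := by
    intro s hs
    obtain ⟨⟨hG1, hG2⟩, -⟩ := hC₀ s hs
    refine ContinuousLinearMap.opNorm_le_bound _ (by positivity) (fun f => ?_)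
    refine (ContinuousMap.norm_le _ (by positivity)).2 (fun x => ?_)
    rw [O.Op_apply]
    have hi : Integrable (fun y : E5 => ‖G (Complex.I * (s : ℂ)) ((x : E5) - y)‖ * (M * ‖f‖)) :=
      ((hG1.comp_sub_left (x : E5)).norm).mul_const _
    refine (norm_int_le R _ hi (fun y => by positivity) _ (fun y => ?_)).trans ?_
    · rw [hh]
      have e1 : gh (Complex.I * (s : ℂ)) (dist x y) * ((((dist x y) ^ 3)⁻¹ : ℝ) : ℂ) =
          G (Complex.I * (s : ℂ)) ((x : E5) - y) := (G_eq _ _ _).symm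
      rw [e1, norm_mul, norm_mul, mul_assoc]
      gcongr
      · rw [Complex.norm_real]
        exact hM _
      · exact f.norm_coe_le_norm y
    · rw [integral_mul_const, integral_sub_left_eq_self (fun y : E5 => ‖G (Complex.I * (s : ℂ)) y‖)]
      have h2 : C₀ / s ^ 2 ≤ C₁ / s ^ 2 := by
        gcongr
        exact le_abs_self _
      calc (∫ y : E5, ‖G (Complex.I * (s : ℂ)) y‖) * (M * ‖f‖) ≤ (C₁ / s ^ 2) * (M * ‖f‖) := by
            gcongr
            exact hG2.trans h2
        _ = M * C₁ / s ^ 2 * ‖f‖ := by ring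
  -- bound for the composed kernel
  have hB : ∀ s : ℝ, 0 < s →
      ‖O.Cp (h (Complex.I * (s : ℂ))) (l (Complex.I * (s : ℂ)))‖ ≤ M * C₁ := by
    intro s hs
    obtain ⟨-, hG⟩ := hC₀ s hs
    refine (ContinuousMap.norm_le _ (by positivity)).2 ?_
    rintro ⟨x, y⟩
    rw [O.Cp_apply]
    obtain ⟨hG1, hG2⟩ := hG (x : E5) (y : E5)
    refine (norm_int_le R _ (hG1.mul_const M) (fun z => by positivity) _ (fun z => ?_)).trans ?_
    · rw [hh, hl]
      have e1 : gh (Complex.I * (s : ℂ)) (dist x z) * ((((dist x z) ^ 3)⁻¹ : ℝ) : ℂ) =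
          G (Complex.I * (s : ℂ)) ((x : E5) - z) := (G_eq _ _ _).symm
      have e2 : dist z y = ‖(z : E5) - y‖ := by
        rw [Subtype.dist_eq, dist_eq_norm]
      rw [e1, norm_mul, norm_mul, norm_mul, e2, Complex.norm_real (‖(z : E5) - y‖⁻¹), norm_inv,
        norm_norm]
      have e3 : ‖((V z : ℝ) : ℂ)‖ ≤ M := by
        rw [Complex.norm_real]
        exact hM _
      calc ‖G (Complex.I * (s : ℂ)) ((x : E5) - z)‖ * ‖((V z : ℝ) : ℂ)‖ *
            (‖gl (Complex.I * (s : ℂ)) ‖(z : E5) - y‖‖ * ‖(z : E5) - y‖⁻¹)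
          ≤ ‖G (Complex.I * (s : ℂ)) ((x : E5) - z)‖ * M *
            (‖gl (Complex.I * (s : ℂ)) ‖(z : E5) - y‖‖ * ‖(z : E5) - y‖⁻¹) := by gcongr
        _ = _ := by ring
    · rw [integral_mul_const, mul_comm]
      gcongr
      exact hG2.trans (le_abs_self _)
  -- the main term
  have hmain : ∀ s : ℝ, 0 < s →
      Complex.I * (-O.tr 1 (O.Cp (h (Complex.I * (s : ℂ))) (l (Complex.I * (s : ℂ))))) =
        (SS V s : ℂ) := by
    intro s hs
    rw [O.tr_apply]
    have e0 : ∀ y : closedBall (0 : E5) R, (V y : ℂ) *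
        ((1 : C(closedBall (0 : E5) R, ℂ) →L[ℂ] C(closedBall (0 : E5) R, ℂ))
          (slice (O.Cp (h (Complex.I * (s : ℂ))) (l (Complex.I * (s : ℂ)))) y)) y =
        (fun y : E5 => (V y : ℂ) * ∫ z : E5, gh (Complex.I * (s : ℂ)) (dist y z) *
          ((((dist y z) ^ 3)⁻¹ : ℝ) : ℂ) * (V z : ℂ) *
          (gl (Complex.I * (s : ℂ)) (dist z y) * (((dist z y)⁻¹ : ℝ) : ℂ))) y := by
      intro y
      rw [one_apply_eq_self, slice_apply, O.Cp_apply]
      simp only []
      congr 1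
      rw [← int_eq R (fun z : E5 => gh (Complex.I * (s : ℂ)) (dist (y : E5) z) *
          ((((dist (y : E5) z) ^ 3)⁻¹ : ℝ) : ℂ) * (V z : ℂ) *
          (gl (Complex.I * (s : ℂ)) (dist z (y : E5)) * (((dist z (y : E5))⁻¹ : ℝ) : ℂ)))]
      · refine integral_congr_ae (Eventually.of_forall fun z => ?_)
        simp only [hh, hl, Subtype.dist_eq]
      · intro z hz
        rw [hV0 z hz]
        simp
    rw [integral_congr_ae (Eventually.of_forall e0), int_eq R (fun y : E5 => (V y : ℂ) *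
        ∫ z : E5, gh (Complex.I * (s : ℂ)) (dist y z) *
          ((((dist y z) ^ 3)⁻¹ : ℝ) : ℂ) * (V z : ℂ) *
          (gl (Complex.I * (s : ℂ)) (dist z y) * (((dist z y)⁻¹ : ℝ) : ℂ)))]
    · rw [← integral_neg, ← integral_const_mul]
      have eS : (SS V s : ℂ) = ∫ x : E5, ∫ y : E5, ((V x * V y * kk s (x - y) : ℝ) : ℂ) := by
        unfold SS
        rw [← integral_complex_ofReal]
        refine integral_congr_ae (Eventually.of_forall fun y => ?_)
        exact integral_complex_ofReal.symm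
      rw [eS]
      refine integral_congr_ae (Eventually.of_forall fun y => ?_)
      simp only []
      rw [← integral_const_mul, ← integral_neg, ← integral_const_mul]
      refine integral_congr_ae (Eventually.of_forall fun z => ?_)
      simp only []
      have := kk_eq s y z
      push_cast at this ⊢
      rw [← this]
      ring
    · intro y hy
      rw [hV0 y hy]
      simp
  obtain ⟨c, hc0, hc⟩ := abstract_part O
  refine ⟨c * (2 * (M * C₁)) * (M * C₁), 1 + 2 * (M * C₁), by positivity, ?_⟩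
  intro s hs
  have hs0 : 0 < s := by
    have : (0 : ℝ) ≤ M * C₁ := by positivity
    linarith
  have hs1 : 1 ≤ s := by
    have : (0 : ℝ) ≤ M * C₁ := by positivity
    linarith
  have hhalf : M * C₁ / s ^ 2 ≤ 1 / 2 := by
    rw [div_le_iff₀ (by positivity)]
    have : (0 : ℝ) ≤ M * C₁ := by positivity
    nlinarith
  refine ⟨(hA s hs0).trans hhalf, ?_⟩
  intro T hT1 _
  refine (hc _ _ _ _ _ (hA s hs0) hhalf (hB s hs0) (hmain s hs0) T hT1).trans (le_of_eq ?_)
  ring

end Pool.Agent.Work.MP_f2af60_mp
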