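import Pool.Agent.Work.MP_f2af60_mp.Main
import Pool.Agent.Work.MP_f2af60_mp.SpBall
import Pool.Agent.Work.MP_f2af60_mp.ExistsOp
import Pool.Agent.Work.MP_f2af60_mp.ExistsCp
import Pool.Agent.Work.MP_f2af60_mp.Bd.B01
import Pool.Agent.Work.MP_f2af60_mp.TraceId
import Pool.Agent.Work.MP_f2af60_mp.Sep
import Pool.Agent.Work.MP_f2af60_mp.Decomp
import Pool.Agent.Work.MP_f2af60_mp.FinalComplex
import Pool.Agent.Work.MP_f2af60_mp.Second
import Pool.Agent.Work.MP_f2af60_mp.ImagB
import Pool.Agent.Work.MP_f2af60_mp.Families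
import Pool.Agent.Work.MP_f2af60_mp.WAsymp
import Pool.Agent.Work.MP_f2af60_mp.KerRes

/-!
# MP_f2af60_mp: infinitely many resonances in dimension five
-/

namespace Pool.Agent.Work.MP_f2af60_mp

open MeasureTheory Metric Filter Topology

/-- Bounded measurable potentials supported in a ball. -/
theorem infinite_five (V : E5 → ℝ) (hV : Measurable V) (M R : ℝ) (hM : ∀ x, |V x| ≤ M)
    (hsupp : ∀ x, R < ‖x‖ → V x = 0) (hne : ¬ V =ᵐ[volume] 0) :
    {l : ℂ | IsResonance V l}.Infinite :=
  main_infinite spBall existsOp existsCp existsTr traceIdentity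
    (glue frKer frUnit frInv frDeriv frBound)
    (decomposition hats polyApprox sep) (finalComplex polyExp) kkIntegral ssLe ssTendsto families
    (wAsymp imagBounds) kerResonance V hV M R hM hsupp hne

/-- Resonances only depend on the potential up to almost everywhere equality. -/
theorem isResonance_congr (V W : E5 → ℝ) (h : V =ᵐ[volume] W) (l : ℂ) (hW : IsResonance W l) :
    IsResonance V l := by
  obtain ⟨u, hu, hu0, hux⟩ := hW
  refine ⟨u, hu, hu0, fun x => ?_⟩
  rw [hux x]
  congr 1
  refine integral_congr_ae ?_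
  filter_upwards [h] with y hy
  rw [hy]

/-- A bounded measurable representative supported in a ball. -/
theorem exists_representative (V : E5 → ℝ) (hV : MemLp V ⊤ volume) (R : ℝ)
    (hsupp : ∀ᵐ x, R < ‖x‖ → V x = 0) :
    ∃ (W : E5 → ℝ) (M : ℝ), Measurable W ∧ (∀ x, |W x| ≤ M) ∧ (∀ x, R < ‖x‖ → W x = 0) ∧
      V =ᵐ[volume] W := by
  obtain ⟨hm, hb⟩ := hV
  set M : ℝ := (eLpNormEssSup V volume).toReal with hM
  have hb' : eLpNormEssSup V volume < ⊤ := by
    simpa [eLpNorm_exponent_top] using hb
  have hbd : ∀ᵐ x, |V x| ≤ M := by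
    filter_upwards [ae_le_eLpNormEssSup (f := V) (μ := volume)] with x hx
    have h1 : (‖V x‖ₑ).toReal ≤ M := ENNReal.toReal_mono hb'.ne hx
    simpa using h1
  set W0 := hm.mk V with hW0
  have hW0m : Measurable W0 := hm.stronglyMeasurable_mk.measurable
  have hae : V =ᵐ[volume] W0 := hm.ae_eq_mk
  have hM0 : 0 ≤ M := ENNReal.toReal_nonneg
  refine ⟨fun x => if ‖x‖ ≤ R then max (-M) (min M (W0 x)) else 0, M, ?_, ?_, ?_, ?_⟩
  · refine Measurable.ite (measurableSet_le measurable_norm measurable_const) ?_ measurable_const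
    exact measurable_const.max (measurable_const.min hW0m)
  · intro x
    by_cases h : ‖x‖ ≤ R
    · simp only [h, if_true]
      rw [abs_le]
      exact ⟨le_max_left _ _, max_le (by linarith) (min_le_left _ _)⟩
    · simp only [h, if_false, abs_zero]
      exact hM0
  · intro x hx
    simp [not_le.2 hx]
  · filter_upwards [hae, hbd, hsupp] with x h1 h2 h3
    by_cases h : ‖x‖ ≤ R
    · simp only [h, if_true]
      rw [← h1]
      rw [abs_le] at h2
      rw [min_eq_right h2.2, max_eq_right h2.1]
    · simp only [h, if_false]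
      exact h3 (not_le.1 h)

/-- Every nonzero real potential in `L^∞` with compact (essential) support on `ℝ⁵` has infinitely
many resonances. -/
theorem infinite_resonances_five (V : E5 → ℝ) (hV : MemLp V ⊤ volume) (R : ℝ)
    (hsupp : ∀ᵐ x, R < ‖x‖ → V x = 0) (hne : ¬ V =ᵐ[volume] 0) :
    {l : ℂ | IsResonance V l}.Infinite := by
  obtain ⟨W, M, hWm, hWM, hWR, hVW⟩ := exists_representative V hV R hsupp
  have hW0 : ¬ W =ᵐ[volume] 0 := fun h => hne (hVW.trans h)
  exact (infinite_five W hWm M R hWM hWR hW0).mono fun l hl => isResonance_congr V W hVW l hl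

end Pool.Agent.Work.MP_f2af60_mp
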