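import Pool.Agent.Work.MP_f2af60_mp.Defs

/-!
# MP_f2af60_mp, all odd dimensions `n = 2 q + 3 ≥ 5`: shared definitions
-/

namespace Pool.Agent.Work.MP_f2af60_mp

open MeasureTheory

/-- Euclidean space of dimension `2 q + 3`. -/
abbrev En (q : ℕ) := EuclideanSpace ℝ (Fin (2 * q + 3))

/-- The functions `e_q` with `G_l(x) = e_q(l |x|) / |x|^(2 q + 1)` the kernel of the free resolvent
`(-Δ - l²)⁻¹` on `ℝ^(2 q + 3)`: `e_0(z) = e^{iz} / (4 π)`, `e_1(z) = e^{iz} (1 - i z) / (8 π²)`,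
and the recursion `2 π e_{j+2} = (2 j + 3) e_{j+1} - z² e_j / (2 π)`. -/
noncomputable def eb : ℕ → ℂ → ℂ
  | 0, z => Complex.exp (Complex.I * z) / (4 * (Real.pi : ℂ))
  | 1, z => Complex.exp (Complex.I * z) * (1 - Complex.I * z) / (8 * (Real.pi : ℂ) ^ 2)
  | (j + 2), z => ((2 * (j : ℂ) + 3) * eb (j + 1) z - z ^ 2 / (2 * (Real.pi : ℂ)) * eb j z) /
      (2 * (Real.pi : ℂ))

/-- The kernel of the continued free resolvent `(-Δ - l²)⁻¹` on `ℝ^(2 q + 3)`. -/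
noncomputable def GG (q : ℕ) (l : ℂ) (x : En q) : ℂ :=
  eb q (l * (‖x‖ : ℂ)) / (‖x‖ : ℂ) ^ (2 * q + 1)

/-- `l` is a resonance of `V`: there is a nonzero continuous `u` with `u = - R₀(l)(V u)`. -/
def IsRes (q : ℕ) (V : En q → ℝ) (l : ℂ) : Prop :=
  ∃ u : En q → ℂ, Continuous u ∧ u ≠ 0 ∧ ∀ x, u x = -∫ y, GG q l (x - y) * (V y : ℂ) * u y

/-- The heat kernel on `ℝ^(2 q + 3)`. -/
noncomputable def pt (q : ℕ) (t : ℝ) (x : En q) : ℝ :=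
  (4 * Real.pi * t) ^ (-((q : ℝ) + 3 / 2)) * Real.exp (-(‖x‖ ^ 2 / (4 * t)))

/-- `∫ t^j / j! e^{-E t} p_t(x) dt`, the kernel of `(-Δ + E)^(-j-1)`. -/
noncomputable def HH (q j : ℕ) (E : ℝ) (x : En q) : ℝ :=
  ∫ t in Set.Ioi (0 : ℝ), t ^ j / (j.factorial : ℝ) * Real.exp (-(E * t)) * pt q t x

/-- The finite difference `∑ (-1)^i (p choose i) f((1 + i) E)`. -/
noncomputable def DD (p : ℕ) (f : ℝ → ℝ) (E : ℝ) : ℝ :=
  ∑ i ∈ Finset.range (p + 1), (-1) ^ i * (p.choose i : ℝ) * f ((1 + (i : ℝ)) * E)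

/-- The closed chain `∏ G_E(x_i - x_{i+1}) · Ġ_E(x_m - x_0)`. -/
noncomputable def JJ (q m : ℕ) (E : ℝ) (x : Fin (m + 1) → En q) : ℝ :=
  (∏ i : Fin m, HH q 0 E (x i.castSucc - x i.succ)) * HH q 1 E (x (Fin.last m) - x 0)

/-- The finite difference of the closed chain. -/
noncomputable def DJ (q m : ℕ) (E : ℝ) (x : Fin (m + 1) → En q) : ℝ :=
  DD (q - 1) (fun E' => JJ q m E' x) E

/-- The chain kernel at `E = 1` in relative coordinates. -/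
noncomputable def km (q m : ℕ) (y : Fin m → En q) : ℝ := DJ q m 1 (Fin.cons 0 y)

/-- The multilinear correlation `∫ V(x) V(x + y_1) ⋯ V(x + y_m) dx`. -/
noncomputable def MM (q : ℕ) (V : En q → ℝ) (m : ℕ) (y : Fin m → En q) : ℝ :=
  ∫ x, V x * ∏ i, V (x + y i)

/-- `Φ_m(ε) = ∫ k_m(y) M_m(√ε y) dy`. -/
noncomputable def Phi (q : ℕ) (V : En q → ℝ) (m : ℕ) (e : ℝ) : ℝ :=
  ∫ y, km q m y * MM q V m (fun i => Real.sqrt e • y i)

/-- The real side: `F(E) = ∑_{m=1}^q (-1)^m ∫ V ⋯ V 𝒟 J_m`. -/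
noncomputable def FF (q : ℕ) (V : En q → ℝ) (E : ℝ) : ℝ :=
  ∑ m ∈ Finset.Icc 1 q, (-1) ^ m * ∫ x : Fin (m + 1) → En q, (∏ i, V (x i)) * DJ q m E x

/-- The Sobolev condition `∫ |ξ|^s |V̂|² < ∞`. -/
def HS (q : ℕ) (V : En q → ℝ) (s : ℝ) : Prop :=
  Integrable (fun ξ : En q => ‖ξ‖ ^ s * ‖FourierTransform.fourier (fun x => (V x : ℂ)) ξ‖ ^ 2)

/-- Lebesgue measure on the closed ball of radius `R`. -/
noncomputable def muQ (q : ℕ) (R : ℝ) : Measure (Metric.closedBall (0 : En q) R) :=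
  Measure.comap Subtype.val volume

/-- Hypotheses on a compact metric measure space (a closed ball of `ℝ^(2 q + 3)`). -/
structure SpQ {K : Type*} [MetricSpace K] [CompactSpace K] [MeasurableSpace K] [BorelSpace K]
    (q : ℕ) (μ : Measure K) (C : ℝ) : Prop where
  fin : IsFiniteMeasure μ
  noat : NullSingletonClass μ
  int : ∀ x, Integrable (fun y => ((dist x y) ^ (2 * q + 2))⁻¹) μ
  small : ∀ x, ∀ e > 0, ∫ y in Metric.ball x e, ((dist x y) ^ (2 * q + 2))⁻¹ ∂μ ≤ C * e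

/-- The iterated kernels `K_0 = l |x-y|^{-(2q-1)}`, `K_{m+1} = (h |x-y|^{-(2q+1)}) V K_m`. -/
noncomputable def KK {K : Type*} [MetricSpace K] [MeasurableSpace K] (q : ℕ) (μ : Measure K)
    (V : K → ℝ) (h l : C(K × K, ℂ)) : ℕ → K → K → ℂ
  | 0, x, y => l (x, y) * ((((dist x y) ^ (2 * q - 1))⁻¹ : ℝ) : ℂ)
  | (m + 1), x, y => ∫ z, h (x, z) * ((((dist x z) ^ (2 * q + 1))⁻¹ : ℝ) : ℂ) * (V z : ℂ) *
      KK q μ V h l m z y ∂μ

/-- The differences of the iterated kernels, as continuous kernels: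
`Δ_0 = f'`, `Δ_{m+1} = (h |x-y|^{-(2q+1)}) V Δ_m + f V K_m(h₁, l₁)`. -/
noncomputable def DK {K : Type*} [MetricSpace K] [MeasurableSpace K] (q : ℕ) (μ : Measure K)
    (V : K → ℝ) (h h₁ l₁ : C(K × K, ℂ)) (f f' : K → K → ℂ) : ℕ → K → K → ℂ
  | 0, x, y => f' x y
  | (m + 1), x, y =>
      (∫ z, h (x, z) * ((((dist x z) ^ (2 * q + 1))⁻¹ : ℝ) : ℂ) * (V z : ℂ) *
        DK q μ V h h₁ l₁ f f' m z y ∂μ) + ∫ z, f x z * (V z : ℂ) * KK q μ V h₁ l₁ m z y ∂μ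

/-- The closed chain of the kernels with numerators `h` (m times) and `l` (once). -/
noncomputable def JC {K : Type*} [MetricSpace K] (q m : ℕ) (h l : C(K × K, ℂ))
    (x : Fin (m + 1) → K) : ℂ :=
  (∏ i : Fin m, h (x i.castSucc, x i.succ) *
      ((((dist (x i.castSucc) (x i.succ)) ^ (2 * q + 1))⁻¹ : ℝ) : ℂ)) *
    (l (x (Fin.last m), x 0) * ((((dist (x (Fin.last m)) (x 0)) ^ (2 * q - 1))⁻¹ : ℝ) : ℂ))

/-- The logarithmic derivative `P'/P + ∑ j c_j l^(j-1)`. -/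
noncomputable def LL (P : Polynomial ℂ) (c : ℕ → ℂ) (l : ℂ) : ℂ :=
  P.derivative.eval l / P.eval l + ∑' j : ℕ, ((j : ℂ) + 1) * c (j + 1) * l ^ j

/-- The kernel operators on `C(K, ℂ)` in dimension `2 q + 3`. -/
structure OpsQ {K : Type*} [MetricSpace K] [CompactSpace K] [MeasurableSpace K] [BorelSpace K]
    (q : ℕ) (μ : Measure K) (V : K → ℝ) where
  Op : C(K × K, ℂ) →L[ℂ] (C(K, ℂ) →L[ℂ] C(K, ℂ))
  Op_apply : ∀ h f x, Op h f x =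
    ∫ y, h (x, y) * ((((dist x y) ^ (2 * q + 1))⁻¹ : ℝ) : ℂ) * (V y : ℂ) * f y ∂μ
  tr : (C(K, ℂ) →L[ℂ] C(K, ℂ)) →L[ℂ] C(K × K, ℂ) →L[ℂ] ℂ
  tr_apply : ∀ S k, tr S k = ∫ y, (V y : ℂ) * (S (slice k y)) y ∂μ

/-- The iterated directional derivative `∂_v ∂_w ⋯ f` along a list of vectors. -/
noncomputable def ld {X : Type*} [NormedAddCommGroup X] [NormedSpace ℝ X] :
    List X → (X → ℝ) → X → ℝ
  | [], f => f
  | v :: L, f => fun x => fderiv ℝ (ld L f) x v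

/-- The number `κ(a) = ∑_{i < q} (-1)^i (q-1 choose i) (1 + i)^a`. -/
noncomputable def kap (q : ℕ) (a : ℝ) : ℝ :=
  ∑ i ∈ Finset.range q, (-1) ^ i * ((q - 1).choose i : ℝ) * (1 + (i : ℝ)) ^ a

end Pool.Agent.Work.MP_f2af60_mp
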