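import Pool.Agent.Work.MP_f2af60_mp.GStmts

/-!
# MP_f2af60_mp, all odd dimensions: the operators on the discs
-/

namespace Pool.Agent.Work.MP_f2af60_mp

open MeasureTheory Metric Filter Topology

section Loc

variable {q : ℕ} {K : Type} [MetricSpace K] [CompactSpace K] [MeasurableSpace K] [BorelSpace K]

/-- the distance as a continuous function on `K × K`. -/
noncomputable def GLoc_dlt (K : Type) [MetricSpace K] : C(K × K, ℂ) :=
  ⟨fun p => ((dist p.1 p.2 : ℝ) : ℂ), by fun_prop⟩

/-- the tensor product of two functions. -/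
noncomputable def GLoc_tens (f g : C(K, ℂ)) : C(K × K, ℂ) :=
  ⟨fun p => f p.1 * g p.2, by fun_prop⟩

@[simp] lemma GLoc_dlt_apply (x y : K) : GLoc_dlt K (x, y) = ((dist x y : ℝ) : ℂ) := rfl
@[simp] lemma GLoc_tens_apply (f g : C(K, ℂ)) (x y : K) : GLoc_tens f g (x, y) = f x * g y := rfl

variable (μ : Measure K) (C : ℝ) (hS : SpQ q μ C) (V : K → ℝ) (hV : Measurable V) (M : ℝ)
  (hM : ∀ x, |V x| ≤ M)

include hS hV hM in
/-- integrability of the density against continuous functions. -/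
lemma GLoc_integrable_cont (f g : C(K, ℂ)) : Integrable (fun y => f y * (V y : ℂ) * g y) μ := by
  haveI := hS.fin
  have hc : Continuous (fun y => f y * g y) := by fun_prop
  have h1 : Integrable (fun y => f y * g y) μ :=
    hc.integrable_of_hasCompactSupport (HasCompactSupport.of_compactSpace _)
  have h2 : Integrable (fun y => (V y : ℂ) * (f y * g y)) μ := by
    refine h1.bdd_mul (c := M) ?_ ?_
    · exact (Complex.measurable_ofReal.comp hV).aestronglyMeasurable
    · refine Eventually.of_forall fun y => ?_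
      rw [Complex.norm_real]; exact hM y
  refine h2.congr (Eventually.of_forall fun y => ?_)
  show (V y : ℂ) * (f y * g y) = f y * (V y : ℂ) * g y
  ring

include hS hV hM in
/-- the functional `u ↦ ∫ ψ V u`. -/
lemma GLoc_functional (ψ : C(K, ℂ)) :
    ∃ P : C(K, ℂ) →L[ℂ] ℂ, (∀ u, P u = ∫ y, ψ y * (V y : ℂ) * u y ∂μ) ∧
      ‖P‖ ≤ ‖ψ‖ * |M| * μ.real Set.univ := by
  haveI := hS.fin
  let L : C(K, ℂ) →ₗ[ℂ] ℂ :=
    { toFun := fun u => ∫ y, ψ y * (V y : ℂ) * u y ∂μ
      map_add' := by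
        intro u v
        rw [← integral_add (GLoc_integrable_cont μ C hS V hV M hM ψ u)
          (GLoc_integrable_cont μ C hS V hV M hM ψ v)]
        refine integral_congr_ae (Eventually.of_forall fun y => ?_)
        simp [mul_add]
      map_smul' := by
        intro a u
        rw [RingHom.id_apply, smul_eq_mul, ← integral_const_mul]
        refine integral_congr_ae (Eventually.of_forall fun y => ?_)
        simp only [ContinuousMap.smul_apply, smul_eq_mul]
        ring }
  have hb : ∀ u, ‖L u‖ ≤ ‖ψ‖ * |M| * μ.real Set.univ * ‖u‖ := by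
    intro u
    have : ‖∫ y, ψ y * (V y : ℂ) * u y ∂μ‖ ≤ (‖ψ‖ * |M| * ‖u‖) * μ.real Set.univ := by
      refine norm_integral_le_of_norm_le_const (Eventually.of_forall fun y => ?_)
      rw [norm_mul, norm_mul, Complex.norm_real]
      have h1 := ψ.norm_coe_le_norm y
      have h2 := u.norm_coe_le_norm y
      have h3 : ‖V y‖ ≤ |M| := (hM y).trans (le_abs_self M)
      gcongr
    calc ‖L u‖ ≤ (‖ψ‖ * |M| * ‖u‖) * μ.real Set.univ := this
      _ = _ := by ring
  refine ⟨L.mkContinuous _ hb, fun u => rfl, L.mkContinuous_norm_le ?_ hb⟩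
  positivity

include hS in
/-- the finite rank operator as a kernel operator. -/
lemma GLoc_finite_rank (O : OpsQ q μ V) (N : ℕ) (φ ψ : Fin N → C(K, ℂ)) (c : Fin N → ℂ)
    (Ψ : Fin N → (C(K, ℂ) →L[ℂ] ℂ))
    (hint : ∀ k (u : C(K, ℂ)), Integrable (fun y => ψ k y * (V y : ℂ) * u y) μ)
    (hΨ : ∀ k u, Ψ k u = ∫ y, ψ k y * (V y : ℂ) * u y ∂μ) :
    O.Op (GLoc_dlt K ^ (2 * q + 1) * ∑ k, c k • GLoc_tens (φ k) (ψ k)) =
      FRop φ (fun k => c k • Ψ k) := by
  have := hS.noat
  ext u x
  rw [O.Op_apply]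
  have h1 : ∀ᵐ y ∂μ, y ≠ x := by
    have : μ {x} = 0 := measure_singleton x
    rw [ae_iff]
    simp [this]
  have h2 : ∀ᵐ y ∂μ, (GLoc_dlt K ^ (2 * q + 1) * ∑ k, c k • GLoc_tens (φ k) (ψ k)) (x, y) *
      ((((dist x y) ^ (2 * q + 1))⁻¹ : ℝ) : ℂ) * (V y : ℂ) * u y =
      ∑ k, (c k * φ k x) * (ψ k y * (V y : ℂ) * u y) := by
    filter_upwards [h1] with y hy
    have hd : ((dist x y : ℝ) : ℂ) ≠ 0 := by
      exact_mod_cast (dist_pos.2 (Ne.symm hy)).ne'
    have e1 : (GLoc_dlt K ^ (2 * q + 1) * ∑ k, c k • GLoc_tens (φ k) (ψ k)) (x, y) =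
        ((dist x y : ℝ) : ℂ) ^ (2 * q + 1) * ∑ k, c k * (φ k x * ψ k y) := by
      simp
    rw [e1, Finset.mul_sum, Finset.sum_mul, Finset.sum_mul, Finset.sum_mul]
    refine Finset.sum_congr rfl fun k _ => ?_
    push_cast
    field_simp
  rw [integral_congr_ae h2, integral_finsetSum]
  · simp only [FRop, FunLike.coe_sum, Finset.sum_apply, ContinuousMap.coe_sum,
      ContinuousLinearMap.smulRight_apply, ContinuousMap.smul_apply, smul_eq_mul]
    refine Finset.sum_congr rfl fun k _ => ?_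
    rw [integral_const_mul, ← hΨ k u]
    simp only [_root_.smul_apply, smul_eq_mul]
    ring
  · intro k _
    exact (hint k u).const_mul _

include hS hM in
/-- the operator of the near part is small. -/
lemma GLoc_small (O : OpsQ q μ V) (C₁ : ℝ)
    (hint : ∀ x, Integrable (fun y => ((dist x y) ^ (2 * q + 1))⁻¹) μ)
    (hC1 : ∀ x, ∀ e > 0, ∫ y in ball x e, ((dist x y) ^ (2 * q + 1))⁻¹ ∂μ ≤ C₁ * e ^ 2)
    (hC10 : 0 ≤ C₁)
    (k : C(K × K, ℂ)) (B η δ : ℝ) (hB : 0 ≤ B) (hη : 0 ≤ η) (hδ : 0 < δ)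
    (hk : ∀ x y, ‖k (x, y)‖ ≤ (if dist x y < δ then B else 0) + η * dist x y ^ (2 * q + 1)) :
    ‖O.Op k‖ ≤ |M| * (B * (C₁ * δ ^ 2) + η * μ.real Set.univ) := by
  have := hS.fin
  have hC0 : 0 ≤ |M| * (B * (C₁ * δ ^ 2) + η * μ.real Set.univ) := by
    have : 0 ≤ μ.real Set.univ := measureReal_nonneg
    positivity
  refine ContinuousLinearMap.opNorm_le_bound _ hC0 fun f => ?_
  rw [ContinuousMap.norm_le _ (by positivity)]
  intro x
  rw [O.Op_apply]
  have hgi : Integrable (fun y => |M| * ‖f‖ * ((ball x δ).indicator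
      (fun y => B * ((dist x y) ^ (2 * q + 1))⁻¹) y + η)) μ := by
    refine Integrable.const_mul (Integrable.add ?_ (integrable_const η)) _
    exact ((hint x).const_mul B).indicator measurableSet_ball
  refine (norm_integral_le_of_norm_le hgi (Eventually.of_forall fun y => ?_)).trans ?_
  · rw [norm_mul, norm_mul, norm_mul, Complex.norm_real, Complex.norm_real]
    have h2 := f.norm_coe_le_norm y
    have h3 : ‖V y‖ ≤ |M| := (hM y).trans (le_abs_self M)
    have h4 : ‖((dist x y) ^ (2 * q + 1))⁻¹‖ = ((dist x y) ^ (2 * q + 1))⁻¹ := by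
      rw [Real.norm_of_nonneg]; positivity
    rw [h4]
    have h5 : (ball x δ).indicator (fun y => B * ((dist x y) ^ (2 * q + 1))⁻¹) y =
        if dist x y < δ then B * ((dist x y) ^ (2 * q + 1))⁻¹ else 0 := by
      by_cases hb : dist x y < δ
      · rw [Set.indicator_of_mem (by rwa [mem_ball, dist_comm]), if_pos hb]
      · rw [Set.indicator_of_notMem (by rwa [mem_ball, dist_comm]), if_neg hb]
    rw [h5]
    have h7 : ‖k (x, y)‖ * ((dist x y) ^ (2 * q + 1))⁻¹ ≤
        (if dist x y < δ then B * ((dist x y) ^ (2 * q + 1))⁻¹ else 0) + η := by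
      have h0 : 0 ≤ ((dist x y) ^ (2 * q + 1))⁻¹ := by positivity
      have h8 : η * dist x y ^ (2 * q + 1) * ((dist x y) ^ (2 * q + 1))⁻¹ ≤ η := by
        rw [mul_assoc]
        refine mul_le_of_le_one_right hη ?_
        exact mul_inv_le_one
      calc ‖k (x, y)‖ * ((dist x y) ^ (2 * q + 1))⁻¹
          ≤ ((if dist x y < δ then B else 0) + η * dist x y ^ (2 * q + 1)) *
            ((dist x y) ^ (2 * q + 1))⁻¹ := mul_le_mul_of_nonneg_right (hk x y) h0
        _ = (if dist x y < δ then B else 0) * ((dist x y) ^ (2 * q + 1))⁻¹ +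
            η * dist x y ^ (2 * q + 1) * ((dist x y) ^ (2 * q + 1))⁻¹ := by ring
        _ ≤ _ := by
            refine add_le_add ?_ h8
            split_ifs
            · exact le_rfl
            · rw [zero_mul]
    calc ‖k (x, y)‖ * ((dist x y) ^ (2 * q + 1))⁻¹ * ‖V y‖ * ‖f y‖
        ≤ ((if dist x y < δ then B * ((dist x y) ^ (2 * q + 1))⁻¹ else 0) + η) * |M| * ‖f‖ := by
          have h8 : 0 ≤ ‖k (x, y)‖ * ((dist x y) ^ (2 * q + 1))⁻¹ := by positivity
          gcongr
      _ = _ := by ring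
  · rw [integral_const_mul, integral_add, integral_indicator measurableSet_ball,
      integral_const_mul, integral_const, smul_eq_mul]
    · have h9 := hC1 x δ hδ
      have h10 : B * ∫ y in ball x δ, ((dist x y) ^ (2 * q + 1))⁻¹ ∂μ + μ.real Set.univ * η ≤
          B * (C₁ * δ ^ 2) + η * μ.real Set.univ := by
        have := mul_le_mul_of_nonneg_left h9 hB
        nlinarith
      calc |M| * ‖f‖ * (B * ∫ y in ball x δ, ((dist x y) ^ (2 * q + 1))⁻¹ ∂μ +
            μ.real Set.univ * η)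
          ≤ |M| * ‖f‖ * (B * (C₁ * δ ^ 2) + η * μ.real Set.univ) := by gcongr
        _ = _ := by ring
    · exact ((hint x).const_mul B).indicator measurableSet_ball
    · exact integrable_const η

end Loc

end Pool.Agent.Work.MP_f2af60_mp
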