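import Pool.Agent.Work.MP_f2af60_mp.Bd.B10
import Pool.Agent.Work.MP_f2af60_mp.Bd.B09

/-!
# MP_f2af60_mp: lines of potentials, part 5 (conclusion)
-/

namespace Pool.Agent.Work.MP_f2af60_mp

open MeasureTheory Metric Filter Topology

theorem h_km : KmMass := kmMass
theorem h_phi : PhiBd := phiBd h_km
theorem h_tt : TTFacts := ttFacts h_km h_phi

/-- All hypotheses hold. -/
theorem lineHyp : LineHyp where
  tt := h_tt
  tr := traceSeries trPow opNormQ chainReal h_tt
  ex := expandExact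
  near := nearNorm
  norm := opNormQ
  pf := pfFacts
  pfr := pfRational
  quad := rrQuad
  det := detLin
  an := ttAnalytic h_km h_phi
  ser := seriesLimit h_km h_phi (phiLimit h_km)
  nonrat := nonRat h_km kmMassLow

/-- Every line contains only finitely many potentials with finitely many resonances. -/
theorem line_finite {q : ℕ} (hq : 1 ≤ q) (V W : En q → ℝ) (hV : Measurable V)
    (hW : Measurable W) (M R : ℝ) (hVM : ∀ x, |V x| ≤ M) (hWM : ∀ x, |W x| ≤ M)
    (hVR : ∀ x, R < ‖x‖ → V x = 0) (hWR : ∀ x, R < ‖x‖ → W x = 0) (hne : ¬ W =ᵐ[volume] 0) :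
    {g : ℝ | {l : ℂ | IsRes q (fun x => V x + g * W x) l}.Finite}.Finite := by
  by_contra hinf
  apply hne
  have hM0 : 0 ≤ M := (abs_nonneg _).trans (hVM 0)
  set S : Set ℝ := {g : ℝ | {l : ℂ | IsRes q (fun x => V x + g * W x) l}.Finite} with hSdef
  have hS : S.Infinite := hinf
  obtain ⟨C1, hC1, hexc⟩ := exc_of_finite lineHyp hq
  have hb : ∀ g : ℝ, ∀ x, |V x + g * W x| ≤ M + |g| * M := by
    intro g x
    refine (abs_add_le _ _).trans ?_
    rw [abs_mul]
    have h1 := mul_le_mul_of_nonneg_left (hWM x) (abs_nonneg g)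
    have := hVM x
    linarith
  have hdata : ∀ g ∈ S, ∃ N : ℕ, Exc q C1 (fun x => V x + g * W x) (M + |g| * M) N ∧
      HS q (fun x => V x + g * W x) (2 * ((q - 1 : ℕ) : ℝ)) ∧
      Tendsto (fun E : ℝ => E ^ ((q : ℝ) - 1 / 2) *
        RR q (fun x => V x + g * W x) (q - 1) E⁻¹) atTop
        (𝓝 ((-1) ^ q * ((N : ℝ) / (2 * q)))) := fun g hg =>
    hexc (fun x => V x + g * W x) (hV.add (hW.const_mul _)) _ R (hb g) (fun x hx => by
      show V x + g * W x = 0
      rw [hVR x hx, hWR x hx]; ring) hg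
  -- three members
  set f := hS.natEmbedding S with hf
  set g3 : Fin 3 → ℝ := fun i => ((f (i : ℕ) : S) : ℝ) with hg3
  have hg3i : Function.Injective g3 := by
    intro a b hab
    exact Fin.ext (f.injective (Subtype.ext hab))
  have hg3S : ∀ i, g3 i ∈ S := fun i => (f (i : ℕ)).2
  choose N3 hN3 using fun i => hdata (g3 i) (hg3S i)
  obtain ⟨C2, hC2, hdeg⟩ := line_degree rrQuad hq V W hV hW M R hVM hWM hVR hWR g3 hg3i
    (fun i => (-1) ^ q * ((N3 i : ℝ) / (2 * q))) (fun i => (hN3 i).2.1) (fun i => (hN3 i).2.2)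
  by_cases hbd : ∃ G : ℝ, ∀ g ∈ S, |g| ≤ G
  · obtain ⟨G, hG⟩ := hbd
    refine line_bounded lineHyp hq C1 hC1 V W hV hW M M R hVM hWM hVR hWR S hS G hG
      ⌈C2 * (1 + G) ^ 2⌉₊ fun g hg => ?_
    obtain ⟨N, hN1, -, hN3'⟩ := hdata g hg
    refine ⟨N, ?_, hN1⟩
    have h1 := hdeg g N hN3'
    have h2 : C2 * (1 + |g|) ^ 2 ≤ C2 * (1 + G) ^ 2 := by
      have := hG g hg
      have := abs_nonneg g
      gcongr
    have h3 := (h1.trans h2).trans (Nat.le_ceil _)
    exact_mod_cast h3
  · push Not at hbd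
    have hor : (∀ n : ℕ, ∃ g ∈ S, (n : ℝ) < g) ∨ (∀ n : ℕ, ∃ g ∈ S, g < -(n : ℝ)) := by
      by_contra hcon
      push Not at hcon
      obtain ⟨⟨n1, h1⟩, ⟨n2, h2⟩⟩ := hcon
      obtain ⟨g, hg, hg'⟩ := hbd (max n1 n2)
      have h3 := h1 g hg
      have h4 := h2 g hg
      rcases abs_cases g with ⟨h5, -⟩ | ⟨h5, -⟩
      · have := le_max_left (n1 : ℝ) n2
        linarith
      · have := le_max_right (n1 : ℝ) n2
        linarith
    rcases hor with hp | hn
    · choose g hgS hgn using fun k : ℕ => hp (k + 1)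
      have hg1 : ∀ k, 1 ≤ g k := fun k => by
        have := hgn k
        push_cast at this
        have h0 : (0 : ℝ) ≤ k := Nat.cast_nonneg k
        linarith
      have hgt : Tendsto g atTop atTop := by
        refine tendsto_atTop_mono (fun k => ?_) tendsto_natCast_atTop_atTop
        have := hgn k
        push_cast at this
        linarith
      choose N hN using fun k => hdata (g k) (hgS k)
      refine line_unbounded lineHyp hq C1 hC1 V W hV hW M M R hVM hWM hVR hWR g hg1 hgt C2 hC2 N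
        (fun k => hdeg (g k) (N k) (hN k).2.2) fun k => ?_
      have h1 := (hN k).1
      rwa [abs_of_nonneg (by linarith [hg1 k])] at h1
    · choose g hgS hgn using fun k : ℕ => hn (k + 1)
      have hg1 : ∀ k, 1 ≤ -g k := fun k => by
        have := hgn k
        push_cast at this
        have h0 : (0 : ℝ) ≤ k := Nat.cast_nonneg k
        linarith
      have hgt : Tendsto (fun k => -g k) atTop atTop := by
        refine tendsto_atTop_mono (fun k => ?_) tendsto_natCast_atTop_atTop
        have := hgn k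
        push_cast at this
        linarith
      choose N hN using fun k => hdata (g k) (hgS k)
      have hneg := line_unbounded lineHyp hq C1 hC1 V (fun x => -W x) hV hW.neg M M R hVM
        (fun x => by rw [abs_neg]; exact hWM x) hVR (fun x hx => by rw [hWR x hx, neg_zero])
        (fun k => -g k) hg1 hgt C2 hC2 N
        (fun k => by rw [abs_neg]; exact hdeg (g k) (N k) (hN k).2.2) fun k => by
          have h1 := (hN k).1
          rw [abs_of_nonpos (by linarith [hg1 k])] at h1
          have e : (fun x => V x + -g k * -W x) = fun x => V x + g k * W x := by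
            funext x
            ring
          rw [e]
          exact h1
      filter_upwards [hneg] with x hx
      have h1 : -W x = 0 := hx
      exact neg_eq_zero.1 h1

/-- Lines of potentials in `L^∞_comp`. -/
theorem line_finite_poles {q : ℕ} (hq : 1 ≤ q) (V W : En q → ℝ) (hV : MemLp V ⊤ volume)
    (hW : MemLp W ⊤ volume) (R : ℝ) (hVR : ∀ᵐ x, R < ‖x‖ → V x = 0)
    (hWR : ∀ᵐ x, R < ‖x‖ → W x = 0) (hne : ¬ W =ᵐ[volume] 0) :
    {g : ℝ | {z : ℂ | PQ.IsPole (fun x => V x + g * W x) z}.Finite}.Finite := by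
  obtain ⟨V', M1, hVm, hVM, hVR', hVV⟩ := exists_rep_odd V hV R hVR
  obtain ⟨W', M2, hWm, hWM, hWR', hWW⟩ := exists_rep_odd W hW R hWR
  have hW0 : ¬ W' =ᵐ[volume] 0 := fun h => hne (hWW.trans h)
  refine (line_finite hq V' W' hVm hWm (max M1 M2) R (fun x => (hVM x).trans (le_max_left _ _))
    (fun x => (hWM x).trans (le_max_right _ _)) hVR' hWR' hW0).subset fun g hg => ?_
  have hUU : (fun x => V x + g * W x) =ᵐ[volume] fun x => V' x + g * W' x := by
    filter_upwards [hVV, hWW] with x h1 h2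
    rw [h1, h2]
  have hg' : {z : ℂ | PQ.IsPole (fun x => V x + g * W x) z}.Finite := hg
  show {l : ℂ | IsRes q (fun x => V' x + g * W' x) l}.Finite
  refine hg'.subset fun z hz => ?_
  refine gp_isPole_congr _ _ hUU z (gp_isPole hq (fun x => V' x + g * W' x)
    (hVm.add (hWm.const_mul _)) (M1 + |g| * M2) R (fun x => ?_) (fun x hx => by
      show V' x + g * W' x = 0
      rw [hVR' x hx, hWR' x hx]; ring) z hz)
  show |V' x + g * W' x| ≤ M1 + |g| * M2
  refine (abs_add_le _ _).trans ?_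
  rw [abs_mul]
  have h1 := mul_le_mul_of_nonneg_left (hWM x) (abs_nonneg g)
  have := hVM x
  linarith

/-- The law in `L^∞_comp`, unconditional. -/
theorem law_final {q : ℕ} (hq : 1 ≤ q) (hqe : Even q) :
    ∃ c : ℝ, 0 < c ∧ ∀ (V : En q → ℝ), MemLp V ⊤ volume → ∀ (R : ℝ),
      (∀ᵐ x, R < ‖x‖ → V x = 0) → ¬ V =ᵐ[volume] 0 → {z : ℂ | PQ.IsPole V z}.Finite →
      ∃ N : ℕ, 1 ≤ N ∧ ∃ C : ℝ, ∀ t : ℝ, 1 ≤ t →
        |(∫ ξ in closedBall (0 : En q) t, ‖ξ‖ ^ (2 * q - 1) *
          ‖FourierTransform.fourier (fun x => (V x : ℂ)) ξ‖ ^ 2) - c * N * Real.log t| ≤ C :=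
  law_poles rrKernel lawAn hq hqe

end Pool.Agent.Work.MP_f2af60_mp
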