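import Pool.Agent.Work.MP_f2af60_mp.PoleDefs

/-!
# MP_f2af60_mp, P5: existence and uniqueness of `R_V(i k) f` for large `k`
-/

namespace Pool.Agent.Work.MP_f2af60_mp

open MeasureTheory
open scoped SchwartzMap Laplacian FourierTransform ENNReal

section

variable {V : E5 → ℝ} {M : ℝ}

lemma P5_memLp (hV : Measurable V) (hM : ∀ x, |V x| ≤ M) (u : L2) :
    MemLp (fun x => (V x : ℂ) * u x) 2 (volume : Measure E5) := by
  refine MemLp.of_le_mul (c := M) (Lp.memLp u) ?_ ?_
  · exact (Complex.measurable_ofReal.comp hV).aestronglyMeasurable.mul (Lp.aestronglyMeasurable u)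
  · refine Filter.Eventually.of_forall fun x => ?_
    rw [norm_mul, Complex.norm_real, Real.norm_eq_abs]
    exact mul_le_mul_of_nonneg_right (hM x) (norm_nonneg _)

/-- Multiplication by `V` on `L²`. -/
noncomputable def P5_mul (hV : Measurable V) (hM : ∀ x, |V x| ≤ M) : L2 →L[ℂ] L2 :=
  LinearMap.mkContinuous
    { toFun := fun u => (P5_memLp hV hM u).toLp _
      map_add' := by
        intro u v
        apply Lp.ext
        filter_upwards [(P5_memLp hV hM (u + v)).coeFn_toLp, (P5_memLp hV hM u).coeFn_toLp,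
          (P5_memLp hV hM v).coeFn_toLp, Lp.coeFn_add ((P5_memLp hV hM u).toLp _)
            ((P5_memLp hV hM v).toLp _), Lp.coeFn_add u v] with x h1 h2 h3 h4 h5
        rw [h1, h4, Pi.add_apply, h2, h3, h5, Pi.add_apply]
        ring
      map_smul' := by
        intro c u
        apply Lp.ext
        filter_upwards [(P5_memLp hV hM (c • u)).coeFn_toLp, (P5_memLp hV hM u).coeFn_toLp,
          Lp.coeFn_smul c ((P5_memLp hV hM u).toLp _), Lp.coeFn_smul c u] with x h1 h2 h3 h4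
        rw [h1, RingHom.id_apply, h3, Pi.smul_apply, h2, h4, Pi.smul_apply, smul_eq_mul,
          smul_eq_mul]
        ring } M (by
      intro u
      apply Lp.norm_le_mul_norm_of_ae_le_mul
      filter_upwards [(P5_memLp hV hM u).coeFn_toLp] with x h1
      simp only [LinearMap.coe_mk, AddHom.coe_mk]
      rw [h1, norm_mul, Complex.norm_real, Real.norm_eq_abs]
      exact mul_le_mul_of_nonneg_right (hM x) (norm_nonneg _))

lemma P5_mul_coe (hV : Measurable V) (hM : ∀ x, |V x| ≤ M) (u : L2) :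
    ∀ᵐ x, (P5_mul hV hM u) x = (V x : ℂ) * u x :=
  (P5_memLp hV hM u).coeFn_toLp

lemma P5_mul_norm (hV : Measurable V) (hM : ∀ x, |V x| ≤ M) (hM0 : 0 ≤ M) :
    ‖P5_mul hV hM‖ ≤ M :=
  LinearMap.mkContinuous_norm_le _ hM0 _

lemma P5_int (u : L2) (φ : 𝓢(E5, ℂ)) : Integrable (fun x => u x * φ x) (volume : Measure E5) :=
  MemLp.integrable_mul (Lp.memLp u) (φ.memLp 2 volume)

lemma P5_lap_coe (φ : 𝓢(E5, ℂ)) (x : E5) : (Δ φ) x = (Δ φ : 𝓢(E5, ℂ)) x := rfl

lemma P5_iff (hV : Measurable V) (hM : ∀ x, |V x| ≤ M) (k : ℝ) (f u : L2) :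
    IsResolvent V k f u ↔ ∀ φ : 𝓢(E5, ℂ), ∫ x, u x * (-(Δ φ) x + (k : ℂ) ^ 2 * φ x) =
      ∫ x, (f - P5_mul hV hM u) x * φ x := by
  unfold IsResolvent
  refine forall_congr' fun φ => ?_
  have e1 : ∫ x, u x * (-(Δ φ) x + ((V x : ℂ) + (k : ℂ) ^ 2) * φ x) =
      (∫ x, u x * (-(Δ φ) x + (k : ℂ) ^ 2 * φ x)) + ∫ x, (P5_mul hV hM u) x * φ x := by
    rw [← integral_add]
    · apply integral_congr_ae
      filter_upwards [P5_mul_coe hV hM u] with x hx
      simp only [hx]
      ring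
    · have h1 := P5_int u (-(Δ φ) + ((k : ℂ) ^ 2) • φ)
      refine h1.congr (Filter.Eventually.of_forall fun x => ?_)
      simp
    · exact P5_int _ φ
  have e2 : ∫ x, (f - P5_mul hV hM u) x * φ x = (∫ x, f x * φ x) -
      ∫ x, (P5_mul hV hM u) x * φ x := by
    rw [← integral_sub (P5_int f φ) (P5_int _ φ)]
    apply integral_congr_ae
    filter_upwards [Lp.coeFn_sub f (P5_mul hV hM u)] with x hx
    rw [hx, Pi.sub_apply]
    ring
  rw [e1, e2]
  constructor
  · intro h
    rw [← h]; ring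
  · intro h
    rw [h]; ring

end

theorem resolventExistsUnique (h : FreeResolvent) : ResolventExistsUnique := by
  intro V hV M hM k hk hMk f
  obtain ⟨R₀, hR, hR'⟩ := h k hk
  have hM0 : 0 ≤ M := (abs_nonneg _).trans (hM 0)
  have hk2 : 0 < k ^ 2 := by positivity
  set MV := P5_mul hV hM with hMV
  have hT : ‖-(R₀ * MV)‖ < 1 := by
    rw [norm_neg]
    calc ‖R₀ * MV‖ ≤ ‖R₀‖ * ‖MV‖ := norm_mul_le _ _
      _ ≤ (1 / k ^ 2) * M := mul_le_mul hR (P5_mul_norm hV hM hM0) (norm_nonneg _) (by positivity)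
      _ < 1 := by
        rw [one_div, inv_mul_lt_iff₀ hk2, mul_one]
        exact hMk
  have hunit : IsUnit (1 - -(R₀ * MV)) := isUnit_one_sub_of_norm_lt_one hT
  obtain ⟨S, hS⟩ := hunit
  have key : ∀ u : L2, IsResolvent V k f u ↔ (1 - -(R₀ * MV)) u = R₀ f := by
    intro u
    rw [P5_iff hV hM k f u, hR' (f - MV u) u, map_sub]
    have : (1 - -(R₀ * MV)) u = u + R₀ (MV u) := by
      simp [sub_neg_eq_add]
    rw [this]
    constructor
    · intro h1
      nth_rw 1 [h1]
      abel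
    · intro h1
      rw [← h1]
      abel
  refine ⟨(↑S⁻¹ : L2 →L[ℂ] L2) (R₀ f), ?_, ?_⟩
  · show IsResolvent V k f _
    rw [key, ← hS, ← ContinuousLinearMap.mul_apply, Units.mul_inv]
    rfl
  · intro v hv
    rw [key, ← hS] at hv
    rw [← hv, ← ContinuousLinearMap.mul_apply, Units.inv_mul]
    rfl

end Pool.Agent.Work.MP_f2af60_mp
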