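import Pool.Agent.Work.MP_f2af60_mp.PoleDefs

/-!
# MP_f2af60_mp, item P4: the free resolvent on `L²`
-/

namespace Pool.Agent.Work.MP_f2af60_mp

open MeasureTheory FourierTransform TemperedDistribution
open scoped SchwartzMap Laplacian ENNReal

/-- The multiplier `1 / (4 π² |ξ|² + k²)`, written in a form suited for `fun_prop`. -/
noncomputable def P4g (k : ℝ) (ξ : E5) : ℂ :=
  (((k ^ 2)⁻¹ * (1 + ‖(2 * Real.pi / k) • ξ‖ ^ 2) ^ (-1 : ℝ) : ℝ) : ℂ)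

/-- The multiplier `4 π² |ξ|² + k²`. -/
noncomputable def P4h (k : ℝ) (ξ : E5) : ℂ :=
  ((2 * Real.pi) ^ 2 : ℂ) * ((‖ξ‖ ^ 2 : ℝ) : ℂ) + (k : ℂ) ^ 2

theorem P4h_growth (k : ℝ) : Function.HasTemperateGrowth (P4h k) := by
  unfold P4h
  fun_prop

theorem P4g_growth (k : ℝ) : Function.HasTemperateGrowth (P4g k) := by
  have h1 : Function.HasTemperateGrowth (fun ξ : E5 => (2 * Real.pi / k) • ξ) := by fun_prop
  have h2 : Function.HasTemperateGrowth (fun ξ : E5 => (1 + ‖ξ‖ ^ 2) ^ (-1 : ℝ)) := by fun_prop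
  have h3 := h2.comp h1
  have h4 : Function.HasTemperateGrowth
      (fun ξ : E5 => (k ^ 2)⁻¹ * (1 + ‖(2 * Real.pi / k) • ξ‖ ^ 2) ^ (-1 : ℝ)) :=
    (Function.HasTemperateGrowth.const _).mul h3
  exact Function.HasTemperateGrowth.comp (g := Complex.ofReal) (by fun_prop) h4

theorem P4_mul (k : ℝ) (hk : 0 < k) (ξ : E5) : P4g k ξ * P4h k ξ = 1 := by
  unfold P4g P4h
  have h0 : ((2 * Real.pi) ^ 2 : ℂ) * ((‖ξ‖ ^ 2 : ℝ) : ℂ) + (k : ℂ) ^ 2 =
      (((2 * Real.pi) ^ 2 * ‖ξ‖ ^ 2 + k ^ 2 : ℝ) : ℂ) := by push_cast; ring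
  rw [h0, ← Complex.ofReal_mul]
  have hn : ‖(2 * Real.pi / k) • ξ‖ = 2 * Real.pi / k * ‖ξ‖ := by
    rw [norm_smul, Real.norm_of_nonneg (by positivity)]
  rw [hn, Real.rpow_neg_one]
  have h1 : (k ^ 2)⁻¹ * (1 + (2 * Real.pi / k * ‖ξ‖) ^ 2)⁻¹ *
      ((2 * Real.pi) ^ 2 * ‖ξ‖ ^ 2 + k ^ 2) = 1 := by
    have hpos : 0 < 1 + (2 * Real.pi / k * ‖ξ‖) ^ 2 := by positivity
    have e : (2 * Real.pi) ^ 2 * ‖ξ‖ ^ 2 + k ^ 2 = k ^ 2 * (1 + (2 * Real.pi / k * ‖ξ‖) ^ 2) := by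
      field_simp
      ring
    rw [e]
    field_simp
  rw [h1]; simp

theorem P4g_bound (k : ℝ) (hk : 0 < k) (ξ : E5) : ‖P4g k ξ‖ ≤ 1 / k ^ 2 := by
  unfold P4g
  rw [Complex.norm_real, Real.norm_of_nonneg (by positivity), Real.rpow_neg_one, one_div]
  have : (1 + ‖(2 * Real.pi / k) • ξ‖ ^ 2)⁻¹ ≤ 1 := by
    apply inv_le_one_of_one_le₀
    have := sq_nonneg ‖(2 * Real.pi / k) • ξ‖
    linarith
  exact mul_le_of_le_one_right (by positivity) this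

/-- The class of the multiplier in `L^∞`. -/
theorem P4gL (k : ℝ) (hk : 0 < k) : MemLp (P4g k) ∞ (volume : Measure E5) :=
  memLp_top_of_bound (P4g_growth k).1.continuous.aestronglyMeasurable (1 / k ^ 2)
    (Filter.Eventually.of_forall (P4g_bound k hk))

theorem P4gL_norm (k : ℝ) (hk : 0 < k) : ‖(P4gL k hk).toLp‖ ≤ 1 / k ^ 2 := by
  rw [Lp.norm_toLp]
  apply ENNReal.toReal_le_of_le_ofReal (by positivity)
  rw [eLpNorm_exponent_top]
  exact eLpNormEssSup_le_of_ae_bound (Filter.Eventually.of_forall (P4g_bound k hk))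

/-- The free resolvent. -/
noncomputable def P4R (k : ℝ) (hk : 0 < k) : L2 →L[ℂ] L2 :=
  LinearMap.mkContinuous
    { toFun := fun f => 𝓕⁻ ((((P4gL k hk).toLp) • (𝓕 f : L2) : L2))
      map_add' := fun f g => by
        rw [FourierTransform.fourier_add, Lp.add_smul, FourierTransform.fourierInv_add]
      map_smul' := fun c f => by
        rw [FourierTransform.fourier_smul, ← Lp.smul_comm, FourierTransform.fourierInv_smul,
          RingHom.id_apply] } (1 / k ^ 2) (fun f => by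
      show ‖(𝓕⁻ ((((P4gL k hk).toLp) • (𝓕 f : L2) : L2)) : L2)‖ ≤ 1 / k ^ 2 * ‖f‖
      have h1 : ‖(𝓕⁻ ((((P4gL k hk).toLp) • (𝓕 f : L2) : L2)) : L2)‖ =
          ‖(((P4gL k hk).toLp) • (𝓕 f : L2) : L2)‖ :=
        (Lp.fourierTransformₗᵢ E5 ℂ).symm.norm_map _
      rw [h1]
      refine (Lp.norm_smul_le _ _).trans ?_
      rw [Lp.norm_fourier_eq]
      exact mul_le_mul_of_nonneg_right (P4gL_norm k hk) (norm_nonneg _))

theorem P4R_apply (k : ℝ) (hk : 0 < k) (f : L2) :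
    P4R k hk f = 𝓕⁻ ((((P4gL k hk).toLp) • (𝓕 f : L2) : L2)) := rfl

theorem P4R_dist (k : ℝ) (hk : 0 < k) (f : L2) :
    ((P4R k hk f : L2) : 𝓢'(E5, ℂ)) = fourierMultiplierCLM ℂ (P4g k) (f : 𝓢'(E5, ℂ)) := by
  rw [P4R_apply, ← Lp.fourierInv_toTemperedDistribution_eq,
    MeasureTheory.Lp.toTemperedDistribution_smul_eq (P4g_growth k),
    fourierMultiplierCLM_apply, Lp.fourier_toTemperedDistribution_eq]

theorem P4_helm (k : ℝ) (U : 𝓢'(E5, ℂ)) :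
    fourierMultiplierCLM ℂ (P4h k) U = - (Δ U) + ((k : ℂ) ^ 2) • U := by
  rw [laplacian_eq_fourierMultiplierCLM]
  have h1 : P4h k = (((2 * Real.pi) ^ 2 : ℂ) • (fun ξ : E5 => ((‖ξ‖ ^ 2 : ℝ) : ℂ))) +
      (fun _ : E5 => (k : ℂ) ^ 2) := by
    ext ξ
    simp [P4h]
  have h2 : Function.HasTemperateGrowth (fun ξ : E5 => ((‖ξ‖ ^ 2 : ℝ) : ℂ)) := by fun_prop
  have h3 : Function.HasTemperateGrowth
      (((2 * Real.pi) ^ 2 : ℂ) • (fun ξ : E5 => ((‖ξ‖ ^ 2 : ℝ) : ℂ))) := by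
    have : (((2 * Real.pi) ^ 2 : ℂ) • (fun ξ : E5 => ((‖ξ‖ ^ 2 : ℝ) : ℂ))) =
        fun ξ : E5 => ((2 * Real.pi) ^ 2 : ℂ) * ((‖ξ‖ ^ 2 : ℝ) : ℂ) := rfl
    rw [this]
    fun_prop
  rw [fourierMultiplierCLM_apply, h1, smulLeftCLM_add h3 (Function.HasTemperateGrowth.const _),
    smulLeftCLM_smul h2]
  simp only [add_apply, smul_apply, smulLeftCLM_const]
  rw [FourierTransform.fourierInv_add, FourierTransform.fourierInv_smul,
    FourierTransform.fourierInv_smul, FourierTransform.fourierInv_fourier_eq,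
    ← fourierMultiplierCLM_apply, neg_smul, neg_neg]
  congr 1
  rw [← Complex.coe_smul]
  push_cast
  rfl

theorem P4_inj (u v : L2) (h : (u : 𝓢'(E5, ℂ)) = (v : 𝓢'(E5, ℂ))) : u = v := by
  have hk := Lp.ker_toTemperedDistributionCLM_eq_bot (E := E5) (F := ℂ) (p := 2)
    (μ := (volume : Measure E5))
  have h1 : u - v ∈ (Lp.toTemperedDistributionCLM ℂ (volume : Measure E5) 2).ker := by
    rw [LinearMap.mem_ker]
    show Lp.toTemperedDistributionCLM ℂ (volume : Measure E5) 2 (u - v) = 0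
    rw [map_sub, Lp.toTemperedDistributionCLM_apply, Lp.toTemperedDistributionCLM_apply, h, sub_self]
  rw [hk, Submodule.mem_bot] at h1
  exact sub_eq_zero.mp h1

/-- P4: the free resolvent on `L²`. -/
theorem freeResolvent : FreeResolvent := by
  intro k hk
  refine ⟨P4R k hk, LinearMap.mkContinuous_norm_le _ (by positivity) _, fun f u => ?_⟩
  have i1 : ∀ φ : 𝓢(E5, ℂ), (∫ x : E5, (-(Δ φ) + ((k : ℂ) ^ 2) • φ) x • u x) =
      ∫ x, u x * (-(Δ φ) x + (k : ℂ) ^ 2 * φ x) := fun φ =>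
    integral_congr_ae (Filter.Eventually.of_forall fun x => by
      simp [mul_comm])
  have i2 : ∀ φ : 𝓢(E5, ℂ), (∫ x : E5, φ x • f x) = ∫ x, f x * φ x := fun φ =>
    integral_congr_ae (Filter.Eventually.of_forall fun x => by
      simp [mul_comm])
  have e1 : ∀ φ : 𝓢(E5, ℂ), (-(Δ (u : 𝓢'(E5, ℂ))) + ((k : ℂ) ^ 2) • (u : 𝓢'(E5, ℂ))) φ =
      (u : 𝓢'(E5, ℂ)) (-(Δ φ) + ((k : ℂ) ^ 2) • φ) := by
    intro φ
    rw [map_add, map_neg, map_smul]
    simp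
  have h1 : (∀ φ : 𝓢(E5, ℂ), ∫ x, u x * (-(Δ φ) x + (k : ℂ) ^ 2 * φ x) = ∫ x, f x * φ x) ↔
      fourierMultiplierCLM ℂ (P4h k) (u : 𝓢'(E5, ℂ)) = (f : 𝓢'(E5, ℂ)) := by
    rw [P4_helm]
    constructor
    · intro h
      ext φ
      rw [e1, Lp.toTemperedDistribution_apply, Lp.toTemperedDistribution_apply]
      exact (i1 φ).trans ((h φ).trans (i2 φ).symm)
    · intro h φ
      have h2 := DFunLike.congr_fun h φ
      rw [e1, Lp.toTemperedDistribution_apply, Lp.toTemperedDistribution_apply] at h2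
      exact (i1 φ).symm.trans (h2.trans (i2 φ))
  rw [h1]
  have hgh : P4h k * P4g k = fun _ : E5 => (1 : ℂ) := by
    ext ξ
    rw [Pi.mul_apply, mul_comm, P4_mul k hk]
  have hhg : P4g k * P4h k = fun _ : E5 => (1 : ℂ) := by
    ext ξ
    rw [Pi.mul_apply, P4_mul k hk]
  constructor
  · intro h
    apply P4_inj
    rw [P4R_dist, ← h,
      fourierMultiplierCLM_fourierMultiplierCLM_apply (P4h_growth k) (P4g_growth k), hgh]
    simp
  · intro h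
    rw [h, P4R_dist,
      fourierMultiplierCLM_fourierMultiplierCLM_apply (P4g_growth k) (P4h_growth k), hhg]
    simp

end Pool.Agent.Work.MP_f2af60_mp
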