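import Pool.Agent.Work.MP_f2af60_mp.PoleDefs

/-!
# MP_f2af60_mp, pole item P3: the kernel `G (i k)` is the fundamental solution of `-Δ + k²`

Integrate the heat kernel against `e^{-k² t}`, use its Fourier representation and Fubini twice.
-/

namespace Pool.Agent.Work.MP_f2af60_mp

open MeasureTheory
open scoped SchwartzMap Laplacian FourierTransform

theorem pole3_fourier_laplacian (φ : 𝓢(E5, ℂ)) (ξ : E5) :
    (𝓕 (Δ φ)) ξ = -(4 * (Real.pi : ℂ) ^ 2 * (‖ξ‖ : ℂ) ^ 2) * (𝓕 φ) ξ := by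
  rw [SchwartzMap.laplacian_eq_fourierMultiplierCLM, SchwartzMap.fourierMultiplierCLM_apply,
    FourierTransform.fourier_smul, FourierTransform.fourier_fourierInv_eq, smul_apply,
    SchwartzMap.smulLeftCLM_apply_apply (by fun_prop)]
  simp only [Complex.real_smul]
  push_cast
  ring

/-- The heat kernel. -/
noncomputable def pole3_p (t : ℝ) (x : E5) : ℝ :=
  ((4 * Real.pi * t) ^ (5 / 2 : ℝ))⁻¹ * Real.exp (-(‖x‖ ^ 2 / (4 * t)))

theorem pole3_p_nonneg (t : ℝ) (ht : 0 < t) (x : E5) : 0 ≤ pole3_p t x := by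
  unfold pole3_p
  have := Real.pi_pos
  positivity

theorem pole3_mass (t : ℝ) (ht : 0 < t) (y : E5) :
    Integrable (fun x => pole3_p t (x - y)) ∧ ∫ x, pole3_p t (x - y) = 1 := by
  have hpi := Real.pi_pos
  have h1 := GaussianFourier.integral_rexp_neg_mul_sq_norm (V := E5) (b := 1 / (4 * t))
    (by positivity)
  have h2 : (fun v : E5 => Real.exp (-(1 / (4 * t)) * ‖v‖ ^ 2)) =
      fun v => Real.exp (-(‖v‖ ^ 2 / (4 * t))) := by
    funext v
    congr 1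
    ring
  rw [h2] at h1
  have h3 : (Real.pi / (1 / (4 * t))) ^ ((Module.finrank ℝ E5 : ℝ) / 2) =
      (4 * Real.pi * t) ^ (5 / 2 : ℝ) := by
    rw [finrank_euclideanSpace_fin]
    congr 1
    field_simp
  rw [h3] at h1
  have h4 : 0 < (4 * Real.pi * t) ^ (5 / 2 : ℝ) := Real.rpow_pos_of_pos (by positivity) _
  have h5 : Integrable (fun v : E5 => Real.exp (-(‖v‖ ^ 2 / (4 * t)))) := by
    by_contra h
    rw [integral_undef h] at h1
    exact h4.ne h1
  have h6 : Integrable (pole3_p t) := h5.const_mul _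
  have h7 : ∫ x, pole3_p t x = 1 := by
    unfold pole3_p
    rw [integral_const_mul, h1, inv_mul_cancel₀ h4.ne']
  exact ⟨h6.comp_sub_right y, by rw [integral_sub_right_eq_self (pole3_p t) y, h7]⟩

theorem pole3_G (h1 : HeatIntegral) (k : ℝ) (hk : 0 < k) (x : E5) (hx : x ≠ 0) :
    G (Complex.I * (k : ℂ)) x =
      ((∫ t in Set.Ioi (0 : ℝ), pole3_p t x * Real.exp (-(k ^ 2 * t)) : ℝ) : ℂ) := by
  have hx0 : 0 < ‖x‖ := norm_pos_iff.2 hx
  have h2 := (h1 k ‖x‖ hk hx0).2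
  have h3 : (fun t : ℝ => pole3_p t x * Real.exp (-(k ^ 2 * t))) =
      fun t : ℝ => ((4 * Real.pi * t) ^ (5 / 2 : ℝ))⁻¹ *
        Real.exp (-(‖x‖ ^ 2 / (4 * t)) - k ^ 2 * t) := by
    funext t
    rw [pole3_p, mul_assoc, ← Real.exp_add]
    rfl
  rw [h3, h2, G]
  have e1 : Complex.I * (Complex.I * (k : ℂ)) * (‖x‖ : ℂ) = -((k : ℂ) * ‖x‖) := by
    rw [← mul_assoc, Complex.I_mul_I]
    ring
  rw [e1]
  push_cast
  ring

theorem pole3_int1 (k : ℝ) (hk : 0 < k) (ψ : 𝓢(E5, ℂ)) (y : E5) :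
    Integrable (Function.uncurry fun (x : E5) (t : ℝ) =>
      ((pole3_p t (x - y) * Real.exp (-(k ^ 2 * t)) : ℝ) : ℂ) * ψ x)
      (volume.prod (volume.restrict (Set.Ioi (0 : ℝ)))) := by
  have hmeas : Measurable (Function.uncurry fun (x : E5) (t : ℝ) =>
      ((pole3_p t (x - y) * Real.exp (-(k ^ 2 * t)) : ℝ) : ℂ) * ψ x) := by
    have hψ : Measurable ψ := ψ.continuous.measurable
    unfold pole3_p Function.uncurry
    fun_prop
  obtain ⟨Cψ, hCψ⟩ : ∃ C : ℝ, ∀ x, ‖ψ x‖ ≤ C :=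
    ⟨_, ψ.toBoundedContinuousFunction.norm_coe_le_norm⟩
  have hC0 : 0 ≤ Cψ := (norm_nonneg _).trans (hCψ 0)
  have hnorm : ∀ (x : E5) (t : ℝ), 0 < t →
      ‖((pole3_p t (x - y) * Real.exp (-(k ^ 2 * t)) : ℝ) : ℂ) * ψ x‖ ≤
        (Cψ * Real.exp (-(k ^ 2 * t))) * pole3_p t (x - y) := by
    intro x t ht
    have := pole3_p_nonneg t ht (x - y)
    rw [norm_mul, Complex.norm_real, Real.norm_eq_abs, abs_of_nonneg (by positivity)]
    calc _ ≤ pole3_p t (x - y) * Real.exp (-(k ^ 2 * t)) * Cψ :=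
          mul_le_mul_of_nonneg_left (hCψ x) (by positivity)
      _ = _ := by ring
  rw [integrable_prod_iff' hmeas.aestronglyMeasurable]
  constructor
  · rw [ae_restrict_iff' measurableSet_Ioi]
    refine Filter.Eventually.of_forall fun t ht => ?_
    refine Integrable.mono' ((pole3_mass t ht y).1.const_mul (Cψ * Real.exp (-(k ^ 2 * t)))) ?_ ?_
    · exact (hmeas.comp (measurable_id.prodMk measurable_const)).aestronglyMeasurable
    · exact Filter.Eventually.of_forall fun x => hnorm x t ht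
  · have hbound : Integrable (fun t : ℝ => Cψ * Real.exp (-(k ^ 2) * t))
        (volume.restrict (Set.Ioi (0 : ℝ))) :=
      (exp_neg_integrableOn_Ioi 0 (by positivity)).const_mul Cψ
    refine Integrable.mono' hbound ?_ ?_
    · exact (hmeas.norm.aestronglyMeasurable (μ := (volume.restrict (Set.Ioi (0 : ℝ))).prod volume
        |>.map Prod.swap)).comp_measurable measurable_swap |>.integral_prod_right'
    · rw [ae_restrict_iff' measurableSet_Ioi]
      refine Filter.Eventually.of_forall fun t ht => ?_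
      rw [Real.norm_eq_abs, abs_of_nonneg (integral_nonneg fun x => norm_nonneg _)]
      calc _ ≤ ∫ x, (Cψ * Real.exp (-(k ^ 2 * t))) * pole3_p t (x - y) := by
            apply integral_mono_of_nonneg
            · exact Filter.Eventually.of_forall fun x => norm_nonneg _
            · exact (pole3_mass t ht y).1.const_mul _
            · exact Filter.Eventually.of_forall fun x => hnorm x t ht
        _ = Cψ * Real.exp (-(k ^ 2) * t) := by
            rw [integral_const_mul, (pole3_mass t ht y).2, mul_one]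
            congr 2
            ring

theorem pole3_int2 (k : ℝ) (hk : 0 < k) (g : E5 → ℂ) (hg : Integrable g) :
    Integrable (Function.uncurry fun (t : ℝ) (ξ : E5) =>
      (((4 * Real.pi ^ 2 * ‖ξ‖ ^ 2 + k ^ 2) *
        Real.exp (-((4 * Real.pi ^ 2 * ‖ξ‖ ^ 2 + k ^ 2) * t)) : ℝ) : ℂ) * g ξ)
      ((volume.restrict (Set.Ioi (0 : ℝ))).prod volume) := by
  have hm : AEStronglyMeasurable (Function.uncurry fun (t : ℝ) (ξ : E5) =>
      (((4 * Real.pi ^ 2 * ‖ξ‖ ^ 2 + k ^ 2) *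
        Real.exp (-((4 * Real.pi ^ 2 * ‖ξ‖ ^ 2 + k ^ 2) * t)) : ℝ) : ℂ) * g ξ)
      ((volume.restrict (Set.Ioi (0 : ℝ))).prod volume) := by
    refine AEStronglyMeasurable.mul ?_ hg.1.comp_snd
    apply Measurable.aestronglyMeasurable
    fun_prop
  rw [integrable_prod_iff' hm]
  have ha : ∀ ξ : E5, 0 < 4 * Real.pi ^ 2 * ‖ξ‖ ^ 2 + k ^ 2 := fun ξ => by positivity
  have hint : ∀ a : ℝ, 0 < a → Integrable (fun t : ℝ => a * Real.exp (-(a * t)))
      (volume.restrict (Set.Ioi (0 : ℝ))) := by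
    intro a h
    have := (exp_neg_integrableOn_Ioi 0 h).const_mul a
    simpa only [neg_mul] using this
  constructor
  · refine Filter.Eventually.of_forall fun ξ => ?_
    exact ((hint _ (ha ξ)).ofReal (𝕜 := ℂ)).mul_const (g ξ)
  · have h1 : (fun ξ : E5 => ∫ t in Set.Ioi (0 : ℝ),
        ‖Function.uncurry (fun (t : ℝ) (ξ : E5) =>
      (((4 * Real.pi ^ 2 * ‖ξ‖ ^ 2 + k ^ 2) *
        Real.exp (-((4 * Real.pi ^ 2 * ‖ξ‖ ^ 2 + k ^ 2) * t)) : ℝ) : ℂ) * g ξ) (t, ξ)‖) =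
        fun ξ => ‖g ξ‖ := by
      funext ξ
      simp only [Function.uncurry_apply_pair, norm_mul, Complex.norm_real, Real.norm_eq_abs]
      rw [integral_mul_const]
      have h2 : ∫ t in Set.Ioi (0 : ℝ), |4 * Real.pi ^ 2 * ‖ξ‖ ^ 2 + k ^ 2| *
          |Real.exp (-((4 * Real.pi ^ 2 * ‖ξ‖ ^ 2 + k ^ 2) * t))| = 1 := by
        have h3 : ∀ t : ℝ, |4 * Real.pi ^ 2 * ‖ξ‖ ^ 2 + k ^ 2| *
          |Real.exp (-((4 * Real.pi ^ 2 * ‖ξ‖ ^ 2 + k ^ 2) * t))| =
          (4 * Real.pi ^ 2 * ‖ξ‖ ^ 2 + k ^ 2) *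
            Real.exp (-(4 * Real.pi ^ 2 * ‖ξ‖ ^ 2 + k ^ 2) * t) := by
          intro t
          rw [abs_of_pos (ha ξ), abs_of_pos (Real.exp_pos _), neg_mul]
        simp only [h3]
        rw [integral_const_mul, integral_exp_mul_Ioi (neg_lt_zero.2 (ha ξ))]
        have := (ha ξ).ne'
        simp only [mul_zero, Real.exp_zero]
        field_simp
      rw [h2, one_mul]
    rw [h1]
    exact hg.norm

/-- P3: the kernel `G (i k)` is the fundamental solution of `-Δ + k²`. -/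
theorem fundamental (h1 : HeatIntegral) (h2 : HeatFourier) : Fundamental := by
  intro k hk φ y
  set ψ : 𝓢(E5, ℂ) := -(Δ φ) + (k : ℂ) ^ 2 • φ with hψ
  have hψx : ∀ x, ψ x = -(Δ φ) x + (k : ℂ) ^ 2 * φ x := fun x => rfl
  have hFψ : ∀ ξ, (𝓕 ψ) ξ = ((4 * Real.pi ^ 2 * ‖ξ‖ ^ 2 + k ^ 2 : ℝ) : ℂ) * (𝓕 φ) ξ := by
    intro ξ
    rw [hψ, FourierTransform.fourier_add, FourierTransform.fourier_neg,
      FourierTransform.fourier_smul]
    show -((𝓕 (Δ φ)) ξ) + (k : ℂ) ^ 2 * (𝓕 φ) ξ = _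
    rw [pole3_fourier_laplacian]
    push_cast
    ring
  -- step 1
  have s1 : ∫ x, G (Complex.I * (k : ℂ)) (x - y) * (-(Δ φ) x + (k : ℂ) ^ 2 * φ x) =
      ∫ x, ∫ t in Set.Ioi (0 : ℝ),
        ((pole3_p t (x - y) * Real.exp (-(k ^ 2 * t)) : ℝ) : ℂ) * ψ x := by
    apply integral_congr_ae
    have hne : ∀ᵐ x : E5, x ≠ y := by
      rw [ae_iff]
      simp
    filter_upwards [hne] with x hx
    rw [pole3_G h1 k hk (x - y) (sub_ne_zero.2 hx), ← hψx, ← integral_complex_ofReal]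
    exact (integral_mul_const (ψ x) _).symm
  rw [s1, integral_integral_swap (pole3_int1 k hk ψ y)]
  -- step 2
  set g : E5 → ℂ := fun ξ => Complex.exp (2 * Real.pi * Complex.I * (inner ℝ ξ y : ℝ)) *
    (𝓕 φ) ξ with hg
  have hgi : Integrable g := by
    refine (SchwartzMap.integrable (𝓕 φ)).bdd_mul (c := 1) ?_ ?_
    · apply Continuous.aestronglyMeasurable
      fun_prop
    · refine Filter.Eventually.of_forall fun ξ => ?_
      rw [show (2 * Real.pi * Complex.I * (inner ℝ ξ y : ℝ) : ℂ) =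
        ((2 * Real.pi * inner ℝ ξ y : ℝ) : ℂ) * Complex.I by push_cast; ring,
        Complex.norm_exp_ofReal_mul_I]
  have s2 : ∫ t in Set.Ioi (0 : ℝ), ∫ x,
        ((pole3_p t (x - y) * Real.exp (-(k ^ 2 * t)) : ℝ) : ℂ) * ψ x =
      ∫ t in Set.Ioi (0 : ℝ), ∫ ξ : E5, (((4 * Real.pi ^ 2 * ‖ξ‖ ^ 2 + k ^ 2) *
        Real.exp (-((4 * Real.pi ^ 2 * ‖ξ‖ ^ 2 + k ^ 2) * t)) : ℝ) : ℂ) * g ξ := by
    apply setIntegral_congr_fun measurableSet_Ioi
    intro t ht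
    have e1 := h2 t ht ψ y
    have e2 : ∀ x, ((pole3_p t (x - y) * Real.exp (-(k ^ 2 * t)) : ℝ) : ℂ) * ψ x =
        ((Real.exp (-(k ^ 2 * t)) : ℝ) : ℂ) * (((((4 * Real.pi * t) ^ (5 / 2 : ℝ))⁻¹ *
          Real.exp (-(‖x - y‖ ^ 2 / (4 * t))) : ℝ) : ℂ) * ψ x) := by
      intro x
      rw [pole3_p]
      push_cast
      ring
    show ∫ x, ((pole3_p t (x - y) * Real.exp (-(k ^ 2 * t)) : ℝ) : ℂ) * ψ x = _
    simp only [e2]
    rw [integral_const_mul, e1, ← integral_const_mul]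
    apply integral_congr_ae
    refine Filter.Eventually.of_forall fun ξ => ?_
    show _ = (((4 * Real.pi ^ 2 * ‖ξ‖ ^ 2 + k ^ 2) *
        Real.exp (-((4 * Real.pi ^ 2 * ‖ξ‖ ^ 2 + k ^ 2) * t)) : ℝ) : ℂ) * g ξ
    simp only [hFψ, hg]
    rw [show -((4 * Real.pi ^ 2 * ‖ξ‖ ^ 2 + k ^ 2) * t) =
      -(k ^ 2 * t) + -(4 * Real.pi ^ 2 * t * ‖ξ‖ ^ 2) by ring, Real.exp_add]
    push_cast
    ring
  rw [s2, integral_integral_swap (pole3_int2 k hk g hgi)]
  -- step 3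
  have ha : ∀ ξ : E5, 0 < 4 * Real.pi ^ 2 * ‖ξ‖ ^ 2 + k ^ 2 := fun ξ => by positivity
  have s3 : ∀ ξ : E5, ∫ t in Set.Ioi (0 : ℝ), (((4 * Real.pi ^ 2 * ‖ξ‖ ^ 2 + k ^ 2) *
        Real.exp (-((4 * Real.pi ^ 2 * ‖ξ‖ ^ 2 + k ^ 2) * t)) : ℝ) : ℂ) * g ξ = g ξ := by
    intro ξ
    have e3 := ha ξ
    set a := 4 * Real.pi ^ 2 * ‖ξ‖ ^ 2 + k ^ 2 with haa
    rw [integral_mul_const, integral_complex_ofReal]
    have e4 : ∫ t in Set.Ioi (0 : ℝ), a * Real.exp (-(a * t)) = 1 := by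
      have e5 : ∀ t : ℝ, a * Real.exp (-(a * t)) = a * Real.exp (-a * t) := fun t => by
        rw [neg_mul]
      simp only [e5]
      rw [integral_const_mul, integral_exp_mul_Ioi (neg_lt_zero.2 e3)]
      simp only [mul_zero, Real.exp_zero]
      field_simp
    rw [e4]
    simp
  simp only [s3]
  -- step 4
  have s4 : (𝓕⁻ (𝓕 φ : 𝓢(E5, ℂ)) : 𝓢(E5, ℂ)) y = φ y := by
    rw [FourierTransform.fourierInv_fourier_eq]
  rw [← s4, SchwartzMap.fourierInv_coe, Real.fourierInv_eq']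
  apply integral_congr_ae
  refine Filter.Eventually.of_forall fun ξ => ?_
  simp only [hg, smul_eq_mul]
  congr 2
  push_cast
  ring

end Pool.Agent.Work.MP_f2af60_mp
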