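import Pool.Agent.Work.MP_f2af60_mp.PoleDefs

/-!
# MP_f2af60_mp: the heat kernel on the Fourier side (P2)
-/

namespace Pool.Agent.Work.MP_f2af60_mp

open MeasureTheory
open scoped SchwartzMap FourierTransform InnerProductSpace

theorem heatFourier : HeatFourier := by
  intro t ht φ y
  have hb : 0 < ((4 * Real.pi ^ 2 * t : ℝ) : ℂ).re := by
    rw [Complex.ofReal_re]; positivity
  have J : Integrable (fun w : E5 ↦ Complex.exp (-((4 * Real.pi ^ 2 * t : ℝ) : ℂ) * ‖w‖ ^ 2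
      + 2 * Real.pi * Complex.I * ⟪y, w⟫_ℝ)) :=
    GaussianFourier.integrable_cexp_neg_mul_sq_norm_add hb _ _
  have key := VectorFourier.integral_fourierIntegral_smul_eq_flip (L := innerₗ E5)
      Real.continuous_fourierChar continuous_inner J (φ.integrable (μ := volume))
  have key' : ∫ w : E5, 𝓕 (fun w : E5 ↦ Complex.exp (-((4 * Real.pi ^ 2 * t : ℝ) : ℂ) * ‖w‖ ^ 2
      + 2 * Real.pi * Complex.I * ⟪y, w⟫_ℝ)) w • φ w =
      ∫ w : E5, Complex.exp (-((4 * Real.pi ^ 2 * t : ℝ) : ℂ) * ‖w‖ ^ 2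
      + 2 * Real.pi * Complex.I * ⟪y, w⟫_ℝ) • 𝓕 (fun x => φ x) w := by
    simpa using! key
  have hL : ∫ x : E5, (((((4 * Real.pi * t) ^ (5 / 2 : ℝ))⁻¹ *
      Real.exp (-(‖x - y‖ ^ 2 / (4 * t))) : ℝ)) : ℂ) * φ x =
      ∫ w : E5, 𝓕 (fun w : E5 ↦ Complex.exp (-((4 * Real.pi ^ 2 * t : ℝ) : ℂ) * ‖w‖ ^ 2
      + 2 * Real.pi * Complex.I * ⟪y, w⟫_ℝ)) w • φ w := by
    congr 1
    ext w
    rw [fourier_gaussian_innerProductSpace' hb, smul_eq_mul]
    congr 1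
    have hpi : (Real.pi : ℝ) ≠ 0 := Real.pi_ne_zero
    have h1 : ((Real.pi : ℂ) / ((4 * Real.pi ^ 2 * t : ℝ) : ℂ)) =
        (((4 * Real.pi * t)⁻¹ : ℝ) : ℂ) := by
      push_cast
      have : (Real.pi : ℂ) ≠ 0 := by exact_mod_cast hpi
      have : (t : ℂ) ≠ 0 := by exact_mod_cast ht.ne'
      field_simp
    have h2 : ((Module.finrank ℝ E5 : ℕ) / 2 : ℂ) = ((5 / 2 : ℝ) : ℂ) := by
      have : Module.finrank ℝ E5 = 5 := by simp [E5]
      rw [this]; push_cast; norm_num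
    rw [h1, h2, ← Complex.ofReal_cpow (by positivity)]
    rw [Real.inv_rpow (by positivity)]
    push_cast
    congr 1
    rw [norm_sub_rev w y]
    congr 1
    have : (Real.pi : ℂ) ≠ 0 := by exact_mod_cast hpi
    have : (t : ℂ) ≠ 0 := by exact_mod_cast ht.ne'
    field_simp
  rw [hL, key']
  congr 1
  ext ξ
  rw [smul_eq_mul, Complex.exp_add, mul_assoc]
  have e1 : Complex.exp (-((4 * Real.pi ^ 2 * t : ℝ) : ℂ) * ‖ξ‖ ^ 2) =
      ((Real.exp (-(4 * Real.pi ^ 2 * t * ‖ξ‖ ^ 2)) : ℝ) : ℂ) := by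
    push_cast
    congr 1
    ring
  rw [e1, real_inner_comm]
  rfl

end Pool.Agent.Work.MP_f2af60_mp
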