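import Pool.Agent.Work.MP_f2af60_mp.PoleMain
import Pool.Agent.Work.MP_f2af60_mp.Bd.B01
import Pool.Agent.Work.MP_f2af60_mp.PoleHeatFou
import Pool.Agent.Work.MP_f2af60_mp.PoleFund
import Pool.Agent.Work.MP_f2af60_mp.PoleFree
import Pool.Agent.Work.MP_f2af60_mp.PoleExU
import Pool.Agent.Work.MP_f2af60_mp.Bd.B04

/-!
# MP_f2af60_mp: infinitely many resonances in dimension five, as poles of the continued resolvent
-/

namespace Pool.Agent.Work.MP_f2af60_mp

open MeasureTheory Metric Filter Topology

/-- The resolvent only depends on the potential up to almost everywhere equality. -/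
theorem isResolvent_congr (V W : E5 → ℝ) (h : V =ᵐ[volume] W) (k : ℝ) (f u : L2) :
    IsResolvent V k f u ↔ IsResolvent W k f u := by
  refine forall_congr' fun φ => ?_
  have : ∫ x, u x * (-(Laplacian.laplacian φ) x + ((V x : ℂ) + (k : ℂ) ^ 2) * φ x) =
      ∫ x, u x * (-(Laplacian.laplacian φ) x + ((W x : ℂ) + (k : ℂ) ^ 2) * φ x) := by
    refine integral_congr_ae ?_
    filter_upwards [h] with x hx
    rw [hx]
  rw [this]

/-- Poles only depend on the potential up to almost everywhere equality. -/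
theorem isPole_congr (V W : E5 → ℝ) (h : V =ᵐ[volume] W) (z : ℂ) (hW : IsPole W z) :
    IsPole V z := by
  obtain ⟨f, g, hf, hg, F, ⟨hF, k₀, hk⟩, ho⟩ := hW
  refine ⟨f, g, hf, hg, F, ⟨hF, k₀, fun k hk' => ?_⟩, ho⟩
  obtain ⟨u, hu, hFu⟩ := hk k hk'
  exact ⟨u, fun v => (isResolvent_congr V W h k f v).trans (hu v), hFu⟩

/-- For every nonzero real potential in `L^∞` with compact (essential) support on `ℝ⁵`, the
meromorphic continuation of the resolvent has infinitely many poles. -/
theorem infinite_poles_five (V : E5 → ℝ) (hV : MemLp V ⊤ volume) (R : ℝ)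
    (hsupp : ∀ᵐ x, R < ‖x‖ → V x = 0) (hne : ¬ V =ᵐ[volume] 0) :
    {z : ℂ | IsPole V z}.Infinite := by
  obtain ⟨W, M, hWm, hWM, hWR, hVW⟩ := exists_representative V hV R hsupp
  have hW0 : ¬ W =ᵐ[volume] 0 := fun h => hne (hVW.trans h)
  exact (infinite_five W hWm M R hWM hWR hW0).mono fun z hz => isPole_congr V W hVW z
    (isPole_of_resonance meroInverse (fundamental heatIntegral heatFourier)
      (resolventExistsUnique freeResolvent) W hWm M R hWM hWR z hz)

end Pool.Agent.Work.MP_f2af60_mp
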