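import Pool.Agent.Work.MP_f2af60_mp.PoleDefs
import Pool.Agent.Work.MP_f2af60_mp.ImagB
import Pool.Agent.Work.MP_f2af60_mp.KerRes

/-!
# MP_f2af60_mp, pole form: the kernel representation of the resolvent
-/

namespace Pool.Agent.Work.MP_f2af60_mp

open MeasureTheory Filter Topology Metric
open scoped SchwartzMap Laplacian

theorem rep_F_integrable (F : E5 → ℂ) (hF : Measurable F) (M R : ℝ) (hM : ∀ x, ‖F x‖ ≤ M)
    (hR : ∀ x, R < ‖x‖ → F x = 0) : Integrable F := by
  have h1 : IntegrableOn F (closedBall 0 R) volume := by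
    refine IntegrableOn.of_bound (by exact measure_closedBall_lt_top) hF.aestronglyMeasurable M
      (Eventually.of_forall hM)
  have h2 : F = (closedBall (0 : E5) R).indicator F := by
    funext x
    by_cases hx : x ∈ closedBall (0 : E5) R
    · rw [Set.indicator_of_mem hx]
    · rw [Set.indicator_of_notMem hx, hR x (by simpa using hx)]
  rw [h2]
  exact h1.integrable_indicator measurableSet_closedBall

theorem rep_integrand (g F : E5 → ℂ) (hg : Integrable g) (hF : Integrable F) :
    Integrable (fun p : E5 × E5 => g (p.1 - p.2) * F p.2) (volume.prod volume) := by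
  have := hF.convolution_integrand (ContinuousLinearMap.mul ℂ ℂ) hg
    (μ := (volume : Measure E5))
  refine this.congr (Eventually.of_forall fun p => ?_)
  simp [mul_comm]

theorem rep_memLp (g F : E5 → ℂ) (hg : Integrable g) (hF : Integrable F) (M : ℝ)
    (hM : ∀ x, ‖F x‖ ≤ M) : MemLp (fun x => ∫ y, g (x - y) * F y) 2 volume := by
  have hM0 : 0 ≤ M := (norm_nonneg _).trans (hM 0)
  have h1 : Integrable (fun x => ∫ y, g (x - y) * F y) := (rep_integrand g F hg hF).integral_prod_left
  rw [memLp_two_iff_integrable_sq_norm h1.aestronglyMeasurable]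
  have hb : ∀ x, ‖∫ y, g (x - y) * F y‖ ≤ (∫ y, ‖g y‖) * M := by
    intro x
    calc ‖∫ y, g (x - y) * F y‖ ≤ ∫ y, ‖g (x - y)‖ * M := by
          refine norm_integral_le_of_norm_le ((hg.comp_sub_left x).norm.mul_const M) ?_
          refine Eventually.of_forall fun y => ?_
          rw [norm_mul]
          exact mul_le_mul_of_nonneg_left (hM y) (norm_nonneg _)
      _ = (∫ y, ‖g (x - y)‖) * M := integral_mul_const _ _
      _ = _ := by rw [integral_sub_left_eq_self (fun y => ‖g y‖) volume x]
  refine (h1.norm.mul_const ((∫ y, ‖g y‖) * M)).mono' (h1.aestronglyMeasurable.norm.pow 2) ?_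
  refine Eventually.of_forall fun x => ?_
  rw [Real.norm_of_nonneg (by positivity), sq]
  exact mul_le_mul_of_nonneg_left (hb x) (norm_nonneg _)

theorem rep_weak (h3 : Fundamental) (k : ℝ) (hk : 0 < k) (F : E5 → ℂ) (hF : Integrable F)
    (φ : 𝓢(E5, ℂ)) :
    ∫ x, (∫ y, G (Complex.I * (k : ℂ)) (x - y) * F y) * (-(Δ φ) x + (k : ℂ) ^ 2 * φ x) =
      ∫ y, F y * φ y := by
  set g : E5 → ℂ := G (Complex.I * (k : ℂ)) with hg
  have hgi : Integrable g := ImagB.int_G hk
  set ψ : 𝓢(E5, ℂ) := -(Δ φ) + ((k : ℂ) ^ 2) • φ with hψ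
  have hψx : ∀ x, -(Δ φ) x + (k : ℂ) ^ 2 * φ x = ψ x := by
    intro x
    simp [hψ]
  simp_rw [hψx]
  have h1 := rep_integrand g F hgi hF
  obtain ⟨C, hC⟩ : ∃ C, ∀ x, ‖ψ x‖ ≤ C := by
    obtain ⟨C, -, hC⟩ := ψ.decay 0 0
    exact ⟨C, fun x => by simpa using hC x⟩
  have h2 : Integrable (fun p : E5 × E5 => (g (p.1 - p.2) * F p.2) * ψ p.1)
      (volume.prod volume) := by
    refine h1.mul_bdd (c := C) ?_ (Eventually.of_forall fun p => hC p.1)
    exact (ψ.continuous.comp continuous_fst).aestronglyMeasurable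
  calc ∫ x, (∫ y, g (x - y) * F y) * ψ x = ∫ x, ∫ y, (g (x - y) * F y) * ψ x := by
        refine integral_congr_ae (Eventually.of_forall fun x => ?_)
        exact (integral_mul_const _ _).symm
    _ = ∫ y, ∫ x, (g (x - y) * F y) * ψ x := integral_integral_swap h2
    _ = ∫ y, F y * φ y := by
        refine integral_congr_ae (Eventually.of_forall fun y => ?_)
        simp only
        have h4 := h3 k hk φ y
        simp_rw [hψx] at h4
        calc ∫ x, g (x - y) * F y * ψ x = ∫ x, F y * (g (x - y) * ψ x) := by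
              refine integral_congr_ae (Eventually.of_forall fun x => ?_)
              simp only
              ring
          _ = F y * φ y := by rw [integral_const_mul, h4]

end Pool.Agent.Work.MP_f2af60_mp
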