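import Pool.Agent.Work.MP_f2af60_mp.PoleDefs
import Pool.Agent.Work.MP_f2af60_mp.Bd.B01
import Pool.Agent.Work.MP_f2af60_mp.PoleRep
import Pool.Agent.Work.MP_f2af60_mp.FinalFive

/-!
# MP_f2af60_mp, pole form: assembly
-/

namespace Pool.Agent.Work.MP_f2af60_mp

open MeasureTheory Filter Topology Metric
open scoped SchwartzMap Laplacian ComplexConjugate

section ext

variable {R : ℝ}

/-- extension by zero. -/
noncomputable def ext0 (u : C(closedBall (0 : E5) R, ℂ)) : E5 → ℂ :=
  Function.extend Subtype.val (u : closedBall (0 : E5) R → ℂ) 0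

lemma ext0_measurable (u : C(closedBall (0 : E5) R, ℂ)) : Measurable (ext0 u) :=
  (MeasurableEmbedding.subtype_coe measurableSet_closedBall).measurable_extend
    u.continuous.measurable measurable_zero

lemma ext0_coe (u : C(closedBall (0 : E5) R, ℂ)) (x : closedBall (0 : E5) R) :
    ext0 u x = u x := Subtype.val_injective.extend_apply _ _ _

lemma ext0_out (u : C(closedBall (0 : E5) R, ℂ)) (x : E5) (hx : R < ‖x‖) : ext0 u x = 0 := by
  rw [ext0, Function.extend_apply' _ _ _ (by
    rintro ⟨a, rfl⟩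
    exact absurd (mem_closedBall_zero_iff.1 a.2) (not_le.2 hx))]
  rfl

lemma ext0_bound (u : C(closedBall (0 : E5) R, ℂ)) (x : E5) : ‖ext0 u x‖ ≤ ‖u‖ := by
  by_cases hx : x ∈ closedBall (0 : E5) R
  · rw [show ext0 u x = u ⟨x, hx⟩ from ext0_coe u ⟨x, hx⟩]
    exact u.norm_coe_le_norm _
  · rw [ext0_out u x (by simpa using hx), norm_zero]
    exact norm_nonneg _

lemma integral_muB (F : E5 → ℂ) (hF : ∀ x, R < ‖x‖ → F x = 0) :
    ∫ y : closedBall (0 : E5) R, F y ∂(muB R) = ∫ y, F y := by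
  rw [muB, integral_subtype_comap measurableSet_closedBall F]
  refine setIntegral_eq_integral_of_forall_compl_eq_zero ?_
  intro y hy
  exact hF y (by simpa using hy)

end ext

/-- A bounded measurable function supported in a ball is in `L²`. -/
lemma memLp_two (F : E5 → ℂ) (hF : Measurable F) (M R : ℝ) (hM : ∀ x, ‖F x‖ ≤ M)
    (hR : ∀ x, R < ‖x‖ → F x = 0) : MemLp F 2 volume := by
  have h1 : Integrable F := rep_F_integrable F hF M R hM hR
  rw [memLp_two_iff_integrable_sq_norm hF.aestronglyMeasurable]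
  refine (h1.norm.mul_const M).mono' (hF.aestronglyMeasurable.norm.pow 2) ?_
  refine Eventually.of_forall fun x => ?_
  rw [Real.norm_of_nonneg (by positivity), sq]
  exact mul_le_mul_of_nonneg_left (hM x) (norm_nonneg _)

/-- The weak equation for the kernel representation. -/
theorem isResolvent_of_kernel (h3 : Fundamental) (R : ℝ) (V : E5 → ℝ) (hV : Measurable V)
    (M : ℝ) (hM : ∀ x, |V x| ≤ M) (hVR : ∀ x, R < ‖x‖ → V x = 0) (k : ℝ) (hk : 0 < k)
    (w v : C(closedBall (0 : E5) R, ℂ))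
    (hvw : ∀ x : closedBall (0 : E5) R,
      v x + ∫ y, G (Complex.I * (k : ℂ)) ((x : E5) - y) * ((V y : ℂ) * ext0 v y) = w x)
    (f : L2) (hf : ∀ᵐ x, f x = (V x : ℂ) * ext0 w x) :
    ∃ u : L2, IsResolvent V k f u ∧
      ∀ᵐ x, u x = ∫ y, G (Complex.I * (k : ℂ)) (x - y) * ((V y : ℂ) * ext0 v y) := by
  set F : E5 → ℂ := fun y => (V y : ℂ) * ext0 v y with hF
  have hFm : Measurable F := (Complex.measurable_ofReal.comp hV).mul (ext0_measurable v)
  have hFb : ∀ x, ‖F x‖ ≤ M * ‖v‖ := by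
    intro x
    rw [hF]
    simp only [norm_mul, Complex.norm_real, Real.norm_eq_abs]
    exact mul_le_mul (hM x) (ext0_bound v x) (norm_nonneg _) ((abs_nonneg _).trans (hM x))
  have hF0 : ∀ x, R < ‖x‖ → F x = 0 := by
    intro x hx
    simp [hF, hVR x hx]
  have hFi : Integrable F := rep_F_integrable F hFm _ R hFb hF0
  have hU := rep_memLp (G (Complex.I * (k : ℂ))) F (ImagB.int_G hk) hFi _ hFb
  set U : E5 → ℂ := fun x => ∫ y, G (Complex.I * (k : ℂ)) (x - y) * F y with hUdef
  refine ⟨hU.toLp U, ?_, hU.coeFn_toLp⟩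
  intro φ
  have hVU : ∀ x, (V x : ℂ) * U x = (V x : ℂ) * (ext0 w x - ext0 v x) := by
    intro x
    by_cases hx : R < ‖x‖
    · simp [hVR x hx]
    · have hxK : x ∈ closedBall (0 : E5) R := by
        rw [mem_closedBall_zero_iff]; exact not_lt.1 hx
      have h1 := hvw ⟨x, hxK⟩
      have h2 : ext0 w x = w ⟨x, hxK⟩ := ext0_coe w ⟨x, hxK⟩
      have h3 : ext0 v x = v ⟨x, hxK⟩ := ext0_coe v ⟨x, hxK⟩
      rw [h2, h3, ← h1]
      simp only [hUdef, hF, add_sub_cancel_left]
  set ψ : 𝓢(E5, ℂ) := -(Δ φ) + ((k : ℂ) ^ 2) • φ with hψ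
  have hψx : ∀ x, -(Δ φ) x + (k : ℂ) ^ 2 * φ x = ψ x := by
    intro x
    simp [hψ]
  have hbw : ∀ x, ‖(V x : ℂ) * (ext0 w x - ext0 v x)‖ ≤ M * (‖w‖ + ‖v‖) := by
    intro x
    simp only [norm_mul, Complex.norm_real, Real.norm_eq_abs]
    refine mul_le_mul (hM x) ((norm_sub_le _ _).trans
      (add_le_add (ext0_bound w x) (ext0_bound v x))) (norm_nonneg _)
      ((abs_nonneg _).trans (hM x))
  have hmw : Measurable (fun x => (V x : ℂ) * (ext0 w x - ext0 v x)) :=
    (Complex.measurable_ofReal.comp hV).mul ((ext0_measurable w).sub (ext0_measurable v))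
  have hi1 : Integrable (fun x => (V x : ℂ) * (ext0 w x - ext0 v x)) :=
    rep_F_integrable _ hmw _ R hbw (by intro x hx; simp [hVR x hx])
  obtain ⟨C, hC⟩ : ∃ C, ∀ x, ‖φ x‖ ≤ C := by
    obtain ⟨C, -, hC⟩ := φ.decay 0 0
    exact ⟨C, fun x => by simpa using hC x⟩
  have hi2 : Integrable (fun x => (V x : ℂ) * (ext0 w x - ext0 v x) * φ x) :=
    hi1.mul_bdd (c := C) φ.continuous.aestronglyMeasurable (Eventually.of_forall hC)
  have hi3 : Integrable (fun x => F x * φ x) :=
    hFi.mul_bdd (c := C) φ.continuous.aestronglyMeasurable (Eventually.of_forall hC)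
  have hi4 : Integrable (fun x => U x * ψ x) := by
    have := MemLp.integrable_mul hU (ψ.memLp 2 volume)
    exact this
  calc ∫ x, (hU.toLp U) x * (-(Δ φ) x + ((V x : ℂ) + (k : ℂ) ^ 2) * φ x)
      = ∫ x, (U x * ψ x + (V x : ℂ) * (ext0 w x - ext0 v x) * φ x) := by
        refine integral_congr_ae ?_
        filter_upwards [hU.coeFn_toLp] with x hx
        rw [hx, ← hVU x, ← hψx x]
        ring
    _ = (∫ x, U x * ψ x) + ∫ x, (V x : ℂ) * (ext0 w x - ext0 v x) * φ x := integral_add hi4 hi2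
    _ = (∫ y, F y * φ y) + ∫ x, (V x : ℂ) * (ext0 w x - ext0 v x) * φ x := by
        have := rep_weak h3 k hk F hFi φ
        simp_rw [hψx] at this
        rw [hUdef, this]
    _ = ∫ x, (F x * φ x + (V x : ℂ) * (ext0 w x - ext0 v x) * φ x) := (integral_add hi3 hi2).symm
    _ = ∫ x, f x * φ x := by
        refine integral_congr_ae ?_
        filter_upwards [hf] with x hx
        rw [hx, hF]
        ring

/-- An entire function which does not vanish identically is nonzero near every point, except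
possibly at the point. -/
lemma eventually_ne_zero_of_entire (D : ℂ → ℂ) (hD : Differentiable ℂ D) (h0 : ∃ z, D z ≠ 0)
    (z0 : ℂ) : ∀ᶠ z in 𝓝[≠] z0, D z ≠ 0 := by
  have han : AnalyticOnNhd ℂ D Set.univ := fun z _ => hD.analyticAt z
  rcases (hD.analyticAt z0).eventually_eq_zero_or_eventually_ne_zero with h | h
  · exfalso
    obtain ⟨z, hz⟩ := h0
    exact hz (han.eqOn_zero_of_preconnected_of_eventuallyEq_zero isPreconnected_univ
      (Set.mem_univ z0) h (Set.mem_univ z))
  · exact h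

/-- The operator on the ball as a convolution on the whole space. -/
lemma op_eq_conv {R : ℝ} (V : E5 → ℝ) (hVR : ∀ x, R < ‖x‖ → V x = 0)
    (O : Ops (muB R) (fun x : closedBall (0 : E5) R => V x))
    (h : ℂ → C(closedBall (0 : E5) R × closedBall (0 : E5) R, ℂ))
    (hh : ∀ z x y, h z (x, y) = gh z (dist x y)) (z : ℂ) (v : C(closedBall (0 : E5) R, ℂ))
    (x : closedBall (0 : E5) R) :
    O.Op (h z) v x = ∫ y, G z ((x : E5) - y) * ((V y : ℂ) * ext0 v y) := by
  rw [O.Op_apply]
  have h3 : ∀ y : closedBall (0 : E5) R,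
      h z (x, y) * ((((dist x y) ^ 3)⁻¹ : ℝ) : ℂ) * (V y : ℂ) * v y
      = (fun y : E5 => G z ((x : E5) - y) * ((V y : ℂ) * ext0 v y)) y := by
    intro y
    rw [hh, show dist x y = dist (x : E5) y from rfl, gh_eq]
    simp only [ext0_coe]
    ring
  simp_rw [h3]
  exact integral_muB (fun y : E5 => G z ((x : E5) - y) * ((V y : ℂ) * ext0 v y))
    (by intro y hy; simp [hVR y hy])

theorem isPole_of_resonance (hMero : MeroInverse) (h3 : Fundamental)
    (hEU : ResolventExistsUnique) (V : E5 → ℝ)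
    (hV : Measurable V) (M R : ℝ) (hM : ∀ x, |V x| ≤ M) (hsupp0 : ∀ x, R < ‖x‖ → V x = 0)
    (z0 : ℂ) (hz0 : IsResonance V z0) : IsPole V z0 := by
  obtain ⟨R', hR', hRR⟩ : ∃ R' : ℝ, 0 < R' ∧ R ≤ R' := ⟨max R 1, by positivity, le_max_left _ _⟩
  have hsupp : ∀ x, R' < ‖x‖ → V x = 0 := fun x hx => hsupp0 x (hRR.trans_lt hx)
  obtain ⟨Cs, hCs, hSp⟩ := spBall R' hR'
  have hfin := hSp.fin
  have hV' : Measurable (fun x : closedBall (0 : E5) R' => V x) := hV.comp measurable_subtype_coe
  have hM' : ∀ x : closedBall (0 : E5) R', |V x| ≤ M := fun x => hM x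
  obtain ⟨Op, hOp⟩ := existsOp _ (muB R') Cs hSp (fun x : closedBall (0 : E5) R' => V x) hV' M hM'
  obtain ⟨Cp, hCp⟩ := existsCp _ (muB R') Cs hSp (fun x : closedBall (0 : E5) R' => V x) hV' M hM'
  obtain ⟨tr, htr⟩ := existsTr _ (muB R') Cs hSp (fun x : closedBall (0 : E5) R' => V x) hV' M hM'
  let O : Ops (muB R') (fun x : closedBall (0 : E5) R' => V x) := ⟨Op, hOp, Cp, hCp, tr, htr⟩
  obtain ⟨h, l, hh, hl, hhd, hld, hh'⟩ := families (closedBall (0 : E5) R')
  have hdec : Decomposition := decomposition hats polyApprox sep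
  have hasy : WAsymp := wAsymp imagBounds
  obtain ⟨C0, s0, hs0, has⟩ := hasy R' hR' V hV M hM hsupp O h l hh hl
  obtain ⟨D, hD1, -, hD3, -, hD5, -⟩ := det_package spBall traceIdentity
    (glue frKer frUnit frInv frDeriv frBound) hdec hasy R' hR' V hV M
    hM hsupp O h l hh hl hhd hld hh'
  obtain ⟨C, n, hloc⟩ := loc_hyp spBall traceIdentity hdec R' hR' V hV M hM O h l hh hl hhd hld hh'
  set A : ℂ → C(closedBall (0 : E5) R', ℂ) →L[ℂ] C(closedBall (0 : E5) R', ℂ) :=
    fun z => O.Op (h z) with hAdef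
  have hA : Differentiable ℂ A := fun z =>
    clm_differentiableAt (X := C(closedBall (0 : E5) R' × closedBall (0 : E5) R', ℂ))
      (Y := C(closedBall (0 : E5) R', ℂ) →L[ℂ] C(closedBall (0 : E5) R', ℂ)) O.Op h z (hhd z)
  have hunit : ∀ z1, ∀ᶠ z in 𝓝[≠] z1, IsUnit (1 + A z) := by
    intro z1
    filter_upwards [eventually_ne_zero_of_entire D hD1 hD3 z1] with z hz
    exact hD5 z hz
  have hmer : ∀ z1, MeromorphicAt (fun z => Ring.inverse (1 + A z)) z1 := by
    intro z1
    obtain ⟨r, hr⟩ := exists_nat_gt (max ‖z1‖ 1)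
    have hr1 : 1 ≤ r := by
      have : (1 : ℝ) < r := (le_max_right _ _).trans_lt hr
      exact_mod_cast this.le
    obtain ⟨N, φ, ψ, b, -, -, hψ, -, -, -, hsm, -⟩ := hloc r hr1
    refine hMero _ A hA z1 N φ ψ hψ ?_ (hunit z1).frequently
    have : ball (0 : ℂ) r ∈ 𝓝 z1 := isOpen_ball.mem_nhds (by
      rw [mem_ball_zero_iff]
      exact (le_max_left _ _).trans_lt hr)
    filter_upwards [this] with z hz
    exact hsm z hz
  -- the kernel vector
  obtain ⟨u, huc, hu0, hux⟩ := hz0
  set uK : C(closedBall (0 : E5) R', ℂ) := ⟨fun x => u x, by fun_prop⟩ with huK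
  have hVu : ∀ y, (V y : ℂ) * ext0 uK y = (V y : ℂ) * u y := by
    intro y
    by_cases hy : R' < ‖y‖
    · simp [hsupp y hy]
    · have hyK : y ∈ closedBall (0 : E5) R' := by
        rw [mem_closedBall_zero_iff]; exact not_lt.1 hy
      rw [show ext0 uK y = uK ⟨y, hyK⟩ from ext0_coe uK ⟨y, hyK⟩]
      rfl
  have hker : uK + A z0 uK = 0 := by
    ext x
    have h1 := hux x
    have h2 : A z0 uK x = ∫ y, G z0 ((x : E5) - y) * ((V y : ℂ) * ext0 uK y) :=
      op_eq_conv V hsupp O h hh z0 uK x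
    simp_rw [hVu] at h2
    rw [ContinuousMap.add_apply, ContinuousMap.zero_apply, h2]
    show u x + _ = 0
    rw [h1]
    simp_rw [mul_assoc]
    exact neg_add_cancel _
  have huK0 : uK ≠ 0 := by
    intro hc
    apply hu0
    funext x
    rw [hux x]
    have h4 : ∀ y, G z0 (x - y) * (V y : ℂ) * u y = 0 := by
      intro y
      have h5 := hVu y
      rw [hc] at h5
      have h6 : ext0 (0 : C(closedBall (0 : E5) R', ℂ)) y = 0 := by
        have := ext0_bound (0 : C(closedBall (0 : E5) R', ℂ)) y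
        rw [norm_zero] at this
        exact norm_le_zero_iff.1 this
      rw [h6, mul_zero] at h5
      rw [mul_assoc, ← h5, mul_zero]
    simp [h4]
  obtain ⟨w, u₀, hu₀, hker₀, hP⟩ := poleOfKernel _ A z0 (hA z0).continuousAt (hmer z0)
    (hunit z0) uK huK0 hker
  -- the functional
  set cu : C(closedBall (0 : E5) R', ℂ) := ⟨fun x => conj (u₀ x), by fun_prop⟩ with hcu
  obtain ⟨P, hPv, -⟩ := exists_functional (muB R') Cs hSp (fun _ => (1 : ℝ)) measurable_const 1
    (by simp) cu
  have hPv' : ∀ v : C(closedBall (0 : E5) R', ℂ), P v = ∫ y, conj (u₀ y) * v y ∂(muB R') := by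
    intro v
    rw [hPv]
    refine integral_congr_ae (Eventually.of_forall fun y => ?_)
    simp [hcu]
  have hPu : P u₀ ≠ 0 := by
    intro hc
    rw [hPv'] at hc
    have h4 : ∫ y, ‖u₀ y‖ ^ 2 ∂(muB R') = 0 := by
      have h5 : ((∫ y, ‖u₀ y‖ ^ 2 ∂(muB R') : ℝ) : ℂ) = 0 := by
        rw [← integral_complex_ofReal, ← hc]
        refine integral_congr_ae (Eventually.of_forall fun y => ?_)
        simp only
        rw [Complex.conj_mul']
        push_cast
        rfl
      exact_mod_cast h5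
    have h6 : Integrable (fun y => ‖u₀ y‖ ^ 2) (muB R') := by
      have hc : Continuous (fun y => ‖u₀ y‖ ^ 2) := by fun_prop
      exact hc.integrable_of_hasCompactSupport (HasCompactSupport.of_compactSpace _)
    have h7 := (integral_eq_zero_iff_of_nonneg (fun y => by positivity) h6).1 h4
    apply hu₀
    have h8 : A z0 u₀ = 0 := by
      ext x
      show O.Op (h z0) u₀ x = 0
      rw [O.Op_apply]
      refine integral_eq_zero_of_ae ?_
      filter_upwards [h7] with y hy
      have : u₀ y = 0 := by simpa using hy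
      rw [this]
      simp
    rw [h8, add_zero] at hker₀
    exact hker₀
  -- the functions `f` and `g`
  have hfm : Measurable (fun x => (V x : ℂ) * ext0 w x) :=
    (Complex.measurable_ofReal.comp hV).mul (ext0_measurable w)
  have hfb : ∀ x, ‖(V x : ℂ) * ext0 w x‖ ≤ M * ‖w‖ := by
    intro x
    simp only [norm_mul, Complex.norm_real, Real.norm_eq_abs]
    exact mul_le_mul (hM x) (ext0_bound w x) (norm_nonneg _) ((abs_nonneg _).trans (hM x))
  have hfL := memLp_two _ hfm _ R' hfb (by intro x hx; simp [hsupp x hx])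
  have hgL := memLp_two _ (ext0_measurable cu) _ R' (ext0_bound cu) (ext0_out cu)
  refine ⟨hfL.toLp _, hgL.toLp _, ⟨R', ?_⟩, ⟨R', ?_⟩, fun z => P w - P (Ring.inverse (1 + A z) w),
    ⟨?_, max s0 (max 1 |M|), ?_⟩, hP P hPu⟩
  · filter_upwards [hfL.coeFn_toLp] with x hx hxR
    rw [hx]
    simp [hsupp x hxR]
  · filter_upwards [hgL.coeFn_toLp] with x hx hxR
    rw [hx]
    exact ext0_out cu x hxR
  · intro z
    have h4 : MeromorphicAt (fun z => P (Ring.inverse (1 + A z) w)) z := by
      obtain ⟨m, hm⟩ := hmer z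
      refine ⟨m, ?_⟩
      have h5 : AnalyticAt ℂ (fun y => P (((y - z) ^ m • Ring.inverse (1 + A y)) w)) z := by
        have h6 : AnalyticAt ℂ (fun y => ((y - z) ^ m • Ring.inverse (1 + A y)) w) z :=
          ((ContinuousLinearMap.apply ℂ (C(closedBall (0 : E5) R', ℂ)) w).analyticAt _).comp hm
        exact (P.analyticAt _).comp h6
      refine h5.congr (Eventually.of_forall fun y => ?_)
      simp only [_root_.smul_apply, map_smul]
    exact (MeromorphicAt.const (P w) z).sub h4
  · intro k hk'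
    have hk : s0 < k := (le_max_left _ _).trans_lt hk'
    have hk0 : 0 < k := hs0.trans hk
    have hk1 : 1 < k := ((le_max_left _ _).trans (le_max_right _ _)).trans_lt hk'
    have hk2 : |M| < k := ((le_max_right _ _).trans (le_max_right _ _)).trans_lt hk'
    have hk3 : M < k ^ 2 := by
      have := le_abs_self M
      nlinarith
    have hU : IsUnit (1 + A (Complex.I * (k : ℂ))) := inv_exists _ (has k hk.le).1
    set v := Ring.inverse (1 + A (Complex.I * (k : ℂ))) w with hv
    have hvw : v + A (Complex.I * (k : ℂ)) v = w := by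
      have h4 := congrArg (fun L : C(closedBall (0 : E5) R', ℂ) →L[ℂ] C(closedBall (0 : E5) R', ℂ)
        => L w) (Ring.mul_inverse_cancel _ hU)
      simpa using h4
    have hvw' : ∀ x : closedBall (0 : E5) R',
        v x + ∫ y, G (Complex.I * (k : ℂ)) ((x : E5) - y) * ((V y : ℂ) * ext0 v y) = w x := by
      intro x
      rw [← op_eq_conv V hsupp O h hh (Complex.I * (k : ℂ)) v x]
      have := congrArg (fun f : C(closedBall (0 : E5) R', ℂ) => f x) hvw
      simpa using this
    obtain ⟨U, hU1, hU2⟩ := isResolvent_of_kernel h3 R' V hV M hM hsupp k hk0 w v hvw'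
      (hfL.toLp _) hfL.coeFn_toLp
    obtain ⟨U', hU', hU''⟩ := hEU V hV M hM k hk0 hk3 (hfL.toLp _)
    refine ⟨U, fun v => ⟨fun hv => ?_, fun hv => hv ▸ hU1⟩, ?_⟩
    · rw [hU'' v hv, hU'' U hU1]
    have h5 : ∫ x, U x * (hgL.toLp _) x = ∫ x, ext0 cu x * (ext0 w x - ext0 v x) := by
      refine integral_congr_ae ?_
      filter_upwards [hU2, hgL.coeFn_toLp] with x hx1 hx2
      rw [hx1, hx2]
      by_cases hx : R' < ‖x‖
      · rw [ext0_out cu x hx]
        simp
      · have hxK : x ∈ closedBall (0 : E5) R' := by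
          rw [mem_closedBall_zero_iff]; exact not_lt.1 hx
        have h6 := hvw' ⟨x, hxK⟩
        rw [show ext0 w x = w ⟨x, hxK⟩ from ext0_coe w ⟨x, hxK⟩,
          show ext0 v x = v ⟨x, hxK⟩ from ext0_coe v ⟨x, hxK⟩, ← h6, add_sub_cancel_left]
        ring
    rw [h5, ← integral_muB (R := R') (fun x => ext0 cu x * (ext0 w x - ext0 v x))
      (by intro x hx; rw [ext0_out cu x hx, zero_mul])]
    simp only [ext0_coe]
    have h7 : ∀ y : closedBall (0 : E5) R', cu y = conj (u₀ y) := fun y => rfl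
    simp_rw [h7]
    have h8 := hPv' (w - v)
    rw [map_sub] at h8
    rw [h8]
    rfl

end Pool.Agent.Work.MP_f2af60_mp
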