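import Pool.Agent.Work.MP_f2af60_mp.Defs

/-!
# MP_f2af60_mp, dimension five: the statements of the building blocks (as propositions)
-/

namespace Pool.Agent.Work.MP_f2af60_mp

open MeasureTheory Metric Filter Topology

/-- Item 1: the closed ball satisfies `Sp`. -/
def SpBall : Prop := ∀ R : ℝ, 0 < R → ∃ C : ℝ, 0 < C ∧ Sp (muB R) C

/-- Item 2: the operator with kernel `h(x,y) |x-y|⁻³ V(y)`. -/
def ExistsOp : Prop :=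
  ∀ (K : Type) [MetricSpace K] [CompactSpace K] [MeasurableSpace K] [BorelSpace K]
    (μ : Measure K) (C : ℝ), Sp μ C → ∀ V : K → ℝ, Measurable V → ∀ M : ℝ, (∀ x, |V x| ≤ M) →
    ∃ Op : C(K × K, ℂ) →L[ℂ] (C(K, ℂ) →L[ℂ] C(K, ℂ)), ∀ h f x, Op h f x =
      ∫ y, h (x, y) * ((((dist x y) ^ 3)⁻¹ : ℝ) : ℂ) * (V y : ℂ) * f y ∂μ

/-- Item 3: the composed kernel, with a kernel with singularity `|x-y|⁻¹` on the right. -/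
def ExistsCp : Prop :=
  ∀ (K : Type) [MetricSpace K] [CompactSpace K] [MeasurableSpace K] [BorelSpace K]
    (μ : Measure K) (C : ℝ), Sp μ C → ∀ V : K → ℝ, Measurable V → ∀ M : ℝ, (∀ x, |V x| ≤ M) →
    ∃ Cp : C(K × K, ℂ) →L[ℂ] C(K × K, ℂ) →L[ℂ] C(K × K, ℂ), ∀ h l x y, Cp h l (x, y) =
      ∫ z, h (x, z) * ((((dist x z) ^ 3)⁻¹ : ℝ) : ℂ) * (V z : ℂ) *
        (l (z, y) * (((dist z y)⁻¹ : ℝ) : ℂ)) ∂μ

/-- Item 4: the trace pairing. -/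
def ExistsTr : Prop :=
  ∀ (K : Type) [MetricSpace K] [CompactSpace K] [MeasurableSpace K] [BorelSpace K]
    (μ : Measure K) (C : ℝ), Sp μ C → ∀ V : K → ℝ, Measurable V → ∀ M : ℝ, (∀ x, |V x| ≤ M) →
    ∃ tr : (C(K, ℂ) →L[ℂ] C(K, ℂ)) →L[ℂ] C(K × K, ℂ) →L[ℂ] ℂ, ∀ S k, tr S k =
      ∫ y, (V y : ℂ) * (S (slice k y)) y ∂μ

/-- Item 5: the trace identity. -/
def TraceIdentity : Prop :=
  ∀ (K : Type) [MetricSpace K] [CompactSpace K] [MeasurableSpace K] [BorelSpace K]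
    (μ : Measure K) (C : ℝ), Sp μ C → ∀ V : K → ℝ, Measurable V → ∀ M : ℝ, (∀ x, |V x| ≤ M) →
    ∀ (O : Ops μ V) (N : ℕ) (h l h₁ l₁ l₂ : C(K × K, ℂ)) (φ ψ : Fin N → C(K, ℂ))
    (c c' : Fin N → ℂ),
    (∀ x y, h (x, y) - h₁ (x, y) = ((dist x y : ℝ) : ℂ) ^ 3 * ∑ k, c k * φ k x * ψ k y) →
    (∀ x y, l (x, y) - l₁ (x, y) = ((dist x y : ℝ) : ℂ) * ∑ k, c' k * φ k x * ψ k y) →
    (∀ y, ∑ k, c' k * φ k y * ψ k y = 0) →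
    (∀ x y, l₂ (x, y) = ((dist x y : ℝ) : ℂ) ^ 2 * l₁ (x, y)) →
    ∀ (T T₁ : C(K, ℂ) →L[ℂ] C(K, ℂ)), T * (1 + O.Op h) = 1 → (1 + O.Op h) * T = 1 →
    T₁ * (1 + O.Op h₁) = 1 → (1 + O.Op h₁) * T₁ = 1 →
    ∀ (Ψ : Fin N → (C(K, ℂ) →L[ℂ] ℂ)), (∀ k u, Ψ k u = ∫ y, ψ k y * (V y : ℂ) * u y ∂μ) →
    ∑ k, c' k * Ψ k (T (φ k)) - ∑ k, c k * Ψ k (T₁ (O.Op l₂ (T (φ k)))) =
      -O.tr T (O.Cp h l) + O.tr T₁ (O.Cp h₁ l₁)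

/-- Item 6a: a zero of the perturbation determinant gives a kernel vector. -/
def FrKer : Prop :=
  ∀ (X : Type) [NormedAddCommGroup X] [NormedSpace ℂ X] [CompleteSpace X] (N : ℕ)
    (φ : Fin N → X) (ψ : Fin N → (X →L[ℂ] ℂ)) (A₁ T₁ : X →L[ℂ] X),
    T₁ * (1 + A₁) = 1 → (1 + A₁) * T₁ = 1 → (1 + FRmat φ ψ T₁).det = 0 →
    ∃ u : X, u ≠ 0 ∧ u + (A₁ + FRop φ ψ) u = 0

/-- Item 6b: a nonzero perturbation determinant gives an inverse. -/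
def FrUnit : Prop :=
  ∀ (X : Type) [NormedAddCommGroup X] [NormedSpace ℂ X] [CompleteSpace X] (N : ℕ)
    (φ : Fin N → X) (ψ : Fin N → (X →L[ℂ] ℂ)) (A₁ T₁ : X →L[ℂ] X),
    T₁ * (1 + A₁) = 1 → (1 + A₁) * T₁ = 1 → (1 + FRmat φ ψ T₁).det ≠ 0 →
    ∃ T : X →L[ℂ] X, T * (1 + (A₁ + FRop φ ψ)) = 1 ∧ (1 + (A₁ + FRop φ ψ)) * T = 1

/-- Item 6c: the inverse of the perturbation matrix. -/
def FrInv : Prop :=
  ∀ (X : Type) [NormedAddCommGroup X] [NormedSpace ℂ X] [CompleteSpace X] (N : ℕ)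
    (φ : Fin N → X) (ψ : Fin N → (X →L[ℂ] ℂ)) (A₁ T₁ T : X →L[ℂ] X),
    T₁ * (1 + A₁) = 1 → (1 + A₁) * T₁ = 1 →
    T * (1 + (A₁ + FRop φ ψ)) = 1 → (1 + (A₁ + FRop φ ψ)) * T = 1 →
    (1 + FRmat φ ψ T₁) * (1 - FRmat φ ψ T) = 1

/-- Item 6d: the logarithmic derivative of the perturbation determinant. -/
def FrDeriv : Prop :=
  ∀ (X : Type) [NormedAddCommGroup X] [NormedSpace ℂ X] [CompleteSpace X] (N : ℕ)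
    (φ : Fin N → X) (ψ : Fin N → ℂ → (X →L[ℂ] ℂ)) (A₁ T₁ : ℂ → (X →L[ℂ] X)) (l : ℂ)
    (ψ' : Fin N → (X →L[ℂ] ℂ)) (A₁' : X →L[ℂ] X) (T : X →L[ℂ] X),
    (∀ᶠ z in 𝓝 l, T₁ z * (1 + A₁ z) = 1) → (∀ᶠ z in 𝓝 l, (1 + A₁ z) * T₁ z = 1) →
    (∀ k, HasDerivAt (ψ k) (ψ' k) l) → HasDerivAt A₁ A₁' l →
    T * (1 + (A₁ l + FRop φ (fun k => ψ k l))) = 1 →
    (1 + (A₁ l + FRop φ (fun k => ψ k l))) * T = 1 →
    HasDerivAt (fun z => (1 + FRmat φ (fun k => ψ k z) (T₁ z)).det)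
      ((1 + FRmat φ (fun k => ψ k l) (T₁ l)).det *
        (∑ k, ψ' k (T (φ k)) - ∑ k, ψ k l (T₁ l (A₁' (T (φ k)))))) l

/-- Item 6e: a crude bound for determinants. -/
def FrBound : Prop :=
  ∀ (N : ℕ) (M : Matrix (Fin N) (Fin N) ℂ) (b : ℝ), (∀ i j, ‖M i j‖ ≤ b) →
    ‖(1 + M).det‖ ≤ N.factorial * (1 + b) ^ N

/-- Item 7: gluing the determinants of the discs to an entire function of finite order. -/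
def Glue : Prop :=
  ∀ (X : Type) [NormedAddCommGroup X] [NormedSpace ℂ X] [CompleteSpace X]
    (A : ℂ → X →L[ℂ] X), Differentiable ℂ A → ∀ (w : ℂ → ℂ) (l0 : ℂ) (T0 : X →L[ℂ] X),
    T0 * (1 + A l0) = 1 → (1 + A l0) * T0 = 1 → ∀ (C : ℝ) (n : ℕ),
    (∀ r : ℕ, 1 ≤ r → ∃ (N : ℕ) (φ : Fin N → X) (ψ : Fin N → ℂ → (X →L[ℂ] ℂ)) (b : ℂ → ℂ),
      (N : ℝ) ≤ C * (r : ℝ) ^ n ∧ (∀ k, ‖φ k‖ ≤ Real.exp (C * (r : ℝ) ^ n)) ∧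
      (∀ k, Differentiable ℂ (ψ k)) ∧
      (∀ k, ∀ l ∈ ball (0 : ℂ) r, ‖ψ k l‖ ≤ Real.exp (C * (r : ℝ) ^ n)) ∧
      DifferentiableOn ℂ b (ball 0 r) ∧ (∀ l ∈ ball (0 : ℂ) r, ‖b l‖ ≤ C * (r : ℝ) ^ n) ∧
      (∀ l ∈ ball (0 : ℂ) r, ‖A l - FRop φ (fun k => ψ k l)‖ ≤ 1 / 2) ∧
      (∀ l ∈ ball (0 : ℂ) r, ∀ T T₁ A₁' : X →L[ℂ] X, T * (1 + A l) = 1 → (1 + A l) * T = 1 →
        T₁ * (1 + (A l - FRop φ (fun k => ψ k l))) = 1 →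
        (1 + (A l - FRop φ (fun k => ψ k l))) * T₁ = 1 →
        HasDerivAt (fun z => A z - FRop φ (fun k => ψ k z)) A₁' l →
        ∑ k, (deriv (ψ k) l) (T (φ k)) - ∑ k, ψ k l (T₁ (A₁' (T (φ k)))) = w l - b l)) →
    ∃ D : ℂ → ℂ, Differentiable ℂ D ∧
      (∃ (C' : ℝ) (m : ℕ), ∀ l, ‖D l‖ ≤ Real.exp (C' * (1 + ‖l‖) ^ m)) ∧ D l0 = 1 ∧
      (∀ l, D l = 0 → ∃ u : X, u ≠ 0 ∧ u + A l u = 0) ∧
      (∀ l, D l ≠ 0 → IsUnit (1 + A l)) ∧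
      (∀ l, D l ≠ 0 → deriv D l = w l * D l)

/-- Item 8: a separable cutoff away from the diagonal. -/
def Hats : Prop :=
  ∀ R c0 : ℝ, 0 < R → 0 < c0 →
    ∃ (C c1 : ℝ) (n : ℕ), 0 < c1 ∧ c1 ≤ c0 ∧ ∀ r : ℕ, 1 ≤ r →
      ∃ (N : ℕ) (a b : Fin N → C(E5, ℝ)), (N : ℝ) ≤ C * (r : ℝ) ^ n ∧
        (∀ k x, 0 ≤ a k x ∧ a k x ≤ 1) ∧ (∀ k x, 0 ≤ b k x ∧ b k x ≤ 1) ∧
        (∀ x ∈ closedBall (0 : E5) R, ∀ y ∈ closedBall (0 : E5) R,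
          0 ≤ ∑ k, a k x * b k y ∧ ∑ k, a k x * b k y ≤ 1 ∧
          (c0 / r ≤ dist x y → ∑ k, a k x * b k y = 1) ∧
          (dist x y < c1 / r → ∑ k, a k x * b k y = 0))

/-- Item 9: polynomial approximation of the kernel away from zero. -/
def PolyApprox : Prop :=
  ∀ c c1 e : ℝ, 0 < c → 0 < c1 → 0 < e →
    ∃ (C : ℝ) (n : ℕ), ∀ r : ℕ, 1 ≤ r → ∃ (D : ℕ) (q : ℕ → ℂ → ℂ),
      (D : ℝ) ≤ C * (r : ℝ) ^ n ∧ (∀ d, Differentiable ℂ (q d)) ∧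
      (∀ d, ∀ l : ℂ, ‖l‖ ≤ r → ‖q d l‖ ≤ Real.exp (C * (r : ℝ) ^ n)) ∧
      ∀ l : ℂ, ‖l‖ ≤ r → ∀ s : ℝ, c1 / r ≤ s → s ^ 2 ≤ c →
        ‖gh l s / (s : ℂ) ^ 3 -
          ∑ d ∈ Finset.range D, q d l * ((1 - s ^ 2 / c : ℝ) : ℂ) ^ d‖ ≤ e

/-- Item 10: separation of variables for the powers of `1 - |x-y|²/c`. -/
def Sep : Prop :=
  ∀ R c : ℝ, 0 < R → 0 < c →
    ∃ C : ℝ, 1 ≤ C ∧ ∀ d : ℕ, ∃ (N : ℕ) (p q : Fin N → C(E5, ℝ)),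
      N ≤ (d + 1) ^ 7 ∧
      (∀ k, ∀ x ∈ closedBall (0 : E5) R, |p k x| ≤ C ^ d ∧ |q k x| ≤ C ^ d) ∧
      ∀ x y : E5, (1 - dist x y ^ 2 / c) ^ d = ∑ k, p k x * q k y

/-- Item 11: the decomposition of the kernel into a small part and a finite rank part. -/
def Decomposition : Prop :=
  ∀ R e : ℝ, 0 < R → 0 < e →
    ∃ (C : ℝ) (n : ℕ), ∀ r : ℕ, 1 ≤ r →
      ∃ (N : ℕ) (φ ψ : Fin N → C(closedBall (0 : E5) R, ℂ)) (c : Fin N → ℂ → ℂ),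
        (N : ℝ) ≤ C * (r : ℝ) ^ n ∧ (∀ k, ‖φ k‖ ≤ Real.exp (C * (r : ℝ) ^ n)) ∧
        (∀ k, ‖ψ k‖ ≤ Real.exp (C * (r : ℝ) ^ n)) ∧ (∀ k, Differentiable ℂ (c k)) ∧
        (∀ k, ∀ l ∈ ball (0 : ℂ) r, ‖c k l‖ ≤ Real.exp (C * (r : ℝ) ^ n)) ∧
        (∀ k x, φ k x * ψ k x = 0) ∧
        (∀ l ∈ ball (0 : ℂ) r, ∀ x y : closedBall (0 : E5) R,
          ‖gh l (dist x y) - ((dist x y : ℝ) : ℂ) ^ 3 * ∑ k, c k l * φ k x * ψ k y‖ ≤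
            (if dist x y < e then 1 else 0) + e * dist x y ^ 3) ∧
        (∀ l ∈ ball (0 : ℂ) r, ∀ x y : closedBall (0 : E5) R,
          ‖gl l (dist x y) - ((dist x y : ℝ) : ℂ) * ∑ k, deriv (c k) l * φ k x * ψ k y‖ ≤
            C * r)

/-- Item 12: entire functions of finite order with finitely many zeros. -/
def PolyExp : Prop :=
  ∀ D : ℂ → ℂ, Differentiable ℂ D → (∃ z, D z ≠ 0) → ∀ (C : ℝ) (m : ℕ),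
    (∀ z, ‖D z‖ ≤ Real.exp (C * (1 + ‖z‖) ^ m)) → {z | D z = 0}.Finite →
    ∃ P g : Polynomial ℂ, P ≠ 0 ∧ ∀ z, D z = P.eval z * Complex.exp (g.eval z)

/-- Item 13: the final complex analysis step. -/
def FinalComplex : Prop :=
  ∀ (D w : ℂ → ℂ), Differentiable ℂ D → ∀ (C : ℝ) (m : ℕ),
    (∀ z, ‖D z‖ ≤ Real.exp (C * (1 + ‖z‖) ^ m)) → {z | D z = 0}.Finite →
    (∀ z, D z ≠ 0 → deriv D z = w z * D z) → (D 0 ≠ 0 → w 0 = 0) →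
    ∀ (S : ℝ → ℝ) (S0 s0 : ℝ), (∀ s ≥ s0, S s ≤ S0) → Tendsto S atTop (𝓝 S0) →
    (∀ s ≥ s0, D (Complex.I * (s : ℂ)) ≠ 0) →
    (∀ s ≥ s0, ‖Complex.I * w (Complex.I * (s : ℂ)) - (S s : ℂ)‖ ≤ C / s ^ 2) →
    S0 = 0

/-- Item 14: the kernel `kk s` is an approximate identity times a constant. -/
def KkIntegral : Prop :=
  ∀ s : ℝ, 0 < s → Integrable (kk s) ∧ ∫ z, kk s z = ∫ z, kk 1 z ∧ 0 < ∫ z, kk 1 z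

/-- Item 15: upper bound for the second order term. -/
def SSLe : Prop :=
  ∀ V : E5 → ℝ, Measurable V → ∀ M R : ℝ, (∀ x, |V x| ≤ M) → (∀ x, R < ‖x‖ → V x = 0) →
    ∀ s : ℝ, 0 < s → SS V s ≤ (∫ z, kk 1 z) * ∫ x, V x ^ 2

/-- Item 16: the limit of the second order term. -/
def SSTendsto : Prop :=
  ∀ V : E5 → ℝ, Measurable V → ∀ M R : ℝ, (∀ x, |V x| ≤ M) → (∀ x, R < ‖x‖ → V x = 0) →
    Tendsto (SS V) atTop (𝓝 ((∫ z, kk 1 z) * ∫ x, V x ^ 2))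

/-- Item 17: bounds on the imaginary axis. -/
def ImagBounds : Prop :=
  ∃ C : ℝ, ∀ s : ℝ, 0 < s →
    (Integrable (fun x : E5 => G (Complex.I * s) x) ∧
      ∫ x : E5, ‖G (Complex.I * s) x‖ ≤ C / s ^ 2) ∧
    (∀ x y : E5, Integrable (fun z : E5 => ‖G (Complex.I * s) (x - z)‖ *
        (‖gl (Complex.I * s) ‖z - y‖‖ * ‖z - y‖⁻¹)) ∧
      ∫ z : E5, ‖G (Complex.I * s) (x - z)‖ *
        (‖gl (Complex.I * s) ‖z - y‖‖ * ‖z - y‖⁻¹) ≤ C)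

/-- Item 18: the numerators as entire families in `C(K × K, ℂ)`. -/
def Families : Prop :=
  ∀ (K : Type) [MetricSpace K] [CompactSpace K],
    ∃ h l : ℂ → C(K × K, ℂ), (∀ z x y, h z (x, y) = gh z (dist x y)) ∧
      (∀ z x y, l z (x, y) = gl z (dist x y)) ∧ Differentiable ℂ h ∧ Differentiable ℂ l ∧
      ∀ z x y, deriv h z (x, y) = ((dist x y : ℝ) : ℂ) ^ 2 * gl z (dist x y)

/-- Item 19: asymptotics of the logarithmic derivative on the imaginary axis. -/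
def WAsymp : Prop :=
  ∀ R : ℝ, 0 < R → ∀ V : E5 → ℝ, Measurable V → ∀ M : ℝ, (∀ x, |V x| ≤ M) →
    (∀ x, R < ‖x‖ → V x = 0) →
    ∀ (O : Ops (muB R) (fun x : closedBall (0 : E5) R => V x))
    (h l : ℂ → C(closedBall (0 : E5) R × closedBall (0 : E5) R, ℂ)),
    (∀ z x y, h z (x, y) = gh z (dist x y)) → (∀ z x y, l z (x, y) = gl z (dist x y)) →
    ∃ C s0 : ℝ, 0 < s0 ∧ ∀ s ≥ s0, ‖O.Op (h (Complex.I * (s : ℂ)))‖ ≤ 1 / 2 ∧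
      ∀ T : C(closedBall (0 : E5) R, ℂ) →L[ℂ] C(closedBall (0 : E5) R, ℂ),
        T * (1 + O.Op (h (Complex.I * (s : ℂ)))) = 1 →
        (1 + O.Op (h (Complex.I * (s : ℂ)))) * T = 1 →
        ‖Complex.I * (-O.tr T (O.Cp (h (Complex.I * (s : ℂ))) (l (Complex.I * (s : ℂ))))) -
          (SS V s : ℂ)‖ ≤ C / s ^ 2

/-- Item 20: a kernel vector of `1 + A(l)` gives a resonance. -/
def KerResonance : Prop :=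
  ∀ R : ℝ, 0 < R → ∀ V : E5 → ℝ, Measurable V → ∀ M : ℝ, (∀ x, |V x| ≤ M) →
    (∀ x, R < ‖x‖ → V x = 0) → ∀ l : ℂ, ∀ u : C(closedBall (0 : E5) R, ℂ), u ≠ 0 →
    (∀ x : closedBall (0 : E5) R, u x +
      ∫ y, gh l (dist x y) * ((((dist x y) ^ 3)⁻¹ : ℝ) : ℂ) * (V y : ℂ) * u y ∂(muB R) = 0) →
    IsResonance V l

end Pool.Agent.Work.MP_f2af60_mp
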