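import Pool.Agent.Work.MP_f2af60_mp.Stmts

/-!
# MP_f2af60_mp, items 2 and 3: the weakly singular kernel operators
-/

namespace Pool.Agent.Work.MP_f2af60_mp

open MeasureTheory Metric Filter Topology

section Trunc

variable {K : Type*} [MetricSpace K] [CompactSpace K] [MeasurableSpace K] [BorelSpace K]
    {μ : Measure K} {C : ℝ}

/-- The integrals of the fourth inverse power are uniformly bounded. -/
lemma Sp.bound4 (hS : Sp μ C) : ∃ D : ℝ, 0 ≤ D ∧ ∀ x, ∫ y, ((dist x y) ^ 4)⁻¹ ∂μ ≤ D := by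
  refine ⟨max 0 (C * (diam (Set.univ : Set K) + 1)), le_max_left _ _, fun x => ?_⟩
  have h := hS.small x (diam (Set.univ : Set K) + 1)
    (by have := diam_nonneg (s := (Set.univ : Set K)); linarith)
  have hball : ball x (diam (Set.univ : Set K) + 1) = Set.univ := by
    ext y
    simp only [mem_ball, Set.mem_univ, iff_true]
    have := dist_le_diam_of_mem (isBounded_of_compactSpace : Bornology.IsBounded
      (Set.univ : Set K)) (Set.mem_univ y) (Set.mem_univ x)
    linarith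
  rw [hball, setIntegral_univ] at h
  exact h.trans (le_max_right _ _)

/-- Continuity of a parameter integral by truncation. -/
lemma continuous_integral_of_trunc {P : Type*} [TopologicalSpace P] [FirstCountableTopology P]
    [IsFiniteMeasure μ] (F : P → K → ℂ) (G : ℝ → P → K → ℂ) (D : ℝ)
    (hGm : ∀ e > 0, ∀ p, AEStronglyMeasurable (G e p) μ)
    (hGb : ∀ e > 0, ∃ B : ℝ, ∀ p z, ‖G e p z‖ ≤ B)
    (hGc : ∀ e > 0, ∀ z, Continuous fun p => G e p z)
    (hd : ∀ e > 0, e ≤ 1 → ∀ p, ‖∫ z, F p z ∂μ - ∫ z, G e p z ∂μ‖ ≤ D * e) :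
    Continuous fun p => ∫ z, F p z ∂μ := by
  have hc : ∀ e > 0, Continuous fun p => ∫ z, G e p z ∂μ := by
    intro e he
    obtain ⟨B, hB⟩ := hGb e he
    refine continuous_of_dominated (bound := fun _ => B) (hGm e he) ?_ (integrable_const B) ?_
    · exact fun p => Filter.Eventually.of_forall (hB p)
    · exact Filter.Eventually.of_forall (hGc e he)
  refine continuous_of_uniform_approx_of_continuous fun u hu => ?_
  obtain ⟨ε, hε, hu⟩ := Metric.mem_uniformity_dist.1 hu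
  have hD : 0 < |D| + 1 := by positivity
  have he : 0 < min 1 (ε / (2 * (|D| + 1))) := by positivity
  refine ⟨_, hc _ he, fun p => hu ?_⟩
  rw [dist_eq_norm]
  refine (hd _ he (min_le_left _ _) p).trans_lt ?_
  calc D * min 1 (ε / (2 * (|D| + 1))) ≤ (|D| + 1) * (ε / (2 * (|D| + 1))) := by
        apply mul_le_mul _ (min_le_right _ _) he.le hD.le
        linarith [le_abs_self D]
    _ = ε / 2 := by field_simp
    _ < ε := by linarith

/-- Comparison of two integrals. -/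
lemma integral_diff_le {F G : K → ℂ} {k : K → ℝ} {D : ℝ} (hF : Integrable F μ)
    (hG : Integrable G μ) (hk : Integrable k μ) (h : ∀ᵐ z ∂μ, ‖F z - G z‖ ≤ k z)
    (hkD : ∫ z, k z ∂μ ≤ D) : ‖∫ z, F z ∂μ - ∫ z, G z ∂μ‖ ≤ D := by
  rw [← integral_sub hF hG]
  exact (norm_integral_le_of_norm_le hk h).trans hkD

lemma inv3_le (a : ℝ) (ha : 0 ≤ a) : (a ^ 3)⁻¹ ≤ 1 + (a ^ 4)⁻¹ := by
  rcases ha.eq_or_lt with h | h
  · rw [← h]; norm_num
  · rcases le_total 1 a with h1 | h1
    · have : (a ^ 3)⁻¹ ≤ 1 := inv_le_one_of_one_le₀ (one_le_pow₀ h1)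
      have : 0 ≤ (a ^ 4)⁻¹ := by positivity
      linarith
    · have : (a ^ 3)⁻¹ ≤ (a ^ 4)⁻¹ := by
        apply inv_anti₀ (by positivity)
        exact pow_le_pow_of_le_one h.le h1 (by norm_num)
      linarith

lemma inv31_le (a b : ℝ) (ha : 0 ≤ a) (hb : 0 ≤ b) :
    (a ^ 3)⁻¹ * b⁻¹ ≤ (a ^ 4)⁻¹ + (b ^ 4)⁻¹ := by
  rcases ha.eq_or_lt with h | h
  · rw [← h]; simp; positivity
  rcases hb.eq_or_lt with h' | h'
  · rw [← h']; simp; positivity
  rcases le_total a b with hab | hab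
  · have h1 : (a ^ 3)⁻¹ * b⁻¹ ≤ (a ^ 4)⁻¹ := by
      rw [← mul_inv]
      apply inv_anti₀ (by positivity)
      calc a ^ 4 = a ^ 3 * a := by ring
        _ ≤ a ^ 3 * b := by gcongr
    have : 0 ≤ (b ^ 4)⁻¹ := by positivity
    linarith
  · have h1 : (a ^ 3)⁻¹ * b⁻¹ ≤ (b ^ 4)⁻¹ := by
      rw [← mul_inv]
      apply inv_anti₀ (by positivity)
      calc b ^ 4 = b ^ 3 * b := by ring
        _ ≤ a ^ 3 * b := by gcongr
    have : 0 ≤ (a ^ 4)⁻¹ := by positivity
    linarith

/-- Truncation error for the third inverse power. -/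
lemma trunc3 (a e : ℝ) (ha : 0 < a) (he : 0 < e) (he1 : e ≤ 1) :
    |(a ^ 3)⁻¹ - ((max a e) ^ 3)⁻¹| ≤ if a < e then (a ^ 4)⁻¹ else 0 := by
  split_ifs with h
  · rw [max_eq_right h.le, abs_of_nonneg]
    · have h1 : (a ^ 3)⁻¹ ≤ (a ^ 4)⁻¹ := by
        apply inv_anti₀ (by positivity)
        exact pow_le_pow_of_le_one ha.le (h.le.trans he1) (by norm_num)
      have : 0 ≤ (e ^ 3)⁻¹ := by positivity
      linarith
    · have : (e ^ 3)⁻¹ ≤ (a ^ 3)⁻¹ := by
        apply inv_anti₀ (by positivity)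
        gcongr
      linarith
  · rw [max_eq_left (not_lt.1 h)]; simp

/-- Truncation error for the product. -/
lemma trunc31 (a b e : ℝ) (ha : 0 < a) (hb : 0 < b) (he : 0 < e) :
    |(a ^ 3)⁻¹ * b⁻¹ - ((max a e) ^ 3)⁻¹ * (max b e)⁻¹| ≤
      (if a < e then (a ^ 4)⁻¹ else 0) + (if b < e then (b ^ 4)⁻¹ else 0) := by
  have h0 : ((max a e) ^ 3)⁻¹ * (max b e)⁻¹ ≤ (a ^ 3)⁻¹ * b⁻¹ := by
    have h1 : ((max a e) ^ 3)⁻¹ ≤ (a ^ 3)⁻¹ :=
      inv_anti₀ (by positivity) (pow_le_pow_left₀ ha.le (le_max_left _ _) 3)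
    have h2 : (max b e)⁻¹ ≤ b⁻¹ := inv_anti₀ hb (le_max_left _ _)
    exact mul_le_mul h1 h2 (by positivity) (by positivity)
  have h00 : 0 ≤ ((max a e) ^ 3)⁻¹ * (max b e)⁻¹ := by positivity
  rw [abs_of_nonneg (by linarith)]
  have hA : 0 ≤ (if a < e then (a ^ 4)⁻¹ else 0) := by split_ifs <;> positivity
  have hB : 0 ≤ (if b < e then (b ^ 4)⁻¹ else 0) := by split_ifs <;> positivity
  by_cases hab : a < e ∨ b < e
  · rcases le_total a b with h | h
    · have hae : a < e := by rcases hab with h' | h'; exacts [h', h.trans_lt h']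
      rw [if_pos hae]
      have h1 : (a ^ 3)⁻¹ * b⁻¹ ≤ (a ^ 4)⁻¹ := by
        rw [← mul_inv]
        apply inv_anti₀ (by positivity)
        calc a ^ 4 = a ^ 3 * a := by ring
          _ ≤ a ^ 3 * b := by gcongr
      linarith
    · have hbe : b < e := by rcases hab with h' | h'; exacts [h.trans_lt h', h']
      rw [if_pos hbe]
      have h1 : (a ^ 3)⁻¹ * b⁻¹ ≤ (b ^ 4)⁻¹ := by
        rw [← mul_inv]
        apply inv_anti₀ (by positivity)
        calc b ^ 4 = b ^ 3 * b := by ring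
          _ ≤ a ^ 3 * b := by gcongr
      linarith
  · rw [not_or, not_lt, not_lt] at hab
    rw [max_eq_left hab.1, max_eq_left hab.2, sub_self]
    linarith

lemma Sp.ae_ne (hS : Sp μ C) (x : K) : ∀ᵐ z ∂μ, z ≠ x := by
  have := hS.noat
  have : μ {x} = 0 := measure_singleton x
  rw [ae_iff]
  simp [this]

lemma Sp.small' (hS : Sp μ C) (x : K) {e : ℝ} (he : 0 < e) :
    Integrable (fun z => if dist x z < e then ((dist x z) ^ 4)⁻¹ else 0) μ ∧
      ∫ z, (if dist x z < e then ((dist x z) ^ 4)⁻¹ else 0) ∂μ ≤ C * e := by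
  have hE : (fun z => if dist x z < e then ((dist x z) ^ 4)⁻¹ else 0) =
      (ball x e).indicator fun z => ((dist x z) ^ 4)⁻¹ := by
    funext z
    simp only [Set.indicator, mem_ball, dist_comm z x]
  constructor
  · rw [hE]
    exact (hS.int x).indicator measurableSet_ball
  · rw [hE, integral_indicator measurableSet_ball]
    exact hS.small x e he

end Trunc

end Pool.Agent.Work.MP_f2af60_mp
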